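import Pool.Agent.Work.MP_d266e7_co.P24B.KMain
import Pool.Agent.Work.MP_d266e7_co.P24B.KD1_0
import Pool.Agent.Work.MP_d266e7_co.P24B.KD1_1
import Pool.Agent.Work.MP_d266e7_co.P24B.KD1_2
import Pool.Agent.Work.MP_d266e7_co.P24B.KD1_3
import Pool.Agent.Work.MP_d266e7_co.P24B.KD1_4
import Pool.Agent.Work.MP_d266e7_co.P24B.KD1_5
import Pool.Agent.Work.MP_d266e7_co.P24B.KD1_6
import Pool.Agent.Work.MP_d266e7_co.P24B.KD1_7
import Pool.Agent.Work.MP_d266e7_co.P24B.KD1_8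
import Pool.Agent.Work.MP_d266e7_co.P24B.KD1_9
import Pool.Agent.Work.MP_d266e7_co.P24B.KD1_10
import Pool.Agent.Work.MP_d266e7_co.P24B.KD1_11

/-!
The case of 1 extra host.
-/

namespace Pool.Agent.Work.MP_d266e7_co.C5.P24

variable {V : Type} [DecidableEq V]

theorem kv1 [Infinite V] : ∀ l, l < 1719 → Val V 1 kls1 l := by
  have h0 : ∀ l, l < 0 → Val V 1 kls1 l := fun l hl => absurd hl (Nat.not_lt_zero l)
  have h1 := chkR_val _ 0 24 h0 kc1_0 rfl
  have h2 := chkR_val _ 24 45 h1 kc1_1 rfl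
  have h3 := chkR_val _ 45 70 h2 kc1_2 rfl
  have h4 := chkR_val _ 70 96 h3 kc1_3 rfl
  have h5 := chkR_val _ 96 120 h4 kc1_4 rfl
  have h6 := chkR_val _ 120 141 h5 kc1_5 rfl
  have h7 := chkR_val _ 141 180 h6 kc1_6 rfl
  have h8 := chkR_val _ 180 199 h7 kc1_7 rfl
  have h9 := chkR_val _ 199 223 h8 kc1_8 rfl
  have h10 := chkR_val _ 223 244 h9 kc1_9 rfl
  have h11 := chkR_val _ 244 272 h10 kc1_10 rfl
  have h12 := chkR_val _ 272 294 h11 kc1_11 rfl
  have h13 := chkR_val _ 294 320 h12 kc1_12 rfl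
  have h14 := chkR_val _ 320 339 h13 kc1_13 rfl
  have h15 := chkR_val _ 339 360 h14 kc1_14 rfl
  have h16 := chkR_val _ 360 386 h15 kc1_15 rfl
  have h17 := chkR_val _ 386 413 h16 kc1_16 rfl
  have h18 := chkR_val _ 413 440 h17 kc1_17 rfl
  have h19 := chkR_val _ 440 468 h18 kc1_18 rfl
  have h20 := chkR_val _ 468 497 h19 kc1_19 rfl
  have h21 := chkR_val _ 497 527 h20 kc1_20 rfl
  have h22 := chkR_val _ 527 560 h21 kc1_21 rfl
  have h23 := chkR_val _ 560 586 h22 kc1_22 rfl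
  have h24 := chkR_val _ 586 609 h23 kc1_23 rfl
  have h25 := chkR_val _ 609 626 h24 kc1_24 rfl
  have h26 := chkR_val _ 626 652 h25 kc1_25 rfl
  have h27 := chkR_val _ 652 670 h26 kc1_26 rfl
  have h28 := chkR_val _ 670 689 h27 kc1_27 rfl
  have h29 := chkR_val _ 689 705 h28 kc1_28 rfl
  have h30 := chkR_val _ 705 730 h29 kc1_29 rfl
  have h31 := chkR_val _ 730 750 h30 kc1_30 rfl
  have h32 := chkR_val _ 750 761 h31 kc1_31 rfl
  have h33 := chkR_val _ 761 782 h32 kc1_32 rfl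
  have h34 := chkR_val _ 782 794 h33 kc1_33 rfl
  have h35 := chkR_val _ 794 810 h34 kc1_34 rfl
  have h36 := chkR_val _ 810 829 h35 kc1_35 rfl
  have h37 := chkR_val _ 829 856 h36 kc1_36 rfl
  have h38 := chkR_val _ 856 881 h37 kc1_37 rfl
  have h39 := chkR_val _ 881 916 h38 kc1_38 rfl
  have h40 := chkR_val _ 916 940 h39 kc1_39 rfl
  have h41 := chkR_val _ 940 965 h40 kc1_40 rfl
  have h42 := chkR_val _ 965 997 h41 kc1_41 rfl
  have h43 := chkR_val _ 997 1024 h42 kc1_42 rfl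
  have h44 := chkR_val _ 1024 1047 h43 kc1_43 rfl
  have h45 := chkR_val _ 1047 1072 h44 kc1_44 rfl
  have h46 := chkR_val _ 1072 1107 h45 kc1_45 rfl
  have h47 := chkR_val _ 1107 1142 h46 kc1_46 rfl
  have h48 := chkR_val _ 1142 1161 h47 kc1_47 rfl
  have h49 := chkR_val _ 1161 1190 h48 kc1_48 rfl
  have h50 := chkR_val _ 1190 1217 h49 kc1_49 rfl
  have h51 := chkR_val _ 1217 1252 h50 kc1_50 rfl
  have h52 := chkR_val _ 1252 1270 h51 kc1_51 rfl
  have h53 := chkR_val _ 1270 1295 h52 kc1_52 rfl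
  have h54 := chkR_val _ 1295 1336 h53 kc1_53 rfl
  have h55 := chkR_val _ 1336 1365 h54 kc1_54 rfl
  have h56 := chkR_val _ 1365 1400 h55 kc1_55 rfl
  have h57 := chkR_val _ 1400 1421 h56 kc1_56 rfl
  have h58 := chkR_val _ 1421 1444 h57 kc1_57 rfl
  have h59 := chkR_val _ 1444 1477 h58 kc1_58 rfl
  have h60 := chkR_val _ 1477 1510 h59 kc1_59 rfl
  have h61 := chkR_val _ 1510 1525 h60 kc1_60 rfl
  have h62 := chkR_val _ 1525 1542 h61 kc1_61 rfl
  have h63 := chkR_val _ 1542 1565 h62 kc1_62 rfl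
  have h64 := chkR_val _ 1565 1589 h63 kc1_63 rfl
  have h65 := chkR_val _ 1589 1614 h64 kc1_64 rfl
  have h66 := chkR_val _ 1614 1647 h65 kc1_65 rfl
  have h67 := chkR_val _ 1647 1672 h66 kc1_66 rfl
  have h68 := chkR_val _ 1672 1702 h67 kc1_67 rfl
  have h69 := chkR_val _ 1702 1719 h68 kc1_68 rfl
  exact h69

theorem ka1 [Infinite V] {H : Finset (Finset V)} {t t' : V} {F : Finset (Finset (Finset V))}
    (h : BD H t t' F) (ha : (xh H t t' F).card = 1) : False :=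
  val_false (kv1 1718 (by omega)) (by decide +kernel) h ha

end Pool.Agent.Work.MP_d266e7_co.C5.P24
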