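import Pool.Agent.Work.MP_d266e7_co.P24B.KMain
import Pool.Agent.Work.MP_d266e7_co.P24B.KD2_0
import Pool.Agent.Work.MP_d266e7_co.P24B.KD2_1
import Pool.Agent.Work.MP_d266e7_co.P24B.KD2_2
import Pool.Agent.Work.MP_d266e7_co.P24B.KD2_3
import Pool.Agent.Work.MP_d266e7_co.P24B.KD2_4
import Pool.Agent.Work.MP_d266e7_co.P24B.KD2_5
import Pool.Agent.Work.MP_d266e7_co.P24B.KD2_6
import Pool.Agent.Work.MP_d266e7_co.P24B.KD2_7
import Pool.Agent.Work.MP_d266e7_co.P24B.KD2_8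
import Pool.Agent.Work.MP_d266e7_co.P24B.KD2_9
import Pool.Agent.Work.MP_d266e7_co.P24B.KD2_10
import Pool.Agent.Work.MP_d266e7_co.P24B.KD2_11
import Pool.Agent.Work.MP_d266e7_co.P24B.KD2_12

/-!
The case of 2 extra hosts.
-/

namespace Pool.Agent.Work.MP_d266e7_co.C5.P24

variable {V : Type} [DecidableEq V]

theorem kv2 [Infinite V] : ∀ l, l < 1673 → Val V 2 kls2 l := by
  have h0 : ∀ l, l < 0 → Val V 2 kls2 l := fun l hl => absurd hl (Nat.not_lt_zero l)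
  have h1 := chkR_val _ 0 33 h0 kc2_0 rfl
  have h2 := chkR_val _ 33 59 h1 kc2_1 rfl
  have h3 := chkR_val _ 59 97 h2 kc2_2 rfl
  have h4 := chkR_val _ 97 129 h3 kc2_3 rfl
  have h5 := chkR_val _ 129 167 h4 kc2_4 rfl
  have h6 := chkR_val _ 167 197 h5 kc2_5 rfl
  have h7 := chkR_val _ 197 238 h6 kc2_6 rfl
  have h8 := chkR_val _ 238 264 h7 kc2_7 rfl
  have h9 := chkR_val _ 264 297 h8 kc2_8 rfl
  have h10 := chkR_val _ 297 311 h9 kc2_9 rfl
  have h11 := chkR_val _ 311 340 h10 kc2_10 rfl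
  have h12 := chkR_val _ 340 367 h11 kc2_11 rfl
  have h13 := chkR_val _ 367 388 h12 kc2_12 rfl
  have h14 := chkR_val _ 388 418 h13 kc2_13 rfl
  have h15 := chkR_val _ 418 448 h14 kc2_14 rfl
  have h16 := chkR_val _ 448 474 h15 kc2_15 rfl
  have h17 := chkR_val _ 474 510 h16 kc2_16 rfl
  have h18 := chkR_val _ 510 532 h17 kc2_17 rfl
  have h19 := chkR_val _ 532 554 h18 kc2_18 rfl
  have h20 := chkR_val _ 554 586 h19 kc2_19 rfl
  have h21 := chkR_val _ 586 604 h20 kc2_20 rfl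
  have h22 := chkR_val _ 604 631 h21 kc2_21 rfl
  have h23 := chkR_val _ 631 659 h22 kc2_22 rfl
  have h24 := chkR_val _ 659 683 h23 kc2_23 rfl
  have h25 := chkR_val _ 683 707 h24 kc2_24 rfl
  have h26 := chkR_val _ 707 717 h25 kc2_25 rfl
  have h27 := chkR_val _ 717 738 h26 kc2_26 rfl
  have h28 := chkR_val _ 738 749 h27 kc2_27 rfl
  have h29 := chkR_val _ 749 767 h28 kc2_28 rfl
  have h30 := chkR_val _ 767 790 h29 kc2_29 rfl
  have h31 := chkR_val _ 790 820 h30 kc2_30 rfl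
  have h32 := chkR_val _ 820 841 h31 kc2_31 rfl
  have h33 := chkR_val _ 841 869 h32 kc2_32 rfl
  have h34 := chkR_val _ 869 886 h33 kc2_33 rfl
  have h35 := chkR_val _ 886 912 h34 kc2_34 rfl
  have h36 := chkR_val _ 912 938 h35 kc2_35 rfl
  have h37 := chkR_val _ 938 954 h36 kc2_36 rfl
  have h38 := chkR_val _ 954 964 h37 kc2_37 rfl
  have h39 := chkR_val _ 964 980 h38 kc2_38 rfl
  have h40 := chkR_val _ 980 1004 h39 kc2_39 rfl
  have h41 := chkR_val _ 1004 1024 h40 kc2_40 rfl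
  have h42 := chkR_val _ 1024 1044 h41 kc2_41 rfl
  have h43 := chkR_val _ 1044 1066 h42 kc2_42 rfl
  have h44 := chkR_val _ 1066 1088 h43 kc2_43 rfl
  have h45 := chkR_val _ 1088 1113 h44 kc2_44 rfl
  have h46 := chkR_val _ 1113 1133 h45 kc2_45 rfl
  have h47 := chkR_val _ 1133 1149 h46 kc2_46 rfl
  have h48 := chkR_val _ 1149 1175 h47 kc2_47 rfl
  have h49 := chkR_val _ 1175 1197 h48 kc2_48 rfl
  have h50 := chkR_val _ 1197 1216 h49 kc2_49 rfl
  have h51 := chkR_val _ 1216 1226 h50 kc2_50 rfl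
  have h52 := chkR_val _ 1226 1245 h51 kc2_51 rfl
  have h53 := chkR_val _ 1245 1261 h52 kc2_52 rfl
  have h54 := chkR_val _ 1261 1276 h53 kc2_53 rfl
  have h55 := chkR_val _ 1276 1288 h54 kc2_54 rfl
  have h56 := chkR_val _ 1288 1315 h55 kc2_55 rfl
  have h57 := chkR_val _ 1315 1338 h56 kc2_56 rfl
  have h58 := chkR_val _ 1338 1352 h57 kc2_57 rfl
  have h59 := chkR_val _ 1352 1368 h58 kc2_58 rfl
  have h60 := chkR_val _ 1368 1384 h59 kc2_59 rfl
  have h61 := chkR_val _ 1384 1407 h60 kc2_60 rfl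
  have h62 := chkR_val _ 1407 1427 h61 kc2_61 rfl
  have h63 := chkR_val _ 1427 1448 h62 kc2_62 rfl
  have h64 := chkR_val _ 1448 1469 h63 kc2_63 rfl
  have h65 := chkR_val _ 1469 1493 h64 kc2_64 rfl
  have h66 := chkR_val _ 1493 1515 h65 kc2_65 rfl
  have h67 := chkR_val _ 1515 1530 h66 kc2_66 rfl
  have h68 := chkR_val _ 1530 1553 h67 kc2_67 rfl
  have h69 := chkR_val _ 1553 1562 h68 kc2_68 rfl
  have h70 := chkR_val _ 1562 1578 h69 kc2_69 rfl
  have h71 := chkR_val _ 1578 1591 h70 kc2_70 rfl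
  have h72 := chkR_val _ 1591 1611 h71 kc2_71 rfl
  have h73 := chkR_val _ 1611 1626 h72 kc2_72 rfl
  have h74 := chkR_val _ 1626 1637 h73 kc2_73 rfl
  have h75 := chkR_val _ 1637 1650 h74 kc2_74 rfl
  have h76 := chkR_val _ 1650 1671 h75 kc2_75 rfl
  have h77 := chkR_val _ 1671 1673 h76 kc2_76 rfl
  exact h77

theorem ka2 [Infinite V] {H : Finset (Finset V)} {t t' : V} {F : Finset (Finset (Finset V))}
    (h : BD H t t' F) (ha : (xh H t t' F).card = 2) : False :=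
  val_false (kv2 1672 (by omega)) (by decide +kernel) h ha

end Pool.Agent.Work.MP_d266e7_co.C5.P24
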