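import Pool.Agent.Work.MP_d266e7_co.P24B.BFinal
import Pool.Agent.Work.MP_d266e7_co.P24B.KA1
import Pool.Agent.Work.MP_d266e7_co.P24B.KA2

/-!
A smallest counterexample has six members on ten vertices.
-/

namespace Pool.Agent.Work.MP_d266e7_co.C5.P24

variable {V : Type} [DecidableEq V]

theorem bad2_all [Infinite V] (H : Finset (Finset V)) (hB : Bad2 H) :
    H.card = 6 ∧ (cov H).card = 10 :=
  bad2_of (fun _ _ _ _ _ h _ e => ka1 h e) (fun _ _ _ _ _ h _ e => ka2 h e) H hB

end Pool.Agent.Work.MP_d266e7_co.C5.P24
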