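import Pool.Agent.Work.MP_d266e7_co.P24B.BHall

/-!
Double splits of `Bad2`, compare `C5/Bad1.lean` (`Bad.noin`) and `C5/Bad2.lean`.
`exists_ds`: `K = H \ star H t` is `CC`, `tau K + 1 = tau H`, `|cov K| + 1 = |cov H|` (`step`).
If no vertex has degree three in `K`: with `b` the number of vertices of degree one in `K`,
`5 |K| + b = 2 |cov K|` (`sum_deg`), `2 tt H (dg H) ≤ b` (`Fam.tt_out` for the empty family; a
vertex of degree one in `H` is in `cov K`), `5 |H| ≤ 3 |cov H|` (`ee_eq`); with `small` omega gives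
`|K| ≤ 5` and then `|K| = 3`, `|cov K| = 9`.
`facts`: as `DS.facts`. `hall`: `nlemma` in `K = H \ star H t'` (`star_sdiff`, `sdiff_star`).
`close`: `Fam.card_eq`, `Fam.cov_eq`, `Fam.tt_eq`, `DS.hosts`, sum of the bounds of the pieces.
Let `T = tt (H \ un F) (dg H)`. Members of the two stars have no vertex of degree one (`noin`), so
`T ≤ |xh|`; and `2 T + 2 ≤ |cov H \ cov (un F)|` (`Fam.tt_out`, the filter misses `t`, `t'`).
The sum gives the claim with `13 + T`, and `T ≥ 1` is then impossible.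
`pb_exact`: `g` is the difference of the two sides of `pb_zero` (`ihv5`, `room`).
`pb_node`: a single node with at most one vertex of degree one has gain one.
-/

namespace Pool.Agent.Work.MP_d266e7_co.C5.P24

open Finset

variable {V : Type} [DecidableEq V]

theorem Bad2.noin {H : Finset (Finset V)} (hB : Bad2 H) (v w : V) (hv : v ∈ cov H)
    (hvw : v ≠ w) (hw : dg H w = 3) : ¬ star H v ⊆ star H w := by
  intro c
  obtain ⟨e, he, hve⟩ := mem_cov.1 ((hB.step w hw).2 v hv hvw)
  exact (mem_sdiff.1 he).2 (c (mem_star.2 ⟨(mem_sdiff.1 he).1, hve⟩))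

theorem Bad2.ds_of {H : Finset (Finset V)} (hB : Bad2 H) {t t' : V}
    (d1 : dg H t = 3) (d2 : dg H t' = 3) (dis : Disjoint (star H t) (star H t')) :
    ∃ F, BD H t t' F := by
  have hK := (hB.step t d1).1
  have e1 : dg (H \ star H t) t' = 3 := by
    unfold dg
    rw [star_sdiff dis]
    exact d2
  obtain ⟨F, hF, hs⟩ := exists_step hK (t := t') (by omega)
  have e2 := rem_tau hB.cc (t := t) (by omega)
  rw [sdiff_star dis] at hF
  exact ⟨F, hB, d1, d2, dis, hF, by rw [hF.tau_un]; omega⟩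

theorem bds_two {K : Finset (Finset V)} (h5 : U5 K) (h2 : ∀ v, dg K v ≤ 2) :
    5 * K.card + ((cov K).filter fun v => dg K v ≤ 1).card = 2 * (cov K).card := by
  rw [← sum_deg h5, card_filter, ← sum_add_distrib, mul_comm, ← Nat.nsmul_eq_mul, ← sum_const]
  refine sum_congr rfl fun v hv => ?_
  have a1 := h2 v
  have a2 := dg_pos.2 hv
  unfold dg at *
  split_ifs <;> omega

theorem bds_three {H : Finset (Finset V)} (hB : Bad2 H)
    (h : ¬ (H.card = 6 ∧ (cov H).card = 10)) {t : V} (ht : dg H t = 3) :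
    ∃ t', dg (H \ star H t) t' = 3 := by
  by_contra c
  obtain ⟨hK, hc⟩ := hB.step t ht
  have a1 := bds_two hK.u5 (t1_two (fun v => (dg_mono sdiff_subset v).trans (hB.d3 v)) c)
  have a2 := (gplus_empty H).tt_out
  have e1 : un (∅ : Finset (Finset (Finset V))) = ∅ := rfl
  have e2 : cov (∅ : Finset (Finset V)) = ∅ := rfl
  rw [e1, e2, sdiff_empty, sdiff_empty] at a2
  have a3 : ((cov H).filter fun v => dg H v ≤ 1).card ≤
      ((cov (H \ star H t)).filter fun v => dg (H \ star H t) v ≤ 1).card := by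
    refine card_le_card fun v hv => ?_
    obtain ⟨b1, b2⟩ := mem_filter.1 hv
    exact mem_filter.2 ⟨hc v b1 fun e => by rw [e] at b2; omega,
      (dg_mono sdiff_subset v).trans b2⟩
  have a4 : ((cov (H \ star H t)).filter fun v => dg (H \ star H t) v ≤ 1).card ≤
      (cov (H \ star H t)).card := card_filter_le _ _
  have a5 := card_star (S := H) t
  have a6 : (star H t).card = 3 := ht
  have a7 := cov_star (S := H) (v := t) (card_pos.1 (by omega))
  have a8 : (cov H).card ≤ (cov (H \ star H t)).card + 1 := by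
    refine le_trans (card_le_card fun v hv => ?_) (card_insert_le t _)
    by_cases e : v = t
    · exact e ▸ mem_insert_self _ _
    · exact mem_insert_of_mem (hc v hv e)
  have a9 := ee_eq hB.cc.u5 hB.d3
  have b1 := hB.val
  have b2 := hB.small
  have b3 := card_pos.2 hK.ne
  unfold VB at b2
  omega

theorem Bad2.exists_ds {H : Finset (Finset V)} (hB : Bad2 H)
    (h : ¬ (H.card = 6 ∧ (cov H).card = 10)) : ∃ t t' F, BD H t t' F := by
  obtain ⟨t, ht⟩ := hB.three
  obtain ⟨t', ht'⟩ := bds_three hB h ht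
  have b4 : star (H \ star H t) t' = star H t' :=
    eq_of_subset_of_card_le (star_mono sdiff_subset t') (by
      have b5 := hB.d3 t'
      unfold dg at b5 ht'
      omega)
  have b5 : dg H t' = 3 := by
    unfold dg at ht' ⊢
    rwa [b4] at ht'
  have b6 : Disjoint (star H t) (star H t') := by
    rw [← b4]
    exact disjoint_left.2 fun e c d => (mem_sdiff.1 (mem_star.1 d).1).2 c
  obtain ⟨F, hF⟩ := hB.ds_of ht b5 b6
  exact ⟨t, t', F, hF⟩

theorem bds_sum {F : Finset (Finset (Finset V))} {H : Finset (Finset V)}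
    {g : Finset (Finset V) → ℕ} (h : ∀ W ∈ F, PB H W 5 (g W)) :
    27 * ∑ W ∈ F, tau W + ∑ W ∈ F, tt W (dg H) + ∑ W ∈ F, g W ≤
      8 * ∑ W ∈ F, W.card + 3 * ∑ W ∈ F, (cov W).card + ∑ W ∈ F, hi H W + 5 * F.card := by
  induction F using Finset.induction_on with
  | empty => simp
  | insert W F hW ih =>
    have h1 := ih fun Z hZ => h Z (mem_insert_of_mem hZ)
    have h2 := h W (mem_insert_self _ _)
    unfold PB at h2
    simp only [sum_insert hW, card_insert_of_notMem hW]
    omega

/-- a member of a star of size three has no vertex of degree one -/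
theorem bds_star {H : Finset (Finset V)} (hB : Bad2 H) {t v : V} (ht : dg H t = 3)
    {x : Finset V} (hx : x ∈ star H t) (hv : v ∈ x) : ¬ dg H v ≤ 1 := by
  intro c
  have hxH := (mem_star.1 hx).1
  refine hB.noin v t (mem_cov.2 ⟨x, hxH, hv⟩) (fun e => by rw [e] at c; omega) ht fun y hy => ?_
  rw [faml_two (mem_star.1 hy).1 hxH (mem_star.1 hy).2 hv c]
  exact hx

namespace BD

variable {H : Finset (Finset V)} {t t' : V} {F : Finset (Finset (Finset V))}

theorem symm (h : BD H t t' F) : BD H t' t F :=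
  ⟨h.bad, h.ds.symm⟩

theorem facts (h : BD H t t' F) :
    F.card = (xh H t t' F).card + 2 ∧ ∀ W ∈ F, 2 * tau W = W.card + 1 := by
  obtain ⟨hB, h⟩ := h
  have hK := (hB.step t h.d1).1
  have hF := h.famH
  have hFK0 : Fam ((H \ star H t) \ star (H \ star H t) t') F := by
    rw [sdiff_star h.dis]
    exact h.fam
  have hFK : Fam (H \ star H t) F := hFK0.mono sdiff_subset Subset.rfl
  have e1 : dg (H \ star H t) t' = 3 := by
    unfold dg
    rw [star_sdiff h.dis]
    exact h.d2
  have c1 := step_card hFK0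
  rw [sdiff_star h.dis, e1] at c1
  have c2 : F.card + 1 ≤ ((H \ star H t) \ un F).card := by
    obtain ⟨x, hx⟩ := card_pos.1 (show 0 < ((H \ star H t) \ un F).card by omega)
    exact nl_all hK hFK ⟨x, mem_sdiff.1 hx⟩
  have c3 := h.hosts.2
  have c4 := hF.card_eq
  have c6 := h.tau2
  rw [hF.tau_un] at c6
  have c7 := hB.val
  have g1 : ∀ W ∈ F, 2 * tau W ≤ W.card + 1 := fun W hW =>
    gallai (hF.cc W hW).u5.ne (hF.cc W hW).crit (hF.cc W hW).conn
  have s1 := bad2_sum (F := F) (a := 2) (b := 0) (c := 0) (a' := 0) (b' := 1) (c' := 0) (k := 0)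
    (k' := 1) fun W hW => by have := g1 W hW; omega
  unfold xh
  refine ⟨by omega, fun W hW => ?_⟩
  have b1 := bad2_sum (F := F.erase W) (a := 2) (b := 0) (c := 0) (a' := 0) (b' := 1) (c' := 0)
    (k := 0) (k' := 1) fun Z hZ => by have := g1 Z (mem_of_mem_erase hZ); omega
  have b2 := add_sum_erase F tau hW
  have b3 := add_sum_erase F (fun Z => Z.card) hW
  have b4 := card_erase_add_one hW
  have b5 := g1 W hW
  omega

theorem hall (h : BD H t t' F) :
    ∀ G ⊆ F, G.Nonempty → G.card + 1 ≤ (nbh (star H t ∪ xh H t t' F) G).card := by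
  intro G hG hne
  obtain ⟨hB, h⟩ := h
  have hK := (hB.step t' h.d2).1
  have hF : Fam (H \ star H t') G :=
    h.fam.mono (sdiff_subset_sdiff Subset.rfl subset_union_right) hG
  obtain ⟨y, hy⟩ : (star H t).Nonempty := card_pos.1 (by have := h.d1; unfold dg at this; omega)
  refine nlemma hK hF hne ⟨y, mem_sdiff.2 ⟨(mem_star.1 hy).1, disjoint_left.1 h.dis hy⟩,
    fun c => ?_⟩ fun x hx hx' W hW hd => mem_filter.2 ⟨?_, W, hW, hd⟩
  · obtain ⟨W, hW, c⟩ := mem_un.1 c
    exact (mem_sdiff.1 (h.fam.sub W (hG hW) c)).2 (mem_union_left _ hy)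
  · by_cases c : x ∈ star H t
    · exact mem_union_left _ c
    · refine mem_union_right _ (mem_sdiff.2 ⟨mem_sdiff.2 ⟨(mem_sdiff.1 hx).1, fun d => ?_⟩,
        fun d => ?_⟩)
      · exact (mem_union.1 d).elim c (mem_sdiff.1 hx).2
      · obtain ⟨W', hW', d⟩ := mem_un.1 d
        have := dd_sep (h.fam.sep W (hG hW) W' hW' fun e => hx' (sub_un hW (e ▸ d))) d
        omega

theorem room (h : BD H t t' F) {W : Finset (Finset V)} (hW : W ∈ F) :
    ∃ v ∈ cov W, dg W v < dg H v := by
  obtain ⟨hB, h⟩ := h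
  obtain ⟨y, hy⟩ : (star H t).Nonempty := card_pos.1 (by have := h.d1; unfold dg at this; omega)
  refine P24.room hB.cc.conn (h.famH.sub W hW) (h.fam.cc W hW).ne fun e => ?_
  have c : y ∈ W := e ▸ (mem_star.1 hy).1
  exact (mem_sdiff.1 (h.fam.sub W hW c)).2 (mem_union_left _ hy)

theorem pb0 [Infinite V] (h : BD H t t' F) {W : Finset (Finset V)} (hW : W ∈ F) : PB H W 5 0 :=
  pb_zero (ihv5 W) (h.ds.fam.cc W hW) (h.ds.famH.sub W hW) h.bad.d3 (h.room hW)

theorem pb_exact [Infinite V] (h : BD H t t' F) {W : Finset (Finset V)} (hW : W ∈ F) :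
    ∃ g, PB H W 5 g ∧ ∀ g', PB H W 5 g' → g' ≤ g := by
  have a := h.pb0 hW
  unfold PB at a ⊢
  exact ⟨8 * W.card + 3 * (cov W).card + hi H W + 5 - (27 * tau W + tt W (dg H)), by omega,
    fun g' hg => by omega⟩

theorem close (h : BD H t t' F) (g : Finset (Finset V) → ℕ) (hg : ∀ W ∈ F, PB H W 5 (g W))
    (E : ℕ) (hE : ∑ W ∈ F, hi H W + E ≤ hi H H) :
    ∑ W ∈ F, g W + E + 3 * (xh H t t' F).card + 3 * (cov H \ cov (un F)).card ≤ 13 := by
  have f1 := h.facts.1
  obtain ⟨hB, h⟩ := h
  have hF := h.famH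
  have c1 := hF.card_eq
  have c2 := hF.cov_eq
  have c3 := hF.tt_eq (dg H)
  obtain ⟨e1, c4⟩ := h.hosts
  have c5 := h.tau2
  rw [hF.tau_un] at c5
  have c6 := bds_sum hg
  have c7 : tt (H \ un F) (dg H) ≤ (xh H t t' F).card := by
    refine card_le_card fun x hx => ?_
    obtain ⟨b1, b2⟩ := mem_filter.1 hx
    obtain ⟨v, hv⟩ := card_pos.1 (show 0 < (x.filter fun v => dg H v ≤ 1).card by omega)
    obtain ⟨b3, b4⟩ := mem_filter.1 hv
    rw [e1] at b1
    rcases mem_union.1 b1 with c | c
    · rcases mem_union.1 c with c | c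
      · exact absurd b4 (bds_star hB h.d1 c b3)
      · exact absurd b4 (bds_star hB h.d2 c b3)
    · exact c
  have c8 := hF.tt_out
  have c9 : ((cov H \ cov (un F)).filter fun v => dg H v ≤ 1).card + 2 ≤
      (cov H \ cov (un F)).card := by
    obtain ⟨o1, o2, o3⟩ := h.out
    have d1 := h.d1
    have d2 := h.d2
    rw [← card_pair o1, ← card_union_of_disjoint]
    · exact card_le_card (union_subset (filter_subset _ _)
        (insert_subset o2 (singleton_subset_iff.2 o3)))
    · refine disjoint_left.2 fun v hv c => ?_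
      have b := (mem_filter.1 hv).2
      rcases mem_insert.1 c with e | e
      · rw [e] at b
        omega
      · rw [mem_singleton.1 e] at b
        omega
  have b2 := hB.small
  unfold VB at b2
  unfold xh at f1 c7 ⊢
  omega

/-- a gain on one piece -/
theorem close1 [Infinite V] (h : BD H t t' F) {W : Finset (Finset V)} (hW : W ∈ F) {g : ℕ}
    (hg : PB H W 5 g) :
    g + 3 * (xh H t t' F).card + 3 * (cov H \ cov (un F)).card ≤ 13 := by
  have a := h.close (fun Z => if Z = W then g else 0) (fun Z hZ => by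
    split_ifs with e
    · exact e ▸ hg
    · exact h.pb0 hZ) 0 (hi_sum h.ds.famH)
  rw [sum_ite_eq', if_pos hW] at a
  omega

/-- gains on two pieces -/
theorem close2 [Infinite V] (h : BD H t t' F) {W W' : Finset (Finset V)} (hW : W ∈ F)
    (hW' : W' ∈ F) (hne : W ≠ W') {g g' : ℕ} (hg : PB H W 5 g) (hg' : PB H W' 5 g') :
    g + g' + 3 * (xh H t t' F).card + 3 * (cov H \ cov (un F)).card ≤ 13 := by
  have a := h.close (fun Z => if Z = W then g else if Z = W' then g' else 0) (fun Z hZ => by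
    split_ifs with e e'
    · exact e ▸ hg
    · exact e' ▸ hg'
    · exact h.pb0 hZ) 0 (hi_sum h.ds.famH)
  have b := sum_le_sum_of_subset (f := fun Z => if Z = W then g else if Z = W' then g' else 0)
    (insert_subset hW (singleton_subset_iff.2 hW'))
  rw [sum_pair hne, if_pos rfl, if_neg hne.symm, if_pos rfl] at b
  omega

theorem out_two (h : BD H t t' F) : 2 ≤ (cov H \ cov (un F)).card := by
  obtain ⟨o1, o2, o3⟩ := h.ds.out
  rw [← card_pair o1]
  exact card_le_card (insert_subset o2 (singleton_subset_iff.2 o3))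

end BD

theorem pb_node {H : Finset (Finset V)} {u : Finset V} (hu : u.card = 5)
    (h : (u.filter fun v => dg H v ≤ 1).card ≤ 1) : PB H {u} 5 1 := by
  have a1 : tau ({u} : Finset (Finset V)) = 1 := tau_singleton (card_pos.1 (by omega))
  have a2 : tt {u} (dg H) = 0 :=
    card_eq_zero.2 (filter_eq_empty_iff.2 fun x hx => by rw [mem_singleton.1 hx]; omega)
  unfold PB
  rw [a1, a2, cov_singleton, card_singleton, hu]
  omega

end Pool.Agent.Work.MP_d266e7_co.C5.P24
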