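import Pool.Agent.Work.MP_d266e7_co.P24B.A0Core
import Pool.Agent.Work.MP_d266e7_co.P24B.BDS
import Pool.Agent.Work.MP_d266e7_co.C5.Bad5
import Mathlib.Algebra.BigOperators.Fin

/-!
No extra host, one piece a single node; compare `C5/Bad5.lean`.
`uctx`: as `DS.uctx` with `Bad2.noin`.
`a0_out`: `O` is the set of vertices outside `u`, `W`, different from `tv true`, `tv false`. All
members through `w ∈ O` are hosts, so `mk q w ∈ a0o` (`d3`, and `noin` with `tv b`, which has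
degree three); `dl … x` counts the vertices of `O` on `q x`; order the vertices of `O` by `mk q`
(`exists_enum_mono`), then `a0_core`.
`a0_node`: if two vertices of `u` have degree one, no vertex of `u` has degree three (`noin`), so
at most three hosts meet `u` (`UCtx.dg_eq`), but four do.
`a0_half`: `F = {{u}, W}` (`facts`), enumerate the stars with decreasing `|u ∩ x|`
(`exists_enum_mono`, reversed), `hall` for `{{u}}` and `{W}` on both sides (`symm`), `|O| ≤ 2` by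
`close1` with `pb0`, then `a0_out`, `a0_node`, `pb_node`, `close2`. `a0`: `a0_half` for `h` or
`h.symm` (`xh_comm`).
-/

namespace Pool.Agent.Work.MP_d266e7_co.C5.P24

open Finset

variable {V : Type} [DecidableEq V]

theorem BD.uctx {H : Finset (Finset V)} {t t' : V} {F : Finset (Finset (Finset V))}
    (h : BD H t t' F) {u : Finset V} (hu : ({u} : Finset (Finset V)) ∈ F)
    {W R : Finset (Finset V)} (hW : W ∈ F) (hne : W ≠ {u}) (hR : R ⊆ H)
    (huR : ∀ e ∈ R, Disjoint u e)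
    (hall : ∀ e ∈ H \ (star H t ∪ star H t'), e = u ∨ e ∈ W ∨ e ∈ R)
    (hle : tau W + tau R + 3 ≤ tau H) {p p' : Fin 3 → Finset V}
    (hp : Function.Injective p) (hp1 : ∀ x, p x ∈ star H t) (hp2 : ∀ e ∈ star H t, ∃ x, e = p x)
    (hp' : Function.Injective p') (hp1' : ∀ x, p' x ∈ star H t')
    (hp2' : ∀ e ∈ star H t', ∃ x, e = p' x) :
    UCtx H (fun b => if b then t else t') u W R ![p 0, p 1, p 2, p' 0, p' 1, p' 2] := by
  obtain ⟨hB, h⟩ := h
  have key : ∀ x : Fin 6, (![p 0, p 1, p 2, p' 0, p' 1, p' 2] : Fin 6 → Finset V) x ∈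
      star H (if side x then t else t') := by
    intro x
    rcases bad5_six x with rfl | rfl | rfl | rfl | rfl | rfl
    exacts [hp1 0, hp1 1, hp1 2, hp1' 0, hp1' 1, hp1' 2]
  have hd : ∀ i j, p i = p' j → False := fun i j e =>
    disjoint_left.1 h.dis (hp1 i) (e ▸ hp1' j)
  have hst : ∀ (b : Bool) (e : Finset V), e ∈ H \ (star H t ∪ star H t') →
      (if b then t else t') ∉ e := by
    intro b e he k
    obtain ⟨h1, h2⟩ := mem_sdiff.1 he
    cases b
    · exact h2 (mem_union_right _ (mem_star.2 ⟨h1, k⟩))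
    · exact h2 (mem_union_left _ (mem_star.2 ⟨h1, k⟩))
  have hu' : u ∈ H \ (star H t ∪ star H t') := h.fam.sub _ hu (mem_singleton_self u)
  refine ⟨hB.cc.u5, hB.d3, hB.noin, h.fam.cc W hW, h.famH.sub W hW, hR, (mem_sdiff.1 hu').1,
    dd_sep (h.fam.sep W hW _ hu hne) (mem_singleton_self u), huR,
    fun x => (mem_star.1 (key x)).1, ?_,
    fun x k => hst _ _ (h.fam.sub W hW k) (mem_star.1 (key x)).2,
    fun x k => hst _ _ hu' (k ▸ (mem_star.1 (key x)).2), fun x => (mem_star.1 (key x)).2,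
    fun b => hst b u hu', fun b k => ?_, fun e he => ?_, hle⟩
  · intro x y hxy
    rcases bad5_six x with rfl | rfl | rfl | rfl | rfl | rfl <;>
      rcases bad5_six y with rfl | rfl | rfl | rfl | rfl | rfl <;>
      first
        | rfl
        | exact absurd (hp hxy) (by decide)
        | exact absurd (hp' hxy) (by decide)
        | exact (hd _ _ hxy).elim
        | exact (hd _ _ hxy.symm).elim
  · obtain ⟨e, he, k⟩ := mem_cov.1 k
    exact hst b e (h.fam.sub W hW he) k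
  · by_cases h1 : e ∈ star H t
    · obtain ⟨i, rfl⟩ := hp2 e h1
      refine .inr (.inr (.inr ?_))
      rcases bad5_three i with rfl | rfl | rfl
      exacts [⟨0, rfl⟩, ⟨1, rfl⟩, ⟨2, rfl⟩]
    by_cases h2 : e ∈ star H t'
    · obtain ⟨i, rfl⟩ := hp2' e h2
      refine .inr (.inr (.inr ?_))
      rcases bad5_three i with rfl | rfl | rfl
      exacts [⟨3, rfl⟩, ⟨4, rfl⟩, ⟨5, rfl⟩]
    rcases hall e (mem_sdiff.2 ⟨he, fun k => (mem_union.1 k).elim h1 h2⟩) with k | k | k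
    exacts [.inl k, .inr (.inl k), .inr (.inr (.inl k))]

section

variable {H : Finset (Finset V)} {tv : Bool → V} {u : Finset V} {W : Finset (Finset V)}
  {q : Fin 6 → Finset V}

theorem a0_tv (h : UCtx H tv u W ∅ q) (b : Bool) :
    dg H (tv b) = 3 ∧ ∀ x, tv b ∈ q x → side x = b := by
  have hs : (univ.filter fun x => side x = b).image q ⊆ star H (tv b) := by
    intro e he
    obtain ⟨x, hx, rfl⟩ := mem_image.1 he
    exact mem_star.2 ⟨h.qmem x, (mem_filter.1 hx).2 ▸ h.qt x⟩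
  have hc : ((univ.filter fun x => side x = b).image q).card = 3 := by
    rw [card_image_of_injective _ h.qinj]
    cases b <;> decide
  have h3 := h.d3 (tv b)
  have he := eq_of_subset_of_card_le hs (by rw [hc]; exact h3)
  refine ⟨by rw [dg, ← he, hc], fun x hx => ?_⟩
  have k : q x ∈ star H (tv b) := mem_star.2 ⟨h.qmem x, hx⟩
  rw [← he] at k
  obtain ⟨y, hy, e⟩ := mem_image.1 k
  exact h.qinj e ▸ (mem_filter.1 hy).2

theorem a0_bt (q : Fin 6 → Finset V) (w : V) (x : Fin 6) :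
    bt (mk q w) x = if w ∈ q x then 1 else 0 := by
  rw [bt_eq]
  by_cases k : w ∈ q x
  · rw [if_pos k, if_pos ((mk_bit q w x).2 k)]
  · rw [if_neg k, if_neg fun k' => k ((mk_bit q w x).1 k')]

theorem a0_bt0 (x : ℕ) : bt 0 x = 0 := by
  rw [bt_eq, Nat.zero_testBit]
  rfl

theorem a0_mem (h : UCtx H tv u W ∅ q) {w : V} (h0 : w ∈ cov H) (h1 : w ∉ u) (h2 : w ∉ cov W)
    (h3 : w ≠ tv true) (h4 : w ≠ tv false) : mk q w ∈ a0o := by
  have hst : ∀ e ∈ star H w, ∃ x, e = q x := by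
    intro e he
    obtain ⟨k1, k2⟩ := mem_star.1 he
    rcases h.all e k1 with rfl | k | k | k
    · exact absurd k2 h1
    · exact absurd (mem_cov.2 ⟨e, k, k2⟩) h2
    · exact absurd k (notMem_empty e)
    · exact k
  have hs : ∀ b, w ≠ tv b → ∃ x, w ∈ q x ∧ side x ≠ b := by
    intro b hb
    by_contra k
    refine h.noin w (tv b) h0 hb (a0_tv h b).1 fun e he => ?_
    obtain ⟨x, rfl⟩ := hst e he
    have k1 : side x = b := by
      by_contra k2
      exact k ⟨x, (mem_star.1 he).2, k2⟩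
    exact mem_star.2 ⟨h.qmem x, k1 ▸ h.qt x⟩
  have hd : ∑ x : Fin 6, bt (mk q w) x ≤ 3 := by
    simp only [a0_bt]
    rw [← card_filter, ← card_image_of_injective _ h.qinj]
    refine le_trans (card_le_card fun e he => ?_) (h.d3 w)
    obtain ⟨x, hx, rfl⟩ := mem_image.1 he
    exact mem_star.2 ⟨h.qmem x, (mem_filter.1 hx).2⟩
  rw [Fin.sum_univ_six] at hd
  refine mem_a0o (mk_lt q w) hd ?_ ?_
  · obtain ⟨x, k1, k2⟩ := hs false h4
    have k3 := a0_bt q w x
    rw [if_pos k1] at k3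
    rcases bad5_six x with rfl | rfl | rfl | rfl | rfl | rfl
    · have k4 : bt (mk q w) 0 = 1 := k3
      omega
    · have k4 : bt (mk q w) 1 = 1 := k3
      omega
    · have k4 : bt (mk q w) 2 = 1 := k3
      omega
    all_goals exact absurd (by decide) k2
  · obtain ⟨x, k1, k2⟩ := hs true h3
    have k3 := a0_bt q w x
    rw [if_pos k1] at k3
    rcases bad5_six x with rfl | rfl | rfl | rfl | rfl | rfl
    · exact absurd (by decide) k2
    · exact absurd (by decide) k2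
    · exact absurd (by decide) k2
    · have k4 : bt (mk q w) 3 = 1 := k3
      omega
    · have k4 : bt (mk q w) 4 = 1 := k3
      omega
    · have k4 : bt (mk q w) 5 = 1 := k3
      omega

theorem a0_dl (h : UCtx H tv u W ∅ q) {O : Finset V}
    (hO : ∀ v, v ∈ O ↔ v ∈ cov H ∧ v ∉ u ∧ v ∉ cov W ∧ v ≠ tv true ∧ v ≠ tv false) (x : Fin 6) :
    dl tv u W q x = ∑ v ∈ O, bt (mk q v) x := by
  simp only [a0_bt]
  rw [← card_filter]
  unfold dl
  congr 1
  ext v
  rw [mem_sdiff, mem_insert, mem_filter, hO, mem_union, not_or, not_or]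
  constructor
  · rintro ⟨k1, k2, k3, k4⟩
    have k5 : ∀ b, v ≠ tv b := fun b e => k2 (by rw [(a0_tv h b).2 x (e ▸ k1)]; exact e)
    exact ⟨⟨mem_cov.2 ⟨_, h.qmem x, k1⟩, k3, k4, k5 _, k5 _⟩, k1⟩
  · rintro ⟨⟨-, k2, k3, k4, k5⟩, k1⟩
    refine ⟨k1, ?_, k2, k3⟩
    cases side x
    exacts [k5, k4]

theorem a0_out [Infinite V] (h : UCtx H tv u W ∅ q) (hr : ∃ v ∈ cov W, dg W v < dg H v)
    (s1 : ud u q 1 ≤ ud u q 0) (s2 : ud u q 2 ≤ ud u q 1) (s3 : 1 ≤ ud u q 1)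
    (s4 : ud u q 4 ≤ ud u q 3) (s5 : ud u q 5 ≤ ud u q 4) (s6 : 1 ≤ ud u q 4)
    (s7 : ud u q 3 + ud u q 4 + ud u q 5 ≤ ud u q 0 + ud u q 1 + ud u q 2)
    (w1 : dd W (q 0) + dd W (q 1) ≠ 0 ∧ dd W (q 0) + dd W (q 2) ≠ 0 ∧ dd W (q 1) + dd W (q 2) ≠ 0)
    (w2 : dd W (q 3) + dd W (q 4) ≠ 0 ∧ dd W (q 3) + dd W (q 5) ≠ 0 ∧ dd W (q 4) + dd W (q 5) ≠ 0)
    {O : Finset V}
    (hO : ∀ v, v ∈ O ↔ v ∈ cov H ∧ v ∉ u ∧ v ∉ cov W ∧ v ≠ tv true ∧ v ≠ tv false)
    (h2 : O.card ≤ 2) : PB H W 5 (7 - 3 * O.card) := by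
  have hm : ∀ w ∈ O, mk q w ∈ a0o := fun w hw => by
    obtain ⟨k0, k1, k2, k3, k4⟩ := (hO w).1 hw
    exact a0_mem h k0 k1 k2 k3 k4
  have hd := a0_dl h hO
  rcases (show O.card = 0 ∨ O.card = 1 ∨ O.card = 2 by omega) with k | k | k
  · rw [k]
    refine a0_core h hr s1 s2 s3 s4 s5 s6 s7 w1 w2 (o1 := 0) (o2 := 0) (.inl rfl) (.inl rfl)
      (.inl ⟨rfl, rfl, rfl⟩) fun x => ?_
    rw [hd, card_eq_zero.1 k, sum_empty, a0_bt0, add_zero]
  · rw [k]
    obtain ⟨a, rfl⟩ := card_eq_one.1 k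
    refine a0_core h hr s1 s2 s3 s4 s5 s6 s7 w1 w2 (o1 := mk q a) (o2 := 0) (.inr ⟨a, rfl⟩)
      (.inl rfl) (.inr (.inl ⟨rfl, hm a (mem_singleton_self a), rfl⟩)) fun x => ?_
    rw [hd, sum_singleton, a0_bt0, add_zero]
  · rw [k]
    obtain ⟨a, b, hab, e, hle⟩ : ∃ a b, a ≠ b ∧ O = {a, b} ∧ mk q a ≤ mk q b := by
      obtain ⟨a, b, hab, e⟩ := card_eq_two.1 k
      rcases le_total (mk q a) (mk q b) with l | l
      exacts [⟨a, b, hab, e, l⟩, ⟨b, a, hab.symm, e.trans (pair_comm a b), l⟩]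
    subst e
    refine a0_core h hr s1 s2 s3 s4 s5 s6 s7 w1 w2 (o1 := mk q a) (o2 := mk q b) (.inr ⟨a, rfl⟩)
      (.inr ⟨b, rfl⟩) (.inr (.inr ⟨rfl, hm a (mem_insert_self _ _),
        hm b (mem_insert_of_mem (mem_singleton_self b)), hle⟩)) fun x => ?_
    rw [hd, sum_pair hab]

theorem a0_node (h : UCtx H tv u W ∅ q) (s0 : 1 ≤ ud u q 0) (s1 : 1 ≤ ud u q 1)
    (s3 : 1 ≤ ud u q 3) (s4 : 1 ≤ ud u q 4) : (u.filter fun v => dg H v ≤ 1).card ≤ 1 := by
  by_contra k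
  obtain ⟨v, hv⟩ : (u.filter fun v => dg H v ≤ 1).Nonempty := card_pos.1 (by omega)
  obtain ⟨v1, v2⟩ := mem_filter.1 hv
  have h3 : ∀ w ∈ u, dg H w ≤ 2 := by
    intro w hw
    by_contra k3
    have k4 : dg H w = 3 := by have := h.d3 w; omega
    refine h.ulema_no v1 hw (fun e => by rw [e] at v2; omega) k4 fun x hx => ?_
    have k5 := h.dg_eq v1
    have k6 : 0 < (univ.filter (fun x => v ∈ q x)).card :=
      card_pos.2 ⟨x, mem_filter.2 ⟨mem_univ x, hx⟩⟩
    omega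
  have e1 := UCtx.ulema_dc u univ q
  have e2 : ∑ w ∈ u, ((univ.filter (fun y => w ∈ q y)).card + if dg H w ≤ 1 then 1 else 0) ≤
      ∑ _w ∈ u, 1 := by
    refine sum_le_sum fun w hw => ?_
    have k5 := h.dg_eq hw
    have k6 := h3 w hw
    split_ifs <;> omega
  rw [sum_add_distrib, ← card_filter, ← card_eq_sum_ones, h.u5 u h.umem, ← e1,
    Fin.sum_univ_six] at e2
  unfold ud at s0 s1 s3 s4
  omega

end

theorem BD.a0_two {H : Finset (Finset V)} {t t' : V} {F : Finset (Finset (Finset V))}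
    (h : BD H t t' F) (ha : (xh H t t' F).card = 0) {Z : Finset (Finset V)} (hZ : Z ∈ F)
    {x y : Finset V} (hx : x ∈ star H t) (hy : y ∈ star H t) (hxy : x ≠ y) :
    dd Z x + dd Z y ≠ 0 := by
  intro k
  have h1 := h.hall {Z} (singleton_subset_iff.2 hZ) (singleton_nonempty Z)
  rw [card_eq_zero.1 ha, union_empty, card_singleton] at h1
  have h2 : nbh (star H t) {Z} ⊆ ((star H t).erase x).erase y := by
    intro e he
    obtain ⟨e1, Y, e2, e3⟩ := mem_filter.1 he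
    rw [mem_singleton.1 e2] at e3
    refine mem_erase.2 ⟨fun e4 => ?_, mem_erase.2 ⟨fun e4 => ?_, e1⟩⟩ <;> rw [e4] at e3 <;> omega
  have h3 := card_le_card h2
  have h4 : (star H t).card = 3 := h.ds.d1
  rw [card_erase_of_mem (mem_erase.2 ⟨hxy.symm, hy⟩), card_erase_of_mem hx, h4] at h3
  omega

theorem a0_comm (H : Finset (Finset V)) (t t' : V) (F : Finset (Finset (Finset V))) :
    xh H t' t F = xh H t t' F := by
  unfold xh
  rw [union_comm]

theorem a0_enum {s : Finset (Finset V)} (hs : s.card = 3) {u : Finset V} (hu : u.card = 5) :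
    ∃ p : Fin 3 → Finset V, Function.Injective p ∧ (∀ x, p x ∈ s) ∧ (∀ e ∈ s, ∃ x, e = p x) ∧
      (u ∩ p 1).card ≤ (u ∩ p 0).card ∧ (u ∩ p 2).card ≤ (u ∩ p 1).card ∧
      ∑ x ∈ s, (u ∩ x).card = (u ∩ p 0).card + (u ∩ p 1).card + (u ∩ p 2).card := by
  obtain ⟨p, h1, h2, h3, h4⟩ := exists_enum_mono hs fun x => 5 - (u ∩ x).card
  have b : ∀ x, (u ∩ p x).card ≤ 5 := fun x => hu ▸ card_le_card inter_subset_left
  refine ⟨p, h1, h2, h3, ?_, ?_, ?_⟩
  · have k := h4 0 1 (by decide)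
    have := b 0
    have := b 1
    omega
  · have k := h4 1 2 (by decide)
    have := b 1
    have := b 2
    omega
  · have e : s = univ.image p := by
      ext e
      rw [mem_image]
      exact ⟨fun k => (h3 e k).imp fun x l => ⟨mem_univ x, l.symm⟩,
        fun ⟨x, _, l⟩ => l ▸ h2 x⟩
    rw [e, sum_image fun x _ y _ l => h1 l, Fin.sum_univ_three]

theorem BD.a0_half [Infinite V] {H : Finset (Finset V)} {t t' : V}
    {F : Finset (Finset (Finset V))} (h : BD H t t' F) {u : Finset V}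
    (hu : ({u} : Finset (Finset V)) ∈ F) (ha : (xh H t t' F).card = 0)
    (hs : ∑ x ∈ star H t', (u ∩ x).card ≤ ∑ x ∈ star H t, (u ∩ x).card) : False := by
  obtain ⟨hF, -⟩ := h.facts
  rw [ha] at hF
  obtain ⟨W, hWe⟩ : ∃ W, F.erase {u} = {W} := card_eq_one.1 (by rw [card_erase_of_mem hu, hF])
  obtain ⟨hne, hW⟩ := mem_erase.1 (hWe ▸ mem_singleton_self W : W ∈ F.erase {u})
  have hsum : ∀ f : Finset (Finset V) → ℕ, ∑ Z ∈ F, f Z = f {u} + f W := fun f => by
    rw [← add_sum_erase F f hu, hWe, sum_singleton]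
  have hun : ∀ e, e ∈ un F ↔ e = u ∨ e ∈ W := by
    intro e
    rw [mem_un]
    constructor
    · rintro ⟨Z, hZ, k⟩
      by_cases e1 : Z = {u}
      · exact .inl (mem_singleton.1 (e1 ▸ k))
      · exact .inr (mem_singleton.1 (hWe ▸ mem_erase.2 ⟨e1, hZ⟩ : Z ∈ ({W} : Finset _)) ▸ k)
    · rintro (rfl | k)
      exacts [⟨_, hu, mem_singleton_self _⟩, ⟨W, hW, k⟩]
  have hcov : ∀ v, v ∈ cov (un F) ↔ v ∈ u ∪ cov W := by
    intro v
    simp only [mem_cov, hun, mem_union]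
    constructor
    · rintro ⟨e, rfl | k, k'⟩
      exacts [.inl k', .inr ⟨e, k, k'⟩]
    · rintro (k | ⟨e, k, k'⟩)
      exacts [⟨u, .inl rfl, k⟩, ⟨e, .inr k, k'⟩]
  have hu5 : u.card = 5 := h.bad.cc.u5 u (h.ds.famH.sub _ hu (mem_singleton_self u))
  have htau : tau W + 3 = tau H := by
    have := h.ds.tau2
    rw [h.ds.fam.tau_un, hsum, tau_singleton (card_pos.1 (by omega))] at this
    omega
  obtain ⟨p, hp, hp1, hp2, a1, a2, a3⟩ := a0_enum (s := star H t) h.ds.d1 hu5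
  obtain ⟨p', hp', hp1', hp2', b1, b2, b3⟩ := a0_enum (s := star H t') h.ds.d2 hu5
  have U := h.uctx hu hW hne (empty_subset H) (fun e he => absurd he (notMem_empty e))
    (fun e he => by
      by_cases k : e ∈ un F
      · exact ((hun e).1 k).imp_right .inl
      · exact absurd (card_eq_zero.1 ha ▸ mem_sdiff.2 ⟨he, k⟩) (notMem_empty e))
    (by rw [tau_empty]; omega) hp hp1 hp2 hp' hp1' hp2'
  have ha' : (xh H t' t F).card = 0 := by rw [a0_comm]; exact ha
  have c1 : ∀ {Z}, Z ∈ F → ∀ i j : Fin 3, i ≠ j → dd Z (p i) + dd Z (p j) ≠ 0 :=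
    fun hZ i j l => h.a0_two ha hZ (hp1 i) (hp1 j) fun e => l (hp e)
  have c2 : ∀ {Z}, Z ∈ F → ∀ i j : Fin 3, i ≠ j → dd Z (p' i) + dd Z (p' j) ≠ 0 :=
    fun hZ i j l => h.symm.a0_two ha' hZ (hp1' i) (hp1' j) fun e => l (hp' e)
  have du : ∀ x : Finset V, dd {u} x = (u ∩ x).card := fun x => by
    rw [dd, cov_singleton, inter_comm]
  have a4 : 1 ≤ (u ∩ p 1).card := by
    have := c1 hu 1 2 (by decide)
    rw [du, du] at this
    omega
  have b4 : 1 ≤ (u ∩ p' 1).card := by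
    have := c2 hu 1 2 (by decide)
    rw [du, du] at this
    omega
  rw [a3, b3] at hs
  obtain ⟨o1, o2, o3⟩ := h.ds.out
  obtain ⟨O, hO⟩ : ∃ O, O = ((cov H \ cov (un F)).erase t).erase t' := ⟨_, rfl⟩
  have mO : ∀ v, v ∈ O ↔ v ∈ cov H ∧ v ∉ u ∧ v ∉ cov W ∧ v ≠ t ∧ v ≠ t' := fun v => by
    rw [hO, mem_erase, mem_erase, mem_sdiff, hcov, mem_union, not_or]
    exact ⟨fun k => ⟨k.2.2.1, k.2.2.2.1, k.2.2.2.2, k.2.1, k.1⟩,
      fun k => ⟨k.2.2.2.2, k.2.2.2.1, k.1, k.2.1, k.2.2.1⟩⟩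
  have cO : (cov H \ cov (un F)).card = O.card + 2 := by
    rw [hO, ← card_erase_add_one o2, ← card_erase_add_one (mem_erase.2 ⟨o1.symm, o3⟩)]
  have l1 := h.close1 hW (h.pb0 hW)
  have g1 := a0_out U (h.room hW) a1 a2 a4 b1 b2 b4 hs
    ⟨c1 hW 0 1 (by decide), c1 hW 0 2 (by decide), c1 hW 1 2 (by decide)⟩
    ⟨c2 hW 0 1 (by decide), c2 hW 0 2 (by decide), c2 hW 1 2 (by decide)⟩ mO (by omega)
  have g2 := pb_node hu5 (a0_node U (a4.trans a1) a4 (b4.trans b1) b4)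
  have l2 := h.close2 hW hu hne g1 g2
  omega

theorem BD.a0 [Infinite V] {H : Finset (Finset V)} {t t' : V}
    {F : Finset (Finset (Finset V))} (h : BD H t t' F) {u : Finset V}
    (hu : ({u} : Finset (Finset V)) ∈ F) (ha : (xh H t t' F).card = 0) : False := by
  rcases le_total (∑ x ∈ star H t', (u ∩ x).card) (∑ x ∈ star H t, (u ∩ x).card) with k | k
  · exact h.a0_half hu ha k
  · exact h.symm.a0_half hu (by rw [a0_comm]; exact ha) k

end Pool.Agent.Work.MP_d266e7_co.C5.P24
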