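import Pool.Agent.Work.MP_d266e7_co.P24B.MaskDefs

/-!
The finite check for a double split with two pieces, one of them a single node with masks
`m0 ≤ … ≤ m4`; `o1`, `o2` are the masks of the outside vertices (zero if absent).
-/

namespace Pool.Agent.Work.MP_d266e7_co.C5.P24

/-- masks with at most two hosts -/
def a0u : List ℕ :=
  [0, 1, 2, 3, 4, 5, 6, 8, 9, 10, 12, 16, 17, 18, 20, 24, 32, 33, 34, 36, 40, 48]

/-- masks with at most three hosts, on both sides -/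
def a0o : List ℕ :=
  [9, 10, 11, 12, 13, 14, 17, 18, 19, 20, 21, 22, 25, 26, 28, 33, 34, 35, 36, 37, 38, 41, 42, 44,
   49, 50, 52]

/-- single gadgets -/
def a0s : List Sp :=
  [⟨8, 16, 32, 32, 0⟩, ⟨2, 4, 32, 32, 0⟩, ⟨1, 2, 4, 4, 0⟩, ⟨4, 32, 8, 16, 0⟩, ⟨4, 24, 32, 32, 0⟩,
   ⟨2, 24, 4, 4, 0⟩, ⟨1, 24, 32, 32, 0⟩, ⟨4, 24, 2, 2, 0⟩, ⟨2, 24, 16, 32, 0⟩,
   ⟨2, 24, 32, 32, 0⟩, ⟨4, 24, 1, 2, 0⟩, ⟨16, 16, 4, 4, 1⟩, ⟨4, 32, 1, 2, 0⟩, ⟨16, 3, 4, 3, 2⟩,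
   ⟨1, 16, 2, 8, 0⟩, ⟨32, 3, 24, 24, 0⟩, ⟨4, 3, 1, 8, 0⟩, ⟨3, 24, 32, 32, 0⟩, ⟨2, 32, 4, 16, 0⟩]

/-- double gadgets -/
def a0d : List (Sp × Sp) :=
  [(⟨1, 2, 4, 4, 0⟩, ⟨24, 24, 32, 32, 0⟩), (⟨4, 4, 2, 2, 0⟩, ⟨32, 32, 16, 16, 8⟩),
   (⟨16, 16, 8, 8, 32⟩, ⟨3, 3, 4, 4, 0⟩), (⟨8, 24, 32, 32, 16⟩, ⟨4, 4, 1, 1, 2⟩),
   (⟨16, 24, 32, 32, 8⟩, ⟨4, 4, 1, 1, 2⟩), (⟨2, 3, 4, 4, 1⟩, ⟨32, 32, 8, 8, 16⟩),
   (⟨4, 4, 1, 1, 0⟩, ⟨16, 24, 8, 8, 32⟩), (⟨16, 16, 8, 8, 32⟩, ⟨1, 3, 4, 4, 2⟩),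
   (⟨4, 4, 2, 2, 0⟩, ⟨8, 24, 16, 16, 32⟩), (⟨16, 24, 32, 32, 8⟩, ⟨2, 3, 4, 4, 1⟩),
   (⟨4, 4, 1, 1, 0⟩, ⟨32, 32, 16, 16, 8⟩), (⟨8, 24, 16, 16, 32⟩, ⟨1, 3, 2, 2, 4⟩),
   (⟨2, 2, 1, 1, 4⟩, ⟨8, 24, 32, 32, 0⟩), (⟨2, 2, 1, 1, 0⟩, ⟨32, 32, 16, 16, 8⟩)]

/-- bit `x` of `m` -/
def bt (m x : ℕ) : ℕ := (m.shiftRight x).land 1

/-- sum of two bits -/
def bt2 (a b x : ℕ) : ℕ := Nat.add (bt a x) (bt b x)

/-- `b` has two hosts and contains `a` -/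
def a0in (a b : ℕ) : Bool := Nat.blt 0 (b.land (b - 1)) && Nat.beq (a.land b) a

/-- a pair of masks that is excluded, or not in order -/
def a0bad (a b : ℕ) : Bool := Nat.blt b a || (a0in a b || a0in b a)

/-- lower bounds for atoms -/
def a0lo (d0 d1 d2 d3 d4 d5 e1 e2 S : ℕ) : ℕ :=
  cond (Nat.beq S 1) d0 (cond (Nat.beq S 2) d1 (cond (Nat.beq S 4) d2 (cond (Nat.beq S 8) d3
    (cond (Nat.beq S 16) d4 (cond (Nat.beq S 32) d5 (cond (Nat.beq S 3) e1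
      (cond (Nat.beq S 24) e2 0)))))))

/-- upper bounds for atoms -/
def a0up (e1 e2 S : ℕ) : ℕ :=
  cond (Nat.beq S 3) e1 (cond (Nat.beq S 24) e2
    (cond (Nat.ble 3 (bt S 0 + bt S 1 + bt S 2 + bt S 3 + bt S 4 + bt S 5)) 0
      5))

/-- a table for `gainV p q`, `p ≤ 4`, `q ≤ 8` -/
def gtab (p q : ℕ) : ℕ :=
  (Nat.shiftRight 817330649514601703740134425702598633927319168669974528 (Nat.add (Nat.mul 36 p) (Nat.mul 4 q))).land 15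

/-- gadgets inside one side; `r` is the number of vertices of the node on the third host -/
def a0side (n r x y z : ℕ) : Bool :=
  Nat.ble n (gtab y z) || (Nat.ble n (gtab x z) || (Nat.blt 0 r && (Nat.ble n (gtab x y) ||
    (Nat.ble n (gtab x (y + z)) || (Nat.ble n (gtab y (x + z)) || Nat.ble n (gtab z (x + y)))))))

/-- at most one of the three numbers is positive -/
def a0few (x y z : ℕ) : Bool :=
  Nat.beq (x + y) 0 || (Nat.beq (x + z) 0 || Nat.beq (y + z) 0)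

/-- the general test -/
def a0hard (L G G' : List ℕ) (n d0 d1 d2 d3 d4 d5 : ℕ) : Bool :=
  (L.any fun u => Nat.blt 0 (u.land (u - 1)) &&
    G'.any fun g => Nat.blt 0 (a0lo d0 d1 d2 d3 d4 d5 0 0 (Nat.xor 63 (u.lor g)))) ||
  (List.range (min d0 d1 + 1)).all fun e1 => void 63 L G (a0lo d0 d1 d2 d3 d4 d5 e1 0) 3 ||
  (List.range (min d3 d4 + 1)).all fun e2 => void 63 L G (a0lo d0 d1 d2 d3 d4 d5 e1 e2) 24 ||
    (a0s.any (one 63 L G (a0lo d0 d1 d2 d3 d4 d5 e1 e2) (a0up e1 e2) n) ||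
     a0d.any fun p => dbl 63 L G (a0lo d0 d1 d2 d3 d4 d5 e1 e2) (a0up e1 e2) n p.1 p.2)

/-- the value `d` with `d + c = 4` -/
def a0w (c : ℕ) (f : ℕ → Bool) : Bool := Nat.rec true (fun d _ => f d) (Nat.sub 5 c)

/-- the test for given outside vertices -/
def a0pat (m0 m1 m2 m3 m4 r0 r1 r2 r3 r4 r5 n o1 o2 : ℕ) : Bool :=
  a0w (Nat.add r0 (bt2 o1 o2 0)) fun d0 => a0w (Nat.add r1 (bt2 o1 o2 1)) fun d1 =>
  a0w (Nat.add r2 (bt2 o1 o2 2)) fun d2 => a0side n r2 d0 d1 d2 || (a0few d0 d1 d2 ||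
  a0w (Nat.add r3 (bt2 o1 o2 3)) fun d3 => a0w (Nat.add r4 (bt2 o1 o2 4)) fun d4 =>
  a0w (Nat.add r5 (bt2 o1 o2 5)) fun d5 => a0side n r5 d3 d4 d5 || (a0few d3 d4 d5 ||
    a0hard [m0, m1, m2, m3, m4] [m0, m1, m2, m3, m4, o1, o2, 7, 56] [7, 56, o1, o2] n
      d0 d1 d2 d3 d4 d5))

/-- two non-joint hosts of one side keep two vertices in the piece, whatever `o2` is -/
def a0pre (r x y z : ℕ) : Bool :=
  cond (Nat.ble z 1) (Nat.ble y 1 || Nat.ble x 1) (Nat.blt 0 r && (Nat.ble x 1 && Nat.ble y 1))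

/-- number of masks through host `x` -/
def a0r (m0 m1 m2 m3 m4 x : ℕ) : ℕ := bt m0 x + bt m1 x + bt m2 x + bt m3 x + bt m4 x

/-- the test for a given node -/
def a0node (m0 m1 m2 m3 m4 : ℕ) : Bool :=
  frc (a0r m0 m1 m2 m3 m4 0) fun r0 => frc (a0r m0 m1 m2 m3 m4 1) fun r1 => Nat.blt r0 r1 ||
  (Nat.beq r1 0 || frc (a0r m0 m1 m2 m3 m4 2) fun r2 => Nat.blt r1 r2 ||
  frc (a0r m0 m1 m2 m3 m4 3) fun r3 => frc (a0r m0 m1 m2 m3 m4 4) fun r4 => Nat.blt r3 r4 ||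
  (Nat.beq r4 0 || frc (a0r m0 m1 m2 m3 m4 5) fun r5 => Nat.blt r4 r5 ||
  (Nat.blt (r0 + r1 + r2) (r3 + r4 + r5) ||
    (a0pat m0 m1 m2 m3 m4 r0 r1 r2 r3 r4 r5 7 0 0 &&
    (a0o.all fun o1 => a0pat m0 m1 m2 m3 m4 r0 r1 r2 r3 r4 r5 4 o1 0 &&
      (a0pre r5 (r3 + bt o1 3) (r4 + bt o1 4) (r5 + bt o1 5) ||
      (a0pre r2 (r0 + bt o1 0) (r1 + bt o1 1) (r2 + bt o1 2) ||
      a0o.all fun o2 => Nat.blt o2 o1 || a0pat m0 m1 m2 m3 m4 r0 r1 r2 r3 r4 r5 1 o1 o2)))))))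

/-- the test for all nodes with first mask `m0` -/
def a0top (m0 : ℕ) : Bool :=
  a0u.all fun m1 => a0bad m0 m1 ||
  a0u.all fun m2 => a0bad m1 m2 || (a0bad m0 m2 ||
  a0u.all fun m3 => a0bad m2 m3 || (a0bad m1 m3 || (a0bad m0 m3 ||
  a0u.all fun m4 => a0bad m3 m4 || (a0bad m2 m4 || (a0bad m1 m4 || (a0bad m0 m4 ||
    a0node m0 m1 m2 m3 m4))))))

/-- the part of `a0pat` which depends on the row sums only -/
private def a0kz (r0 r1 r2 r3 r4 r5 n o1 o2 : ℕ) : Bool :=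
  a0w (Nat.add r0 (bt2 o1 o2 0)) fun d0 => a0w (Nat.add r1 (bt2 o1 o2 1)) fun d1 =>
  a0w (Nat.add r2 (bt2 o1 o2 2)) fun d2 => a0side n r2 d0 d1 d2 || (a0few d0 d1 d2 ||
  a0w (Nat.add r3 (bt2 o1 o2 3)) fun d3 => a0w (Nat.add r4 (bt2 o1 o2 4)) fun d4 =>
  a0w (Nat.add r5 (bt2 o1 o2 5)) fun d5 => a0side n r5 d3 d4 d5 || a0few d3 d4 d5)

private theorem a0k_w {c : ℕ} {f g : ℕ → Bool} (h : ∀ d, f d = true → g d = true) :
    a0w c f = true → a0w c g = true := by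
  unfold a0w
  cases Nat.sub 5 c with
  | zero => exact id
  | succ d => exact h d

private theorem a0k_or {a b c : Bool} (h : b = true → c = true) :
    (a || b) = true → (a || c) = true := by
  cases a
  · exact h
  · exact id

private theorem a0kz_spec (m0 m1 m2 m3 m4 : ℕ) {r0 r1 r2 r3 r4 r5 n o1 o2 : ℕ} :
    a0kz r0 r1 r2 r3 r4 r5 n o1 o2 = true →
      a0pat m0 m1 m2 m3 m4 r0 r1 r2 r3 r4 r5 n o1 o2 = true :=
  a0k_w fun _ => a0k_w fun _ => a0k_w fun _ => a0k_or (a0k_or (a0k_w fun _ => a0k_w fun _ =>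
    a0k_w fun _ => a0k_or fun h => by rw [h, Bool.true_or]))

/-- the first outside vertices which need the general test -/
private def a0k1 (r0 r1 r2 r3 r4 r5 : ℕ) : List ℕ :=
  a0o.filter fun o1 => !a0kz r0 r1 r2 r3 r4 r5 4 o1 0

/-- the second outside vertices which need the general test -/
private def a0k2 (r0 r1 r2 r3 r4 r5 o1 : ℕ) : List ℕ :=
  a0o.filter fun o2 => !(Nat.blt o2 o1 || a0kz r0 r1 r2 r3 r4 r5 1 o1 o2)

/-- the first outside vertices for which a second one is tried -/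
private def a0k3 (r0 r1 r2 r3 r4 r5 : ℕ) : List ℕ :=
  a0o.filter fun o1 => !(a0pre r5 (r3 + bt o1 3) (r4 + bt o1 4) (r5 + bt o1 5) ||
    (a0pre r2 (r0 + bt o1 0) (r1 + bt o1 1) (r2 + bt o1 2) ||
    (a0k2 r0 r1 r2 r3 r4 r5 o1).isEmpty))

private def a0kn (m0 m1 m2 m3 m4 r0 r1 r2 r3 r4 r5 : ℕ) : Bool :=
  a0pat m0 m1 m2 m3 m4 r0 r1 r2 r3 r4 r5 7 0 0 &&
    (((a0k1 r0 r1 r2 r3 r4 r5).all fun o1 => a0pat m0 m1 m2 m3 m4 r0 r1 r2 r3 r4 r5 4 o1 0) &&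
    (a0k3 r0 r1 r2 r3 r4 r5).all fun o1 => (a0k2 r0 r1 r2 r3 r4 r5 o1).all fun o2 =>
      a0pat m0 m1 m2 m3 m4 r0 r1 r2 r3 r4 r5 1 o1 o2)

private theorem a0k_filter {l : List ℕ} {p q : ℕ → Bool}
    (h : (l.filter fun x => !p x).all q = true) {x : ℕ} (hx : x ∈ l) : p x = true ∨ q x = true := by
  cases e : p x
  · exact Or.inr (List.all_eq_true.1 h x (List.mem_filter.2 ⟨hx, by rw [e]; rfl⟩))
  · exact Or.inl rfl

private theorem a0kn_spec {m0 m1 m2 m3 m4 r0 r1 r2 r3 r4 r5 : ℕ}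
    (h : a0kn m0 m1 m2 m3 m4 r0 r1 r2 r3 r4 r5 = true) :
    (a0pat m0 m1 m2 m3 m4 r0 r1 r2 r3 r4 r5 7 0 0 &&
    (a0o.all fun o1 => a0pat m0 m1 m2 m3 m4 r0 r1 r2 r3 r4 r5 4 o1 0 &&
      (a0pre r5 (r3 + bt o1 3) (r4 + bt o1 4) (r5 + bt o1 5) ||
      (a0pre r2 (r0 + bt o1 0) (r1 + bt o1 1) (r2 + bt o1 2) ||
      a0o.all fun o2 => Nat.blt o2 o1 ||
        a0pat m0 m1 m2 m3 m4 r0 r1 r2 r3 r4 r5 1 o1 o2)))) = true := by
  rw [a0kn, Bool.and_eq_true, Bool.and_eq_true] at h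
  obtain ⟨h0, h1, h3⟩ := h
  rw [h0, Bool.true_and, List.all_eq_true]
  intro o1 ho
  have key : ((a0k2 r0 r1 r2 r3 r4 r5 o1).all fun o2 =>
      a0pat m0 m1 m2 m3 m4 r0 r1 r2 r3 r4 r5 1 o1 o2) = true → (a0o.all fun o2 => Nat.blt o2 o1 ||
        a0pat m0 m1 m2 m3 m4 r0 r1 r2 r3 r4 r5 1 o1 o2) = true := fun k => by
    rw [List.all_eq_true]
    intro o2 h2
    rcases a0k_filter k h2 with e | e
    · exact a0k_or (a0kz_spec m0 m1 m2 m3 m4) e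
    · rw [e, Bool.or_true]
  rw [Bool.and_eq_true]
  refine ⟨(a0k_filter h1 ho).elim (a0kz_spec m0 m1 m2 m3 m4) id, ?_⟩
  rcases a0k_filter h3 ho with e | e
  · refine a0k_or (a0k_or fun e => key ?_) e
    rw [List.isEmpty_iff.1 e]
    rfl
  · rw [key e, Bool.or_true, Bool.or_true]

private def a0knode (m0 m1 m2 m3 m4 : ℕ) : Bool :=
  frc (a0r m0 m1 m2 m3 m4 0) fun r0 => frc (a0r m0 m1 m2 m3 m4 1) fun r1 => Nat.blt r0 r1 ||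
  (Nat.beq r1 0 || frc (a0r m0 m1 m2 m3 m4 2) fun r2 => Nat.blt r1 r2 ||
  frc (a0r m0 m1 m2 m3 m4 3) fun r3 => frc (a0r m0 m1 m2 m3 m4 4) fun r4 => Nat.blt r3 r4 ||
  (Nat.beq r4 0 || frc (a0r m0 m1 m2 m3 m4 5) fun r5 => Nat.blt r4 r5 ||
  (Nat.blt (r0 + r1 + r2) (r3 + r4 + r5) || a0kn m0 m1 m2 m3 m4 r0 r1 r2 r3 r4 r5)))

private theorem a0k_frc {n : ℕ} {f g : ℕ → Bool} (h : ∀ d, f d = true → g d = true) :
    frc n f = true → frc n g = true := by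
  cases n with
  | zero => exact h 0
  | succ d => exact h (d + 1)

private theorem a0knode_spec {m0 m1 m2 m3 m4 : ℕ} :
    a0knode m0 m1 m2 m3 m4 = true → a0node m0 m1 m2 m3 m4 = true :=
  a0k_frc fun _ => a0k_frc fun _ => a0k_or (a0k_or (a0k_frc fun _ => a0k_or (a0k_frc fun _ =>
    a0k_frc fun _ => a0k_or (a0k_or (a0k_frc fun _ => a0k_or (a0k_or a0kn_spec))))))

/-- the masks of `l` which may follow `m` -/
private def a0kf (m : ℕ) (l : List ℕ) : List ℕ := l.filter fun x => !a0bad m x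

private theorem a0k_chk : (a0u.all fun m0 => (a0kf m0 a0u).all fun m1 =>
    (a0kf m1 (a0kf m0 a0u)).all fun m2 => (a0kf m2 (a0kf m1 (a0kf m0 a0u))).all fun m3 =>
    (a0kf m3 (a0kf m2 (a0kf m1 (a0kf m0 a0u)))).all fun m4 => a0knode m0 m1 m2 m3 m4) = true := by
  decide +kernel

private theorem a0kf_mem {m x : ℕ} {l : List ℕ} (hx : x ∈ l) (h : a0bad m x = false) :
    x ∈ a0kf m l :=
  List.mem_filter.2 ⟨hx, by rw [h]; rfl⟩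

private theorem a0k_or' {a b : Bool} (h : a = false → b = true) : (a || b) = true := by
  cases a
  · exact h rfl
  · rfl

theorem a0_chk : a0u.all a0top = true := by
  have k := a0k_chk
  simp only [List.all_eq_true] at k
  refine List.all_eq_true.2 fun m0 h0 => List.all_eq_true.2 fun m1 h1 => a0k_or' fun e01 =>
    List.all_eq_true.2 fun m2 h2 => a0k_or' fun e12 => a0k_or' fun e02 =>
    List.all_eq_true.2 fun m3 h3 => a0k_or' fun e23 => a0k_or' fun e13 => a0k_or' fun e03 =>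
    List.all_eq_true.2 fun m4 h4 => a0k_or' fun e34 => a0k_or' fun e24 => a0k_or' fun e14 =>
    a0k_or' fun e04 => a0knode_spec ?_
  exact k m0 h0 m1 (a0kf_mem h1 e01) m2 (a0kf_mem (a0kf_mem h2 e02) e12) m3
    (a0kf_mem (a0kf_mem (a0kf_mem h3 e03) e13) e23) m4
    (a0kf_mem (a0kf_mem (a0kf_mem (a0kf_mem h4 e04) e14) e24) e34)

end Pool.Agent.Work.MP_d266e7_co.C5.P24
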