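import Pool.Agent.Work.MP_d266e7_co.P24B.A0Num
import Mathlib.Data.Fin.Tuple.Sort
import Mathlib.Algebra.BigOperators.Fin

/-!
The single node `u`, the piece `W` and six hosts.
`a0_mc`: `hL` is `UCtx.ulem_cover` with `D = ∅`; `hG`: a mask `mk q w` is met by `w`, the masks
7 and 56 by `tv true`, `tv false` (`qt`), the mask 0 by the empty set. `hlo`: `atom W q (2 ^ x)`
is `q x ∩ cov W`. `hup`: an atom with three hosts is empty (a vertex of `cov W` on three hosts has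
degree four, `dg_add`), an atom with one host lies in that host (`nz_host`).
`a0_side`: `UCtx.nj`, `sgad11`, `sgad12`, `pb_gain` (`ihv5`), `PB.mono`.
`a0_core`: enumerate `u` with increasing masks (`exists_enum_mono`), `m i = mk q (v i)`;
`mem_a0u` by `UCtx.dg_eq`; `a0bad` is false by `a0in_elim`, `UCtx.ulema_no`, `UCtx.dg_eq`;
`ud u q x = a0r … x`; put `r x = a0r … x` and `d x = if h : x < 6 then dd W (q ⟨x, h⟩) else 0`;
`a0_pat`, `a0pat_elim` (`UCtx.four`), `a0side_elim` with `a0_side`, `a0few_elim`, `a0hard_pb` with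
`e1 = |atom W q 3|`, `e2 = |atom W q 24|` and `a0_mc`.
-/

namespace Pool.Agent.Work.MP_d266e7_co.C5.P24

open Finset

variable {V : Type} [DecidableEq V]

theorem exists_enum_mono {α : Type} [DecidableEq α] {s : Finset α} {k : ℕ} (h : s.card = k)
    (f : α → ℕ) : ∃ p : Fin k → α, Function.Injective p ∧ (∀ x, p x ∈ s) ∧
      (∀ e ∈ s, ∃ x, e = p x) ∧ ∀ x y, x ≤ y → f (p x) ≤ f (p y) := by
  obtain ⟨q, h1, h2, h3⟩ := exists_enum h
  refine ⟨q ∘ Tuple.sort (f ∘ q), h1.comp (Tuple.sort _).injective, fun x => h2 _, fun e he => ?_,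
    fun x y hxy => Tuple.monotone_sort (f ∘ q) hxy⟩
  obtain ⟨x, rfl⟩ := h3 e he
  exact ⟨(Tuple.sort (f ∘ q)).symm x, by simp⟩

theorem a0core_cond {S c a b k : ℕ} (h1 : S = c → a ≤ k) (h2 : b ≤ k) :
    cond (Nat.beq S c) a b ≤ k := by
  cases h : Nat.beq S c
  · exact h2
  · exact h1 (Nat.eq_of_beq_eq_true h)

theorem a0core_cond' {S c a b k : ℕ} (h1 : S = c → k ≤ a) (h2 : k ≤ b) :
    k ≤ cond (Nat.beq S c) a b := by
  cases h : Nat.beq S c
  · exact h2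
  · exact h1 (Nat.eq_of_beq_eq_true h)

theorem a0core_cnt (m : ℕ) : bt m 0 + bt m 1 + bt m 2 + bt m 3 + bt m 4 + bt m 5 =
    (univ.filter fun x : Fin 6 => m.testBit x = true).card := by
  rw [card_filter, Fin.sum_univ_six]
  simp only [bt_eq]
  rfl

theorem a0core_mk (q : Fin 6 → Finset V) (v : V) :
    bt (mk q v) 0 + bt (mk q v) 1 + bt (mk q v) 2 + bt (mk q v) 3 + bt (mk q v) 4 +
      bt (mk q v) 5 = (univ.filter fun x : Fin 6 => v ∈ q x).card := by
  rw [a0core_cnt]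
  simp only [mk_bit]

theorem a0core_lo (W : Finset (Finset V)) (q : Fin 6 → Finset V) (x : Fin 6) :
    dd W (q x) ≤ (atom W q (2 ^ (x : ℕ))).card := by
  refine card_le_card fun v hv => mem_atom.2 ⟨(mem_inter.1 hv).2, fun y hy => ?_⟩
  rw [Nat.testBit_two_pow, decide_eq_true_eq] at hy
  rw [← Fin.ext hy]
  exact (mem_inter.1 hv).1

theorem a0core_up (W : Finset (Finset V)) (q : Fin 6 → Finset V) {S : ℕ} (x : Fin 6)
    (hx : S.testBit x = true) : (atom W q S).card ≤ dd W (q x) :=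
  card_le_card fun _ hv => mem_inter.2 ⟨(mem_atom.1 hv).2 x hx, (mem_atom.1 hv).1⟩

theorem a0core_ud {u : Finset V} (q : Fin 6 → Finset V) {p : Fin 5 → V}
    (h1 : Function.Injective p) (h2 : ∀ i, p i ∈ u) (h3 : ∀ e ∈ u, ∃ i, e = p i) (x : Fin 6) :
    ud u q x = a0r (mk q (p 0)) (mk q (p 1)) (mk q (p 2)) (mk q (p 3)) (mk q (p 4)) x := by
  have e : u ∩ q x = (univ.filter fun i => p i ∈ q x).image p := by
    ext v
    simp only [mem_inter, mem_image, mem_filter, mem_univ, true_and]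
    constructor
    · rintro ⟨a, b⟩
      obtain ⟨i, rfl⟩ := h3 v a
      exact ⟨i, b, rfl⟩
    · rintro ⟨i, b, rfl⟩
      exact ⟨h2 i, b⟩
  rw [ud, e, card_image_of_injective _ h1, card_filter, Fin.sum_univ_five, a0r]
  simp only [bt_eq, mk_bit]

section

variable {H : Finset (Finset V)} {tv : Bool → V} {u : Finset V} {W : Finset (Finset V)}
  {q : Fin 6 → Finset V}

theorem a0core_three (h : UCtx H tv u W ∅ q) {v : V} (hv : v ∈ cov W) :
    (univ.filter fun x : Fin 6 => v ∈ q x).card ≤ 2 := by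
  have h1 := dg_add (N := (univ.filter fun x : Fin 6 => v ∈ q x).image q) h.wsub
    (fun e he => by
      obtain ⟨x, -, rfl⟩ := mem_image.1 he
      exact h.qmem x)
    (disjoint_right.2 fun e he => by
      obtain ⟨x, -, rfl⟩ := mem_image.1 he
      exact h.qW x) v
  have h2 : ((univ.filter fun x : Fin 6 => v ∈ q x).image q).card ≤
      dg ((univ.filter fun x : Fin 6 => v ∈ q x).image q) v := by
    refine card_le_card fun e he => mem_star.2 ⟨he, ?_⟩
    obtain ⟨x, hx, rfl⟩ := mem_image.1 he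
    exact (mem_filter.1 hx).2
  rw [card_image_of_injective _ h.qinj] at h2
  have h3 := dg_pos.2 hv
  have h4 := h.d3 v
  omega

theorem a0core_G (q : Fin 6 → Finset V) {g : ℕ} (h : g = 0 ∨ ∃ w, g = mk q w) :
    ∃ D : Finset V, D.card ≤ 1 ∧ ∀ x : Fin 6, g.testBit x = true → ∃ v ∈ q x, v ∈ D := by
  rcases h with rfl | ⟨w, rfl⟩
  · exact ⟨∅, by simp, fun x hx => by simp at hx⟩
  · exact ⟨{w}, by simp, fun x hx => ⟨w, (mk_bit q w x).1 hx, mem_singleton_self w⟩⟩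

theorem a0core_side (h : UCtx H tv u W ∅ q) {g : ℕ} (b : Bool)
    (hg : ∀ x : Fin 6, g.testBit x = true → side x = b) :
    ∃ D : Finset V, D.card ≤ 1 ∧ ∀ x : Fin 6, g.testBit x = true → ∃ v ∈ q x, v ∈ D :=
  ⟨{tv b}, by simp, fun x hx => ⟨tv b, hg x hx ▸ h.qt x, mem_singleton_self _⟩⟩

theorem a0_mc (h : UCtx H tv u W ∅ q) (hr : ∃ v ∈ cov W, dg W v < dg H v) {v : Fin 5 → V}
    (hv : ∀ i, v i ∈ u) {o1 o2 : ℕ} (h1 : o1 = 0 ∨ ∃ w, o1 = mk q w)
    (h2 : o2 = 0 ∨ ∃ w, o2 = mk q w) {e1 e2 : ℕ} (k1 : e1 ≤ (atom W q 3).card)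
    (k2 : e2 ≤ (atom W q 24).card) :
    MkC H W q [mk q (v 0), mk q (v 1), mk q (v 2), mk q (v 3), mk q (v 4)]
      [mk q (v 0), mk q (v 1), mk q (v 2), mk q (v 3), mk q (v 4), o1, o2, 7, 56]
      (a0lo (dd W (q 0)) (dd W (q 1)) (dd W (q 2)) (dd W (q 3)) (dd W (q 4)) (dd W (q 5)) e1 e2)
      (a0up (atom W q 3).card (atom W q 24).card) := by
  refine ⟨h.wcc, h.wsub, h.d3, hr, h.qmem, h.qinj, h.qW, ?_, ?_, fun S => ?_, fun S hS => ?_⟩
  · have k : ∀ i, ∀ C, Hits C W → C.card ≤ tau W + 1 →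
        (∀ x : Fin 6, (mk q (v i)).testBit x = true ∨ ∃ v ∈ q x, v ∈ C) → False := by
      intro i C hC hc hq
      have := h.ulem_cover (D := ∅) hC (hv i) fun x => (hq x).imp (mk_bit q _ x).1
        fun ⟨a, b, c⟩ => ⟨a, b, Or.inl c⟩
      rw [card_empty] at this
      omega
    intro m hm
    simp only [List.mem_cons, List.not_mem_nil, or_false] at hm
    rcases hm with rfl | rfl | rfl | rfl | rfl <;> exact k _
  · intro m hm
    simp only [List.mem_cons, List.not_mem_nil, or_false] at hm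
    rcases hm with rfl | rfl | rfl | rfl | rfl | rfl | rfl | rfl | rfl
    exacts [a0core_G q (Or.inr ⟨_, rfl⟩), a0core_G q (Or.inr ⟨_, rfl⟩),
      a0core_G q (Or.inr ⟨_, rfl⟩), a0core_G q (Or.inr ⟨_, rfl⟩), a0core_G q (Or.inr ⟨_, rfl⟩),
      a0core_G q h1, a0core_G q h2, a0core_side h true (by decide),
      a0core_side h false (by decide)]
  · refine a0core_cond (fun e => ?_) (a0core_cond (fun e => ?_) (a0core_cond (fun e => ?_)
      (a0core_cond (fun e => ?_) (a0core_cond (fun e => ?_) (a0core_cond (fun e => ?_)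
      (a0core_cond (fun e => ?_) (a0core_cond (fun e => ?_) (Nat.zero_le _)))))))) <;> subst e
    exacts [a0core_lo W q 0, a0core_lo W q 1, a0core_lo W q 2, a0core_lo W q 3, a0core_lo W q 4,
      a0core_lo W q 5, k1, k2]
  · refine a0core_cond' (fun e => by rw [e]) (a0core_cond' (fun e => by rw [e]) ?_)
    cases hb : Nat.ble 3 (bt S 0 + bt S 1 + bt S 2 + bt S 3 + bt S 4 + bt S 5)
    · obtain ⟨x, hx⟩ := nz_host hS
      exact ((a0core_up W q x hx).trans (dd_le _ _)).trans (h.u5 _ (h.qmem x)).le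
    · have h3 := Nat.le_of_ble_eq_true hb
      rw [a0core_cnt] at h3
      refine (card_eq_zero.2 (eq_empty_of_forall_notMem fun w hw => ?_)).le
      obtain ⟨a, b⟩ := mem_atom.1 hw
      have h4 := a0core_three h a
      have h5 : (univ.filter fun x : Fin 6 => S.testBit x = true).card ≤
          (univ.filter fun x : Fin 6 => w ∈ q x).card :=
        card_le_card fun x hx => mem_filter.2 ⟨mem_univ _, b x (mem_filter.1 hx).2⟩
      omega

theorem a0_side [Infinite V] (h : UCtx H tv u W ∅ q) (hr : ∃ v ∈ cov W, dg W v < dg H v)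
    {x y z : Fin 6} (ht : Tri x y z) (hx : 1 ≤ ud u q x) (hy : 1 ≤ ud u q y) {n : ℕ}
    (hn : n ≤ gainV (dd W (q y)) (dd W (q z)) ∨ n ≤ gainV (dd W (q x)) (dd W (q z)) ∨
      (1 ≤ ud u q z ∧ (n ≤ gainV (dd W (q x)) (dd W (q y)) ∨
        n ≤ gainV (dd W (q x)) (dd W (q y) + dd W (q z)) ∨
        n ≤ gainV (dd W (q y)) (dd W (q x) + dd W (q z)) ∨
        n ≤ gainV (dd W (q z)) (dd W (q x) + dd W (q y))))) : PB H W 5 n := by
  have g : ∀ p r, SGad H W p r → n ≤ gainV p r → PB H W 5 n := fun p r a b =>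
    (pb_gain (ihv5 W) h.wcc h.wsub h.d3 hr a).mono b
  have g1 : ∀ a b, NJ W (q a) (q b) → SGad H W (dd W (q a)) (dd W (q b)) := fun a b k =>
    sgad11 h.wsub (h.qmem a) (h.qmem b) (h.qW a) (h.qW b) k
  have g2 : ∀ a b c, NJ W (q a) (q b) → NJ W (q a) (q c) → NJ W (q b) (q c) →
      SGad H W (dd W (q a)) (dd W (q b) + dd W (q c)) := fun a b c k1 k2 k3 =>
    sgad12 h.wcc h.wsub (h.qmem a) (h.qmem b) (h.qmem c) (h.qW a) (h.qW b) (h.qW c) k1 k2 k3
  obtain ⟨t1, t2, t3, t4, t5⟩ := id ht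
  have nyz : NJ W (q y) (q z) := h.nj ⟨t3, t1.symm, t2.symm, t4.symm.trans t5, t4.symm⟩ hx
  have nxz : NJ W (q x) (q z) := h.nj ⟨t2, t1, t3.symm, t5, t4⟩ hy
  rcases hn with k | k | ⟨hz, k⟩
  · exact g _ _ (g1 _ _ nyz) k
  · exact g _ _ (g1 _ _ nxz) k
  have nxy : NJ W (q x) (q y) := h.nj ht hz
  rcases k with k | k | k | k
  · exact g _ _ (g1 _ _ nxy) k
  · exact g _ _ (g2 _ _ _ nxy nxz nyz) k
  · exact g _ _ (g2 _ _ _ nxy.symm nyz nxz) k
  · exact g _ _ (g2 _ _ _ nxz.symm nyz.symm nxy) k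

theorem a0core_in (h : UCtx H tv u W ∅ q) {v w : V} (hv : v ∈ u) (hw : w ∈ u) (hvw : v ≠ w) :
    a0in (mk q v) (mk q w) = false := by
  cases e : a0in (mk q v) (mk q w)
  · rfl
  · obtain ⟨a, b⟩ := a0in_elim (mk_lt q w) e
    rw [a0core_mk] at a
    have c := h.dg_eq hw
    have d := h.d3 w
    exact (h.ulema_no hv hw hvw (by omega) fun x hx =>
      (mk_bit q w x).1 (b x ((mk_bit q v x).2 hx))).elim

theorem a0_core [Infinite V] (h : UCtx H tv u W ∅ q) (hr : ∃ v ∈ cov W, dg W v < dg H v)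
    (s1 : ud u q 1 ≤ ud u q 0) (s2 : ud u q 2 ≤ ud u q 1) (s3 : 1 ≤ ud u q 1)
    (s4 : ud u q 4 ≤ ud u q 3) (s5 : ud u q 5 ≤ ud u q 4) (s6 : 1 ≤ ud u q 4)
    (s7 : ud u q 3 + ud u q 4 + ud u q 5 ≤ ud u q 0 + ud u q 1 + ud u q 2)
    (w1 : dd W (q 0) + dd W (q 1) ≠ 0 ∧ dd W (q 0) + dd W (q 2) ≠ 0 ∧ dd W (q 1) + dd W (q 2) ≠ 0)
    (w2 : dd W (q 3) + dd W (q 4) ≠ 0 ∧ dd W (q 3) + dd W (q 5) ≠ 0 ∧ dd W (q 4) + dd W (q 5) ≠ 0)
    {n o1 o2 : ℕ} (h1 : o1 = 0 ∨ ∃ w, o1 = mk q w) (h2 : o2 = 0 ∨ ∃ w, o2 = mk q w)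
    (ho : (n = 7 ∧ o1 = 0 ∧ o2 = 0) ∨ (n = 4 ∧ o1 ∈ a0o ∧ o2 = 0) ∨
      (n = 1 ∧ o1 ∈ a0o ∧ o2 ∈ a0o ∧ o1 ≤ o2))
    (hd : ∀ x : Fin 6, dl tv u W q x = bt o1 x + bt o2 x) : PB H W 5 n := by
  obtain ⟨p, p1, p2, p3, p4⟩ := exists_enum_mono (h.u5 u h.umem) (mk q)
  have hm : ∀ i, mk q (p i) ∈ a0u := fun i => mem_a0u (mk_lt q _) (by
    have c := h.dg_eq (p2 i)
    have d := h.d3 (p i)
    rw [a0core_mk]
    omega)
  have hb : ∀ i j, i < j → a0bad (mk q (p i)) (mk q (p j)) = false := by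
    intro i j hij
    have a : p i ≠ p j := fun e => hij.ne (p1 e)
    have b : Nat.blt (mk q (p j)) (mk q (p i)) = false := by
      cases e : Nat.blt (mk q (p j)) (mk q (p i))
      · rfl
      · exact absurd (p4 i j hij.le) (Nat.not_le.2 (Nat.blt_eq.mp e))
    rw [a0bad, b, a0core_in h (p2 i) (p2 j) a, a0core_in h (p2 j) (p2 i) a.symm]
    rfl
  obtain ⟨r, hr'⟩ : ∃ r : ℕ → ℕ, ∀ x,
      r x = a0r (mk q (p 0)) (mk q (p 1)) (mk q (p 2)) (mk q (p 3)) (mk q (p 4)) x :=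
    ⟨_, fun _ => rfl⟩
  have hu : ∀ x : Fin 6, ud u q x = r x := fun x => (a0core_ud q p1 p2 p3 x).trans (hr' x).symm
  have r0 : ud u q 0 = r 0 := hu 0
  have r1 : ud u q 1 = r 1 := hu 1
  have r2 : ud u q 2 = r 2 := hu 2
  have r3 : ud u q 3 = r 3 := hu 3
  have r4 : ud u q 4 = r 4 := hu 4
  have r5 : ud u q 5 = r 5 := hu 5
  have hp := a0_pat (m := fun i => mk q (p i)) hm hb hr' (by omega) (by omega) (by omega)
    (by omega) (by omega) (by omega) (by omega) ho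
  have h4 : ∀ x, dd W (q x) ≤ 4 := fun x => by
    have := h.four x
    omega
  have he := a0pat_elim (d := fun x => if h : x < 6 then dd W (q ⟨x, h⟩) else 0) hp
    (fun x hx => by
      have a := h.four ⟨x, hx⟩
      have b := hd ⟨x, hx⟩
      have c := hu ⟨x, hx⟩
      simp only [dif_pos hx] at b c ⊢
      omega)
  change a0side n (r 2) (dd W (q 0)) (dd W (q 1)) (dd W (q 2)) = true ∨
    a0few (dd W (q 0)) (dd W (q 1)) (dd W (q 2)) = true ∨
    a0side n (r 5) (dd W (q 3)) (dd W (q 4)) (dd W (q 5)) = true ∨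
    a0few (dd W (q 3)) (dd W (q 4)) (dd W (q 5)) = true ∨
    a0hard _ _ _ n (dd W (q 0)) (dd W (q 1)) (dd W (q 2)) (dd W (q 3)) (dd W (q 4))
      (dd W (q 5)) = true at he
  rcases he with k | k | k | k | k
  · exact a0_side h hr (by unfold Tri; decide) (s3.trans s1) s3
      (r2 ▸ a0side_elim (h4 0) (h4 1) (h4 2) k)
  · exact ((a0few_elim k).elim w1.1 fun a => a.elim w1.2.1 w1.2.2).elim
  · exact a0_side h hr (by unfold Tri; decide) (s6.trans s4) s6
      (r5 ▸ a0side_elim (h4 3) (h4 4) (h4 5) k)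
  · exact ((a0few_elim k).elim w2.1 fun a => a.elim w2.2.1 w2.2.2).elim
  · refine a0hard_pb (q := q) (e1 := (atom W q 3).card) (e2 := (atom W q 24).card) ?_
      (le_min (a0core_up W q 0 (by decide)) (a0core_up W q 1 (by decide)))
      (le_min (a0core_up W q 3 (by decide)) (a0core_up W q 4 (by decide)))
      (fun e1 k1 e2 k2 => a0_mc h hr p2 h1 h2 k1 k2) k
    intro g hg
    simp only [List.mem_cons, List.not_mem_nil, or_false] at hg ⊢
    rcases hg with rfl | rfl | rfl | rfl <;> simp only [true_or, or_true]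

end

end Pool.Agent.Work.MP_d266e7_co.C5.P24
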