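import Pool.Agent.Work.MP_d266e7_co.P24B.BU1

/-!
Gains of single and double gadgets.
`gx_of`: `gU` is one of three values. Choose subsets `A0 ⊆ A`, `B0 ⊆ B` of the sizes (4,4), (4,3),
(4,2), (3,3) with one common vertex (`exists_ear_out` with `S = cov H`, `hiA_one`; a set of at most
three vertices is safe, `safe_small`), (2,2) with three (`hiA_two`), or (3,3), (3,2), (2,3) with
two (`hiA_nf`); `Ear.new_card` counts the new vertices. Compare `P24/GainV.lean`.
`ear_vb`: `t1` for `insert a (insert b W)`, as `gainv_ear`.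
`pb_single`: if the gain is zero, `pb_zero` (`ihv5`); else `gx_of`, `ear_vb` with `d = dg H`,
`hi_mono`.
`pb_double`: compare `gain_double` in `C5/Gain.lean`. If the second gain is zero use `pb_single`.
Take `a`, `b` from `gx_of`, `X = insert a (insert b W)`, `H' = insert a (insert b H)`.
`gd_lift`: `GD H' X A' B'`: a transversal of `X` of size `tau W + 1` lies in `cov W` (`hcc`) or
has at most `tau W` vertices there; a pair of `X` with three common vertices and `sd` inside
`cov W` lies in `W` (a common vertex of `a`, `b` is new, and `|a ∩ b| ≤ 2`); `a`, `b` are not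
inside `cov W`. Then `gx_of` for `X`, and `ear_vb` for `X` with
`d = fun v => if v ∈ cov W then dg H v else dg X v`; `tt X d` is at least `tt W (dg H)` plus the
two terms of `a`, `b` (`Ear.earhi_priv`-like count, the private vertices are new).
-/

namespace Pool.Agent.Work.MP_d266e7_co.C5.P24

open Finset

variable {V : Type} [DecidableEq V]

theorem bgain_sub [Infinite V] {H W : Finset (Finset V)} (hW : CC W) {A B : Finset V}
    {sa sb nf : Bool} (h : GD H W A B sa sb nf) {p q k : ℕ} (hp : p ≤ A.card) (hq : q ≤ B.card)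
    (h1 : 1 ≤ p) (h2 : 1 ≤ q) (hk : 1 ≤ k) (h3 : p + k ≤ 5) (h4 : q + k ≤ 5) :
    ∃ a b : Finset V, Ear W a b ∧ a ∩ cov W ⊆ A ∧ b ∩ cov W ⊆ B ∧ dd W a = p ∧ dd W b = q ∧
      (a ∩ b).card = k ∧ ∀ v ∈ a ∪ b, v ∈ cov H → v ∈ cov W := by
  obtain ⟨A0, a1, rfl⟩ := exists_subset_card_eq hp
  obtain ⟨B0, b1, rfl⟩ := exists_subset_card_eq hq
  obtain ⟨a, b, e, rfl, rfl, k1, k2⟩ := exists_ear_out hW (cov H) (a1.trans h.hA) (b1.trans h.hB)
    (h.cr.mono a1 b1) h1 h2 hk h3 h4
  exact ⟨a, b, e, a1, b1, rfl, rfl, k1, k2⟩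

theorem bgain_one [Infinite V] {H W : Finset (Finset V)} (hW : CC W) {A B : Finset V}
    {sa sb nf ta tb : Bool} (h : GD H W A B sa sb nf) (h2 : ∀ v ∈ A ∪ B, dg W v ≤ 2)
    {p q p' q' g : ℕ} (hp : p' ≤ A.card) (hq : q' ≤ B.card)
    (s1 : ta = true → ∀ A0 ⊆ A, A0.card ≤ p' → Safe H W A0)
    (s2 : tb = true → ∀ B0 ⊆ B, B0.card ≤ q' → Safe H W B0)
    (k : p ≤ p' ∧ q ≤ q' ∧ 1 ≤ p ∧ 1 ≤ q ∧ p ≤ 4 ∧ q ≤ 4)
    (hg : (g + (if ta then 0 else 1) + if tb then 0 else 1) + 16 ≤
      3 * (p + q) + (if p ≤ 2 then 1 else 0) + if q ≤ 2 then 1 else 0) : GX H W A B g := by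
  obtain ⟨a, b, e, a1, b1, rfl, rfl, k1, k2⟩ :=
    bgain_sub (p := p) (q := q) hW h (by omega) (by omega) (by omega) (by omega) le_rfl (by omega)
      (by omega)
  have k3 := e.hiA_one k2 k1 (fun v hv => by
    by_cases c : v ∈ cov W
    · exact h2 v (union_subset_union a1 b1 (by
        rw [← union_inter_distrib_right]
        exact mem_inter.2 ⟨hv, c⟩))
    · rw [gain_out c]
      omega) (fun c => s1 c _ a1 k.1) fun c => s2 c _ b1 k.2.1
  have k4 := e.new_card
  refine ⟨a, b, e, a1, b1, fun _ => by omega, ?_⟩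
  rw [k1] at k4 ⊢
  generalize (if ta then 0 else 1 : ℕ) = x at hg k3
  generalize (if tb then 0 else 1 : ℕ) = y at hg k3
  split_ifs at hg ⊢ <;> omega

theorem bgain_v [Infinite V] {H W : Finset (Finset V)} (hW : CC W) {A B : Finset V}
    {sa sb nf ta tb : Bool} (h : GD H W A B sa sb nf) (h2 : ∀ v ∈ A ∪ B, dg W v ≤ 2)
    {p q g : ℕ} (hp : p ≤ A.card) (hq : q ≤ B.card)
    (s1 : ta = true → ∀ A0 ⊆ A, A0.card ≤ p → Safe H W A0)
    (s2 : tb = true → ∀ B0 ⊆ B, B0.card ≤ q → Safe H W B0) (h1 : 1 ≤ g)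
    (hg : (g + (if ta then 0 else 1) + if tb then 0 else 1) ≤ gainV p q) : GX H W A B g := by
  have key := fun p0 q0 => bgain_one (p := p0) (q := q0) (g := g) hW h h2 hp hq s1 s2
  generalize (if ta then 0 else 1 : ℕ) = x at hg key
  generalize (if tb then 0 else 1 : ℕ) = y at hg key
  unfold gainV at hg
  split_ifs at hg with c1 c2 c3 c4 c5
  · exact key 4 4 (by omega) (by norm_num; omega)
  · rcases c2 with c | c
    · exact key 4 3 (by omega) (by norm_num; omega)
    · exact key 3 4 (by omega) (by norm_num; omega)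
  · rcases c3 with c | c
    · exact key 4 2 (by omega) (by norm_num; omega)
    · exact key 2 4 (by omega) (by norm_num; omega)
  · exact key 3 3 (by omega) (by norm_num; omega)
  · obtain ⟨a, b, e, a1, b1, k5, k6, k1, -⟩ := bgain_sub (p := 2) (q := 2) (k := 3) hW h
      (by omega) (by omega) (by omega) (by omega) (by omega) le_rfl le_rfl
    have k3 := e.hiA_two (H := H) k5.le k6.le
    have k4 := e.new_card
    exact ⟨a, b, e, a1, b1, fun _ => by omega, by omega⟩
  · omega

theorem bgain_nf [Infinite V] {H W : Finset (Finset V)} (hW : CC W) {A B : Finset V}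
    {sa sb : Bool} (h : GD H W A B sa sb true) {p q g : ℕ}
    (k : p ≤ A.card ∧ q ≤ B.card ∧ 1 ≤ p ∧ 1 ≤ q ∧ p ≤ 3 ∧ q ≤ 3 ∧ g + 13 ≤ 3 * (p + q)) :
    GX H W A B g := by
  obtain ⟨a, b, e, a1, b1, k5, k6, k1, k2⟩ := bgain_sub (p := p) (q := q) (k := 2) hW h
    (by omega) (by omega) (by omega) (by omega) (by omega) (by omega) (by omega)
  have k3 := e.hiA_nf k2 k1 fun c hc k => h.nf rfl c hc (k.trans (union_subset_union a1 b1))
  have k4 := e.new_card
  exact ⟨a, b, e, a1, b1, fun _ => k1.le, by omega⟩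

theorem gx_of [Infinite V] {H W : Finset (Finset V)} (hW : CC W) {A B : Finset V}
    {sa sb nf : Bool} (h : GD H W A B sa sb nf) (h2 : ∀ v ∈ A ∪ B, dg W v ≤ 2)
    (hp : 1 ≤ gU A.card B.card sa sb nf) : GX H W A B (gU A.card B.card sa sb nf) := by
  have m : ∀ x y z : ℕ, max (max x y) z = x ∨ max (max x y) z = y ∨ max (max x y) z = z :=
    fun x y z => by omega
  have sf : ∀ {s : Bool} {D : Finset V}, (s = true → Safe H W D) → ∀ D0 ⊆ D,
      D0.card ≤ (if s then D.card else min D.card 3) → Safe H W D0 := fun {s D} k D0 k1 k2 => by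
    cases s
    · exact safe_small hW.u5 (k2.trans (min_le_right _ _))
    · exact (k rfl).mono k1
  have le : ∀ (s : Bool) (n : ℕ), (if s then n else min n 3) ≤ n := fun s n => by
    cases s
    exacts [min_le_left _ _, le_rfl]
  unfold gU at hp ⊢
  rcases m _ _ _ with e | e | e <;> rw [e] at hp ⊢
  · exact bgain_v (ta := true) (tb := true) hW h h2 (le _ _) (le _ _) (fun _ => sf h.sA)
      (fun _ => sf h.sB) hp le_rfl
  · exact bgain_v (ta := sa) (tb := sb) hW h h2 le_rfl le_rfl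
      (fun c _ k _ => (h.sA c).mono k) (fun c _ k _ => (h.sB c).mono k) hp (by omega)
  · cases nf
    · simp at hp
    rw [if_pos rfl] at hp ⊢
    unfold gnf at hp ⊢
    split_ifs at hp ⊢ with c1 c2
    · exact bgain_nf (p := 3) (q := 3) hW h (by omega)
    · rcases c2 with c | c
      · exact bgain_nf (p := 3) (q := 2) hW h (by omega)
      · exact bgain_nf (p := 2) (q := 3) hW h (by omega)
    · omega

theorem ear_vb [Infinite V] {W : Finset (Finset V)} {a b : Finset V} (e : Ear W a b) {d : V → ℕ}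
    (h3 : ∀ v ∈ cov W, d v ≤ 3) (hd : ∀ v ∈ cov W, dg (insert a (insert b W)) v ≤ d v) :
    27 * tau W + tt W d + (if dd W a + (a ∩ b).card ≤ 3 then 1 else 0) +
      (if dd W b + (a ∩ b).card ≤ 3 then 1 else 0) + 11 ≤ 8 * W.card + 3 * (cov W).card +
      3 * ((a ∪ b) \ cov W).card + hi (insert a (insert b W)) (insert a (insert b W)) + 5 := by
  have h1 := e.card_ins
  have h2 := e.tau_ins
  have h4 := e.cov_ins
  have h5 := e.tt_ins hd
  have h6 : VB (insert a (insert b W)) 5 := t1 e.cc_ins fun v => by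
    by_cases hv : v ∈ cov W
    · exact (hd v hv).trans (h3 v hv)
    · rw [e.dg_ins, gain_out hv]
      split_ifs <;> omega
  unfold VB at h6
  omega

theorem bgain_dg {W : Finset (Finset V)} {a b A B : Finset V} (e : Ear W a b)
    (a1 : a ∩ cov W ⊆ A) (b1 : b ∩ cov W ⊆ B) {v : V} (hv : v ∈ cov W) :
    dg (insert a (insert b W)) v ≤ dg W v + if v ∈ A ∪ B then 1 else 0 := by
  rw [e.dg_ins]
  by_cases ha : v ∈ a
  · rw [if_pos ha, if_neg fun hb => e.out ha hb hv,
      if_pos (mem_union_left _ (a1 (mem_inter.2 ⟨ha, hv⟩)))]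
  · rw [if_neg ha]
    by_cases hb : v ∈ b
    · rw [if_pos hb, if_pos (mem_union_right _ (b1 (mem_inter.2 ⟨hb, hv⟩)))]
    · rw [if_neg hb]
      omega

theorem bgain_pos [Infinite V] {H W : Finset (Finset V)} (hW : CC W) (hs : W ⊆ H)
    (h3 : ∀ v, dg H v ≤ 3) {A B : Finset V} {sa sb nf : Bool} (h : GD H W A B sa sb nf)
    (hd : ∀ v ∈ A ∪ B, dg W v < dg H v) (hp : 1 ≤ gU A.card B.card sa sb nf) :
    PB H W 5 (gU A.card B.card sa sb nf) := by
  obtain ⟨a, b, e, a1, b1, -, k1⟩ := gx_of hW h (fun v hv => by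
    have := hd v hv
    have := h3 v
    omega) hp
  have k2 := ear_vb e (d := dg H) (fun v _ => h3 v) fun v hv =>
    (bgain_dg e a1 b1 hv).trans (gain_room (fun v _ => dg_mono hs v) hd hv)
  have k3 : hi (insert a (insert b W)) (insert a (insert b W)) ≤
      hi (insert a (insert b H)) (insert a (insert b W)) :=
    hi_mono (insert_subset_insert _ (insert_subset_insert _ hs)) Subset.rfl
  unfold PB
  omega

theorem pb_single [Infinite V] {H W : Finset (Finset V)} (hW : CC W) (hs : W ⊆ H)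
    (h3 : ∀ v, dg H v ≤ 3) (hr : ∃ v ∈ cov W, dg W v < dg H v) {A B : Finset V}
    {sa sb nf : Bool} (h : GD H W A B sa sb nf) (hd : ∀ v ∈ A ∪ B, dg W v < dg H v) :
    PB H W 5 (gU A.card B.card sa sb nf) := by
  rcases Nat.eq_zero_or_pos (gU A.card B.card sa sb nf) with k | k
  · rw [k]
    exact pb_zero (ihv5 W) hW hs h3 hr
  · exact bgain_pos hW hs h3 h hd k

theorem bgain_in {W : Finset (Finset V)} {a b c w : Finset V} (e : Ear W a b)
    (h2 : (a ∩ b).card ≤ 2) (hc : c ∈ insert a (insert b W)) (hw : w ∈ insert a (insert b W))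
    (h3 : (c ∩ w).card = 3) (hs : sd c w ⊆ cov W) : c ∈ W := by
  obtain ⟨s, k⟩ := e.com
  obtain ⟨k1, k2⟩ := mem_inter.1 k
  have k3 := e.out k1 k2
  have k4 : w ∈ W → s ∉ c := fun k5 k6 =>
    k3 (hs (mem_sd.2 (Or.inl ⟨k6, fun k7 => k3 (mem_cov.2 ⟨w, k5, k7⟩)⟩)))
  have h5 := e.a5
  have h6 := e.b5
  simp only [mem_insert] at hc hw
  rcases hc with rfl | rfl | hc
  · rcases hw with rfl | rfl | hw
    · rw [inter_self] at h3
      omega
    · omega
    · exact absurd k1 (k4 hw)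
  · rcases hw with rfl | rfl | hw
    · rw [inter_comm] at h3
      omega
    · rw [inter_self] at h3
      omega
    · exact absurd k2 (k4 hw)
  · exact hc

theorem gd_lift {H W : Finset (Finset V)} {a b A' B' : Finset V} (e : Ear W a b)
    (h2 : (a ∩ b).card ≤ 2) {sa sb nf : Bool} (h : GD H W A' B' sa sb nf)
    (hcc : ∀ C, Hits C W → C.card ≤ tau W + 1 → (∃ v ∈ a ∩ cov W, v ∈ C) →
      (∃ v ∈ b ∩ cov W, v ∈ C) → (∃ v ∈ A', v ∈ C) → (∃ v ∈ B', v ∈ C) → False) :
    GD (insert a (insert b H)) (insert a (insert b W)) A' B' sa sb nf := by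
  have x2 : W ⊆ insert a (insert b W) := (subset_insert _ _).trans (subset_insert _ _)
  have sf : ∀ {D : Finset V}, D ⊆ cov W → Safe H W D →
      Safe (insert a (insert b H)) (insert a (insert b W)) D := fun k1 k2 c hc w hw h3 hs => by
    obtain ⟨y, y1, y2⟩ := k2 c (bgain_in e h2 hc hw h3 (hs.trans k1)) w
      (bgain_in e h2 hw hc (by rwa [inter_comm]) (by rw [sd_comm]; exact hs.trans k1)) h3 hs
    exact ⟨y, mem_insert_of_mem (mem_insert_of_mem y1), y2⟩
  refine ⟨h.hA.trans (cov_mono x2), h.hB.trans (cov_mono x2), fun C c1 c2 v hv w hw v1 w1 => ?_,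
    fun k => sf h.hA (h.sA k), fun k => sf h.hB (h.sB k), fun k c hc hs => ?_⟩
  · have c3 : Hits C W := fun e he => c1 e (x2 he)
    rw [e.tau_ins] at c2
    by_cases k : C ⊆ cov W
    · obtain ⟨x, x1, x3⟩ := c1 a (mem_insert_self _ _)
      obtain ⟨y, y1, y3⟩ := c1 b (mem_insert_of_mem (mem_insert_self _ _))
      exact hcc C c3 c2 ⟨x, mem_inter.2 ⟨x1, k x3⟩, x3⟩ ⟨y, mem_inter.2 ⟨y1, k y3⟩, y3⟩
        ⟨v, hv, v1⟩ ⟨w, hw, w1⟩
    · have k1 : (C ∩ cov W).card < C.card :=
        card_lt_card ⟨inter_subset_left, fun h => k (h.trans inter_subset_right)⟩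
      refine h.cr (C ∩ cov W) (fun e he => ?_) (by omega) v hv w hw
        (mem_inter.2 ⟨v1, h.hA hv⟩) (mem_inter.2 ⟨w1, h.hB hw⟩)
      obtain ⟨u, u1, u2⟩ := c3 e he
      exact ⟨u, u1, mem_inter.2 ⟨u2, mem_cov.2 ⟨e, he, u1⟩⟩⟩
  · obtain ⟨s, k0⟩ := e.com
    obtain ⟨k1, k2⟩ := mem_inter.1 k0
    have k3 := hs.trans (union_subset h.hA h.hB)
    simp only [mem_insert] at hc
    rcases hc with rfl | rfl | hc
    exacts [e.out k1 k2 (k3 k1), e.out k1 k2 (k3 k2), h.nf k c hc hs]

theorem bgain_priv {W : Finset (Finset V)} {a b : Finset V} (h5 : a.card = 5) {d : V → ℕ}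
    (hd : ∀ v ∈ a, v ∉ cov W → v ∉ b → d v ≤ 1) (h3 : dd W a + (a ∩ b).card ≤ 3) :
    2 ≤ (a.filter fun v => d v ≤ 1).card := by
  have h1 : a ⊆ (a ∩ cov W ∪ a ∩ b) ∪ a.filter fun v => d v ≤ 1 := by
    intro v hv
    by_cases h2 : v ∈ cov W
    · exact mem_union_left _ (mem_union_left _ (mem_inter.2 ⟨hv, h2⟩))
    by_cases h4 : v ∈ b
    · exact mem_union_left _ (mem_union_right _ (mem_inter.2 ⟨hv, h4⟩))
    exact mem_union_right _ (mem_filter.2 ⟨hv, hd v hv h2 h4⟩)
  have h2 := (card_le_card h1).trans (card_union_le _ _)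
  have h4 := card_union_le (a ∩ cov W) (a ∩ b)
  unfold dd at h3
  omega

theorem bgain_tt {W : Finset (Finset V)} {a b : Finset V} (e : Ear W a b) {d0 d : V → ℕ}
    (k1 : ∀ v ∈ cov W, d v ≤ d0 v) (k2 : ∀ v, v ∉ cov W → d v ≤ dg (insert a (insert b W)) v) :
    tt W d0 + (if dd W a + (a ∩ b).card ≤ 3 then 1 else 0) +
      (if dd W b + (a ∩ b).card ≤ 3 then 1 else 0) ≤ tt (insert a (insert b W)) d := by
  have h1 := tt_mono k1
  have h2 := bgain_priv (W := W) (b := b) (d := d) e.a5 fun v hv c1 c2 => (k2 v c1).trans (by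
    rw [e.dg_ins, gain_out c1, if_pos hv, if_neg c2])
  have h3 := bgain_priv (W := W) (b := a) (d := d) e.b5 fun v hv c1 c2 => (k2 v c1).trans (by
    rw [e.dg_ins, gain_out c1, if_pos hv, if_neg c2])
  rw [inter_comm] at h3
  unfold tt at h1 ⊢
  rw [card_filter _ (insert a _), sum_insert e.ear_abW, sum_insert e.bW, ← card_filter]
  split_ifs <;> omega

theorem pb_double [Infinite V] {H W : Finset (Finset V)} (hW : CC W) (hs : W ⊆ H)
    (h3 : ∀ v, dg H v ≤ 3) {A B A' B' : Finset V} {sa sb nf sa' sb' nf' : Bool}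
    (h : GD H W A B sa sb nf) (h' : GD H W A' B' sa' sb' nf')
    (hd : ∀ v ∈ cov W,
      (dg W v + (if v ∈ A ∪ B then 1 else 0) + if v ∈ A' ∪ B' then 1 else 0) ≤ dg H v)
    (hcc : ∀ C, Hits C W → C.card ≤ tau W + 1 → (∃ v ∈ A, v ∈ C) → (∃ v ∈ B, v ∈ C) →
      (∃ v ∈ A', v ∈ C) → (∃ v ∈ B', v ∈ C) → False)
    (hp : 2 ≤ gU A.card B.card sa sb nf) :
    PB H W 5 (gU A.card B.card sa sb nf + gU A'.card B'.card sa' sb' nf') := by
  have r1 : ∀ v ∈ A ∪ B, dg W v < dg H v := fun v hv => by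
    have := hd v (union_subset h.hA h.hB hv)
    rw [if_pos hv] at this
    omega
  rcases Nat.eq_zero_or_pos (gU A'.card B'.card sa' sb' nf') with k | k
  · rw [k]
    exact bgain_pos hW hs h3 h r1 (by omega)
  obtain ⟨a, b, e, a1, b1, k0, k1⟩ := gx_of hW h (fun v hv => by
    have := r1 v hv
    have := h3 v
    omega) (by omega)
  have gd := gd_lift e (k0 hp) h' fun C c1 c2 ⟨x, x1, x2⟩ ⟨y, y1, y2⟩ =>
    hcc C c1 c2 ⟨x, a1 x1, x2⟩ ⟨y, b1 y1, y2⟩
  obtain ⟨a', b', e', a2, b2, -, k2⟩ := gx_of e.cc_ins gd (fun v hv => by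
    have c := union_subset h'.hA h'.hB hv
    have := hd v c
    have := bgain_dg e a1 b1 c
    have := h3 v
    rw [if_pos hv] at *
    omega) k
  have k3 := ear_vb e' (d := fun v => if v ∈ cov W then dg H v else dg (insert a (insert b W)) v)
    (fun v _ => by
      split_ifs with c
      · exact h3 v
      · rw [e.dg_ins, gain_out c]
        split_ifs <;> omega)
    fun v hv => by
      have c1 := bgain_dg e' a2 b2 hv
      by_cases c : v ∈ cov W
      · have := hd v c
        have := bgain_dg e a1 b1 c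
        rw [if_pos c]
        omega
      · rw [if_neg fun c2 => c (union_subset h'.hA h'.hB c2)] at c1
        rwa [if_neg c]
  have k4 := bgain_tt e (d0 := dg H)
    (d := fun v => if v ∈ cov W then dg H v else dg (insert a (insert b W)) v)
    (fun v c => (if_pos c).le) fun v c => (if_neg c).le
  have k5 : hi (insert a' (insert b' (insert a (insert b W))))
      (insert a' (insert b' (insert a (insert b W)))) ≤
      hi (insert a' (insert b' (insert a (insert b H))))
        (insert a' (insert b' (insert a (insert b W)))) :=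
    hi_mono (insert_subset_insert _ (insert_subset_insert _
      (insert_subset_insert _ (insert_subset_insert _ hs)))) Subset.rfl
  have k6 := e.card_ins
  have k7 := e.tau_ins
  have k8 := e.cov_ins
  unfold PB
  omega

/-- a third family that is non-joint with both -/
theorem noin_of {W : Finset (Finset V)} (hW : CC W) {A B : Finset V} {v : V} (hv : v ∈ cov W)
    (h1 : Cross W {v} A) (h2 : Cross W {v} B) : NoIn W (A ∪ B) := by
  intro c hc hs
  obtain ⟨C, c1, c2, c3⟩ := exists_cover_mem hW hv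
  obtain ⟨u, u1, u2⟩ := c1 c hc
  rcases mem_union.1 (hs u1) with k | k
  · exact h1 C c1 c2.le v (mem_singleton_self v) u k c3 u2
  · exact h2 C c1 c2.le v (mem_singleton_self v) u k c3 u2

end Pool.Agent.Work.MP_d266e7_co.C5.P24
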