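import Pool.Agent.Work.MP_d266e7_co.P24B.MaskDefs
import Pool.Agent.Work.MP_d266e7_co.P24B.BGain

/-!
Soundness of the tests of `MaskDefs.lean`. `Nat.testBit_two_pow_sub_one`, `Nat.testBit_or`,
`Nat.testBit_and`, `Nat.testBit_xor`, `Nat.testBit_ofBits_lt`; `Nat.lor` is `|||` by `rfl`.
`free0`: add the vertex of `hG` to the transversal. `cross`: a transversal with a vertex in each
atom meets all hosts of the two masks. `void_false`, `void_xor`: `exists_cover_mem`.
`nz_host`: a nonzero bit below `k`. `safe`: an atom with a host lies in that host (`safe_host`);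
two non-joint atoms: `safe_cross`. `size`: non-joint atoms are disjoint (`exists_cover_mem`);
else `atom a ∩ atom b = atom (a ||| b)` and `card_union_add_card_inter`.
`gd`: `Cross` for unions, `noin_of` with a vertex of the third atom. `one_pb`: `pb_single`
(`dg_lt`), `gU_mono`. `dbl_pb`: `pb_double`; a vertex in both gadgets lies on two different hosts
(the masks are disjoint; `dg_lt2`).
-/

namespace Pool.Agent.Work.MP_d266e7_co.C5.P24

open Finset

variable {V : Type} [DecidableEq V]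

theorem frc_eq (n : ℕ) (f : ℕ → Bool) : frc n f = f n := by
  cases n <;> rfl

theorem mk_bit {k : ℕ} (q : Fin k → Finset V) (v : V) (x : Fin k) :
    (mk q v).testBit x = true ↔ v ∈ q x := by
  unfold mk
  rw [Nat.testBit_ofBits_lt _ _ x.2]
  simp

theorem mk_lt {k : ℕ} (q : Fin k → Finset V) (v : V) : mk q v < 2 ^ k := by
  exact Nat.ofBits_lt_two_pow _

theorem mem_atom {k : ℕ} {W : Finset (Finset V)} {q : Fin k → Finset V} {S : ℕ} {v : V} :
    v ∈ atom W q S ↔ v ∈ cov W ∧ ∀ x : Fin k, S.testBit x = true → v ∈ q x := by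
  exact mem_filter

theorem nz_host {k S : ℕ} (h : nz (2 ^ k - 1) S = true) : ∃ x : Fin k, S.testBit x = true := by
  by_contra hn
  have h0 : S.land (2 ^ k - 1) = 0 := by
    apply Nat.eq_of_testBit_eq
    intro i
    change (S &&& (2 ^ k - 1)).testBit i = _
    rw [Nat.testBit_and, Nat.testBit_two_pow_sub_one, Nat.zero_testBit]
    by_cases hi : i < k
    · have : S.testBit i = false := by
        by_contra hb
        exact hn ⟨⟨i, hi⟩, by simpa using hb⟩
      simp [this]
    · simp [hi]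
  unfold nz at h
  rw [h0, Nat.blt_eq] at h
  exact lt_irrefl _ h

theorem mask_gainV {p q p' q' : ℕ} (hp : p ≤ p') (hq : q ≤ q') : gainV p q ≤ gainV p' q' := by
  unfold gainV
  split_ifs <;> omega

theorem mask_gnf {p q p' q' : ℕ} (hp : p ≤ p') (hq : q ≤ q') : gnf p q ≤ gnf p' q' := by
  unfold gnf
  split_ifs <;> omega

theorem mask_or {a b i : ℕ} :
    (a.lor b).testBit i = true ↔ a.testBit i = true ∨ b.testBit i = true := by
  change (a ||| b).testBit i = true ↔ _
  rw [Nat.testBit_or, Bool.or_eq_true]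

theorem mask_all {k a b : ℕ} (h : a.lor b = 2 ^ k - 1) (x : Fin k) :
    a.testBit x = true ∨ b.testBit x = true := by
  rw [← mask_or, h, Nat.testBit_two_pow_sub_one]
  simp

theorem mask_fr1 {A S : ℕ} {L : List ℕ} (h : fr1 A L S = true) : ∃ u ∈ L, S.lor u = A := by
  unfold fr1 at h
  rw [frc_eq, List.any_eq_true] at h
  obtain ⟨u, hu, e⟩ := h
  exact ⟨u, hu, Nat.eq_of_beq_eq_true e⟩

theorem mask_nz_or {k a : ℕ} (b : ℕ) (h : nz (2 ^ k - 1) a = true) :
    nz (2 ^ k - 1) (a.lor b) = true := by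
  obtain ⟨x, hx⟩ := nz_host h
  unfold nz
  rw [Nat.blt_eq]
  refine Nat.pos_of_ne_zero fun e => ?_
  have : ((a.lor b).land (2 ^ k - 1)).testBit x = true := by
    change ((a.lor b) &&& (2 ^ k - 1)).testBit x = true
    rw [Nat.testBit_and, mask_or.2 (Or.inl hx), Nat.testBit_two_pow_sub_one]
    simp
  rw [e, Nat.zero_testBit] at this
  exact Bool.noConfusion this

theorem mask_inter {k : ℕ} (W : Finset (Finset V)) (q : Fin k → Finset V) (a b : ℕ) :
    atom W q a ∩ atom W q b = atom W q (a.lor b) := by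
  ext v
  simp only [mem_inter, mem_atom, mask_or]
  constructor
  · rintro ⟨⟨h1, h2⟩, -, h3⟩
    exact ⟨h1, fun x hx => hx.elim (h2 x) (h3 x)⟩
  · rintro ⟨h1, h2⟩
    exact ⟨⟨h1, fun x hx => h2 x (Or.inl hx)⟩, h1, fun x hx => h2 x (Or.inr hx)⟩

theorem mask_sub {k : ℕ} (W : Finset (Finset V)) (q : Fin k → Finset V) (a b : ℕ) :
    atom W q a ∪ atom W q b ⊆ cov W :=
  union_subset (filter_subset _ _) (filter_subset _ _)

theorem mask_cross_l {W : Finset (Finset V)} {A A' B : Finset V} (h : Cross W A B)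
    (h' : Cross W A' B) : Cross W (A ∪ A') B := fun C c1 c2 v hv w hw =>
  (mem_union.1 hv).elim (fun k => h C c1 c2 v k w hw) fun k => h' C c1 c2 v k w hw

theorem mask_cross_r {W : Finset (Finset V)} {A B B' : Finset V} (h : Cross W A B)
    (h' : Cross W A B') : Cross W A (B ∪ B') := fun C c1 c2 v hv w hw =>
  (mem_union.1 hw).elim (fun k => h C c1 c2 v hv w k) fun k => h' C c1 c2 v hv w k

theorem mask_hits {W : Finset (Finset V)} {C : Finset V} (h : Hits C W) (D : Finset V) :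
    Hits (C ∪ D) W := fun e he => by
  obtain ⟨v, h1, h2⟩ := h e he
  exact ⟨v, h1, mem_union_left _ h2⟩

theorem mask_host {k : ℕ} {W : Finset (Finset V)} {q : Fin k → Finset V} {a b : ℕ}
    (ha : nz (2 ^ k - 1) a = true) (hb : nz (2 ^ k - 1) b = true) {v : V}
    (hv : v ∈ atom W q a ∪ atom W q b) : ∃ x : Fin k, (a.lor b).testBit x = true ∧ v ∈ q x := by
  rcases mem_union.1 hv with k | k
  · obtain ⟨x, hx⟩ := nz_host ha
    exact ⟨x, mask_or.2 (Or.inl hx), (mem_atom.1 k).2 x hx⟩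
  · obtain ⟨x, hx⟩ := nz_host hb
    exact ⟨x, mask_or.2 (Or.inr hx), (mem_atom.1 k).2 x hx⟩

theorem mask_pick {k : ℕ} {W : Finset (Finset V)} {q : Fin k → Finset V} {a b : ℕ} {C : Finset V}
    (h : ∃ v ∈ atom W q a ∪ atom W q b, v ∈ C) :
    ∃ z ∈ [a, b], ∀ x : Fin k, z.testBit x = true → ∃ v ∈ q x, v ∈ C := by
  obtain ⟨v, hv, hc⟩ := h
  rcases mem_union.1 hv with k | k
  · exact ⟨a, by simp, fun x hx => ⟨v, (mem_atom.1 k).2 x hx, hc⟩⟩
  · exact ⟨b, by simp, fun x hx => ⟨v, (mem_atom.1 k).2 x hx, hc⟩⟩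

theorem gU_mono {p q p' q' : ℕ} (hp : p ≤ p') (hq : q ≤ q') (sa sb nf : Bool) :
    gU p q sa sb nf ≤ gU p' q' sa sb nf := by
  have e1 : (if sa then p else min p 3) ≤ (if sa then p' else min p' 3) := by
    cases sa
    · exact min_le_min_right 3 hp
    · exact hp
  have e2 : (if sb then q else min q 3) ≤ (if sb then q' else min q' 3) := by
    cases sb
    · exact min_le_min_right 3 hq
    · exact hq
  have e3 := mask_gainV hp hq
  refine max_le_max (max_le_max (mask_gainV e1 e2) (by omega)) ?_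
  cases nf
  · exact le_rfl
  · exact mask_gnf hp hq

theorem PB.mono {H W : Finset (Finset V)} {c g g' : ℕ} (h : PB H W c g) (hg : g' ≤ g) :
    PB H W c g' := by
  unfold PB at h ⊢
  omega

namespace MkC

variable {k : ℕ} {H W : Finset (Finset V)} {q : Fin k → Finset V} {L G : List ℕ} {lo up : ℕ → ℕ}

theorem free1 (h : MkC H W q L G lo up) {S : ℕ} (hS : fr1 (2 ^ k - 1) L S = true) {C : Finset V}
    (hC : Hits C W) (hc : C.card ≤ tau W + 1)
    (hq : ∀ x : Fin k, S.testBit x = true → ∃ v ∈ q x, v ∈ C) : False := by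
  obtain ⟨u, hu, e⟩ := mask_fr1 hS
  exact h.hL u hu C hC hc fun x => (mask_all e x).elim (fun k => Or.inr (hq x k)) Or.inl

theorem free0 (h : MkC H W q L G lo up) {S : ℕ} (hS : fr0 (2 ^ k - 1) L G S = true) {C : Finset V}
    (hC : Hits C W) (hc : C.card ≤ tau W)
    (hq : ∀ x : Fin k, S.testBit x = true → ∃ v ∈ q x, v ∈ C) : False := by
  unfold fr0 at hS
  rw [List.any_eq_true] at hS
  obtain ⟨u, hu, e⟩ := hS
  obtain ⟨g, hg, e⟩ := mask_fr1 e
  obtain ⟨D, d1, d2⟩ := h.hG g hg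
  refine h.hL u hu (C ∪ D) (mask_hits hC D) ((card_union_le _ _).trans (by omega)) fun x => ?_
  rcases mask_all e x with k | k
  · rcases mask_or.1 k with k | k
    · obtain ⟨v, h1, h2⟩ := hq x k
      exact Or.inr ⟨v, h1, mem_union_left _ h2⟩
    · exact Or.inl k
  · obtain ⟨v, h1, h2⟩ := d2 x k
    exact Or.inr ⟨v, h1, mem_union_right _ h2⟩

theorem cross (h : MkC H W q L G lo up) {S T : ℕ} (hS : fr0 (2 ^ k - 1) L G (S.lor T) = true) :
    Cross W (atom W q S) (atom W q T) := by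
  intro C c1 c2 v hv w hw vc wc
  refine h.free0 hS c1 c2 fun x hx => ?_
  rcases mask_or.1 hx with k | k
  · exact ⟨v, (mem_atom.1 hv).2 x k, vc⟩
  · exact ⟨w, (mem_atom.1 hw).2 x k, wc⟩

theorem void_false (h : MkC H W q L G lo up) {S : ℕ} (hS : void (2 ^ k - 1) L G lo S = true) :
    False := by
  unfold void at hS
  rw [Bool.and_eq_true, Nat.blt_eq] at hS
  obtain ⟨v, hv⟩ := card_pos.1 (hS.1.trans_le (h.hlo S))
  obtain ⟨C, c1, c2, c3⟩ := exists_cover_mem h.wcc (mem_atom.1 hv).1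
  exact h.free0 hS.2 c1 c2.le fun x hx => ⟨v, (mem_atom.1 hv).2 x hx, c3⟩

theorem void_xor (h : MkC H W q L G lo up) {u g : ℕ} (hu : u ∈ L) (hg : g ∈ G) :
    lo (Nat.xor (2 ^ k - 1) (u.lor g)) = 0 := by
  by_contra hn
  obtain ⟨v, hv⟩ := card_pos.1 ((Nat.pos_of_ne_zero hn).trans_le (h.hlo _))
  obtain ⟨C, c1, c2, c3⟩ := exists_cover_mem h.wcc (mem_atom.1 hv).1
  obtain ⟨D, d1, d2⟩ := h.hG g hg
  refine h.hL u hu (C ∪ D) (mask_hits c1 D) ((card_union_le _ _).trans (by omega)) fun x => ?_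
  by_cases kk : (u.lor g).testBit x = true
  · rcases mask_or.1 kk with k1 | k1
    · exact Or.inl k1
    · obtain ⟨w, h1, h2⟩ := d2 x k1
      exact Or.inr ⟨w, h1, mem_union_right _ h2⟩
  · refine Or.inr ⟨v, (mem_atom.1 hv).2 x ?_, mem_union_left _ c3⟩
    change ((2 ^ k - 1) ^^^ (u.lor g)).testBit x = true
    rw [Nat.testBit_xor, Nat.testBit_two_pow_sub_one, Bool.eq_false_iff.2 kk]
    simp

theorem safe (h : MkC H W q L G lo up) {a b : ℕ} (ha : nz (2 ^ k - 1) a = true)
    (hb : nz (2 ^ k - 1) b = true) (hs : fsafe (2 ^ k - 1) L G a b = true) :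
    Safe H W (atom W q a ∪ atom W q b) := by
  have one : ∀ c, nz (2 ^ k - 1) c = true → Safe H W (atom W q c) := fun c hc => by
    obtain ⟨x, hx⟩ := nz_host hc
    exact safe_host (h.qmem x) fun v hv => (mem_atom.1 hv).2 x hx
  unfold fsafe at hs
  rw [Bool.or_eq_true] at hs
  rcases hs with e | e
  · obtain rfl := Nat.eq_of_beq_eq_true e
    rw [union_self]
    exact one a ha
  · exact safe_cross h.wcc (h.cross e) (one a ha) (one b hb)

theorem size (h : MkC H W q L G lo up) {a b : ℕ} (ha : nz (2 ^ k - 1) a = true) :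
    fsz lo up (fsafe (2 ^ k - 1) L G a b) a b ≤ (atom W q a ∪ atom W q b).card := by
  have e1 := card_union_add_card_inter (atom W q a) (atom W q b)
  have l1 := h.hlo a
  have l2 := h.hlo b
  unfold fsz fsafe
  cases e : Nat.beq a b
  · cases f : fr0 (2 ^ k - 1) L G (a.lor b)
    · have u1 := h.hup _ (mask_nz_or b ha)
      rw [mask_inter] at e1
      change lo a + lo b - up (a.lor b) ≤ _
      omega
    · have z : atom W q a ∩ atom W q b = ∅ := by
        refine eq_empty_of_forall_notMem fun v hv => ?_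
        obtain ⟨h1, h2⟩ := mem_inter.1 hv
        obtain ⟨C, c1, c2, c3⟩ := exists_cover_mem h.wcc (mem_atom.1 h1).1
        exact h.cross f C c1 c2.le v h1 v h2 c3 c3
      rw [z, card_empty] at e1
      change lo a + lo b ≤ _
      omega
  · exact l1.trans (card_le_card subset_union_left)

theorem gd (h : MkC H W q L G lo up) {s : Sp} (hs : spok (2 ^ k - 1) L G s = true) :
    GD H W (atom W q s.a ∪ atom W q s.b) (atom W q s.c ∪ atom W q s.d)
      (fsafe (2 ^ k - 1) L G s.a s.b) (fsafe (2 ^ k - 1) L G s.c s.d)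
      (spnf (2 ^ k - 1) L G lo s) := by
  simp only [spok, Bool.and_eq_true] at hs
  obtain ⟨na, nb, nc, nd, ac, ad, bc, bd⟩ := hs
  refine ⟨mask_sub _ _ _ _, mask_sub _ _ _ _, mask_cross_l (mask_cross_r (h.cross ac) (h.cross ad))
    (mask_cross_r (h.cross bc) (h.cross bd)), h.safe na nb, h.safe nc nd, fun hn => ?_⟩
  simp only [spnf, Bool.and_eq_true, Nat.blt_eq] at hn
  obtain ⟨-, he, ea, eb, ec, ed⟩ := hn
  obtain ⟨v, hv⟩ := card_pos.1 (he.trans_le (h.hlo _))
  have key : ∀ B, Cross W (atom W q s.e) B → Cross W {v} B := fun B hB C c1 c2 u hu =>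
    hB C c1 c2 u (by rw [mem_singleton.1 hu]; exact hv)
  exact noin_of h.wcc (mem_atom.1 hv).1 (key _ (mask_cross_r (h.cross ea) (h.cross eb)))
    (key _ (mask_cross_r (h.cross ec) (h.cross ed)))

theorem mask_spg (h : MkC H W q L G lo up) {s : Sp} (hs : spok (2 ^ k - 1) L G s = true) :
    spg (2 ^ k - 1) L G lo up s ≤ gU (atom W q s.a ∪ atom W q s.b).card
      (atom W q s.c ∪ atom W q s.d).card (fsafe (2 ^ k - 1) L G s.a s.b)
      (fsafe (2 ^ k - 1) L G s.c s.d) (spnf (2 ^ k - 1) L G lo s) := by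
  simp only [spok, Bool.and_eq_true] at hs
  exact gU_mono (h.size hs.1) (h.size hs.2.2.1) _ _ _

theorem mask_all4 {s : Sp} (hs : spok (2 ^ k - 1) L G s = true) {v : V}
    (hv : v ∈ (atom W q s.a ∪ atom W q s.b) ∪ (atom W q s.c ∪ atom W q s.d)) :
    ∃ x : Fin k, s.all.testBit x = true ∧ v ∈ q x := by
  simp only [spok, Bool.and_eq_true] at hs
  obtain ⟨na, nb, nc, nd, -⟩ := hs
  rcases mem_union.1 hv with e | e
  · obtain ⟨x, h1, h2⟩ := mask_host na nb e
    exact ⟨x, mask_or.2 (Or.inl h1), h2⟩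
  · obtain ⟨x, h1, h2⟩ := mask_host nc nd e
    exact ⟨x, mask_or.2 (Or.inr h1), h2⟩

theorem one_pb [Infinite V] (h : MkC H W q L G lo up) {n : ℕ} {s : Sp}
    (hs : one (2 ^ k - 1) L G lo up n s = true) : PB H W 5 n := by
  simp only [one, Bool.and_eq_true, Nat.ble_eq] at hs
  refine (pb_single h.wcc h.wsub h.d3 h.room (h.gd hs.1) fun v hv => ?_).mono
    (hs.2.trans (h.mask_spg hs.1))
  obtain ⟨x, -, hx⟩ := mask_all4 hs.1 hv
  exact dg_lt h.wsub (h.qmem x) (h.qW x) hx

theorem dbl_pb [Infinite V] (h : MkC H W q L G lo up) {n : ℕ} {s r : Sp}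
    (hs : dbl (2 ^ k - 1) L G lo up n s r = true) : PB H W 5 n := by
  unfold dbl at hs
  simp only [Bool.and_eq_true, Nat.ble_eq, List.all_eq_true] at hs
  obtain ⟨dis, fr, os, or', two, hn⟩ := hs
  have dis' := Nat.eq_of_beq_eq_true dis
  refine (pb_double h.wcc h.wsub h.d3 (h.gd os) (h.gd or') (fun v _ => ?_)
    (fun C c1 c2 a1 a2 a3 a4 => ?_) (two.trans (h.mask_spg os))).mono
    (hn.trans (Nat.add_le_add (h.mask_spg os) (h.mask_spg or')))
  · split_ifs with e1 e2 e2
    · obtain ⟨x, x1, x2⟩ := mask_all4 os e1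
      obtain ⟨y, y1, y2⟩ := mask_all4 or' e2
      have hxy : q x ≠ q y := fun e => by
        obtain rfl := h.qinj e
        have : (s.all.land r.all).testBit x = true := by
          change (s.all &&& r.all).testBit x = true
          rw [Nat.testBit_and, x1, y1]
          rfl
        rw [dis', Nat.zero_testBit] at this
        exact Bool.noConfusion this
      exact dg_lt2 h.wsub (h.qmem x) (h.qmem y) hxy (h.qW x) (h.qW y) x2 y2
    · obtain ⟨x, -, x2⟩ := mask_all4 os e1
      exact dg_lt h.wsub (h.qmem x) (h.qW x) x2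
    · obtain ⟨y, -, y2⟩ := mask_all4 or' e2
      exact dg_lt h.wsub (h.qmem y) (h.qW y) y2
    · exact card_le_card (star_mono h.wsub v)
  · obtain ⟨a, ha, a1⟩ := mask_pick a1
    obtain ⟨b, hb, a2⟩ := mask_pick a2
    obtain ⟨c, hc, a3⟩ := mask_pick a3
    obtain ⟨e, he, a4⟩ := mask_pick a4
    refine h.free1 (fr a ha b hb c hc e he) c1 c2 fun x hx => ?_
    rcases mask_or.1 hx with t | t
    · exact (mask_or.1 t).elim (a1 x) (a2 x)
    · exact (mask_or.1 t).elim (a3 x) (a4 x)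

end MkC

end Pool.Agent.Work.MP_d266e7_co.C5.P24
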