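import Pool.Agent.Work.MP_d266e7_co.P24B.A0Chk
import Pool.Agent.Work.MP_d266e7_co.P24B.Mask

/-!
Reading off the finite check `a0_chk`. `List.all_eq_true`, `List.any_eq_true`, `frc_eq`,
`Bool.or_eq_true`, `Nat.blt_eq`, `Nat.ble_eq`, `Nat.beq_eq`. Do not unfold the lists.
`a0w_eq`: `Nat.sub 5 c` is `d + 1`. In `a0_pat` the case of `a0pre`: two of the numbers `d` are at
least two (`bt o2 x ≤ 1`), so `a0side 1` holds (`gtab_eq`) and `a0pat` is true by the shape of its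
definition (for `c > 4` the test `a0w c f` is true).
-/

namespace Pool.Agent.Work.MP_d266e7_co.C5.P24

open Finset

variable {V : Type} [DecidableEq V]

theorem bt_le (m x : ℕ) : bt m x ≤ 1 := by
  unfold bt
  exact Nat.and_le_right

theorem bt_eq (m x : ℕ) : bt m x = if m.testBit x then 1 else 0 := by
  have e : bt m x = (m >>> x) % 2 := Nat.and_one_is_mod _
  rw [e, Nat.testBit_eq_decide_div_mod_eq, Nat.shiftRight_eq_div_pow]
  by_cases h : m / 2 ^ x % 2 = 1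
  · simp [h]
  · have h0 : m / 2 ^ x % 2 = 0 := by omega
    simp [h0]

theorem gtab_eq {p q : ℕ} (hp : p ≤ 4) (hq : q ≤ 8) : gtab p q = gainV p q := by
  have key : ∀ p < 5, ∀ q < 9, gtab p q = gainV p q := by decide +kernel
  exact key p (by omega) q (by omega)

theorem mem_a0u {m : ℕ} (h : m < 64)
    (h2 : bt m 0 + bt m 1 + bt m 2 + bt m 3 + bt m 4 + bt m 5 ≤ 2) : m ∈ a0u := by
  have key : ∀ m < 64, bt m 0 + bt m 1 + bt m 2 + bt m 3 + bt m 4 + bt m 5 ≤ 2 → m ∈ a0u := by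
    decide +kernel
  exact key m h h2

theorem mem_a0o {m : ℕ} (h : m < 64)
    (h3 : bt m 0 + bt m 1 + bt m 2 + bt m 3 + bt m 4 + bt m 5 ≤ 3)
    (h1 : 1 ≤ bt m 0 + bt m 1 + bt m 2) (h2 : 1 ≤ bt m 3 + bt m 4 + bt m 5) : m ∈ a0o := by
  have key : ∀ m < 64, (bt m 0 + bt m 1 + bt m 2 + bt m 3 + bt m 4 + bt m 5 ≤ 3 ∧
      1 ≤ bt m 0 + bt m 1 + bt m 2 ∧ 1 ≤ bt m 3 + bt m 4 + bt m 5) → m ∈ a0o := by
    decide +kernel
  exact key m h ⟨h3, h1, h2⟩

/-- meaning of `a0in` -/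
theorem a0in_elim {a b : ℕ} (hb : b < 64) (h : a0in a b = true) :
    2 ≤ bt b 0 + bt b 1 + bt b 2 + bt b 3 + bt b 4 + bt b 5 ∧
      ∀ x, a.testBit x = true → b.testBit x = true := by
  have key : ∀ b < 64, Nat.blt 0 (b.land (b - 1)) = true →
      2 ≤ bt b 0 + bt b 1 + bt b 2 + bt b 3 + bt b 4 + bt b 5 := by
    decide +kernel
  unfold a0in at h
  rw [Bool.and_eq_true] at h
  refine ⟨key b hb h.1, fun x hx => ?_⟩
  have e : a &&& b = a := Nat.eq_of_beq_eq_true h.2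
  rw [← e, Nat.testBit_and, Bool.and_eq_true] at hx
  exact hx.2

theorem a0w_eq {c d : ℕ} (h : d + c = 4) (f : ℕ → Bool) : a0w c f = f d := by
  have e : Nat.sub 5 c = d + 1 := by
    have e' : 5 - c = d + 1 := by omega
    exact e'
  unfold a0w
  rw [e]

theorem a0num_w {c : ℕ} {f : ℕ → Bool} (h : ∀ d, d + c = 4 → f d = true) : a0w c f = true := by
  by_cases hc : c ≤ 4
  · rw [a0w_eq (d := 4 - c) (by omega)]
    exact h _ (by omega)
  · have e : Nat.sub 5 c = 0 := by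
      have e' : 5 - c = 0 := by omega
      exact e'
    unfold a0w
    rw [e]
    rfl

theorem a0num_g {p q : ℕ} (hp : p ≤ 4) (hq : q ≤ 4) (h1 : 2 ≤ p) (h2 : 2 ≤ q) :
    Nat.ble 1 (gtab p q) = true := by
  rw [gtab_eq hp (by omega), Nat.ble_eq]
  unfold gainV
  split_ifs <;> omega

theorem a0num_pre {r x y z dx dy dz bx bY bz : ℕ} (h : a0pre r x y z = true)
    (hx : dx + (x + bx) = 4) (hy : dy + (y + bY) = 4) (hz : dz + (z + bz) = 4)
    (lx : bx ≤ 1) (ly : bY ≤ 1) (lz : bz ≤ 1) : a0side 1 r dx dy dz = true := by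
  unfold a0pre at h
  unfold a0side
  simp only [Bool.or_eq_true, Bool.and_eq_true]
  by_cases hz1 : z ≤ 1
  · have e : Nat.ble z 1 = true := Nat.ble_eq_true_of_le hz1
    rw [e, cond_true, Bool.or_eq_true, Nat.ble_eq, Nat.ble_eq] at h
    rcases h with h | h
    · exact Or.inl (a0num_g (by omega) (by omega) (by omega) (by omega))
    · exact Or.inr (Or.inl (a0num_g (by omega) (by omega) (by omega) (by omega)))
  · have e : Nat.ble z 1 = false := by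
      rw [← Bool.not_eq_true, Nat.ble_eq]
      exact hz1
    rw [e, cond_false, Bool.and_eq_true, Bool.and_eq_true, Nat.ble_eq, Nat.ble_eq] at h
    exact Or.inr (Or.inr ⟨h.1, Or.inl (a0num_g (by omega) (by omega) (by omega) (by omega))⟩)

theorem a0num_bt2 (r a b x : ℕ) : Nat.add r (bt2 a b x) = r + bt a x + bt b x := by
  unfold bt2
  simp only [Nat.add_eq]
  omega

theorem a0num_pat1 {m0 m1 m2 m3 m4 r0 r1 r2 r3 r4 r5 o1 : ℕ} (o2 : ℕ)
    (h : a0pre r2 (r0 + bt o1 0) (r1 + bt o1 1) (r2 + bt o1 2) = true) :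
    a0pat m0 m1 m2 m3 m4 r0 r1 r2 r3 r4 r5 1 o1 o2 = true := by
  unfold a0pat
  refine a0num_w fun d0 h0 => a0num_w fun d1 h1 => a0num_w fun d2 h2 => ?_
  rw [a0num_bt2] at h0 h1 h2
  rw [a0num_pre h h0 h1 h2 (bt_le _ _) (bt_le _ _) (bt_le _ _), Bool.true_or]

theorem a0num_pat2 {m0 m1 m2 m3 m4 r0 r1 r2 r3 r4 r5 o1 : ℕ} (o2 : ℕ)
    (h : a0pre r5 (r3 + bt o1 3) (r4 + bt o1 4) (r5 + bt o1 5) = true) :
    a0pat m0 m1 m2 m3 m4 r0 r1 r2 r3 r4 r5 1 o1 o2 = true := by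
  unfold a0pat
  refine a0num_w fun d0 _ => a0num_w fun d1 _ => a0num_w fun d2 _ => ?_
  rw [Bool.or_eq_true, Bool.or_eq_true]
  refine Or.inr (Or.inr ?_)
  refine a0num_w fun d3 h0 => a0num_w fun d4 h1 => a0num_w fun d5 h2 => ?_
  rw [a0num_bt2] at h0 h1 h2
  rw [a0num_pre h h0 h1 h2 (bt_le _ _) (bt_le _ _) (bt_le _ _), Bool.true_or]

theorem a0num_node {m0 m1 m2 m3 m4 : ℕ} (h0 : m0 ∈ a0u) (h1 : m1 ∈ a0u) (h2 : m2 ∈ a0u)
    (h3 : m3 ∈ a0u) (h4 : m4 ∈ a0u) (b01 : a0bad m0 m1 = false) (b02 : a0bad m0 m2 = false)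
    (b03 : a0bad m0 m3 = false) (b04 : a0bad m0 m4 = false) (b12 : a0bad m1 m2 = false)
    (b13 : a0bad m1 m3 = false) (b14 : a0bad m1 m4 = false) (b23 : a0bad m2 m3 = false)
    (b24 : a0bad m2 m4 = false) (b34 : a0bad m3 m4 = false) :
    a0node m0 m1 m2 m3 m4 = true := by
  have k0 := List.all_eq_true.1 a0_chk m0 h0
  unfold a0top at k0
  have k1 := List.all_eq_true.1 k0 m1 h1
  rw [b01, Bool.false_or] at k1
  have k2 := List.all_eq_true.1 k1 m2 h2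
  rw [b12, b02, Bool.false_or, Bool.false_or] at k2
  have k3 := List.all_eq_true.1 k2 m3 h3
  rw [b23, b13, b03, Bool.false_or, Bool.false_or, Bool.false_or] at k3
  have k4 := List.all_eq_true.1 k3 m4 h4
  rw [b34, b24, b14, b04, Bool.false_or, Bool.false_or, Bool.false_or, Bool.false_or] at k4
  exact k4

theorem a0num_blt {a b : ℕ} (h : b ≤ a) : Nat.blt a b = false := by
  rw [← Bool.not_eq_true, Nat.blt_eq]
  omega

theorem a0num_beq {a : ℕ} (h : 1 ≤ a) : Nat.beq a 0 = false := by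
  rw [← Bool.not_eq_true, Nat.beq_eq]
  omega

theorem a0_pat {m : Fin 5 → ℕ} (hm : ∀ i, m i ∈ a0u)
    (hb : ∀ i j, i < j → a0bad (m i) (m j) = false) {r : ℕ → ℕ}
    (hr : ∀ x, r x = a0r (m 0) (m 1) (m 2) (m 3) (m 4) x) (s1 : r 1 ≤ r 0) (s2 : r 2 ≤ r 1)
    (s3 : 1 ≤ r 1) (s4 : r 4 ≤ r 3) (s5 : r 5 ≤ r 4) (s6 : 1 ≤ r 4)
    (s7 : r 3 + r 4 + r 5 ≤ r 0 + r 1 + r 2) {n o1 o2 : ℕ}
    (ho : (n = 7 ∧ o1 = 0 ∧ o2 = 0) ∨ (n = 4 ∧ o1 ∈ a0o ∧ o2 = 0) ∨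
      (n = 1 ∧ o1 ∈ a0o ∧ o2 ∈ a0o ∧ o1 ≤ o2)) :
    a0pat (m 0) (m 1) (m 2) (m 3) (m 4) (r 0) (r 1) (r 2) (r 3) (r 4) (r 5) n o1 o2 = true := by
  have k := a0num_node (hm 0) (hm 1) (hm 2) (hm 3) (hm 4) (hb 0 1 (by decide))
    (hb 0 2 (by decide)) (hb 0 3 (by decide)) (hb 0 4 (by decide)) (hb 1 2 (by decide))
    (hb 1 3 (by decide)) (hb 1 4 (by decide)) (hb 2 3 (by decide)) (hb 2 4 (by decide))
    (hb 3 4 (by decide))
  unfold a0node at k
  rw [← hr 0, ← hr 1, ← hr 2, ← hr 3, ← hr 4, ← hr 5] at k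
  simp only [frc_eq] at k
  rw [a0num_blt s1, a0num_beq s3, a0num_blt s2, a0num_blt s4, a0num_beq s6, a0num_blt s5,
    a0num_blt s7] at k
  simp only [Bool.false_or] at k
  rw [Bool.and_eq_true] at k
  obtain ⟨k7, k⟩ := k
  rcases ho with ⟨rfl, rfl, rfl⟩ | ⟨rfl, h1, rfl⟩ | ⟨rfl, h1, h2, h12⟩
  · exact k7
  · have k1 := List.all_eq_true.1 k o1 h1
    rw [Bool.and_eq_true] at k1
    exact k1.1
  · have k1 := List.all_eq_true.1 k o1 h1
    rw [Bool.and_eq_true, Bool.or_eq_true, Bool.or_eq_true] at k1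
    rcases k1.2 with k2 | k2 | k2
    · exact a0num_pat2 o2 k2
    · exact a0num_pat1 o2 k2
    · have k3 := List.all_eq_true.1 k2 o2 h2
      rw [a0num_blt h12, Bool.false_or] at k3
      exact k3

theorem a0pat_elim {m0 m1 m2 m3 m4 : ℕ} {r d : ℕ → ℕ} {n o1 o2 : ℕ}
    (h : a0pat m0 m1 m2 m3 m4 (r 0) (r 1) (r 2) (r 3) (r 4) (r 5) n o1 o2 = true)
    (hd : ∀ x < 6, d x + r x + bt o1 x + bt o2 x = 4) :
    a0side n (r 2) (d 0) (d 1) (d 2) = true ∨ a0few (d 0) (d 1) (d 2) = true ∨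
      a0side n (r 5) (d 3) (d 4) (d 5) = true ∨ a0few (d 3) (d 4) (d 5) = true ∨
      a0hard [m0, m1, m2, m3, m4] [m0, m1, m2, m3, m4, o1, o2, 7, 56] [7, 56, o1, o2] n
        (d 0) (d 1) (d 2) (d 3) (d 4) (d 5) = true := by
  have e : ∀ x < 6, d x + Nat.add (r x) (bt2 o1 o2 x) = 4 := by
    intro x hx
    have := hd x hx
    rw [a0num_bt2]
    omega
  unfold a0pat at h
  rw [a0w_eq (e 0 (by omega)), a0w_eq (e 1 (by omega)), a0w_eq (e 2 (by omega)),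
    a0w_eq (e 3 (by omega)), a0w_eq (e 4 (by omega)), a0w_eq (e 5 (by omega)),
    Bool.or_eq_true, Bool.or_eq_true, Bool.or_eq_true, Bool.or_eq_true] at h
  exact h

theorem a0side_elim {n r x y z : ℕ} (hx : x ≤ 4) (hy : y ≤ 4) (hz : z ≤ 4)
    (h : a0side n r x y z = true) :
    n ≤ gainV y z ∨ n ≤ gainV x z ∨ (1 ≤ r ∧ (n ≤ gainV x y ∨ n ≤ gainV x (y + z) ∨
      n ≤ gainV y (x + z) ∨ n ≤ gainV z (x + y))) := by
  unfold a0side at h
  rw [gtab_eq hy (show z ≤ 8 by omega), gtab_eq hx (show z ≤ 8 by omega),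
    gtab_eq hx (show y ≤ 8 by omega), gtab_eq hx (show y + z ≤ 8 by omega),
    gtab_eq hy (show x + z ≤ 8 by omega), gtab_eq hz (show x + y ≤ 8 by omega)] at h
  simp only [Bool.or_eq_true, Bool.and_eq_true, Nat.ble_eq, Nat.blt_eq] at h
  exact h

theorem a0few_elim {x y z : ℕ} (h : a0few x y z = true) : x + y = 0 ∨ x + z = 0 ∨ y + z = 0 := by
  unfold a0few at h
  simp only [Bool.or_eq_true, Nat.beq_eq] at h
  exact h

/-- `h e1' e2'` is the context with weaker lower bounds -/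
theorem a0hard_pb [Infinite V] {H W : Finset (Finset V)} {q : Fin 6 → Finset V}
    {L G G' : List ℕ} {n d0 d1 d2 d3 d4 d5 e1 e2 : ℕ} (hG : ∀ g ∈ G', g ∈ G)
    (h1 : e1 ≤ min d0 d1) (h2 : e2 ≤ min d3 d4)
    (h : ∀ e1' ≤ e1, ∀ e2' ≤ e2, MkC H W q L G (a0lo d0 d1 d2 d3 d4 d5 e1' e2') (a0up e1 e2))
    (hc : a0hard L G G' n d0 d1 d2 d3 d4 d5 = true) : PB H W 5 n := by
  have e63 : (63 : ℕ) = 2 ^ 6 - 1 := by decide
  unfold a0hard at hc
  rw [Bool.or_eq_true] at hc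
  rcases hc with hc | hc
  · exfalso
    obtain ⟨u, hu, k⟩ := List.any_eq_true.1 hc
    rw [Bool.and_eq_true] at k
    obtain ⟨g, hg, k2⟩ := List.any_eq_true.1 k.2
    have k3 := (h 0 (Nat.zero_le _) 0 (Nat.zero_le _)).void_xor hu (hG g hg)
    rw [e63, k3] at k2
    exact absurd k2 (by decide)
  · have k1 := List.all_eq_true.1 hc e1 (List.mem_range.2 (by omega))
    rw [Bool.or_eq_true] at k1
    rcases k1 with k1 | k1
    · rw [e63] at k1
      exact ((h e1 le_rfl 0 (Nat.zero_le _)).void_false k1).elim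
    · have k2 := List.all_eq_true.1 k1 e2 (List.mem_range.2 (by omega))
      rw [Bool.or_eq_true, Bool.or_eq_true] at k2
      rcases k2 with k2 | k2 | k2
      · rw [e63] at k2
        exact ((h e1 le_rfl e2 le_rfl).void_false k2).elim
      · obtain ⟨s, -, k3⟩ := List.any_eq_true.1 k2
        rw [e63] at k3
        exact (h e1 le_rfl e2 le_rfl).one_pb k3
      · obtain ⟨p, -, k3⟩ := List.any_eq_true.1 k2
        rw [e63] at k3
        exact (h e1 le_rfl e2 le_rfl).dbl_pb k3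

end Pool.Agent.Work.MP_d266e7_co.C5.P24
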