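import Pool.Agent.Work.MP_d266e7_co.P24.T1
import Pool.Agent.Work.MP_d266e7_co.C5.Bad2
import Pool.Agent.Work.MP_d266e7_co.C5.ULem

/-!
Definitions for the proof that `Bad2 H` forces six members on ten vertices. See `PLAN.md`.
-/

namespace Pool.Agent.Work.MP_d266e7_co.C5.P24

open Finset

variable {V : Type} [DecidableEq V]

/-- the extra hosts of a double split -/
def xh (H : Finset (Finset V)) (t t' : V) (F : Finset (Finset (Finset V))) : Finset (Finset V) :=
  (H \ (star H t ∪ star H t')) \ un F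

/-- the pieces of `F` met by a member of `S` -/
def nbp (F : Finset (Finset (Finset V))) (S : Finset (Finset V)) : Finset (Finset (Finset V)) :=
  F.filter fun W => ∃ x ∈ S, 1 ≤ dd W x

/-- the members of `T` that meet a piece of `G` -/
def nbh (T : Finset (Finset V)) (G : Finset (Finset (Finset V))) : Finset (Finset V) :=
  T.filter fun x => ∃ W ∈ G, 1 ≤ dd W x

/-- a double split with all Hall conditions -/
structure HS (H : Finset (Finset V)) (t t' : V) (F : Finset (Finset (Finset V))) : Prop where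
  u5 : U5 H
  d1 : dg H t = 3
  d2 : dg H t' = 3
  dis : Disjoint (star H t) (star H t')
  fam : Fam (H \ (star H t ∪ star H t')) F
  card : F.card = (xh H t t' F).card + 2
  tau2 : tau (un F) + 2 ≤ tau H
  h1 : ∀ G ⊆ F, G.Nonempty → G.card + 1 ≤ (nbh (star H t ∪ xh H t t' F) G).card
  h2 : ∀ G ⊆ F, G.Nonempty → G.card + 1 ≤ (nbh (star H t' ∪ xh H t t' F) G).card
  nd : ∀ S ⊆ xh H t t' F, S.Nonempty → S.card + 1 ≤ (nbp F S).card

/-- a double split of a smallest counterexample -/
structure BD (H : Finset (Finset V)) (t t' : V) (F : Finset (Finset (Finset V))) : Prop where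
  bad : Bad2 H
  ds : DS H t t' F

/-- no member of `W` lies inside `A` -/
def NoIn (W : Finset (Finset V)) (A : Finset V) : Prop := ∀ c ∈ W, ¬ c ⊆ A

/-- gain of the pair gadget with two common vertices -/
def gnf (p q : ℕ) : ℕ :=
  if 3 ≤ p ∧ 3 ≤ q then 5 else if (3 ≤ p ∧ 2 ≤ q) ∨ (2 ≤ p ∧ 3 ≤ q) then 2 else 0

/-- gain of the pair gadget; `sa`, `sb`: the families are safe; `nf`: no member inside -/
def gU (p q : ℕ) (sa sb nf : Bool) : ℕ :=
  max (max (gainV (if sa then p else min p 3) (if sb then q else min q 3))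
    (gainV p q - (if sa then 0 else 1) - (if sb then 0 else 1))) (if nf then gnf p q else 0)

/-- data of a pair gadget -/
structure GD (H W : Finset (Finset V)) (A B : Finset V) (sa sb nf : Bool) : Prop where
  hA : A ⊆ cov W
  hB : B ⊆ cov W
  cr : Cross W A B
  sA : sa = true → Safe H W A
  sB : sb = true → Safe H W B
  nf : nf = true → NoIn W (A ∪ B)

/-- two new nodes on `A`, `B` with net gain `g` -/
def GX (H W : Finset (Finset V)) (A B : Finset V) (g : ℕ) : Prop :=
  ∃ a b : Finset V, Ear W a b ∧ a ∩ cov W ⊆ A ∧ b ∩ cov W ⊆ B ∧ (2 ≤ g → (a ∩ b).card ≤ 2) ∧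
    g + hi (insert a (insert b H)) (insert a (insert b W)) + 3 * ((a ∪ b) \ cov W).card ≤
      hi H W + 11 + (if dd W a + (a ∩ b).card ≤ 3 then 1 else 0) +
        if dd W b + (a ∩ b).card ≤ 3 then 1 else 0

end Pool.Agent.Work.MP_d266e7_co.C5.P24
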