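import Pool.Agent.Work.MP_d266e7_co.P24B.BDS

/-!
Removing a tight set of extra hosts. `N = xh H t t' F`.
`tight_le`: the pieces `F \ nbp F S` have their neighbours in `(star H t ∪ N) \ S` (`hall`,
`facts`; if there are none count directly).
`ex_hs`: `H' = H \ (S ∪ un (nbp F S))` has the same stars at `t`, `t'` and `xh H' = N \ S`;
`tau H ≤ tau H' + tau (un (nbp F S) ∪ S) ≤ tau H' + tau (un (nbp F S))` (`hall_tau`, `tight_le`);
`h1`, `h2` from `hall` (no member of `S` meets the remaining pieces); `nd` from `hmax` for `S ∪ S'`.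
`ex_ineq`: `HS.cc` and `ih` give `VB H' 2` (`|H'| ≥ 8`). Put `F' = nbp F S`.
`|cov H'| + |cov (un F')| ≤ |cov H| + i`; `hi H' H' + ∑ hi H W ≤ hi H H` (`hi_mono`, `hi_add`,
`hi_sum`); `tt H (dg H) ≤ tt H' (dg H') + ∑ tt W (dg H) + tt S (dg H)` and `tt S (dg H) = 0`: two
vertices of degree one of an extra host are outside vertices besides `t`, `t'`, against `close`.
`ex_nj`: `nj_of_cover`; say `x ∈ star H t ∪ N`; the rest is
`un (F.erase W) ∪ ((star H t ∪ N).erase f).erase x ∪ star H t'` (`hall_erase` with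
`T = (star H t ∪ N).erase f`, `G = F.erase W`).
-/

namespace Pool.Agent.Work.MP_d266e7_co.C5.P24

open Finset

variable {V : Type} [DecidableEq V]

namespace BD

variable {H : Finset (Finset V)} {t t' : V} {F : Finset (Finset (Finset V))}

theorem bex1_card (h : BD H t t' F) : (star H t ∪ xh H t t' F).card ≤ F.card + 1 := by
  have h1 := card_union_le (star H t) (xh H t t' F)
  have h2 : (star H t).card = 3 := h.ds.d1
  have h3 := h.facts.1
  omega

theorem bex1_sub : star H t ∪ xh H t t' F ⊆ H :=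
  union_subset (filter_subset _ _) fun _ hx => (mem_xh.1 hx).1

theorem bex1_un (h : BD H t t' F) {e : Finset V} (he : e ∈ un F) : t ∉ e ∧ t' ∉ e := by
  obtain ⟨h1, h2⟩ := mem_sdiff.1 (h.ds.fam.un_sub he)
  exact ⟨fun k => h2 (mem_union_left _ (mem_star.2 ⟨h1, k⟩)),
    fun k => h2 (mem_union_right _ (mem_star.2 ⟨h1, k⟩))⟩

theorem bex1_nbp {S : Finset (Finset V)} : nbp F S ⊆ F := filter_subset _ _

theorem bex1_mono {G : Finset (Finset (Finset V))} (h : G ⊆ F) : un G ⊆ un F := fun _ he =>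
  let ⟨W, h1, h2⟩ := mem_un.1 he
  mem_un.2 ⟨W, h h1, h2⟩

theorem bex1_nbh {S T : Finset (Finset V)} {G : Finset (Finset (Finset V))}
    (hG : G ⊆ F \ nbp F S) {x : Finset V} (hx : x ∈ nbh T G) : x ∉ S := fun k => by
  obtain ⟨-, W, h1, h2⟩ := mem_nbh.1 hx
  obtain ⟨h3, h4⟩ := mem_sdiff.1 (hG h1)
  exact h4 (mem_nbp.2 ⟨h3, x, k, h2⟩)

theorem tight_le (h : BD H t t' F) : ∀ S ⊆ xh H t t' F, S.card ≤ (nbp F S).card := by
  intro S hS
  have h1 := card_sdiff_add_card_eq_card (bex1_nbp (F := F) (S := S))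
  have h2 := card_le_card hS
  have h3 := h.facts.1
  rcases (F \ nbp F S).eq_empty_or_nonempty with h4 | h4
  · rw [h4, card_empty] at h1
    omega
  have h5 := (h.hall _ sdiff_subset h4).trans (card_le_card
    (show _ ⊆ (star H t ∪ xh H t t' F) \ S from fun x hx =>
      mem_sdiff.2 ⟨(mem_nbh.1 hx).1, bex1_nbh Subset.rfl hx⟩))
  have h6 := card_sdiff_add_card_eq_card (hS.trans (subset_union_right (s₁ := star H t)))
  have h7 := h.bex1_card
  omega

theorem bex1_star (h : BD H t t' F) {S : Finset (Finset V)} (hS : S ⊆ xh H t t' F) :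
    star (H \ (S ∪ un (nbp F S))) t = star H t := by
  refine Subset.antisymm (star_mono sdiff_subset t) fun e he => ?_
  obtain ⟨h1, h2⟩ := mem_star.1 he
  exact mem_star.2 ⟨mem_sdiff.2 ⟨h1, fun k => (mem_union.1 k).elim
    (fun k => (mem_xh.1 (hS k)).2.1 h2) fun k => (h.bex1_un (bex1_mono bex1_nbp k)).1 h2⟩, h2⟩

theorem bex1_xh (S : Finset (Finset V)) :
    xh (H \ (S ∪ un (nbp F S))) t t' (F \ nbp F S) = xh H t t' F \ S := by
  ext x
  rw [mem_xh, mem_sdiff, mem_sdiff, mem_xh, mem_union, not_or]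
  refine ⟨fun ⟨⟨h1, h2, h3⟩, h4, h5, h6⟩ => ⟨⟨h1, h4, h5, fun k => ?_⟩, h2⟩,
    fun ⟨⟨h1, h2, h3, h4⟩, h5⟩ => ⟨⟨h1, h5, fun k => h4 (bex1_mono bex1_nbp k)⟩, h2, h3,
      fun k => h4 (bex1_mono sdiff_subset k)⟩⟩
  obtain ⟨W, k1, k2⟩ := mem_un.1 k
  exact h6 (mem_un.2 ⟨W, mem_sdiff.2 ⟨k1, fun r => h3 (mem_un.2 ⟨W, r, k2⟩)⟩, k2⟩)

theorem bex1_tau (h : BD H t t' F) {G : Finset (Finset (Finset V))} (hG : G ⊆ F) :
    tau (un (F \ G)) + tau (un G) + 2 = tau H := by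
  rw [← h.ds.tau2, h.ds.fam.tau_un, (h.ds.fam.mono Subset.rfl hG).tau_un,
    (h.ds.fam.mono Subset.rfl sdiff_subset).tau_un, sum_sdiff hG]

theorem bex1_hall (h : BD H t t' F) (S : Finset (Finset V)) :
    ∀ G ⊆ F \ nbp F S, G.Nonempty → G.card + 1 ≤ (nbh (star H t ∪ xh H t t' F \ S) G).card :=
  fun G hG hne => (h.hall G (hG.trans sdiff_subset) hne).trans (card_le_card fun _ hx =>
    mem_nbh.2 ⟨(mem_union.1 (mem_nbh.1 hx).1).elim (mem_union_left _) fun k =>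
      mem_union_right _ (mem_sdiff.2 ⟨k, bex1_nbh hG hx⟩), (mem_nbh.1 hx).2⟩)

theorem ex_hs (h : BD H t t' F) {S : Finset (Finset V)} (hS : S ⊆ xh H t t' F)
    (ht : (nbp F S).card ≤ S.card)
    (hmax : ∀ S' ⊆ xh H t t' F, S ⊂ S' → S'.card + 1 ≤ (nbp F S').card) :
    HS (H \ (S ∪ un (nbp F S))) t t' (F \ nbp F S) := by
  have s1 := h.bex1_star hS
  have s2 := h.symm.bex1_star (xh_comm H t t' F ▸ hS)
  have u5 := h.bad.cc.u5
  have hF := h.ds.famH
  have hSH : S ⊆ H := fun x hx => (mem_xh.1 (hS hx)).1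
  refine ⟨u5.mono sdiff_subset, by rw [dg, s1]; exact h.ds.d1, by rw [dg, s2]; exact h.ds.d2,
    by rw [s1, s2]; exact h.ds.dis, ⟨fun W hW e he => ?_, fun W hW => hF.cc W (mem_sdiff.1 hW).1,
      fun W hW W' hW' => hF.sep W (mem_sdiff.1 hW).1 W' (mem_sdiff.1 hW').1⟩, ?_, ?_, ?_, ?_, ?_⟩
  · obtain ⟨w1, w2⟩ := mem_sdiff.1 hW
    obtain ⟨e1, e2⟩ := mem_sdiff.1 (h.ds.fam.sub W w1 he)
    rw [s1, s2]
    refine mem_sdiff.2 ⟨mem_sdiff.2 ⟨e1, fun k => (mem_union.1 k).elim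
      (fun k => (mem_xh.1 (hS k)).2.2.2 (mem_un.2 ⟨W, w1, he⟩)) fun k => ?_⟩, e2⟩
    obtain ⟨Z, z1, z2⟩ := mem_un.1 k
    exact disjoint_left.1 ((hF.sep W w1 Z (bex1_nbp z1) fun r => w2 (r ▸ z1)).disjoint
      (hF.cc W w1).u5.ne) he z2
  · have h1 := card_sdiff_add_card_eq_card (bex1_nbp (F := F) (S := S))
    have h2 := card_sdiff_add_card_eq_card hS
    have h3 := h.facts.1
    have h4 := h.tight_le S hS
    rw [bex1_xh]
    omega
  · have h1 := h.bex1_tau (bex1_nbp (S := S))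
    have h2 := hall_tau u5.ne (hF.mono Subset.rfl (bex1_nbp (S := S))) hSH fun S' hS' =>
      (h.tight_le S' (hS'.trans hS)).trans (card_le_card fun W hW => by
        obtain ⟨k1, x, k2, k3⟩ := mem_nbp.1 hW
        exact mem_nbp.2 ⟨mem_nbp.2 ⟨k1, x, hS' k2, k3⟩, x, k2, k3⟩)
    have h3 : un (nbp F S) ∪ S ⊆ H := union_subset (hF.mono Subset.rfl bex1_nbp).un_sub hSH
    have h4 := tau_union_le (u5.ne.mono (sdiff_subset (t := un (nbp F S) ∪ S))) (u5.ne.mono h3)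
    rw [sdiff_union_of_subset h3, union_comm] at h4
    rw [union_comm] at h2
    omega
  · rw [s1, bex1_xh]
    exact h.bex1_hall S
  · rw [s2, bex1_xh, xh_comm]
    exact h.symm.bex1_hall S
  · rw [bex1_xh]
    intro S' h1 ⟨x, hx⟩
    have h2 : Disjoint S S' := disjoint_sdiff.mono_right h1
    have h3 := (hmax (S ∪ S') (union_subset hS (h1.trans sdiff_subset))
      ((ssubset_iff_of_subset subset_union_left).2
        ⟨x, mem_union_right _ hx, disjoint_right.1 h2 hx⟩)).trans (card_le_card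
      (show _ ⊆ nbp F S ∪ nbp (F \ nbp F S) S' from fun W hW => by
        obtain ⟨k1, y, k2, k3⟩ := mem_nbp.1 hW
        by_cases r : W ∈ nbp F S
        · exact mem_union_left _ r
        · exact mem_union_right _ (mem_nbp.2 ⟨mem_sdiff.2 ⟨k1, r⟩, y,
            (mem_union.1 k2).resolve_left fun k => r (mem_nbp.2 ⟨k1, y, k, k3⟩), k3⟩)))
    have h4 := card_union_le (nbp F S) (nbp (F \ nbp F S) S')
    rw [card_union_of_disjoint h2] at h3
    omega

theorem bex1_tt (h : BD H t t' F) (g : Finset (Finset V) → ℕ) (hg : ∀ W ∈ F, PB H W 5 (g W))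
    {x : Finset V} (hx : x ∈ xh H t t' F) : (x.filter fun v => dg H v ≤ 1).card ≤ 1 := by
  obtain ⟨x1, x2, x3, x4⟩ := mem_xh.1 hx
  obtain ⟨o1, o2, o3⟩ := h.ds.out
  have h1 := h.close g hg 0 (hi_sum h.ds.famH)
  have h2 := card_pos.2 ⟨x, hx⟩
  have h3 : insert t (insert t' (x.filter fun v => dg H v ≤ 1)) ⊆ cov H \ cov (un F) :=
    insert_subset o2 (insert_subset o3 fun v hv => by
      obtain ⟨v1, v2⟩ := mem_filter.1 hv
      refine mem_sdiff.2 ⟨mem_cov.2 ⟨x, x1, v1⟩, fun k => ?_⟩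
      obtain ⟨e, e1, e2⟩ := mem_cov.1 k
      exact x4 (faml_two x1 (h.ds.famH.un_sub e1) v1 e2 v2 ▸ e1))
  have h4 := card_le_card h3
  rw [card_insert_of_notMem fun k => (mem_insert.1 k).elim o1 fun k => x2 (mem_filter.1 k).1,
    card_insert_of_notMem fun k => x3 (mem_filter.1 k).1] at h4
  omega

theorem ex_ineq [Infinite V] (h : BD H t t' F) {S : Finset (Finset V)} (hS : S ⊆ xh H t t' F)
    (hne : S.Nonempty) (ht : (nbp F S).card ≤ S.card)
    (hmax : ∀ S' ⊆ xh H t t' F, S ⊂ S' → S'.card + 1 ≤ (nbp F S').card)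
    (g : Finset (Finset V) → ℕ) (hg : ∀ W ∈ F, PB H W 5 (g W)) :
    ∑ W ∈ nbp F S, g W + 3 * S.card + 1 ≤
      3 * (cov (un (nbp F S)) ∩ cov (H \ (S ∪ un (nbp F S)))).card := by
  have hs := h.ex_hs hS ht hmax
  obtain ⟨c1, c2⟩ := hs.cc
  have hF := h.ds.famH
  have hF' := hF.mono Subset.rfl (bex1_nbp (S := S))
  have hSH : S ⊆ H := fun x hx => (mem_xh.1 (hS hx)).1
  have a1 := h.tight_le S hS
  have a2 := h.bex1_tau (bex1_nbp (S := S))
  have a3 := card_sdiff_add_card_eq_card (union_subset hSH hF'.un_sub)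
  rw [card_union_of_disjoint (disjoint_left.2 fun x k r =>
    (mem_xh.1 (hS k)).2.2.2 (bex1_mono bex1_nbp r)), hF'.card_un] at a3
  have a4 : ∑ W ∈ nbp F S, 2 * tau W = ∑ W ∈ nbp F S, (W.card + 1) :=
    sum_congr rfl fun W hW => h.facts.2 W (bex1_nbp hW)
  rw [← mul_sum, sum_add_distrib, ← card_eq_sum_ones] at a4
  have a5 := hF'.tau_un
  have a6 := h.bad.val
  have a7 := card_pos.2 hne
  have a8 : ∑ _W ∈ F \ nbp F S, 1 ≤ ∑ W ∈ F \ nbp F S, tau W := sum_le_sum fun W hW => by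
    have := h.facts.2 W (mem_sdiff.1 hW).1
    omega
  rw [← card_eq_sum_ones, ← hs.fam.tau_un, hs.card] at a8
  have b1 := h.bad.ih _ (by omega) c1 (fun v => (dg_mono sdiff_subset v).trans (h.bad.d3 v))
    (by omega) (by omega)
  have b2 := h.bad.small
  have b3 := sum_le_sum fun W (hW : W ∈ nbp F S) => hg W (bex1_nbp hW)
  simp only [sum_add_distrib, ← mul_sum, sum_const, Nat.nsmul_eq_mul] at b3
  have b4 := card_union_add_card_inter (cov (un (nbp F S))) (cov (H \ (S ∪ un (nbp F S))))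
  have b5 := card_le_card (union_subset (cov_mono hF'.un_sub)
    (cov_mono (sdiff_subset (s := H) (t := S ∪ un (nbp F S)))))
  have b6 := hF'.cov_un
  have b7 := hi_mono (sdiff_subset (s := H) (t := S ∪ un (nbp F S)))
    (Subset.refl (H \ (S ∪ un (nbp F S))))
  have b8 := hi_sum (H := H) (⟨fun W hW => sub_un hW, hF'.cc, hF'.sep⟩ : Fam (un (nbp F S)) _)
  have b9 := hi_add (H := H) (sdiff_disjoint.mono_right subset_union_right)
    (sdiff_subset (s := H) (t := S ∪ un (nbp F S))) hF'.un_sub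
  have d1 := hF'.tt_eq (dg H)
  have d2 : tt (H \ un (nbp F S)) (dg H) ≤ tt (H \ (S ∪ un (nbp F S))) (dg H) :=
    card_le_card fun x hx => by
      obtain ⟨k1, k2⟩ := mem_filter.1 hx
      refine mem_filter.2 ⟨mem_sdiff.2 ⟨(mem_sdiff.1 k1).1, fun k => (mem_union.1 k).elim
        (fun k => ?_) (mem_sdiff.1 k1).2⟩, k2⟩
      have := h.bex1_tt g hg (hS k)
      omega
  have d3 := tt_mono (S := H \ (S ∪ un (nbp F S))) fun v _ =>
    dg_mono (sdiff_subset (s := H) (t := S ∪ un (nbp F S))) v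
  unfold VB at b1 b2
  omega

theorem bex1_nj (h : BD H t t' F) {f x : Finset V} {W : Finset (Finset V)} (hW : W ∈ F)
    (hf : f ∈ xh H t t' F) (he : ∀ Z ∈ F, Z ≠ W → dd Z f = 0) (hx : x ∈ star H t ∪ xh H t t' F)
    (hxf : x ≠ f) : NJ W f x := by
  have hN := h.bad.cc.u5.ne
  have hF := h.ds.famH
  have hG := hF.mono Subset.rfl (erase_subset W F)
  have hT : (star H t ∪ xh H t t' F).erase f ⊆ H := (erase_subset _ _).trans bex1_sub
  have h1 := hall_erase hN hG hT (by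
    have k1 := card_erase_add_one hW
    have k2 := card_erase_add_one (mem_union_right (star H t) hf)
    have k3 := h.bex1_card
    omega) (fun G k1 k2 => (h.hall G (k1.trans (erase_subset _ _)) k2).trans
      (card_le_card fun y hy => by
        obtain ⟨y1, Z, y2, y3⟩ := mem_nbh.1 hy
        refine mem_nbh.2 ⟨mem_erase.2 ⟨?_, y1⟩, Z, y2, y3⟩
        rintro rfl
        have := he Z (mem_erase.1 (k1 y2)).2 (mem_erase.1 (k1 y2)).1
        omega)) (mem_erase.2 ⟨hxf, hx⟩)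
  have h2 : un (F.erase W) ∪ ((star H t ∪ xh H t t' F).erase f).erase x ⊆ H :=
    union_subset hG.un_sub ((erase_subset _ _).trans hT)
  have h3 := tau_le_succ (hN.mono h2) t' fun e (k : e ∈ _ ∪ star H t') =>
    (mem_union.1 k).imp id fun k => (mem_star.1 k).2
  have h4 := h.ds.tau2
  rw [hF.tau_un, ← add_sum_erase _ _ hW, ← hG.tau_un] at h4
  refine nj_of_cover hN (hF.sub W hW) (union_subset h2 (filter_subset _ _)) (mem_xh.1 hf).1
    (bex1_sub hx) (fun e k => ?_) h3 (by omega)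
  by_cases e1 : e = f
  · exact Or.inl e1
  by_cases e2 : e = x
  · exact Or.inr (Or.inl e2)
  refine Or.inr (Or.inr ?_)
  by_cases e3 : e ∈ un F
  · obtain ⟨Z, z1, z2⟩ := mem_un.1 e3
    by_cases e4 : Z = W
    · exact Or.inl (e4 ▸ z2)
    · exact Or.inr (mem_union_left _ (mem_union_left _ (mem_un.2 ⟨Z, mem_erase.2 ⟨e4, z1⟩, z2⟩)))
  by_cases e4 : t' ∈ e
  · exact Or.inr (mem_union_right _ (mem_star.2 ⟨k, e4⟩))
  refine Or.inr (mem_union_left _ (mem_union_right _ (mem_erase.2 ⟨e2, mem_erase.2 ⟨e1, ?_⟩⟩)))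
  by_cases e5 : t ∈ e
  · exact mem_union_left _ (mem_star.2 ⟨k, e5⟩)
  · exact mem_union_right _ (mem_xh.2 ⟨k, e5, e4, e3⟩)

theorem ex_nj (h : BD H t t' F) {f x : Finset V} {W : Finset (Finset V)} (hW : W ∈ F)
    (hf : f ∈ xh H t t' F) (he : ∀ Z ∈ F, Z ≠ W → dd Z f = 0) (hx : x ∈ H \ un F)
    (hxf : x ≠ f) : NJ W f x := by
  obtain ⟨x1, x2⟩ := mem_sdiff.1 hx
  by_cases e1 : t' ∈ x
  · exact h.symm.bex1_nj hW (xh_comm H t t' F ▸ hf) he (mem_union_left _ (mem_star.2 ⟨x1, e1⟩)) hxf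
  refine h.bex1_nj hW hf he ?_ hxf
  by_cases e2 : t ∈ x
  · exact mem_union_left _ (mem_star.2 ⟨x1, e2⟩)
  · exact mem_union_right _ (mem_xh.2 ⟨x1, e2, e1, x2⟩)

end BD

end Pool.Agent.Work.MP_d266e7_co.C5.P24
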