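import Pool.Agent.Work.MP_d266e7_co.P24B.BEx1

/-!
No set of extra hosts is tight. `N = xh H t t' F`, `|N| ≤ 2` (`close1`, `out_two`).
`ex_one`: `sgad1N` with `ex_nj`, `pb_gain`. `ex_four`: `Fam.five`; the vertices of `f` outside the
pieces are outside vertices other than `t`, `t'`.
`ex_three`: with `H'` of `ex_hs` for `S = N`, `hall_erase` absorbs `(star H t).erase x` in the two
remaining pieces; add `t'` (for `x ∈ star H t'` use `symm`).
`ex_two`: `p k = dd W1 (f k)`, `q k = dd W2 (f k)`, `p k + q k = 5` (`ex_four`, no further outside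
vertex by `close1`), `M = star H t ∪ star H t'`, `b1 = |cov M ∩ cov W1|`, `b2` likewise,
`b1 + b2 ≥ 3` by `ex_ineq` with `g = 0`. From `ex_three` and `absorb`: if `f2` meets `W2` then
`NJ W1 f1 x` for all `x ∈ M`; if some `x ∈ M` meets `W2` then `NJ W1 f1 f2`, and so on. Gains by
`sgad1N` (with `N = M` or `insert f2 M`; `cov (insert f2 M) ∩ cov W1` has `p 2 + b1` vertices by
`NJ.disjoint`), `sgad11`, `pb_gain`, `pb_exact`; `hall` for `{W1}`; `ex_num`; `close2`.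
`hs`: if no nonempty `S ⊆ N` has `|nbp F S| ≤ |S|` use `ex_hs` for `S = ∅`. Else take such an `S`
of largest size. `|S| = 2`: `ex_two`. `S = {f}`, `nbp F S = {W}`: with `i` as in `ex_ineq` (it is
the size in `ex_one`), `i ≥ 3` gives gain 5 against `close1`, `i = 2` gives gain 3 against
`ex_ineq`, `i ≤ 1` is against `ex_ineq` with `g = 0`.
-/

namespace Pool.Agent.Work.MP_d266e7_co.C5.P24

open Finset

variable {V : Type} [DecidableEq V]

theorem bex2_g {p q g : ℕ} (h : gainV p q ≤ g) : (2 ≤ p → 2 ≤ q → 1 ≤ g) ∧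
    (3 ≤ p → 3 ≤ q → 2 ≤ g) ∧ (4 ≤ p → 2 ≤ q → 3 ≤ g) ∧ (2 ≤ p → 4 ≤ q → 3 ≤ g) ∧
      (4 ≤ p → 3 ≤ q → 5 ≤ g) := by
  unfold gainV at h
  split_ifs at h <;> omega

/-- the conditions of `ex_num` for one piece -/
def bex2_C (p1 p2 q1 q2 b1 b2 g : ℕ) : Prop :=
  1 ≤ p1 + p2 ∧ (b1 = 0 → 1 ≤ p1 ∧ 1 ≤ p2) ∧ (1 ≤ q2 → gainV p1 b1 ≤ g) ∧
    (1 ≤ q1 → gainV p2 b1 ≤ g) ∧ (1 ≤ b2 → gainV p1 p2 ≤ g) ∧ (1 ≤ b2 → 1 ≤ q1 → 1 ≤ q2 →
      gainV p1 (min (p2 + b1) 3) ≤ g ∧ gainV p2 (min (p1 + b1) 3) ≤ g)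

instance bex2_dec (p1 p2 q1 q2 b1 b2 g : ℕ) : Decidable (bex2_C p1 p2 q1 q2 b1 b2 g) := by
  unfold bex2_C
  infer_instance

theorem bex2_num : ∀ p1 p2 : Fin 6, ∀ b1 b2 : Fin 4, ∀ g1 g2 : Fin 2,
    bex2_C p1 p2 (5 - p1) (5 - p2) b1 b2 g1 → bex2_C (5 - p1) (5 - p2) p1 p2 b2 b1 g2 →
    b1.1 + b2.1 < 3 ∨ 2 ≤ g1.1 + g2.1 := by
  decide +kernel

theorem bex2_nj {W Z S : Finset (Finset V)} {a b c : Finset V} (hZ : CC Z) (hc : 1 ≤ dd Z c)
    (h1 : NE (insert a (insert b W))) (h2 : NE (insert c Z))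
    (hS : S ⊆ insert a (insert b W) ∪ insert c Z) (h : tau W + tau Z < tau S) : NJ W a b := by
  have h3 := tau_mono (fun e he => (mem_union.1 he).elim (h1 e) (h2 e)) hS
  have h4 := tau_union_le h1 h2
  have h5 := absorb hZ hc
  unfold NJ
  omega

theorem ex_num {p1 p2 q1 q2 b1 b2 g1 g2 : ℕ} (e1 : p1 + q1 = 5) (e2 : p2 + q2 = 5)
    (hp : 1 ≤ p1 + p2) (hq : 1 ≤ q1 + q2) (hb : 3 ≤ b1 + b2)
    (n1 : b1 = 0 → 1 ≤ p1 ∧ 1 ≤ p2) (n2 : b2 = 0 → 1 ≤ q1 ∧ 1 ≤ q2)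
    (a1 : 1 ≤ q2 → gainV p1 (min b1 3) ≤ g1) (a2 : 1 ≤ q1 → gainV p2 (min b1 3) ≤ g1)
    (a3 : 1 ≤ b2 → gainV p1 p2 ≤ g1)
    (a4 : 1 ≤ b2 → 1 ≤ q1 → 1 ≤ q2 →
      gainV p1 (min (p2 + b1) 3) ≤ g1 ∧ gainV p2 (min (p1 + b1) 3) ≤ g1)
    (c1 : 1 ≤ p2 → gainV q1 (min b2 3) ≤ g2) (c2 : 1 ≤ p1 → gainV q2 (min b2 3) ≤ g2)
    (c3 : 1 ≤ b1 → gainV q1 q2 ≤ g2)
    (c4 : 1 ≤ b1 → 1 ≤ p1 → 1 ≤ p2 →
      gainV q1 (min (q2 + b2) 3) ≤ g2 ∧ gainV q2 (min (q1 + b2) 3) ≤ g2) : 2 ≤ g1 + g2 := by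
  by_contra hc
  obtain rfl : q1 = 5 - p1 := by omega
  obtain rfl : q2 = 5 - p2 := by omega
  have m : ∀ a b : ℕ, min (a + min b 3) 3 = min (a + b) 3 := fun a b => by omega
  have k : ∀ b : ℕ, 1 ≤ min b 3 → 1 ≤ b := fun b => by omega
  have := bex2_num ⟨p1, by omega⟩ ⟨p2, by omega⟩ ⟨min b1 3, by omega⟩ ⟨min b2 3, by omega⟩
    ⟨g1, by omega⟩ ⟨g2, by omega⟩
    ⟨hp, fun c : min b1 3 = 0 => n1 (by omega), a1, a2, fun c => a3 (k _ c),
      fun c => by simpa only [m] using a4 (k _ c)⟩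
    ⟨hq, fun c : min b2 3 = 0 => n2 (by omega), c1, c2, fun c => c3 (k _ c),
      fun c => by simpa only [m] using c4 (k _ c)⟩
  simp only at this
  omega

namespace BD

variable {H : Finset (Finset V)} {t t' : V} {F : Finset (Finset (Finset V))}

theorem bex2_sub (h : BD H t t' F) {W : Finset (Finset V)} (hW : W ∈ F) : W ⊆ H :=
  (h.ds.fam.sub W hW).trans sdiff_subset

theorem bex2_star (h : BD H t t' F) {x : Finset V} (hx : x ∈ star H t ∪ star H t') :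
    x ∈ H ∧ x ∉ un F :=
  ⟨(mem_union.1 hx).elim (fun k => (mem_star.1 k).1) fun k => (mem_star.1 k).1,
    fun k => (mem_sdiff.1 (h.ds.fam.un_sub k)).2 hx⟩

theorem bex2_int (h : BD H t t' F) {W e : _} {v : V} (hW : W ∈ F) (hv : v ∈ cov W) (he : e ∉ W)
    (hve : v ∈ e) : e ∉ un F := fun k => by
  obtain ⟨Z, h1, h2⟩ := mem_un.1 k
  obtain ⟨w, h3, h4⟩ := mem_cov.1 hv
  exact h.ds.fam.sep Z h1 W hW (fun c => he (c ▸ h2)) e h2 w h3 ⟨v, hve, h4⟩

theorem bex2_gain [Infinite V] (h : BD H t t' F) {W : Finset (Finset V)} (hW : W ∈ F) {p q : ℕ}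
    (hg : SGad H W p q) : PB H W 5 (gainV p q) :=
  pb_gain (ihv5 W) (h.ds.fam.cc W hW) (h.bex2_sub hW) h.bad.d3 (h.room hW) hg

theorem ex_one [Infinite V] (h : BD H t t' F) {f : Finset V} {W : Finset (Finset V)} (hW : W ∈ F)
    (hf : f ∈ xh H t t' F) (he : ∀ Z ∈ F, Z ≠ W → dd Z f = 0) :
    PB H W 5 (gainV (dd W f) (min (cov ((H \ un F).erase f) ∩ cov W).card 3)) := by
  obtain ⟨h1, -, -, h2⟩ := mem_xh.1 hf
  refine h.bex2_gain hW (sgad1N (h.ds.fam.cc W hW) (h.bex2_sub hW) h1 (fun k => h2 (sub_un hW k))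
    fun y hy => ?_)
  obtain ⟨h3, h4⟩ := mem_erase.1 hy
  exact ⟨(mem_sdiff.1 h4).1, fun k => (mem_sdiff.1 h4).2 (sub_un hW k), h.ex_nj hW hf he h4 h3⟩

theorem ex_four (h : BD H t t' F) {f : Finset V} (hf : f ∈ xh H t t' F) :
    7 ≤ ∑ W ∈ F, dd W f + (cov H \ cov (un F)).card := by
  obtain ⟨h1, h2, h3, -⟩ := mem_xh.1 hf
  have h4 := h.ds.fam.five (h.bad.cc.u5 f h1)
  have h5 := step_out (h.ds.d1 ▸ (by norm_num : 1 ≤ 3))
    (h.ds.fam.mono (sdiff_subset_sdiff Subset.rfl subset_union_left) Subset.rfl)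
  have h6 := step_out (h.ds.d2 ▸ (by norm_num : 1 ≤ 3))
    (h.ds.fam.mono (sdiff_subset_sdiff Subset.rfl subset_union_right) Subset.rfl)
  have h7 : t ≠ t' := by
    rintro rfl
    have := h.ds.d1
    rw [dg, disjoint_self.1 h.ds.dis] at this
    simp at this
  have h8 := card_le_card (insert_subset h5 (insert_subset h6
    (sdiff_subset_sdiff (fun v hv => mem_cov.2 ⟨f, h1, hv⟩) Subset.rfl :
      f \ cov (un F) ⊆ cov H \ cov (un F))))
  rw [card_insert_of_notMem (by simp [h7, h2]), card_insert_of_notMem (by simp [h3])] at h8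
  omega

theorem bex2_ne (h : BD H t t' F) {f1 f2 : Finset V} {W1 W2 : Finset (Finset V)}
    (hf : xh H t t' F = {f1, f2}) (hf' : f1 ≠ f2) (hW : nbp F {f1, f2} = {W1, W2}) : W1 ≠ W2 := by
  rintro rfl
  have := h.tight_le _ hf.ge
  rw [hW, card_pair hf'] at this
  simp at this

theorem bex2_three (h : BD H t t' F) {f1 f2 x : Finset V} {W1 W2 : Finset (Finset V)}
    (hf : xh H t t' F = {f1, f2}) (hf' : f1 ≠ f2) (hW : nbp F {f1, f2} = {W1, W2})
    (hx : x ∈ star H t) :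
    tau W1 + tau W2 < tau (insert x (insert f1 (insert f2 (W1 ∪ W2)))) := by
  have hne := h.bex2_ne hf hf' hW
  have hH := h.bad.cc.u5.ne
  have hG : nbp F {f1, f2} ⊆ F := filter_subset _ _
  have h1 := h.ex_hs hf.ge (by rw [hW, card_pair hf', card_pair hne]) fun S' k1 k2 =>
    absurd (hf ▸ k1) k2.2
  have h2 := h.facts.1
  have h3 := h1.card
  rw [card_sdiff_of_subset hG, h2, hf, hW, card_pair hf', card_pair hne] at h3
  rw [hW] at h1 hG
  obtain ⟨H', hH'⟩ : ∃ H', H' = H \ ({f1, f2} ∪ un {W1, W2}) := ⟨_, rfl⟩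
  rw [← hH'] at h1 h3
  have hs : H' ⊆ H := hH' ▸ sdiff_subset
  have h4 : ∀ e ∈ star H t, e ∈ star H' t ∪ xh H' t t' (F \ {W1, W2}) := fun e he => by
    refine mem_union_left _ (mem_star.2 ⟨?_, (mem_star.1 he).2⟩)
    rw [hH', mem_sdiff, mem_union, ← hf]
    refine ⟨(mem_star.1 he).1, fun k => k.elim (fun k => (mem_xh.1 k).2.1 (mem_star.1 he).2)
      fun k => (h.bex2_star (mem_union_left _ he)).2 ?_⟩
    obtain ⟨Z, k1, k2⟩ := mem_un.1 k
    exact mem_un.2 ⟨Z, hG k1, k2⟩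
  have hT : star H' t ∪ xh H' t t' (F \ {W1, W2}) ⊆ H' :=
    union_subset (filter_subset _ _) fun e he => (mem_xh.1 he).1
  have h5 := hall_erase (hH.mono hs) (h1.fam.mono sdiff_subset Subset.rfl) hT (by
    have k1 := card_union_le (star H' t) (xh H' t t' (F \ {W1, W2}))
    have k2 : (star H' t).card = 3 := h1.d1
    have k3 := h1.card
    omega) h1.h1 (h4 x hx)
  have w1 := h.bex2_sub (hG (mem_insert_self W1 _))
  have w2 := h.bex2_sub (hG (mem_insert_of_mem (mem_singleton_self W2)))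
  have n1 : NE (insert x (insert f1 (insert f2 (W1 ∪ W2)))) :=
    hH.mono (insert_subset (mem_star.1 hx).1 (insert_subset (mem_xh.1 (hf.ge (by simp))).1
      (insert_subset (mem_xh.1 (hf.ge (by simp))).1 (union_subset w1 w2))))
  have n2 : NE (un (F \ {W1, W2}) ∪ (star H' t ∪ xh H' t t' (F \ {W1, W2})).erase x) :=
    hH.mono (union_subset (h1.fam.un_sub.trans (sdiff_subset.trans hs))
      ((erase_subset _ _).trans (hT.trans hs)))
  have h6 := tau_union_le n1 n2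
  have h7 := tau_le_succ (S := H) (fun e he => (mem_union.1 he).elim (n1 e) (n2 e)) t'
    fun e he => by
      refine or_iff_not_imp_right.2 fun k1 => mem_union.2 ?_
      by_cases k2 : t ∈ e
      · by_cases k3 : e = x
        · exact Or.inl (k3 ▸ mem_insert_self _ _)
        · exact Or.inr (mem_union_right _ (mem_erase.2 ⟨k3, h4 e (mem_star.2 ⟨he, k2⟩)⟩))
      · by_cases k3 : e ∈ un F
        · obtain ⟨Z, k4, k5⟩ := mem_un.1 k3
          by_cases k6 : Z ∈ ({W1, W2} : Finset _)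
          · rcases mem_insert.1 k6 with rfl | k6
            · exact Or.inl (by simp [k5])
            · rw [mem_singleton.1 k6] at k5
              exact Or.inl (by simp [k5])
          · exact Or.inr (mem_union_left _ (mem_un.2 ⟨Z, mem_sdiff.2 ⟨k4, k6⟩, k5⟩))
        · have k4 := hf.le (mem_xh.2 ⟨he, k2, k1, k3⟩)
          rw [mem_insert, mem_singleton] at k4
          rcases k4 with rfl | rfl <;> exact Or.inl (by simp)
  have h8 := h.ds.tau2
  rw [h.ds.fam.tau_un, ← sum_sdiff hG, sum_pair hne, ← h1.fam.tau_un] at h8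
  omega

theorem ex_three (h : BD H t t' F) {f1 f2 x : Finset V} {W1 W2 : Finset (Finset V)}
    (hf : xh H t t' F = {f1, f2}) (hf' : f1 ≠ f2) (hW : nbp F {f1, f2} = {W1, W2})
    (hx : x ∈ star H t ∪ star H t') :
    tau W1 + tau W2 < tau (insert x (insert f1 (insert f2 (W1 ∪ W2)))) := by
  rcases mem_union.1 hx with k | k
  exacts [h.bex2_three hf hf' hW k, h.symm.bex2_three (xh_comm H t t' F ▸ hf) hf' hW k]

theorem bex2_side [Infinite V] (h : BD H t t' F) {f1 f2 : Finset V} {W1 W2 : Finset (Finset V)}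
    (h1 : f1 ∈ xh H t t' F) (h2 : f2 ∈ xh H t t' F) (w1 : W1 ∈ F) (w2 : W2 ∈ F)
    (hT : ∀ x ∈ star H t ∪ star H t',
      tau W1 + tau W2 < tau (insert x (insert f1 (insert f2 (W1 ∪ W2))))) {g : ℕ}
    (hg : ∀ g', PB H W1 5 g' → g' ≤ g) :
    (1 ≤ dd W2 f2 → gainV (dd W1 f1) (min (cov (star H t ∪ star H t') ∩ cov W1).card 3) ≤ g) ∧
    (1 ≤ (cov (star H t ∪ star H t') ∩ cov W2).card → gainV (dd W1 f1) (dd W1 f2) ≤ g ∧
      (1 ≤ dd W2 f1 → 1 ≤ dd W2 f2 → gainV (dd W1 f1)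
        (min (dd W1 f2 + (cov (star H t ∪ star H t') ∩ cov W1).card) 3) ≤ g)) := by
  have hH := h.bad.cc.u5.ne
  have s1 := h.bex2_sub w1
  have s2 := h.bex2_sub w2
  have c1 := h.ds.fam.cc W1 w1
  obtain ⟨a1, -, -, a2⟩ := mem_xh.1 h1
  obtain ⟨b1, -, -, b2⟩ := mem_xh.1 h2
  have a3 : f1 ∉ W1 := fun k => a2 (sub_un w1 k)
  have b3 : f2 ∉ W1 := fun k => b2 (sub_un w1 k)
  have nj : ∀ {a b c x}, a ∈ H → b ∈ H → c ∈ H → 1 ≤ dd W2 c → x ∈ star H t ∪ star H t' →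
      ({x, f1, f2} : Finset _) ⊆ {a, b, c} → NJ W1 a b := fun k1 k2 k3 k4 k5 k6 =>
    bex2_nj (h.ds.fam.cc W2 w2) k4 (hH.mono (insert_subset k1 (insert_subset k2 s1)))
      (hH.mono (insert_subset k3 s2)) (fun e he => by
        have := @k6 e
        simp only [mem_insert, mem_union, mem_singleton] at he this ⊢
        tauto) (hT _ k5)
  have n1 : 1 ≤ dd W2 f2 → ∀ y ∈ star H t ∪ star H t', y ∈ H ∧ y ∉ W1 ∧ NJ W1 f1 y :=
    fun k y hy => ⟨(h.bex2_star hy).1, fun c => (h.bex2_star hy).2 (sub_un w1 c),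
      nj a1 (h.bex2_star hy).1 b1 k hy (by rw [insert_comm])⟩
  refine ⟨fun k => hg _ (h.bex2_gain w1 (sgad1N c1 s1 a1 a3 (n1 k))), fun k => ?_⟩
  obtain ⟨v, hv⟩ := card_pos.1 k
  obtain ⟨x, k1, k2⟩ := mem_cov.1 (mem_inter.1 hv).1
  have n2 : NJ W1 f1 f2 := nj a1 b1 (h.bex2_star k1).1
    (card_pos.2 ⟨v, mem_inter.2 ⟨k2, (mem_inter.1 hv).2⟩⟩) k1 fun e => by simp [or_rotate]
  refine ⟨hg _ (h.bex2_gain w1 (sgad11 s1 a1 b1 a3 b3 n2)), fun k3 k4 => ?_⟩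
  have h3 := hg _ (h.bex2_gain w1 (sgad1N (N := insert f2 (star H t ∪ star H t')) c1 s1 a1 a3
    fun y hy => (mem_insert.1 hy).elim (fun c => c ▸ ⟨b1, b3, n2⟩) (n1 k4 y)))
  have h4 : cov (insert f2 (star H t ∪ star H t')) = f2 ∪ cov (star H t ∪ star H t') :=
    biUnion_insert
  rwa [h4, union_inter_distrib_right, card_union_of_disjoint] at h3
  refine disjoint_left.2 fun u k5 k6 => ?_
  obtain ⟨y, k7, k8⟩ := mem_cov.1 (mem_inter.1 k6).1
  exact disjoint_left.1 ((nj b1 (h.bex2_star k7).1 a1 k3 k7 fun e => by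
    simp only [mem_insert, mem_singleton]; tauto).disjoint c1) k5
    (mem_inter.2 ⟨k8, (mem_inter.1 k6).2⟩)

theorem bex2_hall (h : BD H t t' F) {f1 f2 : Finset V} {W : Finset (Finset V)}
    (hf : xh H t t' F = {f1, f2}) (hW : W ∈ F)
    (hb : (cov (star H t ∪ star H t') ∩ cov W).card = 0) : 1 ≤ dd W f1 := by
  by_contra k
  have h1 := h.hall {W} (singleton_subset_iff.2 hW) (singleton_nonempty W)
  have h2 : nbh (star H t ∪ xh H t t' F) {W} ⊆ {f2} := fun x hx => by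
    obtain ⟨k1, Z, k2, k3⟩ := mem_nbh.1 hx
    rw [mem_singleton.1 k2] at k3
    rcases mem_union.1 k1 with k4 | k4
    · obtain ⟨v, hv⟩ := card_pos.1 k3
      exact absurd hb (card_pos.2 ⟨v, mem_inter.2 ⟨mem_cov.2 ⟨x, mem_union_left _ k4,
        (mem_inter.1 hv).1⟩, (mem_inter.1 hv).2⟩⟩).ne'
    · exact (mem_insert.1 (hf ▸ k4)).resolve_left fun c : x = f1 => k (c ▸ k3)
  have h3 := card_le_card h2
  rw [card_singleton] at h1 h3
  omega

theorem ex_two [Infinite V] (h : BD H t t' F) {f1 f2 : Finset V}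
    (hf : xh H t t' F = {f1, f2}) (hf' : f1 ≠ f2) (hW : (nbp F {f1, f2}).card ≤ 2) : False := by
  have h1 := h.tight_le _ hf.ge
  rw [card_pair hf'] at h1
  obtain ⟨W1, W2, hne, hW'⟩ := card_eq_two.1 (le_antisymm hW h1)
  have m1 : f1 ∈ xh H t t' F := hf.ge (by simp)
  have m2 : f2 ∈ xh H t t' F := hf.ge (by simp)
  obtain ⟨w1, k1⟩ := mem_nbp.1 (hW'.ge (mem_insert_self W1 _))
  obtain ⟨w2, k2⟩ := mem_nbp.1 (hW'.ge (mem_insert_of_mem (mem_singleton_self W2)))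
  obtain ⟨g1, p1, q1⟩ := h.pb_exact w1
  obtain ⟨g2, p2, q2⟩ := h.pb_exact w2
  have h2 := h.close2 w1 w2 hne p1 p2
  have h3 := h.out_two
  rw [hf, card_pair hf'] at h2
  have h4 : ∀ f ∈ xh H t t' F, dd W1 f + dd W2 f = 5 := fun f hm => by
    have k3 := h.ex_four hm
    have k4 := h.ds.fam.five (h.bad.cc.u5 f (mem_xh.1 hm).1)
    rw [← sum_subset (hW'.ge.trans (filter_subset _ _)) fun Z k5 k6 => by
      by_contra c
      exact k6 (hW'.le (mem_nbp.2 ⟨k5, f, hf ▸ hm, by omega⟩)), sum_pair hne] at k3 k4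
    omega
  have h5 := h.ex_ineq hf.ge (insert_nonempty _ _) (by rw [card_pair hf']; exact hW)
    (fun S' k3 k4 => absurd (hf ▸ k3) k4.2) (fun _ => 0) fun W k => h.pb0 k
  have h6 : cov (un (nbp F {f1, f2})) ∩ cov (H \ ({f1, f2} ∪ un (nbp F {f1, f2}))) ⊆
      cov (star H t ∪ star H t') ∩ cov W1 ∪ cov (star H t ∪ star H t') ∩ cov W2 := fun v hv => by
    obtain ⟨w, k3, k4⟩ := mem_cov.1 (mem_inter.1 hv).1
    obtain ⟨e, k5, k6⟩ := mem_cov.1 (mem_inter.1 hv).2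
    obtain ⟨Z, k7, k8⟩ := mem_un.1 k3
    rw [mem_sdiff, mem_union, not_or, ← hf] at k5
    have k9 : v ∈ cov Z := mem_cov.2 ⟨w, k8, k4⟩
    have k10 : v ∈ cov (star H t ∪ star H t') := mem_cov.2 ⟨e, by_contra fun c => k5.2.1
      (mem_sdiff.2 ⟨mem_sdiff.2 ⟨k5.1, c⟩, h.bex2_int (mem_nbp.1 k7).1 k9
        (fun c' => k5.2.2 (hf ▸ mem_un.2 ⟨Z, k7, c'⟩)) k6⟩), k6⟩
    rw [hW', mem_insert, mem_singleton] at k7
    rcases k7 with rfl | rfl
    exacts [mem_union_left _ (mem_inter.2 ⟨k10, k9⟩), mem_union_right _ (mem_inter.2 ⟨k10, k9⟩)]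
  have h7 := (card_le_card h6).trans (card_union_le _ _)
  rw [card_pair hf', sum_const_zero] at h5
  have hT := fun x hx => h.ex_three (x := x) hf hf' hW' hx
  have s1 := h.bex2_side m1 m2 w1 w2 hT q1
  have s2 := h.bex2_side m2 m1 w1 w2 (fun x hx => insert_comm f1 f2 _ ▸ hT x hx) q1
  have s3 := h.bex2_side m1 m2 w2 w1 (fun x hx => union_comm W1 W2 ▸ add_comm (tau W1) _ ▸ hT x hx)
    q2
  have s4 := h.bex2_side m2 m1 w2 w1
    (fun x hx => insert_comm f1 f2 _ ▸ union_comm W1 W2 ▸ add_comm (tau W1) _ ▸ hT x hx) q2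
  have hf2 := hf.trans (pair_comm f1 f2)
  have h8 : ∀ W, (∃ x ∈ ({f1, f2} : Finset _), 1 ≤ dd W x) → 1 ≤ dd W f1 + dd W f2 := by
    rintro W ⟨x, k3, k4⟩
    rw [mem_insert, mem_singleton] at k3
    rcases k3 with rfl | rfl <;> omega
  have := ex_num (h4 f1 m1) (h4 f2 m2) (h8 W1 k1) (h8 W2 k2) (by omega)
    (fun k => ⟨h.bex2_hall hf w1 k, h.bex2_hall hf2 w1 k⟩)
    (fun k => ⟨h.bex2_hall hf w2 k, h.bex2_hall hf2 w2 k⟩) s1.1 s2.1 (fun k => (s1.2 k).1)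
    (fun k a b => ⟨(s1.2 k).2 a b, (s2.2 k).2 b a⟩) s3.1 s4.1 (fun k => (s3.2 k).1)
    fun k a b => ⟨(s3.2 k).2 a b, (s4.2 k).2 b a⟩
  omega

theorem hs [Infinite V] (h : BD H t t' F) : HS H t t' F := by
  by_cases hc : ∀ S ⊆ xh H t t' F, S.Nonempty → S.card + 1 ≤ (nbp F S).card
  · have h1 : nbp F ∅ = ∅ := by simp [nbp]
    have h2 := h.ex_hs (empty_subset _) (by simp [h1]) fun S' k1 k2 =>
      hc S' k1 (nonempty_iff_ne_empty.2 k2.ne')
    simpa [h1, un] using h2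
  exfalso
  push Not at hc
  obtain ⟨S0, hc⟩ := hc
  obtain ⟨S, h1, h2⟩ := exists_max_image (((xh H t t' F).powerset).filter fun S =>
    S.Nonempty ∧ (nbp F S).card < S.card + 1) card ⟨S0, by simpa using hc⟩
  rw [mem_filter, mem_powerset] at h1
  obtain ⟨h1, h3, h4⟩ := h1
  have hmax : ∀ S' ⊆ xh H t t' F, S ⊂ S' → S'.card + 1 ≤ (nbp F S').card := fun S' k1 k2 =>
    le_of_not_gt fun k3 => (card_lt_card k2).not_ge
      (h2 S' (mem_filter.2 ⟨mem_powerset.2 k1, h3.mono k2.1, k3⟩))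
  have h5 := h.tight_le S h1
  have h6 := card_pos.2 h3
  have h7 := card_le_card h1
  have h8 := h.out_two
  obtain ⟨W0, hW0⟩ := card_pos.1 (h6.trans_le h5)
  have h9 := h.close1 (mem_nbp.1 hW0).1 (h.pb0 (mem_nbp.1 hW0).1)
  by_cases h10 : S.card = 1
  · obtain ⟨f, rfl⟩ := card_eq_one.1 h10
    obtain ⟨W, hW⟩ := card_eq_one.1 (show (nbp F {f}).card = 1 by omega)
    have w : W ∈ F := (mem_nbp.1 (hW.ge (mem_singleton_self W))).1
    have hf := singleton_subset_iff.1 h1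
    have he : ∀ Z ∈ F, Z ≠ W → dd Z f = 0 := fun Z k1 k2 => by
      by_contra c
      exact k2 (mem_singleton.1 (hW.le (mem_nbp.2 ⟨k1, f, mem_singleton_self f, by omega⟩)))
    have k1 := h.ex_one w hf he
    have k2 := h.close1 w k1
    have k3 := h.ex_four hf
    rw [sum_eq_single_of_mem W w he] at k3
    have k4 := h.ex_ineq h1 h3 (by omega) hmax (fun Z => if Z = W then
      gainV (dd W f) (min (cov ((H \ un F).erase f) ∩ cov W).card 3) else 0) fun Z k => by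
        split_ifs with c
        exacts [c ▸ k1, h.pb0 k]
    have k5 : cov (un {W}) ∩ cov (H \ ({f} ∪ un {W})) ⊆ cov ((H \ un F).erase f) ∩ cov W :=
      fun v hv => by
        have c : un {W} = W := by simp [un]
        rw [c] at hv
        obtain ⟨e, c1, c2⟩ := mem_cov.1 (mem_inter.1 hv).2
        rw [mem_sdiff, mem_union, not_or, mem_singleton] at c1
        exact mem_inter.2 ⟨mem_cov.2 ⟨e, mem_erase.2 ⟨c1.2.1, mem_sdiff.2 ⟨c1.1,
          h.bex2_int w (mem_inter.1 hv).1 c1.2.2 c2⟩⟩, c2⟩, (mem_inter.1 hv).1⟩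
    have k6 := card_le_card k5
    have k7 := bex2_g (le_refl (gainV (dd W f) (min (cov ((H \ un F).erase f) ∩ cov W).card 3)))
    rw [hW, sum_singleton, if_pos rfl] at k4
    omega
  · obtain ⟨f1, f2, k1, rfl⟩ := card_eq_two.1 (show S.card = 2 by omega)
    exact h.ex_two (eq_of_subset_of_card_le h1 (by omega)).symm k1 (by omega)

end BD

end Pool.Agent.Work.MP_d266e7_co.C5.P24
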