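import Pool.Agent.Work.MP_d266e7_co.P24B.BG5

/-!
A piece `W` with at least three members all of whose vertices of degree three have degree at most
one in `W`. Let `I = cov W ∩ cov (H \ W)`, `i = |I| ≥ 4` (`g5`), `b` the number of vertices of
degree one in `W`. Degrees in `W` are at most two, `5 |W| + b = 2 |cov W|` (`sum_deg`), `I` and the
vertices of degree one in `H` are disjoint sets of such vertices, so `2 tt W (dg H) + i ≤ b`.
`small_pb`: with `2 tau W = |W| + 1` omega gives gain 5, and gain 8 if `i ≥ 6`.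
`small`: `close1` forces `i ≤ 5`, no extra host, two outside vertices, `F = {W, W'}`, and gain at
most 2 on `W'` (`close2`). For each of the two stars, `H \ star H t'` is `CC` (`step`) and
`side2_of` gives `Side2 (H \ star H t') W W' q`; `dd W (q x) + dd W' (q x) = 4` (`Fam.five`);
`Side2.nj`, `Side2.n1`, `nj_sum2`-like bounds inside `I` (`NJ.disjoint`), `sgad11`, `sgad12`,
`pb_gain` (in `H`), `small_num` give six incidences with `W` on each side; but `I` has room for at
most `2 i ≤ 10` (`slots` or `ee_slots`-like count: `∑ dd W x = ∑ v ∈ I, (dg H v - dg W v)`).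
-/

namespace Pool.Agent.Work.MP_d266e7_co.C5.P24

open Finset

variable {V : Type} [DecidableEq V]

theorem bsmall_g {p q g : ℕ} (hg : g ≤ 2) (h : gainV p q ≤ g) :
    (p ≤ 3 ∨ q ≤ 1) ∧ (p ≤ 1 ∨ q ≤ 3) := by
  unfold gainV at h
  split_ifs at h <;> omega

theorem bsmall_pair {p : Fin 3 → ℕ} (np : ∃ x y, x ≠ y ∧ 1 ≤ p x ∧ 1 ≤ p y) :
    (1 ≤ p 0 ∧ 1 ≤ p 1) ∨ (1 ≤ p 0 ∧ 1 ≤ p 2) ∨ (1 ≤ p 1 ∧ 1 ≤ p 2) := by
  obtain ⟨x, y, hxy, hx, hy⟩ := np
  have a := sides_three 0 1 2 x (by decide) (by decide) (by decide)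
  have b := sides_three 0 1 2 y (by decide) (by decide) (by decide)
  rcases a with rfl | rfl | rfl <;> rcases b with rfl | rfl | rfl <;>
    first | exact absurd rfl hxy | omega

theorem small_num {p d : Fin 3 → ℕ} {g : ℕ} (e : ∀ x, p x + d x = 4)
    (np : ∃ x y, x ≠ y ∧ 1 ≤ p x ∧ 1 ≤ p y) (nd : ∃ x y, x ≠ y ∧ 1 ≤ d x ∧ 1 ≤ d y)
    (s2 : ∀ x y z, x ≠ y → x ≠ z → y ≠ z → 1 ≤ d z → p x + p y ≤ 5)
    (s3 : (∀ x, 1 ≤ d x) → p 0 + p 1 + p 2 ≤ 5)
    (a1 : ∀ x y z, x ≠ y → x ≠ z → y ≠ z → 1 ≤ p z → gainV (d x) (d y) ≤ g)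
    (a2 : ∀ x y z, x ≠ y → x ≠ z → y ≠ z → (∀ w, 1 ≤ p w) → gainV (d x) (d y + d z) ≤ g)
    (hg : g ≤ 2) : 6 ≤ p 0 + p 1 + p 2 := by
  have e0 := e 0
  have e1 := e 1
  have e2 := e 2
  have hw : ∀ f : Fin 3 → ℕ, 1 ≤ f 0 → 1 ≤ f 1 → 1 ≤ f 2 → ∀ w, 1 ≤ f w := by
    intro f a b c w
    rcases sides_three 0 1 2 w (by decide) (by decide) (by decide) with rfl | rfl | rfl <;>
      assumption
  have n1 := bsmall_pair np
  have n2 := bsmall_pair nd
  have b0 := s2 0 1 2 (by decide) (by decide) (by decide)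
  have b1 := s2 0 2 1 (by decide) (by decide) (by decide)
  have b2 := s2 1 2 0 (by decide) (by decide) (by decide)
  have b3 := fun a b c => s3 (hw d a b c)
  have c0 := fun h => bsmall_g hg (a1 0 1 2 (by decide) (by decide) (by decide) h)
  have c1 := fun h => bsmall_g hg (a1 0 2 1 (by decide) (by decide) (by decide) h)
  have c2 := fun h => bsmall_g hg (a1 1 2 0 (by decide) (by decide) (by decide) h)
  have d0 := fun a b c =>
    bsmall_g hg (a2 0 1 2 (by decide) (by decide) (by decide) (hw p a b c))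
  have d1 := fun a b c =>
    bsmall_g hg (a2 1 0 2 (by decide) (by decide) (by decide) (hw p a b c))
  have d2 := fun a b c =>
    bsmall_g hg (a2 2 0 1 (by decide) (by decide) (by decide) (hw p a b c))
  omega

/-- different members have different private vertices -/
theorem bsmall_tt {H W : Finset (Finset V)} (hs : W ⊆ H) :
    2 * tt W (dg H) ≤ ((cov W).filter (fun v => dg H v ≤ 1)).card := by
  rw [tt, mul_comm, ← Nat.nsmul_eq_mul]
  refine (card_nsmul_le_sum _ (fun x : Finset V => (x.filter fun v => dg H v ≤ 1).card) 2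
    fun x hx => (mem_filter.1 hx).2).trans ?_
  rw [← card_biUnion]
  · refine card_le_card fun v hv => ?_
    obtain ⟨x, hx, hv⟩ := mem_biUnion.1 hv
    have b := mem_filter.1 hv
    exact mem_filter.2 ⟨mem_cov.2 ⟨x, (mem_filter.1 hx).1, b.1⟩, b.2⟩
  · intro x hx y hy hne
    refine disjoint_left.2 fun v a b => hne ?_
    exact faml_two (hs (mem_filter.1 hx).1) (hs (mem_filter.1 hy).1)
      (mem_filter.1 a).1 (mem_filter.1 b).1 (mem_filter.1 a).2

theorem bsmall_lt {H W : Finset (Finset V)} (hs : W ⊆ H) {v : V}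
    (hv : v ∈ cov W ∩ cov (H \ W)) : 1 ≤ dg W v ∧ dg W v < dg H v := by
  obtain ⟨a, b⟩ := mem_inter.1 hv
  obtain ⟨x, hx, hvx⟩ := mem_cov.1 b
  exact ⟨dg_pos.2 a, dg_lt hs (mem_sdiff.1 hx).1 (mem_sdiff.1 hx).2 hvx⟩

theorem small_pb {H W : Finset (Finset V)} (hs : W ⊆ H) (h5 : U5 W) (h3 : ∀ v, dg H v ≤ 3)
    (hv : 2 * tau W = W.card + 1) (hm : 3 ≤ W.card) (h1 : ∀ s, dg H s = 3 → dg W s ≤ 1)
    (h4 : 4 ≤ (cov W ∩ cov (H \ W)).card) :
    PB H W 5 5 ∧ (6 ≤ (cov W ∩ cov (H \ W)).card → PB H W 5 8) := by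
  have hd : Disjoint (cov W ∩ cov (H \ W)) ((cov W).filter (fun v => dg H v ≤ 1)) := by
    refine disjoint_left.2 fun v a b => ?_
    have := bsmall_lt hs a
    have := (mem_filter.1 b).2
    omega
  have hc := deg_count h5 1 ((cov W ∩ cov (H \ W)) ∪ (cov W).filter (fun v => dg H v ≤ 1))
    (fun v _ => by
      have a := dg_mono hs v
      have b := h3 v
      have c := h1 v
      change dg W v ≤ 1 + 1
      omega)
    (fun v _ hv => by
      have a := dg_mono hs v
      have b := h3 v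
      have c := h1 v
      change dg W v ≤ 1
      rcases mem_union.1 hv with hv | hv
      · have := bsmall_lt hs hv
        omega
      · have := (mem_filter.1 hv).2
        omega)
  rw [inter_eq_right.2 (union_subset inter_subset_left (filter_subset _ _)),
    card_union_of_disjoint hd] at hc
  have ht := bsmall_tt hs
  unfold PB
  constructor
  · omega
  · intro h6
    omega

/-- the vertices met from outside have room for two hosts each -/
theorem bsmall_slots {H W : Finset (Finset V)} (hs : W ⊆ H) (h5 : U5 W) (h3 : ∀ v, dg H v ≤ 3) :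
    ∑ x ∈ H \ W, dd W x ≤ 2 * (cov W ∩ cov (H \ W)).card := by
  have a := slots hs h5
  have b : ∑ v ∈ cov W, dg W v = 5 * W.card := sum_deg h5
  have c : (cov W ∩ cov (H \ W)).card = ∑ v ∈ cov W, if v ∈ cov (H \ W) then 1 else 0 := by
    rw [← card_filter, filter_mem_eq_inter]
  have d : ∑ v ∈ cov W, dg H v ≤
      ∑ v ∈ cov W, (dg W v + 2 * if v ∈ cov (H \ W) then 1 else 0) := by
    refine sum_le_sum fun v hv => ?_
    split_ifs with hI
    · have := dg_pos.2 hv
      have := h3 v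
      omega
    · have : dg H v ≤ dg W v := by
        refine card_le_card fun e he => ?_
        obtain ⟨h1, h2⟩ := mem_star.1 he
        by_contra hn
        exact hI (mem_cov.2 ⟨e, mem_sdiff.2 ⟨h1, fun hW => hn (mem_star.2 ⟨hW, h2⟩)⟩, h2⟩)
      omega
  rw [sum_add_distrib, ← mul_sum, ← c, b] at d
  omega

theorem bsmall_sub {H W : Finset (Finset V)} {x : Finset V} (hx : x ∈ H) (hxW : x ∉ W) :
    x ∩ cov W ⊆ cov W ∩ cov (H \ W) := fun v hv =>
  mem_inter.2 ⟨(mem_inter.1 hv).2, mem_cov.2 ⟨x, mem_sdiff.2 ⟨hx, hxW⟩, (mem_inter.1 hv).1⟩⟩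

theorem bsmall_star {H : Finset (Finset V)} {t t' : V} {F : Finset (Finset (Finset V))}
    (h : DS H t t' F) {x : Finset V} (hx : x ∈ star H t) : x ∈ H ∧ t' ∉ x ∧ x ∉ un F := by
  have a := (mem_star.1 hx).1
  refine ⟨a, fun c => disjoint_left.1 h.dis hx (mem_star.2 ⟨a, c⟩), fun c => ?_⟩
  exact (mem_sdiff.1 (h.fam.un_sub c)).2 (mem_union_left _ hx)

/-- six incidences of the hosts of one star with `W` -/
theorem bsmall_side [Infinite V] {H : Finset (Finset V)} {t t' : V}
    {F : Finset (Finset (Finset V))} (h : BD H t t' F) {W W' : Finset (Finset V)}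
    (hF : F = {W, W'}) (hne : W ≠ W') (hx : (xh H t t' F).card = 0)
    (ho : (cov H \ cov (un F)).card = 2) (hi5 : (cov W ∩ cov (H \ W)).card ≤ 5)
    (hg : ∀ g, PB H W' 5 g → g ≤ 2) : 6 ≤ ∑ x ∈ star H t, dd W x := by
  have hW : W ∈ F := by rw [hF]; exact mem_insert_self _ _
  have hW' : W' ∈ F := by rw [hF]; exact mem_insert_of_mem (mem_singleton_self _)
  have fH := h.ds.famH
  have cc := (h.bad.step t' h.ds.d2).1
  have fam : Fam (H \ star H t') F :=
    h.ds.fam.mono (sdiff_subset_sdiff (Subset.refl _) subset_union_right) (Subset.refl _)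
  have hst : (H \ star H t') \ un F = star H t := by
    ext x
    constructor
    · intro a
      obtain ⟨a, b⟩ := mem_sdiff.1 a
      obtain ⟨a, c⟩ := mem_sdiff.1 a
      by_contra hn
      have : x ∈ xh H t t' F :=
        mem_xh.2 ⟨a, fun d => hn (mem_star.2 ⟨a, d⟩), fun d => c (mem_star.2 ⟨a, d⟩), b⟩
      rw [card_eq_zero.1 hx] at this
      exact notMem_empty _ this
    · intro a
      obtain ⟨b, c, d⟩ := bsmall_star h.ds a
      exact mem_sdiff.2 ⟨mem_sdiff.2 ⟨b, fun e => c (mem_star.1 e).2⟩, d⟩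
  have hlt : tau W + tau W' < tau (H \ star H t') := by
    have a := rem_tau h.bad.cc (t := t') (by rw [h.ds.d2]; omega)
    have b := h.ds.tau2
    have c := fH.tau_un
    rw [c, hF, sum_pair hne] at b
    omega
  obtain ⟨q, hq, hqm⟩ := side2_of cc fam hF hne (by rw [hst]; exact h.ds.d1) hlt
  rw [hst] at hqm
  have qH : ∀ x, q x ∈ H := fun x => (mem_star.1 (hqm x)).1
  obtain ⟨o1, o2, o3⟩ := h.ds.out
  have hout : cov H \ cov (un F) = {t, t'} := by
    refine (eq_of_subset_of_card_le ?_ ?_).symm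
    · exact insert_subset o2 (singleton_subset_iff.2 o3)
    · rw [ho, card_pair o1]
  have e : ∀ x, dd W (q x) + dd W' (q x) = 4 := by
    intro x
    have a := fH.five (h.bad.cc.u5 _ (qH x))
    have b : q x \ cov (un F) = {t} := by
      ext v
      rw [mem_singleton]
      constructor
      · intro c
        have d : v ∈ cov H \ cov (un F) :=
          mem_sdiff.2 ⟨mem_cov.2 ⟨_, qH x, (mem_sdiff.1 c).1⟩, (mem_sdiff.1 c).2⟩
        rw [hout] at d
        rcases mem_insert.1 d with d | d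
        · exact d
        · rw [mem_singleton.1 d] at c
          exact absurd (mem_sdiff.1 c).1 (bsmall_star h.ds (hqm x)).2.1
      · rintro rfl
        exact mem_sdiff.2 ⟨(mem_star.1 (hqm x)).2, (mem_sdiff.1 o2).2⟩
    rw [b, card_singleton, hF, sum_pair hne] at a
    omega
  have gain : ∀ p r, SGad H W' p r → gainV p r ≤ 2 := fun p r a =>
    hg _ (pb_gain (ihv5 W') hq.c2 (fH.sub _ hW') h.bad.d3 (h.room hW') a)
  have sub : ∀ x, q x ∩ cov W ⊆ cov W ∩ cov (H \ W) := fun x => bsmall_sub (qH x) (hq.q1 x)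
  have key := small_num (p := fun x => dd W (q x)) (d := fun x => dd W' (q x)) (g := 2) e
    (two_n1 hq) (two_n1 hq.symm)
    (fun x y z hxy hxz hyz hz => by
      have a := (hq.nj hxy hxz hyz hz).disjoint hq.c1
      have b := card_le_card (union_subset (sub x) (sub y))
      rw [card_union_of_disjoint a] at b
      exact b.trans hi5)
    (fun hz => by
      have a := (hq.nj (x := 0) (y := 1) (z := 2) (by decide) (by decide) (by decide)
        (hz 2)).disjoint hq.c1
      have b := (hq.nj (x := 0) (y := 2) (z := 1) (by decide) (by decide) (by decide)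
        (hz 1)).disjoint hq.c1
      have c := (hq.nj (x := 1) (y := 2) (z := 0) (by decide) (by decide) (by decide)
        (hz 0)).disjoint hq.c1
      have d := card_le_card (union_subset (union_subset (sub 0) (sub 1)) (sub 2))
      rw [card_union_of_disjoint (disjoint_union_left.2 ⟨b, c⟩), card_union_of_disjoint a] at d
      exact d.trans hi5)
    (fun x y z hxy hxz hyz hz => gain _ _ (sgad11 (fH.sub _ hW') (qH x) (qH y) (hq.q2 x) (hq.q2 y)
      (hq.symm.nj hxy hxz hyz hz)))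
    (fun x y z hxy hxz hyz hz => gain _ _ (sgad12 hq.c2 (fH.sub _ hW') (qH x) (qH y) (qH z)
      (hq.q2 x) (hq.q2 y) (hq.q2 z) (hq.symm.nj hxy hxz hyz (hz z))
      (hq.symm.nj hxz hxy hyz.symm (hz y)) (hq.symm.nj hyz hxy.symm hxz.symm (hz x))))
    (le_refl _)
  have s1 : ∑ x ∈ ({q 0, q 1, q 2} : Finset (Finset V)), dd W x ≤ ∑ x ∈ star H t, dd W x :=
    sum_le_sum_of_subset
      (insert_subset (hqm 0) (insert_subset (hqm 1) (singleton_subset_iff.2 (hqm 2))))
  have n01 : q 0 ≠ q 1 := fun c => absurd (hq.qinj c) (by decide)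
  have n02 : q 0 ≠ q 2 := fun c => absurd (hq.qinj c) (by decide)
  have n12 : q 1 ≠ q 2 := fun c => absurd (hq.qinj c) (by decide)
  rw [sum_insert (by simp [n01, n02]), sum_pair n12, ← add_assoc] at s1
  exact key.trans s1

theorem BD.small [Infinite V] {H : Finset (Finset V)} {t t' : V} {F : Finset (Finset (Finset V))}
    (h : BD H t t' F) {W : Finset (Finset V)} (hW : W ∈ F) (hm : 3 ≤ W.card)
    (h1 : ∀ s, dg H s = 3 → dg W s ≤ 1) : False := by
  have fH := h.ds.famH
  have hs := fH.sub W hW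
  have h4 := h.g5 hW (by omega)
  obtain ⟨hc, hv⟩ := h.facts
  obtain ⟨g5, g8⟩ := small_pb hs (fH.cc W hW).u5 h.bad.d3 (hv W hW) hm h1 h4
  have c1 := h.close1 hW g5
  have o2 := h.out_two
  have hi5 : (cov W ∩ cov (H \ W)).card ≤ 5 := by
    by_contra hn
    have := h.close1 hW (g8 (by omega))
    omega
  have hx : (xh H t t' F).card = 0 := by omega
  have ho : (cov H \ cov (un F)).card = 2 := by omega
  obtain ⟨W', hne, hF⟩ : ∃ W', W ≠ W' ∧ F = {W, W'} := by
    obtain ⟨A, B, hAB, e⟩ := card_eq_two.1 (show F.card = 2 by omega)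
    rw [e] at hW
    rcases mem_insert.1 hW with rfl | a
    · exact ⟨B, hAB, e⟩
    · rw [mem_singleton.1 a]
      exact ⟨A, hAB.symm, by rw [e, pair_comm]⟩
  have hW' : W' ∈ F := by rw [hF]; exact mem_insert_of_mem (mem_singleton_self _)
  have hg : ∀ g, PB H W' 5 g → g ≤ 2 := fun g a => by
    have := h.close2 hW hW' hne g5 a
    omega
  have s1 := bsmall_side h hF hne hx ho hi5 hg
  have s2 := bsmall_side h.symm hF hne (by rw [xh_comm]; exact hx) ho hi5 hg
  have s3 := bsmall_slots hs (fH.cc W hW).u5 h.bad.d3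
  have s4 : ∑ x ∈ star H t ∪ star H t', dd W x ≤ ∑ x ∈ H \ W, dd W x :=
    sum_le_sum_of_subset fun x a => by
      rcases mem_union.1 a with a | a
      · obtain ⟨b, -, c⟩ := bsmall_star h.ds a
        exact mem_sdiff.2 ⟨b, fun d => c (sub_un hW d)⟩
      · obtain ⟨b, -, c⟩ := bsmall_star h.ds.symm a
        exact mem_sdiff.2 ⟨b, fun d => c (sub_un hW d)⟩
  rw [sum_union h.ds.dis] at s4
  omega

end Pool.Agent.Work.MP_d266e7_co.C5.P24
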