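import Pool.Agent.Work.MP_d266e7_co.P24B.BDS
import Pool.Agent.Work.MP_d266e7_co.C5.Single

/-!
Uncrossing. `uncross2`: `Z = K \ star K s`, `D` a core of `W \ star W s` (`exists_core`,
`rem_tau`: `tau (un D) + 1 = tau W`), `F' = F.erase W ∪ D`, a `Fam Z` (the other pieces miss `s`
by separation; `faml_sep`), `tau (un F') + 1 = tau Z` (`rem_tau` in `K`). `N' = Z \ un F'` has
`|N'| ≤ |F'|` (count: `Fam.card_eq`, `step_card`, `gallai` for the pieces of `D`). By `hall_tau`,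
`hall_flip` some `P ⊆ F'` has `|nbh N' P| < |P|`; take `P` of least size. Then `nbh N' P` satisfies
Hall's condition in `P` (for `S` the pieces `P \ nbp P S` have their neighbours in `nbh N' P \ S`;
use minimality, or `P` itself if the difference is empty), so
`tau (un P ∪ nbh N' P) ≤ tau (un P)`. `R = Z \ (un P ∪ nbh N' P)` is separated from `un P`, so
`tau Z ≤ tau (un P) + tau R = tau (un P ∪ R) ≤ tau Z`; `G = P ∪` a core of `R`. If `P ⊆ F.erase W`,
`nlemma` in `K` with `N = nbh N' P ∪ (star K s \ W)` (`uncross_star`: at most one member) gives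
`|P| + 1 ≤ |nbh N' P| + 1`, false. So `P` has a piece of `D`, and it is smaller than `W`.
`exists_min`: as `Bad.exists_single` in `C5/Single.lean`.
-/

namespace Pool.Agent.Work.MP_d266e7_co.C5.P24

open Finset

variable {V : Type} [DecidableEq V]

theorem bunc_un (F G : Finset (Finset (Finset V))) : un (F ∪ G) = un F ∪ un G := by
  ext e
  simp only [mem_un, mem_union, or_and_right, exists_or]

theorem bunc_self {H : Finset (Finset V)} {F : Finset (Finset (Finset V))} (h : Fam H F) :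
    Fam (un F) F := ⟨fun _ hW => sub_un hW, h.cc, h.sep⟩

/-- a smallest violator of Hall's condition absorbs its neighbours -/
theorem bunc_viol {N : Finset (Finset V)} {F : Finset (Finset (Finset V))}
    (h : ∃ P, P ⊆ F ∧ (nbh N P).card < P.card) :
    ∃ P, P ⊆ F ∧ (nbh N P).card < P.card ∧ ∀ S ⊆ nbh N P, S.card ≤ (nbp P S).card := by
  obtain ⟨P, ⟨h1, h2⟩, hm⟩ := exists_min' _ Finset.card h
  refine ⟨P, h1, h2, fun S hS => ?_⟩
  rcases S.eq_empty_or_nonempty with rfl | ⟨x, hx⟩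
  · exact Nat.zero_le _
  have s1 : nbp P S ⊆ P := fun W hW => (mem_nbp.1 hW).1
  have c1 := card_sdiff_add_card_eq_card s1
  have c2 := card_sdiff_add_card_eq_card hS
  have c3 : 0 < (nbp P S).card := by
    obtain ⟨W, hW, hd⟩ := (mem_nbh.1 (hS hx)).2
    exact card_pos.2 ⟨W, mem_nbp.2 ⟨hW, x, hx, hd⟩⟩
  have c4 : (nbh N (P \ nbp P S)).card ≤ (nbh N P \ S).card := card_le_card fun y hy => by
    obtain ⟨y1, W, hW, hd⟩ := mem_nbh.1 hy
    obtain ⟨w1, w2⟩ := mem_sdiff.1 hW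
    exact mem_sdiff.2 ⟨mem_nbh.2 ⟨y1, W, w1, hd⟩, fun t => w2 (mem_nbp.2 ⟨w1, y, t, hd⟩)⟩
  have c5 : ¬ (nbh N (P \ nbp P S)).card < (P \ nbp P S).card := fun t => by
    have := hm _ ⟨sdiff_subset.trans h1, t⟩
    omega
  omega

/-- a family of pieces with few hosts and a small transversal number: some of the pieces with few
neighbours belong to a core -/
theorem bunc_core {Z : Finset (Finset V)} {F : Finset (Finset (Finset V))} (h5 : U5 Z)
    (hF : Fam Z F) (hc : (Z \ un F).card ≤ F.card) (hlt : tau (un F) < tau Z) :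
    ∃ P G, P ⊆ F ∧ (nbh (Z \ un F) P).card < P.card ∧ P ⊆ G ∧ Fam Z G ∧ tau (un G) = tau Z := by
  have hZ : NE Z := h5.ne
  obtain ⟨P, h1, h2, h3⟩ := bunc_viol (N := Z \ un F) (F := F) (by
    by_contra hn
    have k1 := hall_tau hZ hF sdiff_subset (hall_flip hc fun P hP => by
      by_contra t
      exact hn ⟨P, hP, not_le.1 t⟩)
    rw [union_sdiff_of_subset hF.un_sub] at k1
    omega)
  have hP : Fam Z P := hF.mono Subset.rfl h1
  have hM : nbh (Z \ un F) P ⊆ Z := fun x hx => (mem_sdiff.1 (mem_nbh.1 hx).1).1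
  have k1 := hall_tau hZ hP hM h3
  have hPM : un P ∪ nbh (Z \ un F) P ⊆ Z := union_subset hP.un_sub hM
  obtain ⟨R, hR⟩ : ∃ R, R = Z \ (un P ∪ nbh (Z \ un F) P) := ⟨_, rfl⟩
  have hRZ : R ⊆ Z := hR ▸ sdiff_subset
  have hs : Sep (un P) R := fun e he x hx ha => by
    rw [hR, mem_sdiff, mem_union, not_or] at hx
    obtain ⟨W, hW, heW⟩ := mem_un.1 he
    have hd : 1 ≤ dd W x := dd_pos.2 ⟨e, heW, ha.symm⟩
    exact hx.2.2 (mem_nbh.2 ⟨mem_sdiff.2 ⟨hx.1, uncross_out hF (h1 hW)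
      (fun t => hx.2.1 (sub_un hW t)) hd⟩, W, hW, hd⟩)
  obtain ⟨C, hC, hτ⟩ := exists_core (h5.mono hRZ)
  have hG : Fam Z (P ∪ C) :=
    (faml_sep hs (bunc_self hP) hC).mono (union_subset hP.un_sub hRZ) Subset.rfl
  refine ⟨P, P ∪ C, h1, h2, subset_union_left, hG, le_antisymm (tau_mono hZ hG.un_sub) ?_⟩
  rw [bunc_un, tau_union_sep (hZ.mono hP.un_sub) (hZ.mono (hC.un_sub.trans hRZ))
    (hs.mono Subset.rfl hC.un_sub), hτ]
  have k2 := tau_union_le (hZ.mono hPM) (hZ.mono hRZ)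
  rw [hR, union_sdiff_of_subset hPM, ← hR] at k2
  omega

theorem uncross2 {K : Finset (Finset V)} (hK : CC K) {t s : V} {F : Finset (Finset (Finset V))}
    (ht : dg K t = 3) (hs : dg K s = 3) (hF : Fam (K \ star K t) F)
    (hτ : tau (un F) + 1 = tau K) (hr : F.card = ((K \ star K t) \ un F).card + 2)
    {W : Finset (Finset V)} (hW : W ∈ F) (hv : 2 * tau W = W.card + 1) (h2 : 2 ≤ dg W s) :
    ∃ G, Fam (K \ star K s) G ∧ tau (un G) + 1 = tau K ∧ ∃ M ∈ G, M.card < W.card := by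
  have hN : NE K := hK.u5.ne
  have hFK : Fam K F := hF.mono sdiff_subset Subset.rfl
  have hWK : W ⊆ K := hFK.sub W hW
  have cW : CC W := hF.cc W hW
  obtain ⟨w, hw⟩ : (star W s).Nonempty := card_pos.1 (by unfold dg at h2; omega)
  have hwW : w ∈ W := (mem_star.1 hw).1
  have hws : s ∈ w := (mem_star.1 hw).2
  obtain ⟨D, hD, tD⟩ := exists_core (cW.u5.mono (sdiff_subset (t := star W s)))
  have t1 := rem_tau cW (t := s) (by omega)
  have t2 := rem_tau hK (t := s) (by omega)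
  have hE : Fam K (F.erase W) := hFK.mono Subset.rfl (erase_subset _ _)
  have sE : Sep (un (F.erase W)) W := fun e he x hx => by
    obtain ⟨W', h1, h3⟩ := mem_un.1 he
    exact hF.sep W' (mem_of_mem_erase h1) W hW (ne_of_mem_erase h1) e h3 x hx
  have hDW : un D ⊆ W := hD.un_sub.trans sdiff_subset
  have hF' : Fam (K \ star K s) (F.erase W ∪ D) := by
    refine (faml_sep (sE.mono Subset.rfl sdiff_subset) (bunc_self hE) hD).mono
      (union_subset (fun e he => ?_) fun e he => ?_) Subset.rfl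
    · exact mem_sdiff.2 ⟨hE.un_sub he, fun k => sE e he w hwW ⟨s, (mem_star.1 k).2, hws⟩⟩
    · obtain ⟨k1, k2⟩ := mem_sdiff.1 he
      exact mem_sdiff.2 ⟨hWK k1, fun k => k2 (mem_star.2 ⟨k1, (mem_star.1 k).2⟩)⟩
  have sD : Sep (un (F.erase W)) (un D) := sE.mono Subset.rfl hDW
  have t3 : tau (un (F.erase W)) + tau W = tau (un F) := by
    rw [hE.tau_un, hF.tau_un, sum_erase_add _ _ hW]
  have t4 : tau (un (F.erase W ∪ D)) = tau (un (F.erase W)) + tau (un D) := by
    rw [bunc_un, tau_union_sep (hN.mono hE.un_sub) (hN.mono (hDW.trans hWK)) sD]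
  have c1 : (un (F.erase W)).card + W.card = (un F).card := by
    rw [hE.card_un, hF.card_un, sum_erase_add _ _ hW]
  have c2 : (un (F.erase W ∪ D)).card = (un (F.erase W)).card + (un D).card := by
    rw [bunc_un, card_union_of_disjoint (sD.disjoint (hN.mono hE.un_sub))]
  have c3 : (F.erase W ∪ D).card = (F.erase W).card + D.card := by
    refine card_union_of_disjoint (disjoint_left.2 fun M k1 k2 => ?_)
    obtain ⟨e, he⟩ := (hD.cc M k2).ne
    exact disjoint_left.1 (sD.disjoint (hN.mono hE.un_sub)) (sub_un k1 he) (sub_un k2 he)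
  have c4 := card_erase_add_one hW
  have c5 : 2 * tau (un D) ≤ (un D).card + D.card := by
    rw [hD.tau_un, hD.card_un, mul_sum, card_eq_sum_ones D, ← sum_add_distrib]
    exact sum_le_sum fun M hM => gallai (hD.cc M hM).u5.ne (hD.cc M hM).crit (hD.cc M hM).conn
  have c6 := card_sdiff_add_card_eq_card hF.un_sub
  have c7 := card_sdiff_add_card_eq_card hF'.un_sub
  have c8 := card_star (S := K) s
  have c9 := card_star (S := K) t
  have c10 := card_star (S := W) s
  unfold dg at ht hs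
  obtain ⟨P, G, p1, p2, p3, hG, tG⟩ := bunc_core (hK.u5.mono sdiff_subset) hF' (by omega) (by omega)
  refine ⟨G, hG, by omega, ?_⟩
  by_contra hn
  have p4 : P ⊆ F.erase W := fun M hM => (mem_union.1 (p1 hM)).resolve_right fun k => by
    have := card_le_card (hD.sub M k)
    unfold dg at h2
    exact hn ⟨M, p3 hM, by omega⟩
  have hP : Fam K P := hE.mono Subset.rfl p4
  have hPE : un P ⊆ un (F.erase W) := fun e he => by
    obtain ⟨M, k1, k2⟩ := mem_un.1 he
    exact sub_un (p4 k1) k2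
  have k1 := nlemma (N := nbh ((K \ star K s) \ un (F.erase W ∪ D)) P ∪ (star K s \ W)) hK hP
    (card_pos.1 (by omega)) ⟨w, hWK hwW, fun k => sE w (hPE k) w hwW ⟨s, hws, hws⟩⟩
    fun x hx hxP M hM hd => by
      by_cases k : s ∈ x
      · refine mem_union_right _ (mem_sdiff.2 ⟨mem_star.2 ⟨hx, k⟩, fun hxW => ?_⟩)
        obtain ⟨e, he, ha⟩ := dd_pos.1 hd
        exact sE e (hPE (sub_un hM he)) x hxW ha.symm
      · exact mem_union_left _ (mem_nbh.2 ⟨mem_sdiff.2 ⟨mem_sdiff.2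
          ⟨hx, fun t => k (mem_star.1 t).2⟩, uncross_out hF' (p1 hM)
            (fun t => hxP (sub_un hM t)) hd⟩, M, hM, hd⟩)
  have k2 := card_union_le (nbh ((K \ star K s) \ un (F.erase W ∪ D)) P) (star K s \ W)
  have k3 := uncross_star (K := K) (s := s) hs hWK h2
  omega

theorem bunc_key {H W : Finset (Finset V)} {t t' s : V} {F : Finset (Finset (Finset V))}
    (h : BD H t t' F) (hW : W ∈ F) (h3 : dg H s = 3) (h2 : 2 ≤ dg W s)
    (dis : Disjoint (star H t) (star H s)) : ∃ G, BD H t s G ∧ ∃ M ∈ G, M.card < W.card := by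
  have a := h.facts
  have t1 := rem_tau h.bad.cc (t := t) (by have := h.ds.d1; omega)
  have t2 := h.ds.tau2
  obtain ⟨G, g1, g2, g3⟩ := uncross2 (t := t') (s := s) (F := F) (h.bad.step t h.ds.d1).1
    (by rw [dg, star_sdiff h.ds.dis]; exact h.ds.d2) (by rwa [dg, star_sdiff dis])
    (sdiff_star h.ds.dis ▸ h.ds.fam) (by omega) (sdiff_star h.ds.dis ▸ a.1) hW (a.2 W hW) h2
  exact ⟨G, ⟨h.bad, h.ds.d1, h3, dis, sdiff_star dis ▸ g1, by omega⟩, g3⟩

theorem Bad2.exists_min {H : Finset (Finset V)} (hB : Bad2 H)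
    (h : ¬ (H.card = 6 ∧ (cov H).card = 10)) :
    ∃ t t' F, BD H t t' F ∧ ∃ W ∈ F,
      (W.card = 1 ∨ (3 ≤ W.card ∧ ∀ s, dg H s = 3 → dg W s ≤ 1)) := by
  obtain ⟨W, ⟨t, t', F, h, hW⟩, hm⟩ := exists_min'
    (fun W => ∃ t t' F, BD H t t' F ∧ W ∈ F) Finset.card (by
      obtain ⟨t, t', F, h⟩ := hB.exists_ds h
      obtain ⟨W, hW⟩ := card_pos.1 (h.facts.1 ▸ Nat.succ_pos _ : 0 < F.card)
      exact ⟨W, t, t', F, h, hW⟩)
  have a1 := h.facts.2 W hW
  refine ⟨t, t', F, h, W, hW, ?_⟩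
  by_cases h1 : W.card = 1
  · exact Or.inl h1
  refine Or.inr ⟨by omega, fun s h3 => ?_⟩
  by_contra hn
  have h2 : 2 ≤ dg W s := by omega
  by_cases d1 : Disjoint (star H t) (star H s)
  · obtain ⟨G, hG, M, hM, hlt⟩ := bunc_key h hW h3 h2 d1
    exact absurd (hm M ⟨_, _, G, hG, hM⟩) hlt.not_ge
  by_cases d2 : Disjoint (star H t') (star H s)
  · obtain ⟨G, hG, M, hM, hlt⟩ := bunc_key h.symm hW h3 h2 d2
    exact absurd (hm M ⟨_, _, G, hG, hM⟩) hlt.not_ge
  obtain ⟨x, x1, x2⟩ := not_disjoint_iff.1 d1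
  obtain ⟨y, y1, y2⟩ := not_disjoint_iff.1 d2
  have := dg_lt2 (h.ds.famH.sub W hW) (mem_star.1 x2).1 (mem_star.1 y2).1
    (fun e => disjoint_left.1 h.ds.dis x1 (e ▸ y1))
    (fun e => (mem_sdiff.1 (h.ds.fam.sub W hW e)).2 (mem_union_left _ x1))
    (fun e => (mem_sdiff.1 (h.ds.fam.sub W hW e)).2 (mem_union_right _ y1))
    (mem_star.1 x2).2 (mem_star.1 y2).2
  omega

end Pool.Agent.Work.MP_d266e7_co.C5.P24
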