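import Pool.Agent.Work.MP_d266e7_co.P24B.A0
import Pool.Agent.Work.MP_d266e7_co.P24B.BSmall
import Pool.Agent.Work.MP_d266e7_co.P24B.BUnc

/-!
Assembly of the cases.
-/

namespace Pool.Agent.Work.MP_d266e7_co.C5.P24

open Finset

variable {V : Type} [DecidableEq V]

theorem bad2_of [Infinite V]
    (h1 : ∀ (H : Finset (Finset V)) (t t' : V) (F : Finset (Finset (Finset V))) (u : Finset V),
      BD H t t' F → ({u} : Finset (Finset V)) ∈ F → (xh H t t' F).card = 1 → False)
    (h2 : ∀ (H : Finset (Finset V)) (t t' : V) (F : Finset (Finset (Finset V))) (u : Finset V),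
      BD H t t' F → ({u} : Finset (Finset V)) ∈ F → (xh H t t' F).card = 2 → False)
    (H : Finset (Finset V)) (hB : Bad2 H) : H.card = 6 ∧ (cov H).card = 10 := by
  by_contra hc
  obtain ⟨t, t', F, h, W, hW, k | ⟨k1, k2⟩⟩ := hB.exists_min hc
  · obtain ⟨u, rfl⟩ := card_eq_one.1 k
    have a1 := h.close1 hW (h.pb0 hW)
    have a2 := h.out_two
    have a3 : (xh H t t' F).card = 0 ∨ (xh H t t' F).card = 1 ∨ (xh H t t' F).card = 2 := by omega
    rcases a3 with e | e | e
    exacts [h.a0 hW e, h1 H t t' F u h hW e, h2 H t t' F u h hW e]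
  · exact h.small hW k1 k2

end Pool.Agent.Work.MP_d266e7_co.C5.P24
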