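import Pool.Agent.Work.MP_d266e7_co.P24B.BEx2

/-!
A piece with few vertices met from outside is replaced by one node.
`I = cov X ∩ cov (H \ X)`; choose `u` with `I ⊆ u ⊆ cov X`, `|u| = 5`
(`exists_subsuperset_card_eq`; a member of `X` shows `5 ≤ |cov X|`). `H' = insert u (H \ X)`,
`F' = insert {u} (F.erase X)`. `u ∉ H \ X` (a member of `H \ X` inside `cov X` lies in `I`).
`g5_hs`: the stars at `t`, `t'` and the extra hosts do not change, a host meets `u` iff it meets
`X`, so the Hall conditions follow from `hs` (map a subfamily of `F'` to the subfamily of `F` with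
`X` for `{u}`); `tau2`: a minimum transversal of `H'` has a vertex `v ∈ u`; replace it by a minimum
transversal of `X` through `v` (`exists_cover_mem`), so `tau H + 1 ≤ tau H' + tau X`.
`g5`: `HS.cc`, `ih` give `VB H' 2` (`8 ≤ |H'| < |H|`, degrees do not grow).
`|cov H'| + |cov X| = |cov H| + 5`; `hi H' H' ≤ hi H (H \ X)` (`g5_hi`: the two vertices of `u \ I`
lie in no other member; a set `sd c w` of four vertices of `cov (H \ X)` is not inside `u`);
`tt (H \ X) (dg H) + 1 ≤ tt H' (dg H')`; add `pb0` for `X`, `hi_add`, and contradict `small`.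
-/

namespace Pool.Agent.Work.MP_d266e7_co.C5.P24

open Finset

variable {V : Type} [DecidableEq V]

theorem bg5_new {R : Finset (Finset V)} (h5 : U5 R) {u w y : Finset V} (hu : u.card = 5)
    (h : (u ∩ cov R).card ≤ 3) (hw : w ∈ R) (h3 : (u ∩ w).card = 3) (hy : y ∈ insert u R) :
    ¬ sd u w ⊆ y := fun hs => by
  rcases mem_insert.1 hy with rfl | hy
  · rw [inter_eq_right.2 fun v hv => by_contra fun k => k (hs (mem_sd.2 (Or.inr ⟨k, hv⟩))),
      h5 w hw] at h3
    omega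
  · have e : u ∩ w = u ∩ cov R := eq_of_subset_of_card_le
      (inter_subset_inter_left fun v hv => mem_cov.2 ⟨w, hw, hv⟩) (h3 ▸ h)
    rw [e, inter_eq_left.2 fun v hv => by_contra fun k => k ?_, hu] at h3
    · omega
    · by_cases k' : v ∈ w
      exacts [mem_cov.2 ⟨w, hw, k'⟩, mem_cov.2 ⟨y, hy, hs (mem_sd.2 (Or.inl ⟨hv, k'⟩))⟩]

theorem g5_hi {H R : Finset (Finset V)} (hs : R ⊆ H) (h5 : U5 R) {u : Finset V} (hu : u.card = 5)
    (h : (u ∩ cov R).card ≤ 3) : hi (insert u R) (insert u R) ≤ hi H R := by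
  refine card_le_card fun p hp => ?_
  obtain ⟨hp, c, hc, w, hw, h3, y, hy, hs'⟩ := mem_filter.1 hp
  obtain ⟨p1, p2⟩ := mem_powersetCard.1 hp
  have k5 : ∀ e ∈ insert u R, e.card = 5 := fun e he =>
    (mem_insert.1 he).elim (fun k => k ▸ hu) (h5 e)
  have hcw : c ≠ w := fun k => by
    rw [← k, inter_self, k5 c (p1 hc)] at h3
    omega
  have c1 : c ∈ R := (mem_insert.1 (p1 hc)).resolve_left fun k => bg5_new h5 hu h
    ((mem_insert.1 (p1 hw)).resolve_left fun k' => hcw (k.trans k'.symm)) (k ▸ h3) hy (k ▸ hs')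
  have w1 : w ∈ R := (mem_insert.1 (p1 hw)).resolve_left fun k =>
    bg5_new h5 hu h c1 (k ▸ inter_comm c w ▸ h3) hy (k ▸ sd_comm c w ▸ hs')
  refine earhi_old (earhi_pair hp hc hw (h5 c c1) h3) p2 c1 w1 h3
    ⟨y, hs ((mem_insert.1 hy).resolve_left fun k => ?_), hs'⟩
  have := card_le_card (earhi_sd c1 w1 hs')
  rw [sd_card (h5 c c1) (h5 w w1) h3, k] at this
  omega

namespace BD

variable {H : Finset (Finset V)} {t t' : V} {F : Finset (Finset (Finset V))}

theorem bg5_nf (h : BD H t t' F) {X : Finset (Finset V)} (hX : X ∈ F) {u : Finset V}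
    (h3 : u ∉ H \ X) : {u} ∉ F.erase X := fun k => by
  have hF := h.ds.famH
  obtain ⟨k1, k2⟩ := mem_erase.1 k
  exact h3 (mem_sdiff.2 ⟨hF.sub _ k2 (mem_singleton_self u), disjoint_left.1
    ((hF.sep _ k2 X hX k1).disjoint (hF.cc _ k2).u5.ne) (mem_singleton_self u)⟩)

theorem bg5_tau (h : BD H t t' F) {X K : Finset (Finset V)} (hX : X ∈ F) {u : Finset V}
    (hu : u.card = 5) (h3 : u ∉ H \ X) (hK : Fam K (insert {u} (F.erase X))) :
    tau (un (insert {u} (F.erase X))) + tau X = tau (un F) + 1 := by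
  rw [hK.tau_un, h.ds.fam.tau_un, sum_insert (bg5_nf h hX h3), ← add_sum_erase F _ hX,
    tau_singleton (card_pos.1 (by omega))]
  omega

theorem g5_hs [Infinite V] (h : BD H t t' F) {X : Finset (Finset V)} (hX : X ∈ F) {u : Finset V}
    (hu : u.card = 5) (h1 : cov X ∩ cov (H \ X) ⊆ u) (h2 : u ⊆ cov X) (h3 : u ∉ H \ X) :
    HS (insert u (H \ X)) t t' (insert {u} (F.erase X)) := by
  have s := h.hs
  have hF := h.ds.famH
  have dj : ∀ W ∈ F, W ≠ X → ∀ e ∈ W, e ∉ X := fun W a b =>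
    disjoint_left.1 ((hF.sep W a X hX b).disjoint (hF.cc W a).u5.ne)
  have nt : ∀ e ∈ X, t ∉ e ∧ t' ∉ e := fun e he => by
    have := s.fam.sub X hX he
    simp only [mem_sdiff, mem_union, mem_star] at this
    tauto
  have nu : t ∉ u ∧ t' ∉ u := by
    constructor <;> intro k <;> obtain ⟨e, a, b⟩ := mem_cov.1 (h2 k)
    exacts [(nt e a).1 b, (nt e a).2 b]
  have st : ∀ r, r ∉ u → (∀ e ∈ X, r ∉ e) → star (insert u (H \ X)) r = star H r := fun r a b => by
    ext e
    simp only [mem_star, mem_insert, mem_sdiff]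
    exact ⟨fun k => ⟨(k.1.resolve_left fun k' => a (k' ▸ k.2)).1, k.2⟩,
      fun k => ⟨Or.inr ⟨k.1, fun k' => b e k' k.2⟩, k.2⟩⟩
  have s1 := st t nu.1 fun e a => (nt e a).1
  have s2 := st t' nu.2 fun e a => (nt e a).2
  have mu : ∀ e, e ∈ un (insert {u} (F.erase X)) ↔ e = u ∨ (e ∈ un F ∧ e ∉ X) := fun e => by
    simp only [mem_un, mem_insert, mem_erase, exists_eq_or_imp, mem_singleton]
    exact or_congr_right ⟨fun ⟨W, a, b⟩ => ⟨⟨W, a.2, b⟩, dj W a.2 a.1 e b⟩,
      fun ⟨⟨W, a, b⟩, c⟩ => ⟨W, ⟨fun k => c (k ▸ b), a⟩, b⟩⟩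
  have sx : xh (insert u (H \ X)) t t' (insert {u} (F.erase X)) = xh H t t' F := by
    ext e
    simp only [mem_xh, mu, mem_insert, mem_sdiff]
    have a1 : e ∈ X → e ∈ un F := fun k => sub_un hX k
    have a2 : e = u → e ∈ H → e ∈ X := fun k k' => by_contra fun r => h3 (k ▸ mem_sdiff.2 ⟨k', r⟩)
    tauto
  have nF := bg5_nf h hX h3
  have sp : ∀ W ∈ F.erase X, Sep {u} W := fun W a e b f c ⟨v, d1, d2⟩ => by
    obtain ⟨e', d3, d4⟩ := mem_cov.1 (h2 (mem_singleton.1 b ▸ d1))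
    exact hF.sep X hX W (mem_erase.1 a).2 (mem_erase.1 a).1.symm e' d3 f c ⟨v, d4, d2⟩
  have fam : Fam (insert u (H \ X) \ (star H t ∪ star H t')) (insert {u} (F.erase X)) := by
    refine ⟨forall_mem_insert _ _ _ |>.2 ⟨by simp [mem_star, nu], fun W a e b => ?_⟩,
      forall_mem_insert _ _ _ |>.2 ⟨cc_singleton hu, fun W a => hF.cc W (mem_erase.1 a).2⟩,
      fun W a W' b c => ?_⟩
    · have := mem_sdiff.1 (s.fam.sub W (mem_erase.1 a).2 b)
      exact mem_sdiff.2 ⟨mem_insert_of_mem (mem_sdiff.2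
        ⟨this.1, dj W (mem_erase.1 a).2 (mem_erase.1 a).1 e b⟩), this.2⟩
    · rcases mem_insert.1 a with rfl | a <;> rcases mem_insert.1 b with rfl | b
      exacts [absurd rfl c, sp _ b, (sp _ a).symm,
        hF.sep W (mem_erase.1 a).2 W' (mem_erase.1 b).2 c]
  obtain ⟨φ, f1, f2⟩ : ∃ φ : Finset (Finset V) → Finset (Finset V), φ {u} = X ∧
      ∀ W ∈ F.erase X, φ W = W :=
    ⟨fun W => if W = {u} then X else W, if_pos rfl,
      fun W a => if_neg fun k : W = {u} => nF (k ▸ a)⟩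
  have f3 : ∀ W ∈ insert {u} (F.erase X), φ W ∈ F ∧ ∀ x ∈ H \ X, dd (φ W) x = dd W x := by
    refine forall_mem_insert _ _ _ |>.2 ⟨⟨f1 ▸ hX, fun x a => ?_⟩,
      fun W a => (f2 W a).symm ▸ ⟨(mem_erase.1 a).2, fun _ _ => rfl⟩⟩
    rw [f1, dd, dd, cov_singleton]
    exact congrArg card (Subset.antisymm (fun v b => mem_inter.2 ⟨(mem_inter.1 b).1, h1
      (mem_inter.2 ⟨(mem_inter.1 b).2, mem_cov.2 ⟨x, a, (mem_inter.1 b).1⟩⟩)⟩)
      (inter_subset_inter_left h2))
  have f4 : ∀ W ∈ insert {u} (F.erase X), ∀ W' ∈ insert {u} (F.erase X), φ W = φ W' → W = W' :=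
    fun W a W' b c => by
      rcases mem_insert.1 a with rfl | a <;> rcases mem_insert.1 b with rfl | b
      · rfl
      · exact absurd (((f2 _ b).symm.trans c.symm).trans f1) (mem_erase.1 b).1
      · exact absurd (((f2 _ a).symm.trans c).trans f1) (mem_erase.1 a).1
      · exact ((f2 _ a).symm.trans c).trans (f2 _ b)
  have xs : xh H t t' F ⊆ H \ X := fun e a =>
    mem_sdiff.2 ⟨(mem_xh.1 a).1, fun k => (mem_xh.1 a).2.2.2 (sub_un hX k)⟩
  have hall : ∀ r, (∀ e ∈ X, r ∉ e) →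
      (∀ G ⊆ F, G.Nonempty → G.card + 1 ≤ (nbh (star H r ∪ xh H t t' F) G).card) →
      ∀ G ⊆ insert {u} (F.erase X), G.Nonempty →
        G.card + 1 ≤ (nbh (star H r ∪ xh H t t' F) G).card := fun r a b G c d => by
    have k := b (G.image φ) (image_subset_iff.2 fun W e => (f3 W (c e)).1) (d.image φ)
    rw [card_image_of_injOn fun W e W' e' => f4 W (c e) W' (c e')] at k
    refine k.trans (card_le_card fun x e => ?_)
    obtain ⟨e1, _, e2, e3⟩ := mem_nbh.1 e
    obtain ⟨W, e4, rfl⟩ := mem_image.1 e2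
    refine mem_nbh.2
      ⟨e1, W, e4, (f3 W (c e4)).2 x ((mem_union.1 e1).elim (fun k => ?_) (@xs x)) ▸ e3⟩
    exact mem_sdiff.2 ⟨(mem_star.1 k).1, fun k' => a x k' (mem_star.1 k).2⟩
  have u5 : U5 (insert u (H \ X)) := fun e he =>
    (mem_insert.1 he).elim (fun k => k ▸ hu) fun k => s.u5 e (mem_sdiff.1 k).1
  refine ⟨u5, by rw [dg, s1]; exact s.d1, by rw [dg, s2]; exact s.d2, s1.symm ▸ s2.symm ▸ s.dis,
    s1.symm ▸ s2.symm ▸ fam, ?_, ?_, ?_, ?_, ?_⟩
  · rw [sx, card_insert_of_notMem nF, card_erase_add_one hX, s.card]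
  · obtain ⟨C', a1, a2⟩ := exists_opt u5.ne
    obtain ⟨v, a3, a4⟩ := a1 u (mem_insert_self _ _)
    obtain ⟨C, a5, a6, a7⟩ := exists_cover_mem (hF.cc X hX) (h2 a3)
    have a8 : tau H ≤ (C' ∪ C).card := tau_le fun e he => by
      by_cases k : e ∈ X
      · exact (a5 e k).imp fun w b => ⟨b.1, mem_union_right _ b.2⟩
      · exact (a1 e (mem_insert_of_mem (mem_sdiff.2 ⟨he, k⟩))).imp fun w b =>
          ⟨b.1, mem_union_left _ b.2⟩
    have a9 := card_union_add_card_inter C' C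
    have := card_pos.2 ⟨v, mem_inter.2 ⟨a4, a7⟩⟩
    have := bg5_tau h hX hu h3 fam
    have := s.tau2
    omega
  · rw [s1, sx]
    exact hall t (fun e a => (nt e a).1) s.h1
  · rw [s2, sx]
    exact hall t' (fun e a => (nt e a).2) s.h2
  · rw [sx]
    refine fun S a b => (s.nd S a b).trans ((card_le_card fun W c => ?_).trans
      (card_image_le (f := φ)))
    obtain ⟨c1, x, c2, c3⟩ := mem_nbp.1 c
    obtain ⟨W', c4, rfl⟩ : ∃ W' ∈ insert {u} (F.erase X), φ W' = W :=
      if k : W = X then ⟨_, mem_insert_self _ _, f1.trans k.symm⟩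
      else ⟨W, mem_insert_of_mem (mem_erase.2 ⟨k, c1⟩), f2 W (mem_erase.2 ⟨k, c1⟩)⟩
    exact mem_image_of_mem φ (mem_nbp.2 ⟨c4, x, c2, (f3 W' c4).2 x (xs (a c2)) ▸ c3⟩)

theorem g5 [Infinite V] (h : BD H t t' F) {X : Finset (Finset V)} (hX : X ∈ F) (h2 : 2 ≤ X.card) :
    4 ≤ (cov X ∩ cov (H \ X)).card := by
  by_contra hc
  have hF := h.ds.famH
  have sX := hF.sub X hX
  have u5 := h.bad.cc.u5
  obtain ⟨e, he⟩ := (hF.cc X hX).ne
  obtain ⟨u, h1, h2', hu⟩ := exists_subsuperset_card_eq (n := 5)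
    (inter_subset_left (s₁ := cov X) (s₂ := cov (H \ X))) (by omega)
    (u5 e (sX he) ▸ card_le_card fun v a => mem_cov.2 ⟨e, he, a⟩)
  have eI : u ∩ cov (H \ X) = cov X ∩ cov (H \ X) :=
    Subset.antisymm (inter_subset_inter_right h2') (subset_inter h1 inter_subset_right)
  have h3 : u ∉ H \ X := fun k => by
    rw [← eI, inter_eq_left.2 fun v a => mem_cov.2 ⟨u, k, a⟩] at hc
    omega
  have s := g5_hs h hX hu h1 h2' h3
  obtain ⟨c1, c2⟩ := s.cc
  have c3 := bg5_tau h hX hu h3 s.fam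
  have c4 := h.ds.tau2
  have c5 := h.facts.2 X hX
  have c6 := h.bad.val
  have c7 := card_insert_of_notMem h3
  have c8 := card_sdiff_add_card_eq_card sX
  have dl : ∀ v, dg (insert u (H \ X)) v ≤ dg H v := fun v => by
    by_cases k : v ∈ u
    · obtain ⟨f, a, b⟩ := mem_cov.1 (h2' k)
      refine le_trans ?_ (dg_lt sdiff_subset (sX a) (fun r => (mem_sdiff.1 r).2 a) b)
      rw [dg, star, filter_insert, if_pos k]
      exact card_insert_le _ _
    · rw [dg, star, filter_insert, if_neg k]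
      exact dg_mono sdiff_subset v
  have c9 : 7 ≤ (insert u (H \ X)).card := by
    have a := mem_sdiff.1 (s.fam.sub _ (mem_insert_self _ _) (mem_singleton_self u))
    have b := card_le_card (insert_subset a.1
      (union_subset (filter_subset _ _) (filter_subset _ _)) : insert u (star _ t ∪ star _ t') ⊆ _)
    rw [card_insert_of_notMem a.2, card_union_of_disjoint s.dis] at b
    have := s.d1
    have := s.d2
    unfold dg at *
    omega
  have v1 := h.bad.ih _ (by omega) c1 (fun v => (dl v).trans (h.bad.d3 v)) (by omega) (by omega)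
  have v2 := h.pb0 hX
  have v3 := g5_hi (H := H) sdiff_subset (u5.mono sdiff_subset) hu (eI ▸ Nat.le_of_lt_succ
    (not_le.1 hc))
  have v4 := hi_add (H := H) disjoint_sdiff sX sdiff_subset
  have v5 : cov (insert u (H \ X)) = u ∪ cov (H \ X) := by
    rw [insert_eq, cov_union, cov_singleton]
  have v6 : cov H = cov X ∪ cov (H \ X) := by rw [← cov_union, union_sdiff_of_subset sX]
  have v7 := card_union_add_card_inter u (cov (H \ X))
  have v8 := card_union_add_card_inter (cov X) (cov (H \ X))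
  have v9 : tt H (dg H) ≤ tt X (dg H) + tt (H \ X) (dg H) := by
    refine le_trans (le_of_eq ?_) (card_union_le _ _)
    rw [← filter_union, union_sdiff_of_subset sX, tt]
  have w1 : tt (H \ X) (dg H) + 1 ≤ tt (insert u (H \ X)) (dg (insert u (H \ X))) := by
    refine (Nat.succ_le_succ (tt_mono fun v _ => dl v)).trans (le_of_eq ?_)
    rw [tt, tt, filter_insert, if_pos, card_insert_of_notMem fun k => h3 (mem_filter.1 k).1]
    have a := card_sdiff_add_card_inter u (cov (H \ X))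
    refine le_trans (by rw [eI] at a; omega) (card_le_card (s := u \ cov (H \ X)) fun v k => ?_)
    obtain ⟨k1, k2⟩ := mem_sdiff.1 k
    refine mem_filter.2 ⟨k1, card_le_one_iff_subset_singleton.2 ⟨u, fun f r => ?_⟩⟩
    exact mem_singleton.2 ((mem_insert.1 (mem_star.1 r).1).resolve_right fun r' =>
      k2 (mem_cov.2 ⟨f, r', (mem_star.1 r).2⟩))
  refine h.bad.small ?_
  unfold VB PB at *
  rw [v5] at v1
  rw [eI] at v7
  rw [v6]
  omega

end BD

end Pool.Agent.Work.MP_d266e7_co.C5.P24
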