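import Pool.Agent.Work.MP_d266e7_co.P24B.BDefs

/-!
Matchings of hosts into pieces.
`hall_tau`: `Finset.all_card_le_biUnion_card_iff_exists_injective` (as in `nlem_hall`), then
`nlem_tau`. `hall_flip`: for `S ⊆ M` the pieces `G \ nbp G S` have their neighbours in `M \ S`.
`HS.cc`: put `N = xh H t t' F`. `tau H ≤ tau (un F ∪ N) + 2` (`tau_le_two`) and `nd` is Hall's
condition. Critical: for a host `x ∈ star H t ∪ N` match `(star H t ∪ N).erase x` (it has `|F|`
members; `h1`, `hall_flip`) and add `t'`; the same with `t`, `t'` exchanged (`HS.symm`); for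
`w ∈ W ∈ F` match `N` into `F.erase W` (`nd`), add `tau (W.erase w)`, `t`, `t'` (`Fam.tau_un`).
Connected: let `U` be closed under adjacency; `star H t` lies in `U` or misses it; let `C` be `U`
or `H \ U`, missing `star H t`, nonempty and closed. Let `G` be the pieces inside `C` (a piece
meeting `C` lies inside, it is connected). The neighbours of `G` in `star H t ∪ N` lie in `N ∩ C`
and `nbp F (N ∩ C) ⊆ G`; `h1` and `nd` force `G = ∅`, `N ∩ C = ∅`. So `C ⊆ star H t'`; `h2` for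
`G = F` shows that every member of `star H t'` meets a piece, which would then lie in `C`.
-/

namespace Pool.Agent.Work.MP_d266e7_co.C5.P24

open Finset

variable {V : Type} [DecidableEq V]

theorem mem_xh {H : Finset (Finset V)} {t t' : V} {F : Finset (Finset (Finset V))}
    {x : Finset V} : x ∈ xh H t t' F ↔ x ∈ H ∧ t ∉ x ∧ t' ∉ x ∧ x ∉ un F := by
  simp only [xh, mem_sdiff, mem_union, mem_star]
  tauto

theorem xh_comm (H : Finset (Finset V)) (t t' : V) (F : Finset (Finset (Finset V))) :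
    xh H t t' F = xh H t' t F := by
  rw [xh, xh, union_comm]

theorem mem_nbp {F : Finset (Finset (Finset V))} {S W : Finset (Finset V)} :
    W ∈ nbp F S ↔ W ∈ F ∧ ∃ x ∈ S, 1 ≤ dd W x := by
  exact mem_filter

theorem mem_nbh {T : Finset (Finset V)} {G : Finset (Finset (Finset V))} {x : Finset V} :
    x ∈ nbh T G ↔ x ∈ T ∧ ∃ W ∈ G, 1 ≤ dd W x := by
  exact mem_filter

theorem hall_tau {H M : Finset (Finset V)} {G : Finset (Finset (Finset V))} (hH : NE H)
    (hG : Fam H G) (hM : M ⊆ H) (h : ∀ S ⊆ M, S.card ≤ (nbp G S).card) :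
    tau (un G ∪ M) ≤ tau (un G) := by
  obtain ⟨f, h1, h2⟩ := (all_card_le_biUnion_card_iff_exists_injective
    (fun x : M => G.filter fun W => 1 ≤ dd W x.1)).1 fun s => by
      have h3 := h (s.map (Function.Embedding.subtype _)) fun x hx => by
        obtain ⟨y, -, rfl⟩ := mem_map.1 hx
        exact y.2
      rw [card_map] at h3
      refine h3.trans (card_le_card fun W hW => ?_)
      obtain ⟨h4, x, hx, h5⟩ := mem_nbp.1 hW
      obtain ⟨y, hy, rfl⟩ := mem_map.1 hx
      exact mem_biUnion.2 ⟨y, hy, mem_filter.2 ⟨h4, h5⟩⟩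
  exact nlem_tau hH hG hM f h1 fun x => mem_filter.1 (h2 x)

theorem hall_flip {M : Finset (Finset V)} {G : Finset (Finset (Finset V))} (hc : M.card ≤ G.card)
    (h : ∀ G' ⊆ G, G'.card ≤ (nbh M G').card) : ∀ S ⊆ M, S.card ≤ (nbp G S).card := by
  intro S hS
  have h1 := h (G \ nbp G S) sdiff_subset
  have h2 : nbh M (G \ nbp G S) ⊆ M \ S := fun x hx => by
    obtain ⟨h3, W, hW, h4⟩ := mem_nbh.1 hx
    exact mem_sdiff.2 ⟨h3, fun k => (mem_sdiff.1 hW).2 (mem_nbp.2 ⟨(mem_sdiff.1 hW).1, x, k, h4⟩)⟩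
  have h3 := card_le_card h2
  have h4 := card_sdiff_add_card_eq_card hS
  have h5 := card_sdiff_add_card_eq_card (show nbp G S ⊆ G from filter_subset _ _)
  omega

/-- after deleting one host the others are absorbed -/
theorem hall_erase {H T : Finset (Finset V)} {G : Finset (Finset (Finset V))} (hH : NE H)
    (hG : Fam H G) (hT : T ⊆ H) (hc : T.card ≤ G.card + 1)
    (h : ∀ G' ⊆ G, G'.Nonempty → G'.card + 1 ≤ (nbh T G').card) {x : Finset V} (hx : x ∈ T) :
    tau (un G ∪ T.erase x) ≤ tau (un G) := by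
  have h1 := card_erase_add_one hx
  refine hall_tau hH hG ((erase_subset _ _).trans hT) (hall_flip (by omega) fun G' hG' => ?_)
  rcases G'.eq_empty_or_nonempty with rfl | hn
  · exact Nat.zero_le _
  have h2 : nbh T G' ⊆ insert x (nbh (T.erase x) G') := fun y hy => by
    obtain ⟨h3, h4⟩ := mem_nbh.1 hy
    exact mem_insert.2 ((eq_or_ne y x).imp_right fun k => mem_nbh.2 ⟨mem_erase.2 ⟨k, h3⟩, h4⟩)
  have h3 := (h G' hG' hn).trans ((card_le_card h2).trans (card_insert_le _ _))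
  omega

theorem HS.symm {H : Finset (Finset V)} {t t' : V} {F : Finset (Finset (Finset V))}
    (h : HS H t t' F) : HS H t' t F := by
  obtain ⟨a1, a2, a3, a4, a5, a6, a7, a8, a9, a10⟩ := h
  rw [xh_comm] at a6 a8 a9 a10
  rw [union_comm] at a5
  exact ⟨a1, a3, a2, a4.symm, a5, a6, a7, a9, a8, a10⟩

theorem bhall_sub {H : Finset (Finset V)} {t t' s : V} {F : Finset (Finset (Finset V))} :
    star H s ∪ xh H t t' F ⊆ H :=
  union_subset (filter_subset _ _) fun _ hx => (mem_xh.1 hx).1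

theorem bhall_card {H : Finset (Finset V)} {t t' : V} {F : Finset (Finset (Finset V))}
    (h : HS H t t' F) : (star H t ∪ xh H t t' F).card ≤ F.card + 1 := by
  have h1 := card_union_le (star H t) (xh H t t' F)
  have h2 : (star H t).card = 3 := h.d1
  have h3 := h.card
  omega

theorem bhall_host {H : Finset (Finset V)} {t t' : V} {F : Finset (Finset (Finset V))}
    (h : HS H t t' F) {x : Finset V} (hx : x ∈ star H t ∪ xh H t t' F) :
    tau (H.erase x) ≤ tau (un F) + 1 := by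
  have hF : Fam H F := h.fam.mono sdiff_subset Subset.rfl
  have h1 := hall_erase h.u5.ne hF bhall_sub (bhall_card h) h.h1 hx
  refine (tau_le_succ (h.u5.ne.mono (union_subset hF.un_sub ((erase_subset x _).trans bhall_sub))) t'
    fun e he => ?_).trans (Nat.succ_le_succ h1)
  obtain ⟨h2, h3⟩ := mem_erase.1 he
  simp only [mem_union, mem_erase, mem_star, mem_xh]
  tauto

theorem bhall_piece {H : Finset (Finset V)} {t t' : V} {F : Finset (Finset (Finset V))}
    (h : HS H t t' F) {W : Finset (Finset V)} (hW : W ∈ F) {x : Finset V} (hx : x ∈ W) :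
    tau (H.erase x) ≤ tau (un F) + 1 := by
  have hF : Fam H F := h.fam.mono sdiff_subset Subset.rfl
  have hF' : Fam H (F.erase W) := hF.mono Subset.rfl (erase_subset _ _)
  have hN : xh H t t' F ⊆ H := fun _ k => (mem_xh.1 k).1
  have h1 := hall_tau h.u5.ne hF' hN fun S hS => by
    rcases S.eq_empty_or_nonempty with rfl | hn
    · exact Nat.zero_le _
    have h2 : nbp F S ⊆ insert W (nbp (F.erase W) S) := fun y hy => by
      obtain ⟨h3, h4⟩ := mem_nbp.1 hy
      exact mem_insert.2 ((eq_or_ne y W).imp_right fun k => mem_nbp.2 ⟨mem_erase.2 ⟨k, h3⟩, h4⟩)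
    have h3 := (h.nd S hS hn).trans ((card_le_card h2).trans (card_insert_le _ _))
    omega
  have a1 := h.u5.ne.mono (union_subset hF'.un_sub hN)
  have a2 := h.u5.ne.mono ((erase_subset x W).trans (hF.sub W hW))
  have h2 := tau_union_le a1 a2
  have h3 : tau (H.erase x) ≤ tau (un (F.erase W) ∪ xh H t t' F ∪ W.erase x) + 2 := by
    refine tau_le_two (fun e he => (mem_union.1 he).elim (a1 e) (a2 e)) t t' fun e he => ?_
    obtain ⟨h4, h5⟩ := mem_erase.1 he
    by_cases k : e ∈ un F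
    · obtain ⟨W', h6, h7⟩ := mem_un.1 k
      by_cases k' : W' = W
      · exact Or.inl (mem_union_right _ (mem_erase.2 ⟨h4, k' ▸ h7⟩))
      · exact Or.inl (mem_union_left _ (mem_union_left _ (sub_un (mem_erase.2 ⟨k', h6⟩) h7)))
    · simp only [mem_union, mem_xh]
      tauto
  have h4 := (hF.cc W hW).crit x hx
  have h5 := sum_erase_add F tau hW
  rw [← hF.tau_un, ← hF'.tau_un] at h5
  omega

theorem bhall_closed {H : Finset (Finset V)} {t t' : V} {F : Finset (Finset (Finset V))}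
    (h : HS H t t' F) {C : Finset (Finset V)} (hC : C ⊆ H)
    (hc : ∀ u ∈ C, ∀ z ∈ H, Adj u z → z ∈ C) (hd : ∀ u ∈ C, t ∉ u) : ¬ C.Nonempty := by
  rintro ⟨c, hcC⟩
  have hF : Fam H F := h.fam.mono sdiff_subset Subset.rfl
  have h1 : ∀ W ∈ F, ∀ w ∈ W, w ∈ C → W ⊆ C := fun W hW w hw k => by
    by_contra hn
    obtain ⟨u, hu, z, hz, hz', a⟩ := (hF.cc W hW).conn (W ∩ C) inter_subset_left
      ⟨w, mem_inter.2 ⟨hw, k⟩⟩ fun e => hn (inter_eq_left.1 e)
    exact hz' (mem_inter.2 ⟨hz, hc u (mem_inter.1 hu).2 z (hF.sub W hW hz) a⟩)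
  have h2 : ∀ W ∈ F, ∀ x ∈ C, 1 ≤ dd W x → W ∈ F.filter (· ⊆ C) := fun W hW x hx k => by
    obtain ⟨w, hw, a⟩ := dd_pos.1 k
    exact mem_filter.2 ⟨hW, h1 W hW w hw (hc x hx w (hF.sub W hW hw) a)⟩
  have h3 : nbh (star H t ∪ xh H t t' F) (F.filter (· ⊆ C)) ⊆ xh H t t' F ∩ C := fun x hx => by
    obtain ⟨a1, W, hW, a2⟩ := mem_nbh.1 hx
    obtain ⟨w, hw, a⟩ := dd_pos.1 a2
    have a3 := hc w ((mem_filter.1 hW).2 hw) x (bhall_sub a1) a.symm
    exact mem_inter.2 ⟨(mem_union.1 a1).resolve_left fun k => hd x a3 (mem_star.1 k).2, a3⟩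
  have h4 : nbp F (xh H t t' F ∩ C) ⊆ F.filter (· ⊆ C) := fun W hW => by
    obtain ⟨a1, x, hx, a2⟩ := mem_nbp.1 hW
    exact h2 W a1 x (mem_inter.1 hx).2 a2
  have h5 := card_le_card h3
  have h6 := card_le_card h4
  have h7 := fun k => h.h1 (F.filter (· ⊆ C)) (filter_subset _ _) (card_pos.1 k)
  have h8 := fun k => h.nd (xh H t t' F ∩ C) inter_subset_left (card_pos.1 k)
  have h9 : F.filter (· ⊆ C) = ∅ := card_eq_zero.1 (by omega)
  have h10 : xh H t t' F ∩ C = ∅ := card_eq_zero.1 (by rw [h9, card_empty] at h6; omega)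
  rw [h9] at h2
  have b1 : c ∉ un F := fun k => by
    obtain ⟨W, hW, a⟩ := mem_un.1 k
    exact notMem_empty W (h9 ▸ mem_filter.2 ⟨hW, h1 W hW c a hcC⟩)
  have b2 : t' ∈ c := by_contra fun k =>
    notMem_empty c (h10 ▸ mem_inter.2 ⟨mem_xh.2 ⟨hC hcC, hd c hcC, k, b1⟩, hcC⟩)
  have b3 : c ∈ star H t' ∪ xh H t t' F := mem_union_left _ (mem_star.2 ⟨hC hcC, b2⟩)
  have b4 : nbh (star H t' ∪ xh H t t' F) F ⊆ (star H t' ∪ xh H t t' F).erase c := fun x hx => by
    obtain ⟨a1, W, hW, a2⟩ := mem_nbh.1 hx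
    exact mem_erase.2 ⟨fun k => notMem_empty W (h2 W hW c hcC (k ▸ a2)), a1⟩
  have b5 := h.card
  have b6 := (h.h2 F Subset.rfl (card_pos.1 (by omega))).trans (card_le_card b4)
  have b7 := card_erase_add_one b3
  have b8 := bhall_card h.symm
  rw [xh_comm] at b8
  omega

theorem HS.cc {H : Finset (Finset V)} {t t' : V} {F : Finset (Finset (Finset V))}
    (h : HS H t t' F) : CC H ∧ tau H = tau (un F) + 2 := by
  have hF : Fam H F := h.fam.mono sdiff_subset Subset.rfl
  have hN : xh H t t' F ⊆ H := fun _ k => (mem_xh.1 k).1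
  have h1 := hall_tau h.u5.ne hF hN fun S hS => by
    rcases S.eq_empty_or_nonempty with rfl | hn
    exacts [Nat.zero_le _, Nat.le_of_succ_le (h.nd S hS hn)]
  have h2 : tau H ≤ tau (un F ∪ xh H t t' F) + 2 :=
    tau_le_two (h.u5.ne.mono (union_subset hF.un_sub hN)) t t' fun e he => by
      simp only [mem_union, mem_xh]
      tauto
  have h3 := h.tau2
  refine ⟨⟨h.u5, fun x hx => ?_, fun U hU hn hne => ?_, ?_⟩, by omega⟩
  · suffices k : tau (H.erase x) ≤ tau (un F) + 1 by omega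
    by_cases a1 : x ∈ un F
    · obtain ⟨W, hW, a⟩ := mem_un.1 a1
      exact bhall_piece h hW a
    by_cases a2 : t' ∈ x
    · exact bhall_host h.symm (mem_union_left _ (mem_star.2 ⟨hx, a2⟩))
    refine bhall_host h ?_
    simp only [mem_union, mem_star, mem_xh]
    tauto
  · by_contra hc
    have a1 : ∀ u ∈ U, ∀ z ∈ H, Adj u z → z ∈ U := fun u hu z hz a =>
      by_contra fun k => hc ⟨u, hu, z, hz, k, a⟩
    by_cases a2 : ∃ u ∈ U, t ∈ u
    · obtain ⟨u, hu, a2⟩ := a2
      refine bhall_closed h (C := H \ U) sdiff_subset (fun v hv z hz a => mem_sdiff.2 ⟨hz, fun k =>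
        (mem_sdiff.1 hv).2 (a1 z k v (mem_sdiff.1 hv).1 a.symm)⟩) (fun v hv k =>
        (mem_sdiff.1 hv).2 (a1 u hu v (mem_sdiff.1 hv).1 ⟨t, a2, k⟩))
        (sdiff_nonempty.2 fun k => hne (Subset.antisymm hU k))
    · exact bhall_closed h hU a1 (fun u hu k => a2 ⟨u, hu, k⟩) hn
  · have a1 : (star H t).card = 3 := h.d1
    exact (card_pos.1 (by omega : 0 < (star H t).card)).mono (filter_subset _ _)

end Pool.Agent.Work.MP_d266e7_co.C5.P24
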