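import Pool.Agent.Work.MP_d266e7_co.P24B.BDefs

/-!
`u1`: let `{c, w} ≠ {c', w'}` both have `sd = A` (`sd_card`). A member `c` of such a pair
determines the other one, `w = (A \ c) ∪ (c \ A)`, so the four members are different. Every vertex
of `A` lies in exactly one of `c`, `w` and in exactly one of `c'`, `w'`, hence in no other member
of `W`. Take a transversal `C` of `W.erase c` with `|C| < tau W` (`crit`, `exists_opt`). It misses
`c`, so it meets `w` in a vertex of `A`. Let `r ∈ c ∩ w`, `r' ∈ c' ∩ w'`. If `C` has two vertices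
of `A`, then `(C \ A) ∪ {r, r'}` is a transversal of `W`. Else the one of `c'`, `w'` that misses
the vertex of `C ∩ A` is met in `c' ∩ w'`, and `(C \ A) ∪ {r}` is a transversal of `W`.
`exists_ear_out`: as `exists_ear`, with the new vertices taken outside `cov W ∪ S`.
`hiA_one`, `hiA_nf`, `hiA_two`: as `Ear.hi_one`, `Ear.hi_two`; a member `y` of `H` contains no new
vertex. In `hiA_one` the pairs of `W` whose `sd` lies in `a ∩ cov W` are traces of `H` (safe) or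
at most one (`u1`). In `hiA_nf`: if `|a ∩ w| = 3` and `sd a w ⊆ y` then `y = b` and
`w ⊆ (a ∪ b) ∩ cov W`.
-/

namespace Pool.Agent.Work.MP_d266e7_co.C5.P24

open Finset

variable {V : Type} [DecidableEq V]

theorem bu1_ne {c w c' w' : Finset V} (h : sd c w = sd c' w')
    (hne : ({c, w} : Finset (Finset V)) ≠ {c', w'}) : c ≠ c' := by
  rintro rfl
  refine hne ?_
  have e : w = w' := by
    ext v
    have h1 : v ∈ sd c w ↔ v ∈ sd c w' := by rw [h]
    rw [mem_sd, mem_sd] at h1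
    tauto
  rw [e]

theorem bu1_core {W : Finset (Finset V)} (hW : CC W) {c w c' w' : Finset V} (hc : c ∈ W)
    (hw : w ∈ W) (hc' : c' ∈ W) (hw' : w' ∈ W) (h : sd c w = sd c' w') (hcw : c ≠ w)
    (hne : ({c, w} : Finset (Finset V)) ≠ {c', w'}) (h2 : ∀ v ∈ sd c w, dg W v ≤ 2)
    (hr : (c ∩ w).Nonempty) (hr' : (c' ∩ w').Nonempty) : False := by
  obtain ⟨r, hr⟩ := hr
  obtain ⟨r', hr'⟩ := hr'
  rw [mem_inter] at hr hr'
  have n1 : c ≠ c' := bu1_ne h hne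
  have n2 : c ≠ w' := bu1_ne (h.trans (sd_comm _ _)) (pair_comm c' w' ▸ hne)
  have n3 : w ≠ c' := bu1_ne ((sd_comm _ _).trans h) (pair_comm c w ▸ hne)
  have n4 : w ≠ w' := bu1_ne ((sd_comm _ _).trans (h.trans (sd_comm _ _)))
    (pair_comm c' w' ▸ pair_comm c w ▸ hne)
  have k1 : ∀ v ∈ sd c w, ∀ e ∈ W, v ∈ e → (e = c ∨ e = w) ∨ e = c' ∨ e = w' := by
    intro v hv e he hve
    have key : ∀ x ∈ W, ∀ y ∈ W, x ≠ y → v ∈ x → v ∈ y → e = x ∨ e = y := by
      intro x hx y hy hxy h3 h4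
      by_contra h5
      rw [not_or] at h5
      have h6 : 2 < dg W v := two_lt_card_iff.2 ⟨e, x, y, mem_star.2 ⟨he, hve⟩,
        mem_star.2 ⟨hx, h3⟩, mem_star.2 ⟨hy, h4⟩, h5.1, h5.2, hxy⟩
      exact h6.not_ge (h2 v hv)
    rcases mem_sd.1 hv with a | a <;> rcases mem_sd.1 (h ▸ hv) with b | b
    exacts [(key c hc c' hc' n1 a.1 b.1).imp Or.inl Or.inl,
      (key c hc w' hw' n2 a.1 b.2).imp Or.inl Or.inr,
      (key w hw c' hc' n3 a.2 b.1).imp Or.inr Or.inl,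
      (key w hw w' hw' n4 a.2 b.2).imp Or.inr Or.inr]
  obtain ⟨C, c1, c2⟩ := exists_opt (hW.u5.ne.mono (erase_subset c W))
  have c3 := hW.crit c hc
  have c4 : ∀ v ∈ C, v ∉ c := fun v hv hvc => by
    have : tau W ≤ C.card := tau_le fun e he => by
      by_cases h3 : e = c
      exacts [⟨v, h3 ▸ hvc, hv⟩, c1 e (mem_erase.2 ⟨h3, he⟩)]
    omega
  obtain ⟨v, v1, v2⟩ := c1 w (mem_erase.2 ⟨hcw.symm, hw⟩)
  have v3 : v ∈ sd c w := mem_sd.2 (Or.inr ⟨c4 v v2, v1⟩)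
  have key : ∀ T : Finset V, r ∈ T → (∃ u ∈ T, u ∈ c' ∧ u ∈ w') →
      (∀ u ∈ C, u ∉ sd c w → u ∈ T) → tau W ≤ T.card := by
    rintro T t1 ⟨u, t2, t3, t4⟩ t5
    refine tau_le fun e he => ?_
    by_cases h3 : (e = c ∨ e = w) ∨ e = c' ∨ e = w'
    · rcases h3 with (rfl | rfl) | rfl | rfl
      exacts [⟨r, hr.1, t1⟩, ⟨r, hr.2, t1⟩, ⟨u, t3, t2⟩, ⟨u, t4, t2⟩]
    · obtain ⟨z, z1, z2⟩ := c1 e (mem_erase.2 ⟨fun k => h3 (Or.inl (Or.inl k)), he⟩)
      exact ⟨z, z1, t5 z z2 fun k => h3 (k1 z k e he z1)⟩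
  have c5 := card_erase_add_one v2
  obtain ⟨u, u1, u2, u3⟩ : ∃ u ∈ C, u ≠ v ∧ (u ∈ c' ∨ u ∈ w') := by
    rcases mem_sd.1 (h ▸ v3) with b | b
    · obtain ⟨u, u1, u2⟩ := c1 w' (mem_erase.2 ⟨n2.symm, hw'⟩)
      exact ⟨u, u2, fun k => b.2 (k ▸ u1), Or.inr u1⟩
    · obtain ⟨u, u1, u2⟩ := c1 c' (mem_erase.2 ⟨n1.symm, hc'⟩)
      exact ⟨u, u2, fun k => b.1 (k ▸ u1), Or.inl u1⟩
  have u4 : u ∈ C.erase v := mem_erase.2 ⟨u2, u1⟩
  by_cases h3 : u ∈ sd c w
  · have h4 := key (insert r (insert r' ((C.erase v).erase u))) (mem_insert_self _ _)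
      ⟨r', mem_insert_of_mem (mem_insert_self _ _), hr'⟩ fun z z1 z2 => mem_insert_of_mem
        (mem_insert_of_mem (mem_erase.2 ⟨fun k => z2 (k ▸ h3),
          mem_erase.2 ⟨fun k => z2 (k ▸ v3), z1⟩⟩))
    have h5 := card_insert_le r (insert r' ((C.erase v).erase u))
    have h6 := card_insert_le r' ((C.erase v).erase u)
    have h7 := card_erase_add_one u4
    omega
  · have h4 := key (insert r (C.erase v)) (mem_insert_self _ _)
      ⟨u, mem_insert_of_mem u4, by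
        rw [h, mem_sd] at h3
        tauto⟩ fun z z1 z2 => mem_insert_of_mem (mem_erase.2 ⟨fun k => z2 (k ▸ v3), z1⟩)
    have h5 := card_insert_le r (C.erase v)
    omega

theorem u1 {W : Finset (Finset V)} (hW : CC W) {A : Finset V} (hA : A.card ≤ 4)
    (h2 : ∀ v ∈ A, dg W v ≤ 2) :
    ((W.powersetCard 2).filter fun p =>
      ∃ c ∈ p, ∃ w ∈ p, (c ∩ w).card = 3 ∧ sd c w ⊆ A).card ≤ 1 := by
  refine card_le_one.2 fun p hp q hq => by_contra fun hne => ?_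
  obtain ⟨p1, c, hc, w, hw, p2, p3⟩ := mem_filter.1 hp
  obtain ⟨q1, c', hc', w', hw', q2, q3⟩ := mem_filter.1 hq
  have p4 := (mem_powersetCard.1 p1).1
  have q4 := (mem_powersetCard.1 q1).1
  have c5 := hW.u5 c (p4 hc)
  have e1 : sd c w = A := eq_of_subset_of_card_le p3 (by
    rwa [sd_card c5 (hW.u5 w (p4 hw)) p2])
  have e2 : sd c' w' = A := eq_of_subset_of_card_le q3 (by
    rwa [sd_card (hW.u5 c' (q4 hc')) (hW.u5 w' (q4 hw')) q2])
  rw [earhi_pair p1 hc hw c5 p2, earhi_pair q1 hc' hw' (hW.u5 c' (q4 hc')) q2] at hne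
  refine bu1_core hW (p4 hc) (p4 hw) (q4 hc') (q4 hw') (e1.trans e2.symm) ?_ hne (e1 ▸ h2)
    (card_pos.1 (by omega)) (card_pos.1 (by omega))
  rintro rfl
  rw [inter_self] at p2
  omega

theorem exists_ear_out [Infinite V] {W : Finset (Finset V)} (hW : CC W) (S : Finset V)
    {A B : Finset V} (hA : A ⊆ cov W) (hB : B ⊆ cov W) (hc : Cross W A B) (h1 : 1 ≤ A.card)
    (h2 : 1 ≤ B.card) {k : ℕ} (hk : 1 ≤ k) (h3 : A.card + k ≤ 5) (h4 : B.card + k ≤ 5) :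
    ∃ a b : Finset V, Ear W a b ∧ a ∩ cov W = A ∧ b ∩ cov W = B ∧ (a ∩ b).card = k ∧
      ∀ v ∈ a ∪ b, v ∈ S → v ∈ cov W := by
  obtain ⟨Sh, hSh, dSh⟩ := exists_fresh (cov W ∪ S) k
  obtain ⟨P, hP, dP⟩ := exists_fresh (cov W ∪ S ∪ Sh) (5 - A.card - k)
  obtain ⟨Q, hQ, dQ⟩ := exists_fresh (cov W ∪ S ∪ Sh ∪ P) (5 - B.card - k)
  simp only [disjoint_left, mem_union, not_or] at dSh dP dQ
  have hAB : ∀ v ∈ A, v ∉ B := fun v h1 h2 => by
    obtain ⟨C, a1, a2, a3⟩ := exists_cover_mem hW (hA h1)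
    exact hc C a1 a2.le v h1 v h2 a3 a3
  have cP : (Sh ∪ P).card = Sh.card + P.card :=
    card_union_of_disjoint (disjoint_right.2 fun v hv => (dP hv).2)
  have cQ : (Sh ∪ Q).card = Sh.card + Q.card :=
    card_union_of_disjoint (disjoint_right.2 fun v hv => (dQ hv).1.2)
  have ca : (A ∪ (Sh ∪ P)).card = 5 := by
    rw [card_union_of_disjoint (disjoint_right.2 fun v hv h =>
      (mem_union.1 hv).elim (fun h' => (dSh h').1 (hA h)) (fun h' => (dP h').1.1 (hA h)))]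
    omega
  have cb : (B ∪ (Sh ∪ Q)).card = 5 := by
    rw [card_union_of_disjoint (disjoint_right.2 fun v hv h =>
      (mem_union.1 hv).elim (fun h' => (dSh h').1 (hB h)) (fun h' => (dQ h').1.1.1 (hB h)))]
    omega
  have ea : (A ∪ (Sh ∪ P)) ∩ cov W = A := by
    ext v
    simp only [mem_inter, mem_union]
    exact ⟨fun h => h.1.resolve_right fun h' => h'.elim (fun x => (dSh x).1 h.2)
      fun x => (dP x).1.1 h.2, fun h => ⟨Or.inl h, hA h⟩⟩
  have eb : (B ∪ (Sh ∪ Q)) ∩ cov W = B := by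
    ext v
    simp only [mem_inter, mem_union]
    exact ⟨fun h => h.1.resolve_right fun h' => h'.elim (fun x => (dSh x).1 h.2)
      fun x => (dQ x).1.1.1 h.2, fun h => ⟨Or.inl h, hB h⟩⟩
  have ec : (A ∪ (Sh ∪ P)) ∩ (B ∪ (Sh ∪ Q)) = Sh := by
    ext v
    simp only [mem_inter, mem_union]
    refine ⟨?_, fun h => ⟨Or.inr (Or.inl h), Or.inr (Or.inl h)⟩⟩
    rintro ⟨x | x | x, y | y | y⟩
    exacts [absurd y (hAB v x), y, absurd (hA x) (dQ y).1.1.1, x, x, x, absurd (hB y) (dP x).1.1, y,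
      absurd x (dQ y).2]
  refine ⟨A ∪ (Sh ∪ P), B ∪ (Sh ∪ Q), ⟨hW, ca, cb, ?_, ?_, ?_, ?_⟩, ea, eb, by rw [ec, hSh],
    fun v hv hS => ?_⟩
  · rwa [ea, eb]
  · rwa [dd, ea]
  · rwa [dd, eb]
  · rw [ec]
    exact card_pos.1 (by omega)
  · simp only [mem_union] at hv
    rcases hv with (x | x | x) | x | x | x
    exacts [hA x, absurd hS (dSh x).2, absurd hS (dP x).1.2, hB x, absurd hS (dSh x).2,
      absurd hS (dQ x).1.1.2]

namespace Ear

variable {H W : Finset (Finset V)} {a b : Finset V}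

theorem bu1_cases (h : Ear W a b) {p : Finset (Finset V)}
    (hp : p ∈ ((insert a (insert b W)).powersetCard 2).filter (Tr H)) :
    (p = {a, b} ∧ (a ∩ b).card = 3) ∨ (∃ w ∈ W, (a ∩ w).card = 3 ∧ ∃ y ∈ H, sd a w ⊆ y) ∨
      (∃ w ∈ W, (b ∩ w).card = 3 ∧ ∃ y ∈ H, sd b w ⊆ y) ∨
      p ∈ (W.powersetCard 2).filter (Tr H) := by
  obtain ⟨hp, c, hc, w, hw, h3, y, hy, hsd⟩ := mem_filter.1 hp
  obtain ⟨h4, h2⟩ := mem_powersetCard.1 hp
  have e := earhi_pair hp hc hw (h.earhi_u5 (h4 hc)) h3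
  have hc' := h4 hc
  have hw' := h4 hw
  have h5 := h.a5
  have h6 := h.b5
  simp only [mem_insert] at hc' hw'
  rcases hc' with rfl | rfl | hc' <;> rcases hw' with rfl | rfl | hw'
  · rw [inter_self] at h3
    omega
  · exact Or.inl ⟨e, h3⟩
  · exact Or.inr (Or.inl ⟨w, hw', h3, y, hy, hsd⟩)
  · exact Or.inl ⟨e.trans (pair_comm _ _), by rwa [inter_comm]⟩
  · rw [inter_self] at h3
    omega
  · exact Or.inr (Or.inr (Or.inl ⟨w, hw', h3, y, hy, hsd⟩))
  · exact Or.inr (Or.inl ⟨c, hc', by rwa [inter_comm], y, hy, sd_comm c w ▸ hsd⟩)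
  · exact Or.inr (Or.inr (Or.inl ⟨c, hc', by rwa [inter_comm], y, hy, sd_comm c w ▸ hsd⟩))
  · exact Or.inr (Or.inr (Or.inr (earhi_old e h2 hc' hw' h3 ⟨y, hy, hsd⟩)))

theorem bu1_new (h : Ear W a b) (hf : ∀ v ∈ a, v ∈ cov H → v ∈ cov W) {w y : Finset V}
    (hw : w ∈ W) (hy : y ∈ H) : ¬ sd a w ⊆ y := by
  intro hs
  obtain ⟨s, h2⟩ := h.com
  obtain ⟨h4, h7⟩ := mem_inter.1 h2
  have h8 := h.out h4 h7
  exact h8 (hf s h4 (mem_cov.2
    ⟨y, hy, hs (mem_sd.2 (Or.inl ⟨h4, fun e => h8 (mem_cov.2 ⟨w, hw, e⟩)⟩))⟩))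

theorem bu1_dd (h : Ear W a b) : (a ∩ cov W).card + (a ∩ b).card ≤ 5 := by
  rw [← card_union_of_disjoint (disjoint_left.2 fun v h1 h2 =>
    h.out (mem_inter.1 h2).1 (mem_inter.1 h2).2 (mem_inter.1 h1).2), ← h.a5]
  exact card_le_card (union_subset inter_subset_left inter_subset_left)

theorem bu1_old (h : Ear W a b) (ha : (a ∩ cov W).card ≤ 3) (hb : (b ∩ cov W).card ≤ 3)
    {p : Finset (Finset V)} (hp : p ∈ (W.powersetCard 2).filter (Tr (insert a (insert b H)))) :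
    p ∈ (W.powersetCard 2).filter (Tr H) := by
  obtain ⟨hp, c, hc, w, hw, h3, y, hy, hsd⟩ := mem_filter.1 hp
  have h4 := (mem_powersetCard.1 hp).1
  have h8 := sd_card (h.cc.u5 c (h4 hc)) (h.cc.u5 w (h4 hw)) h3
  have h9 := card_le_card (earhi_sd (h4 hc) (h4 hw) hsd)
  simp only [mem_insert] at hy
  rcases hy with rfl | rfl | hy
  · omega
  · omega
  · exact mem_filter.2 ⟨hp, c, hc, w, hw, h3, y, hy, hsd⟩

theorem bu1_one (h : Ear W a b) (h1 : (a ∩ b).card = 1) (h2 : ∀ v ∈ a, dg W v ≤ 2) {sa : Bool}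
    (ha : sa = true → Safe H W (a ∩ cov W)) :
    ∃ U : Finset (Finset (Finset V)), U.card ≤ (if sa then 0 else 1) ∧
      ∀ p ∈ W.powersetCard 2, ∀ c ∈ p, ∀ w ∈ p, (c ∩ w).card = 3 → sd c w ⊆ a →
        Tr H p ∨ p ∈ U := by
  cases sa
  · have h3 := h.bu1_dd
    refine ⟨_, u1 h.cc (A := a ∩ cov W) (by omega) fun v hv => h2 v (mem_inter.1 hv).1,
      fun p hp c hc w hw h4 h5 => Or.inr (mem_filter.2 ⟨hp, c, hc, w, hw, h4, ?_⟩)⟩
    exact earhi_sd ((mem_powersetCard.1 hp).1 hc) ((mem_powersetCard.1 hp).1 hw) h5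
  · refine ⟨∅, le_rfl, fun p hp c hc w hw h4 h5 => Or.inl ⟨c, hc, w, hw, h4, ?_⟩⟩
    have h6 := (mem_powersetCard.1 hp).1
    exact ha rfl c (h6 hc) w (h6 hw) h4 (earhi_sd (h6 hc) (h6 hw) h5)

theorem hiA_one (h : Ear W a b) (hf : ∀ v ∈ a ∪ b, v ∈ cov H → v ∈ cov W)
    (h1 : (a ∩ b).card = 1) (h2 : ∀ v ∈ a ∪ b, dg W v ≤ 2) {sa sb : Bool}
    (ha : sa = true → Safe H W (a ∩ cov W)) (hb : sb = true → Safe H W (b ∩ cov W)) :
    hi (insert a (insert b H)) (insert a (insert b W)) ≤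
      hi H W + (if sa then 0 else 1) + if sb then 0 else 1 := by
  have h1' : (b ∩ a).card = 1 := by rwa [inter_comm]
  obtain ⟨U, u1, u2⟩ := h.bu1_one h1 (fun v hv => h2 v (mem_union_left _ hv)) ha
  obtain ⟨U', u3, u4⟩ := h.symm.bu1_one h1' (fun v hv => h2 v (mem_union_right _ hv)) hb
  refine le_trans (card_le_card (t := (W.powersetCard 2).filter (Tr H) ∪ U ∪ U') fun p hp => ?_)
    ((card_union_le _ _).trans (Nat.add_le_add ((card_union_le _ _).trans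
      (Nat.add_le_add_left u1 _)) u3))
  rcases h.bu1_cases hp with k | ⟨w, hw, h3, y, hy, k⟩ | ⟨w, hw, h3, y, hy, k⟩ | k
  · omega
  · simp only [mem_insert] at hy
    rcases hy with hy | hy | hy
    exacts [absurd k (h.earhi_new h1 hw h3 (Or.inl hy)),
      absurd k (h.earhi_new h1 hw h3 (Or.inr (Or.inl hy))),
      absurd k (h.bu1_new (fun v hv => hf v (mem_union_left _ hv)) hw hy)]
  · simp only [mem_insert] at hy
    rcases hy with hy | hy | hy
    exacts [absurd k (h.symm.earhi_new h1' hw h3 (Or.inr (Or.inl hy))),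
      absurd k (h.symm.earhi_new h1' hw h3 (Or.inl hy)),
      absurd k (h.symm.bu1_new (fun v hv => hf v (mem_union_right _ hv)) hw hy)]
  · obtain ⟨k', c, hc, w, hw, h3, y, hy, hsd⟩ := mem_filter.1 k
    simp only [mem_insert] at hy
    rw [mem_union, mem_union, mem_filter]
    rcases hy with rfl | rfl | hy
    · exact Or.inl ((u2 p k' c hc w hw h3 hsd).imp_left fun r => ⟨k', r⟩)
    · exact (u4 p k' c hc w hw h3 hsd).imp_left fun r => Or.inl ⟨k', r⟩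
    · exact Or.inl (Or.inl ⟨k', c, hc, w, hw, h3, y, hy, hsd⟩)

theorem hiA_nf (h : Ear W a b) (hf : ∀ v ∈ a ∪ b, v ∈ cov H → v ∈ cov W)
    (h1 : (a ∩ b).card = 2) (hn : NoIn W (a ∩ cov W ∪ b ∩ cov W)) :
    hi (insert a (insert b H)) (insert a (insert b W)) ≤ hi H W := by
  have d1 := h.bu1_dd
  have d2 := h.symm.bu1_dd
  rw [inter_comm b a] at d2
  have key : ∀ x y, x = a ∨ x = b → y = a ∨ y = b → ∀ w ∈ W, ¬ sd x w ⊆ y := by
    intro x y hx hy w hw k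
    refine hn w hw fun v hv => ?_
    rw [← union_inter_distrib_right, mem_inter, mem_union]
    refine ⟨?_, mem_cov.2 ⟨w, hw, hv⟩⟩
    by_cases hv' : v ∈ x
    · rcases hx with rfl | rfl
      exacts [Or.inl hv', Or.inr hv']
    · have h4 := k (mem_sd.2 (Or.inr ⟨hv', hv⟩))
      rcases hy with rfl | rfl
      exacts [Or.inl h4, Or.inr h4]
  refine card_le_card fun p hp => ?_
  rcases h.bu1_cases hp with k | ⟨w, hw, -, y, hy, k⟩ | ⟨w, hw, -, y, hy, k⟩ | k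
  · omega
  · rw [mem_insert, mem_insert, ← or_assoc] at hy
    exact absurd k (hy.elim (fun r => key a y (Or.inl rfl) r w hw)
      (h.bu1_new (fun v hv => hf v (mem_union_left _ hv)) hw))
  · rw [mem_insert, mem_insert, ← or_assoc] at hy
    exact absurd k (hy.elim (fun r => key b y (Or.inr rfl) r w hw)
      (h.symm.bu1_new (fun v hv => hf v (mem_union_right _ hv)) hw))
  · exact h.bu1_old (by omega) (by omega) k

theorem hiA_two (h : Ear W a b) (ha : dd W a ≤ 2) (hb : dd W b ≤ 2) :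
    hi (insert a (insert b H)) (insert a (insert b W)) ≤ hi H W + 1 := by
  refine le_trans (card_le_card fun p hp => ?_)
    (card_insert_le {a, b} ((W.powersetCard 2).filter (Tr H)))
  have h7 : ∀ x, ∀ z ∈ W, (x ∩ z).card ≤ dd W x := fun x z hz => card_le_card fun v hv =>
    mem_inter.2 ⟨(mem_inter.1 hv).1, mem_cov.2 ⟨z, hz, (mem_inter.1 hv).2⟩⟩
  rcases h.bu1_cases hp with k | ⟨w, hw, h3, -⟩ | ⟨w, hw, h3, -⟩ | k
  · exact mem_insert.2 (Or.inl k.1)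
  · have := h7 a w hw
    omega
  · have := h7 b w hw
    omega
  · exact mem_insert_of_mem (h.bu1_old (ha.trans (Nat.le_succ 2)) (hb.trans (Nat.le_succ 2)) k)

end Ear

end Pool.Agent.Work.MP_d266e7_co.C5.P24
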