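import Pool.Agent.Work.MP_d266e7_co.P24B.KDefs
import Pool.Agent.Work.MP_d266e7_co.P24B.BDS

/-!
Basic facts. Hosts are members of `H` outside `un F` (`mem_star`, `mem_xh`, `h.bd.ds.fam.sub`:
pieces avoid both stars). odis: two pieces are separated (`Fam.sep`, `wi`), an outside vertex is
not in `cov (un F)`. part: the five sets `O 0 .. O 3`, `{t, t'}` are pairwise disjoint and cover
`cov H` (`os`, `ws`). rowsum: part with `x = q p`, qt, qt'. four: `S.image q ⊆ star H v`, `qi`,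
`d3`. three: `v` lies in a member of `W i`, which is not a host (qW), so `dg H v ≥ 4`. sumF: `F =
(range (a+2)).image W`, `sum_image`. cover: `C` hits `H` (`qs`, `ws`, `mem_un`), so `tau H ≤
C.card` (tau_le in Basic.lean); `DS.tau2`, `Fam.tau_un`, sumF.
-/

namespace Pool.Agent.Work.MP_d266e7_co.C5.P24

open Finset

variable {V : Type} [DecidableEq V]

variable {H : Finset (Finset V)} {t t' : V} {F : Finset (Finset (Finset V))} {a : ℕ}
  {W : ℕ → Finset (Finset V)} {O q : ℕ → Finset V}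

theorem kbase_un (h : KC H t t' F a W O q) {e : Finset V} (he : e ∈ un F) : t ∉ e ∧ t' ∉ e := by
  have h1 := mem_sdiff.1 (h.bd.ds.fam.un_sub he)
  exact ⟨fun k => h1.2 (mem_union_left _ (mem_star.2 ⟨h1.1, k⟩)),
    fun k => h1.2 (mem_union_right _ (mem_star.2 ⟨h1.1, k⟩))⟩

theorem kbase_host (h : KC H t t' F a W O q) {p : ℕ} (hp : p < a + 6) :
    q p ∈ H ∧ q p ∉ un F ∧ (t ∈ q p ↔ p < 3) ∧ (t' ∈ q p ↔ 3 ≤ p ∧ p < 6) := by
  have d : ∀ e ∈ H, t ∈ e → t' ∉ e := fun e k k' k'' =>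
    disjoint_left.1 h.bd.ds.dis (mem_star.2 ⟨k, k'⟩) (mem_star.2 ⟨k, k''⟩)
  rcases lt_or_ge p 3 with h3 | h3
  · obtain ⟨k, k'⟩ := mem_star.1 (h.q1 p h3)
    exact ⟨k, fun e => (kbase_un h e).1 k', iff_of_true k' h3, iff_of_false (d _ k k') (by omega)⟩
  rcases lt_or_ge p 6 with h6 | h6
  · obtain ⟨k, k'⟩ := mem_star.1 (h.q2 p h3 h6)
    exact ⟨k, fun e => (kbase_un h e).2 k', iff_of_false (fun e => d _ k e k') (by omega),
      iff_of_true k' ⟨h3, h6⟩⟩
  · obtain ⟨k1, k2, k3, k4⟩ := mem_xh.1 (h.q3 p h6 hp)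
    exact ⟨k1, k4, iff_of_false k2 (by omega), iff_of_false k3 (by omega)⟩

theorem KC.tne (h : KC H t t' F a W O q) : t ≠ t' := by
  intro e
  have k := kbase_host h (p := 0) (by omega)
  exact absurd (k.2.2.2.1 (e ▸ k.2.2.1.2 (by omega))).1 (by omega)

theorem KC.d3 (h : KC H t t' F a W O q) (v : V) : dg H v ≤ 3 := h.bd.bad.d3 v

theorem KC.qH (h : KC H t t' F a W O q) {p : ℕ} (hp : p < a + 6) : q p ∈ H := by
  exact (kbase_host h hp).1

theorem KC.qun (h : KC H t t' F a W O q) {p : ℕ} (hp : p < a + 6) : q p ∉ un F := by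
  exact (kbase_host h hp).2.1

theorem KC.qW (h : KC H t t' F a W O q) {p i : ℕ} (hp : p < a + 6) (hi : i < a + 2) :
    q p ∉ W i := by
  exact fun e => h.qun hp (sub_un (h.wf i hi) e)

theorem KC.q5 (h : KC H t t' F a W O q) {p : ℕ} (hp : p < a + 6) : (q p).card = 5 := by
  exact h.bd.bad.cc.u5 _ (h.qH hp)

theorem KC.wcc (h : KC H t t' F a W O q) {i : ℕ} (hi : i < a + 2) : CC (W i) := by
  exact h.bd.ds.fam.cc _ (h.wf i hi)

theorem KC.wsub (h : KC H t t' F a W O q) {i : ℕ} (hi : i < a + 2) : W i ⊆ H := by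
  exact (h.bd.ds.fam.sub _ (h.wf i hi)).trans sdiff_subset

theorem KC.qt (h : KC H t t' F a W O q) {p : ℕ} (hp : p < a + 6) : t ∈ q p ↔ p < 3 := by
  exact (kbase_host h hp).2.2.1

theorem KC.qt' (h : KC H t t' F a W O q) {p : ℕ} (hp : p < a + 6) :
    t' ∈ q p ↔ 3 ≤ p ∧ p < 6 := by
  exact (kbase_host h hp).2.2.2

theorem KC.odis (h : KC H t t' F a W O q) {i j : ℕ} (hi : i < 4) (hj : j < 4) (hij : i ≠ j) :
    Disjoint (O i) (O j) := by
  have key : ∀ i j, i < a + 2 → a + 2 ≤ j → j < 4 → Disjoint (O i) (O j) := fun i j k1 k2 k3 =>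
    disjoint_left.2 fun v hv hv' =>
      (h.om j k2 k3 v hv').2.1 (cov_mono (sub_un (h.wf i k1)) (h.oc i k1 ▸ hv))
  rcases lt_or_ge i (a + 2) with k1 | k1 <;> rcases lt_or_ge j (a + 2) with k2 | k2
  · rw [h.oc i k1, h.oc j k2]
    refine disjoint_left.2 fun v hv hv' => ?_
    obtain ⟨e, he, k3⟩ := mem_cov.1 hv
    obtain ⟨f, hf, k4⟩ := mem_cov.1 hv'
    exact h.bd.ds.fam.sep _ (h.wf i k1) _ (h.wf j k2) (fun e => hij (h.wi i j k1 k2 e)) e he f hf
      ⟨v, k3, k4⟩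
  · exact key i j k1 k2 hj
  · exact (key j i k2 k1 hi).symm
  · exact h.od i j k1 hi k2 hj hij

theorem KC.ot (h : KC H t t' F a W O q) {i : ℕ} (hi : i < 4) : t ∉ O i ∧ t' ∉ O i := by
  rcases lt_or_ge i (a + 2) with k | k
  · rw [h.oc i k, mem_cov, mem_cov]
    exact ⟨fun ⟨e, he, k1⟩ => (kbase_un h (sub_un (h.wf i k) he)).1 k1,
      fun ⟨e, he, k1⟩ => (kbase_un h (sub_un (h.wf i k) he)).2 k1⟩
  · exact ⟨fun e => (h.om i k hi _ e).2.2.1 rfl, fun e => (h.om i k hi _ e).2.2.2 rfl⟩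

theorem KC.part (h : KC H t t' F a W O q) {x : Finset V} (hx : x ⊆ cov H) :
    (x ∩ O 0).card + (x ∩ O 1).card + ((x ∩ O 2).card + (x ∩ O 3).card) + (x ∩ {t, t'}).card =
      x.card := by
  simp only [← filter_mem_eq_inter, card_filter, ← sum_add_distrib]
  rw [card_eq_sum_ones]
  refine sum_congr rfl fun v hv => ?_
  have nt : ∀ i, i < 4 → v ∈ O i → v ∉ ({t, t'} : Finset V) := fun i hi k e => by
    rcases mem_insert.1 e with e | e
    exacts [(h.ot hi).1 (e ▸ k), (h.ot hi).2 (mem_singleton.1 e ▸ k)]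
  by_cases e : v ∈ ({t, t'} : Finset V)
  · rw [if_pos e, if_neg fun k => nt 0 (by omega) k e, if_neg fun k => nt 1 (by omega) k e,
      if_neg fun k => nt 2 (by omega) k e, if_neg fun k => nt 3 (by omega) k e]
    rfl
  obtain ⟨i, hi, k⟩ : ∃ i, i < 4 ∧ v ∈ O i := by
    by_cases k : v ∈ cov (un F)
    · obtain ⟨f, hf, k1⟩ := mem_cov.1 k
      obtain ⟨Z, hZ, k2⟩ := mem_un.1 hf
      obtain ⟨i, hi, rfl⟩ := h.ws Z hZ
      exact ⟨i, by have := h.a2; omega, h.oc i hi ▸ mem_cov.2 ⟨f, k2, k1⟩⟩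
    · rcases h.os v (hx hv) k with rfl | rfl | ⟨i, -, k⟩
      exacts [absurd (mem_insert_self _ _) e,
        absurd (mem_insert_of_mem (mem_singleton_self _)) e, ⟨i, k⟩]
  have k1 : ∀ j, j < 4 → (v ∈ O j ↔ j = i) := fun j hj =>
    ⟨fun k' => by_contra fun n => disjoint_left.1 (h.odis hj hi n) k' k, fun e => e ▸ k⟩
  simp only [if_neg e, k1 0 (by omega), k1 1 (by omega), k1 2 (by omega), k1 3 (by omega)]
  split_ifs <;> omega

theorem KC.rowsum (h : KC H t t' F a W O q) {p : ℕ} (hp : p < a + 6) :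
    kd O q 0 p + kd O q 1 p + (kd O q 2 p + kd O q 3 p) = cap p := by
  have h1 := h.part (x := q p) fun v hv => mem_cov.2 ⟨_, h.qH hp, hv⟩
  have h2 := h.qt hp
  have h3 := h.qt' hp
  rw [h.q5 hp] at h1
  unfold kd cap
  rcases lt_or_ge p 6 with h6 | h6
  · rw [Nat.blt_eq.mpr h6, cond_true]
    rcases lt_or_ge p 3 with k | k
    · rw [inter_insert_of_mem (h2.2 k), inter_singleton_of_notMem fun e => by
        have := h3.1 e; omega] at h1
      exact Nat.succ_injective h1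
    · rw [inter_insert_of_notMem fun e => by have := h2.1 e; omega,
        inter_singleton_of_mem (h3.2 ⟨k, h6⟩)] at h1
      exact Nat.succ_injective h1
  · rw [Bool.eq_false_iff.2 fun e => absurd (Nat.blt_eq.mp e) (by omega), cond_false]
    rwa [inter_insert_of_notMem fun e => by have := h2.1 e; omega,
      inter_singleton_of_notMem fun e => by have := h3.1 e; omega] at h1

theorem KC.four (h : KC H t t' F a W O q) {v : V} (S : Finset ℕ)
    (hS : ∀ p ∈ S, p < a + 6 ∧ v ∈ q p) : S.card ≤ 3 := by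
  exact (card_le_card_of_injOn q (fun p hp => mem_star.2 ⟨h.qH (hS p hp).1, (hS p hp).2⟩)
    fun p hp r hr => h.qi p r (hS p hp).1 (hS r hr).1).trans (h.d3 v)

theorem KC.three (h : KC H t t' F a W O q) {i p r s : ℕ} {v : V} (hi : i < a + 2)
    (hp : p < a + 6) (hr : r < a + 6) (hs : s < a + 6) (pr : p ≠ r) (ps : p ≠ s) (rs : r ≠ s)
    (vp : v ∈ q p) (vr : v ∈ q r) (vs : v ∈ q s) (vo : v ∈ cov (W i)) : False := by
  have h1 := dg_lt (subset_insert (q s) (W i)) (mem_insert_self _ _) (h.qW hs hi) vs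
  have h2 := dg_lt2 (insert_subset (h.qH hs) (h.wsub hi)) (h.qH hp) (h.qH hr)
    (fun e => pr (h.qi p r hp hr e))
    (fun e => (mem_insert.1 e).elim (fun e => ps (h.qi p s hp hs e)) (h.qW hp hi))
    (fun e => (mem_insert.1 e).elim (fun e => rs (h.qi r s hr hs e)) (h.qW hr hi)) vp vr
  have h3 := dg_pos.2 vo
  have h4 := h.d3 v
  omega

theorem KC.sumF (h : KC H t t' F a W O q) (f : Finset (Finset V) → ℕ) :
    ∑ Z ∈ F, f Z = ∑ i ∈ range (a + 2), f (W i) := by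
  rw [← sum_image fun i hi j hj => h.wi i j (mem_range.1 hi) (mem_range.1 hj)]
  congr 1
  ext Z
  simp only [mem_image, mem_range]
  exact ⟨h.ws Z, fun ⟨i, hi, e⟩ => e ▸ h.wf i hi⟩

theorem KC.cover (h : KC H t t' F a W O q) {C : Finset V} (h1 : ∀ i, i < a + 2 → Hits C (W i))
    (h2 : ∀ p, p < a + 6 → ∃ v ∈ q p, v ∈ C) :
    ∑ i ∈ range (a + 2), tau (W i) + 2 ≤ C.card := by
  rw [← h.sumF, ← h.bd.ds.fam.tau_un, h.bd.ds.tau2]
  refine tau_le fun e he => ?_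
  by_cases k : e ∈ un F
  · obtain ⟨Z, hZ, k⟩ := mem_un.1 k
    obtain ⟨i, hi, rfl⟩ := h.ws Z hZ
    exact h1 i hi e k
  · obtain ⟨p, hp, rfl⟩ := h.qs e he k
    exact h2 p hp

end Pool.Agent.Work.MP_d266e7_co.C5.P24
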