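import Pool.Agent.Work.MP_d266e7_co.P24B.KBase
import Pool.Agent.Work.MP_d266e7_co.P24B.Mask

/-!
Reading a state. frn_eq: `cases n`. frl_eq: induction on `L` generalizing `f` (`List.rec` unfolds
by `rfl`/`show`). bit_test: `Nat.one_shiftLeft`, `Nat.testBit_two_pow`. top_spec: with `m = (G >>>
j) % 256`; if `m ≠ 0` then `Nat.testBit_log2` (or `Nat.log2_self_le`, `Nat.lt_log2_self`,
`Nat.testBit_of_two_pow_le_and_two_pow_add_one_gt`), `Nat.testBit_mod_two_pow` with `256 = 2 ^ 8`,
`Nat.testBit_shiftRight`; `Nat.log2_lt`. holds_code: the five quotients by `omega`. For the pair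
codes split on `p ≤ r` in `pr` and use `NJ.symm`, `inter_comm`. If `top = 0` the upper bounds are
`7`, which holds by `h7` and `card_le_card inter_subset_left`. jb_nj: either the bit of the type
three, or a common vertex in `O i = cov (W i)` against `NJ.disjoint`.
-/

namespace Pool.Agent.Work.MP_d266e7_co.C5.P24

open Finset

variable {V : Type} [DecidableEq V]

variable {H : Finset (Finset V)} {t t' : V} {F : Finset (Finset (Finset V))} {a : ℕ}
  {W : ℕ → Finset (Finset V)} {O q : ℕ → Finset V} {G : ℕ}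

theorem frn_eq (n : ℕ) (f : ℕ → ℕ) : frn n f = f n := by
  cases n <;> rfl

theorem frl_eq (L : List ℕ) (f : List ℕ → ℕ) : frl L f = f L := by
  induction L generalizing f with
  | nil => rfl
  | cons x L ih =>
    show frn x (fun z => frl L fun M => f (z :: M)) = f (x :: L)
    rw [frn_eq, ih]

theorem bit_test {j k : ℕ} : (bit j).testBit k = true ↔ k = j := by
  show (1 <<< j).testBit k = true ↔ k = j
  rw [Nat.one_shiftLeft, Nat.testBit_two_pow]
  simp [eq_comm]

theorem top_spec (G j : ℕ) : top G j < 8 ∧ (top G j = 0 ∨ G.testBit (j + top G j) = true) := by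
  unfold top
  have hm : Nat.shiftRight G j % 256 < 2 ^ 8 := Nat.mod_lt _ (by norm_num)
  by_cases h0 : Nat.shiftRight G j % 256 = 0
  · rw [h0]
    exact ⟨by simp, Or.inl (by simp)⟩
  · refine ⟨(Nat.log2_lt h0).2 hm, Or.inr ?_⟩
    have h1 := Nat.testBit_log2 h0
    generalize Nat.log2 (Nat.shiftRight G j % 256) = k at h1 ⊢
    change ((G >>> j) % 2 ^ 8).testBit k = true at h1
    rw [Nat.testBit_mod_two_pow, Nat.testBit_shiftRight, Bool.and_eq_true] at h1
    exact h1.2

theorem holds_code {ty i p r k : ℕ} (hi : i < 4) (hp : p < 8) (hr : r < 8) (hk : k < 8) :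
    holds W O q (2048 * ty + 512 * i + 64 * p + 8 * r + k) ↔ sem W O q ty i p r k := by
  unfold holds
  rw [show (2048 * ty + 512 * i + 64 * p + 8 * r + k) / 2048 = ty by omega,
    show (2048 * ty + 512 * i + 64 * p + 8 * r + k) / 512 % 4 = i by omega,
    show (2048 * ty + 512 * i + 64 * p + 8 * r + k) / 64 % 8 = p by omega,
    show (2048 * ty + 512 * i + 64 * p + 8 * r + k) / 8 % 8 = r by omega,
    show (2048 * ty + 512 * i + 64 * p + 8 * r + k) % 8 = k by omega]

theorem kbits_sem (hG : Inv W O q G) {ty i p r k j : ℕ} (hi : i < 4) (hp : p < 8) (hr : r < 8)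
    (hk : k < 8) (hj : G.testBit j = true) (e : j = 2048 * ty + 512 * i + 64 * p + 8 * r + k) :
    sem W O q ty i p r k :=
  (holds_code hi hp hr hk).1 (e ▸ hG j hj)

theorem kbits_pr (p r : ℕ) : pr p r = 64 * p + 8 * r ∨ pr p r = 64 * r + 8 * p := by
  unfold pr
  cases Nat.ble p r
  · exact Or.inr rfl
  · exact Or.inl rfl

theorem kbits_kc (O q : ℕ → Finset V) (i p r : ℕ) : kc O q i r p = kc O q i p r := by
  unfold kc
  rw [inter_comm (q r)]

theorem Inv.lo_le (hG : Inv W O q G) {i p : ℕ} (hi : i < 4) (hp : p < 8) :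
    lo G i p ≤ kd O q i p := by
  unfold lo
  obtain ⟨h8, h0 | h1⟩ := top_spec G (512 * i + 64 * p)
  · omega
  · have := kbits_sem (ty := 0) (r := 0) hG hi hp (by omega) h8 h1 (by omega)
    simpa [sem] using this

theorem Inv.le_up (hG : Inv W O q G) {i p : ℕ} (hi : i < 4) (hp : p < 8)
    (h7 : (q p).card ≤ 7) : kd O q i p ≤ up G i p := by
  unfold up
  obtain ⟨h8, h0 | h1⟩ := top_spec G (2048 + 512 * i + 64 * p)
  · have : kd O q i p ≤ (q p).card := card_le_card inter_subset_left
    omega
  · have := kbits_sem (ty := 1) (r := 0) hG hi hp (by omega) h8 h1 (by omega)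
    simp only [sem, one_ne_zero, if_false, if_true] at this
    omega

theorem Inv.nb_nj (hG : Inv W O q G) {i p r : ℕ} (hi : i < 4) (hp : p < 8) (hr : r < 8)
    (h : nb G i p r = true) : NJ (W i) (q p) (q r) := by
  unfold nb at h
  rcases kbits_pr p r with e | e
  · have := kbits_sem (ty := 2) (k := 0) hG hi hp hr (by omega) h (by omega)
    simpa [sem] using this
  · have := kbits_sem (ty := 2) (k := 0) hG hi hr hp (by omega) h (by omega)
    exact NJ.symm (by simpa [sem] using this)

theorem Inv.clo_le (hG : Inv W O q G) {i p r : ℕ} (hi : i < 4) (hp : p < 8) (hr : r < 8) :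
    clo G i p r ≤ kc O q i p r := by
  unfold clo
  obtain ⟨h8, h0 | h1⟩ := top_spec G (8192 + 512 * i + pr p r)
  · omega
  · rcases kbits_pr p r with e | e
    · have := kbits_sem (ty := 4) hG hi hp hr h8 h1 (by omega)
      simpa [sem] using this
    · have := kbits_sem (ty := 4) hG hi hr hp h8 h1 (by omega)
      rw [← kbits_kc]
      simpa [sem] using this

theorem Inv.le_cup (hG : Inv W O q G) {i p r : ℕ} (hi : i < 4) (hp : p < 8) (hr : r < 8)
    (h7 : (q p).card ≤ 7) : kc O q i p r ≤ cup G i p r := by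
  unfold cup
  obtain ⟨h8, h0 | h1⟩ := top_spec G (10240 + 512 * i + pr p r)
  · have : kc O q i p r ≤ (q p).card :=
      card_le_card (inter_subset_left.trans inter_subset_left)
    omega
  · rcases kbits_pr p r with e | e
    · have := kbits_sem (ty := 5) hG hi hp hr h8 h1 (by omega)
      have h2 : kc O q i p r + top G (10240 + 512 * i + pr p r) ≤ 7 := by simpa [sem] using this
      omega
    · have := kbits_sem (ty := 5) hG hi hr hp h8 h1 (by omega)
      have h2 : kc O q i r p + top G (10240 + 512 * i + pr p r) ≤ 7 := by simpa [sem] using this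
      rw [kbits_kc] at h2
      omega

theorem KC.jb_nj (h : KC H t t' F a W O q) (hG : Inv W O q G) {i p r : ℕ} (hi : i < a + 2)
    (hp : p < 8) (hr : r < 8) (hj : jb G i p r = true) : ¬ NJ (W i) (q p) (q r) := by
  have a2 := h.a2
  have h4 : i < 4 := by omega
  unfold jb at hj
  rw [Bool.or_eq_true, Nat.blt_eq] at hj
  rcases hj with hj | hj
  · rcases kbits_pr p r with e | e
    · have := kbits_sem (ty := 3) (k := 0) hG h4 hp hr (by omega) hj (by omega)
      simpa [sem] using this
    · have := kbits_sem (ty := 3) (k := 0) hG h4 hr hp (by omega) hj (by omega)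
      have h2 : ¬ NJ (W i) (q r) (q p) := by simpa [sem] using this
      exact fun h3 => h2 h3.symm
  · intro hn
    obtain ⟨v, hv⟩ := card_pos.1 (hj.trans_le (hG.clo_le h4 hp hr))
    rw [h.oc i hi, mem_inter, mem_inter] at hv
    exact disjoint_left.1 (NJ.disjoint (h.wcc hi) hn) (mem_inter.2 ⟨hv.1.1, hv.2⟩)
      (mem_inter.2 ⟨hv.1.2, hv.2⟩)

theorem KC.lo_le (h : KC H t t' F a W O q) (hG : Inv W O q G) {i p : ℕ} (hi : i < 4)
    (hp : p < a + 6) : lo G i p ≤ kd O q i p :=
  hG.lo_le hi (by have := h.a2; omega)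

theorem KC.le_up (h : KC H t t' F a W O q) (hG : Inv W O q G) {i p : ℕ} (hi : i < 4)
    (hp : p < a + 6) : kd O q i p ≤ up G i p :=
  hG.le_up hi (by have := h.a2; omega) (by rw [h.q5 hp]; omega)

end Pool.Agent.Work.MP_d266e7_co.C5.P24
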