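import Pool.Agent.Work.MP_d266e7_co.P24B.KBase
import Pool.Agent.Work.MP_d266e7_co.P24.GainV
import Pool.Agent.Work.MP_d266e7_co.P24.T1

/-!
The closing inequality. close: apply `BD.close` to `g Z = ∑ i ∈ (range (a+2)).filter (W i = Z), f
i` (the filter is `{i}` for `Z = W i` by `wi`) or to a choice function; sumF; the outside `cov H \
cov (un F)` contains `t`, `t'` and the pairwise disjoint sets `O i`, `a + 2 ≤ i < 4` (`om`, `od`,
tne), so it has at least `2 + ∑ |O i|` vertices; finish with `interval_cases a` (`a2`) and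
`sum_range_succ`. hi0: `hi_sum` with `DS.famH`, sumF. hiX: `X = insert (q p) (insert (q r) (W i))`
is disjoint from `un (F.erase (W i))` (qun; different pieces are disjoint by `Sep.disjoint`),
`hi_add` in `H`, and `hi_sum` for the family `F.erase (W i)` in `un (F.erase (W i))` (`sub_un`),
`add_sum_erase`. realpb: `pb_real` with `ihv5`; `hi_mono` gives `hi H X = hi H (W i) + E`; `|(x ∪
y) \ cov W| + dd W x + dd W y + |x ∩ y| = 10` because `NJ.disjoint` (`card_union_add_card_inter`,
`card_sdiff_add_card_inter`, `union_inter_distrib_right`, `card_union_of_disjoint`); take `g = 3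
(..) - 19 - E` and use `BD.pb0` if this is zero.
-/

namespace Pool.Agent.Work.MP_d266e7_co.C5.P24

open Finset

variable {V : Type} [DecidableEq V]

variable {H : Finset (Finset V)} {t t' : V} {F : Finset (Finset (Finset V))} {a : ℕ}
  {W : ℕ → Finset (Finset V)} {O q : ℕ → Finset V}

theorem kclose_out (h : KC H t t' F a W O q) :
    ∑ i ∈ (range 4).filter (fun i => ¬ i < a + 2), (O i).card + 2 ≤
      (cov H \ cov (un F)).card := by
  have hm : ∀ i ∈ (range 4).filter (fun i => ¬ i < a + 2), a + 2 ≤ i ∧ i < 4 := by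
    intro i hi'
    rw [mem_filter, mem_range] at hi'
    omega
  have hv : ∀ v ∈ ((range 4).filter fun i => ¬ i < a + 2).biUnion O,
      v ∈ cov H ∧ v ∉ cov (un F) ∧ v ≠ t ∧ v ≠ t' := by
    intro v hv
    obtain ⟨i, hi', hv⟩ := mem_biUnion.1 hv
    exact h.om i (hm i hi').1 (hm i hi').2 v hv
  obtain ⟨h1, h2, h3⟩ := h.bd.ds.out
  rw [← card_biUnion fun i hi' j hj ij =>
    h.od i j (hm i hi').1 (hm i hi').2 (hm j hj).1 (hm j hj).2 ij]
  have n2 : t' ∉ ((range 4).filter fun i => ¬ i < a + 2).biUnion O := fun k => (hv _ k).2.2.2 rfl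
  have n1 : t ∉ insert t' (((range 4).filter fun i => ¬ i < a + 2).biUnion O) := fun k =>
    (mem_insert.1 k).elim h1 fun k => (hv _ k).2.2.1 rfl
  have h4 := card_le_card (insert_subset h2 (insert_subset h3 fun v k =>
    mem_sdiff.2 ⟨(hv v k).1, (hv v k).2.1⟩))
  rwa [card_insert_of_notMem n1, card_insert_of_notMem n2] at h4

theorem KC.close (h : KC H t t' F a W O q) (f : ℕ → ℕ)
    (hp : ∀ i, i < a + 2 → PB H (W i) 5 (f i))
    (ho : ∀ i, a + 2 ≤ i → i < 4 → f i ≤ 3 * (O i).card) (E : ℕ)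
    (hE : ∑ i ∈ range (a + 2), hi H (W i) + E ≤ hi H H) :
    f 0 + f 1 + (f 2 + f 3) + 3 * a + E ≤ 7 := by
  classical
  have hg : ∀ i, i < a + 2 → ∑ j ∈ (range (a + 2)).filter (fun j => W j = W i), f j = f i := by
    intro i hi'
    have : (range (a + 2)).filter (fun j => W j = W i) = {i} := by
      ext j
      simp only [mem_filter, mem_range, mem_singleton]
      exact ⟨fun k => h.wi j i k.1 hi' k.2, fun k => by rw [k]; exact ⟨hi', rfl⟩⟩
    rw [this, sum_singleton]
  have key := h.bd.close (fun Z => ∑ j ∈ (range (a + 2)).filter (fun j => W j = Z), f j)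
    (fun Z hZ => by
      obtain ⟨i, hi', rfl⟩ := h.ws Z hZ
      rw [hg i hi']; exact hp i hi') E (by rw [h.sumF]; exact hE)
  have h0 : ∑ i ∈ range (a + 2), ∑ j ∈ (range (a + 2)).filter (fun j => W j = W i), f j =
      ∑ i ∈ range (a + 2), f i := sum_congr rfl fun i hi' => hg i (mem_range.1 hi')
  rw [h.sumF, h0, h.xa] at key
  have h1 := kclose_out h
  have h2 : ∑ i ∈ (range 4).filter (fun i => ¬ i < a + 2), f i ≤
      3 * ∑ i ∈ (range 4).filter (fun i => ¬ i < a + 2), (O i).card := by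
    rw [mul_sum]
    refine sum_le_sum fun i hi' => ?_
    rw [mem_filter, mem_range] at hi'
    exact ho i (by omega) hi'.1
  have h3 := sum_filter_add_sum_filter_not (range 4) (fun i => i < a + 2) f
  have h4 : (range 4).filter (fun i => i < a + 2) = range (a + 2) := by
    have := h.a2
    ext j
    simp only [mem_filter, mem_range]
    omega
  rw [h4] at h3
  simp only [sum_range_succ _ 3, sum_range_succ _ 2, sum_range_succ _ 1, sum_range_one] at h3
  omega

theorem KC.hi0 (h : KC H t t' F a W O q) : ∑ i ∈ range (a + 2), hi H (W i) ≤ hi H H := by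
  rw [← h.sumF (hi H)]
  exact hi_sum h.bd.ds.famH

theorem KC.hiX (h : KC H t t' F a W O q) {i p r : ℕ} (hi' : i < a + 2) (hp : p < a + 6)
    (hr : r < a + 6) :
    ∑ j ∈ range (a + 2), hi H (W j) + hi H (insert (q p) (insert (q r) (W i))) ≤
      hi H H + hi H (W i) := by
  have hF := h.bd.ds.famH
  have hu : un (F.erase (W i)) ⊆ un F := biUnion_subset_biUnion_of_subset_left _ (erase_subset _ _)
  have hG : Fam (un (F.erase (W i))) (F.erase (W i)) :=
    ⟨fun Z hZ => sub_un hZ, (hF.mono Subset.rfl (erase_subset _ _)).cc,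
      (hF.mono Subset.rfl (erase_subset _ _)).sep⟩
  have hd : Disjoint (insert (q p) (insert (q r) (W i))) (un (F.erase (W i))) := by
    rw [disjoint_left]
    intro e he k
    rcases mem_insert.1 he with rfl | he
    · exact h.qun hp (hu k)
    rcases mem_insert.1 he with rfl | he
    · exact h.qun hr (hu k)
    obtain ⟨Z, hZ, hz⟩ := mem_biUnion.1 k
    obtain ⟨v, hv⟩ := card_pos.1 (show 0 < e.card by rw [(h.wcc hi').u5 e he]; omega)
    exact hF.sep _ (h.wf i hi') Z (mem_erase.1 hZ).2 (mem_erase.1 hZ).1.symm e he e hz ⟨v, hv, hv⟩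
  have h1 := hi_add (H := H) hd (insert_subset (h.qH hp) (insert_subset (h.qH hr) (h.wsub hi')))
    (hu.trans hF.un_sub)
  have h2 := hi_sum (H := H) hG
  have h3 := add_sum_erase F (hi H) (h.wf i hi')
  rw [← h.sumF (hi H)]
  omega

theorem KC.realpb [Infinite V] (h : KC H t t' F a W O q) {i p r : ℕ} (hi' : i < a + 2)
    (hp : p < a + 6) (hr : r < a + 6) (hn : NJ (W i) (q p) (q r)) (h1 : 1 ≤ kd O q i p)
    (h2 : 1 ≤ kd O q i r) (hc : 1 ≤ (q p ∩ q r).card) :
    ∃ E g, PB H (W i) 5 g ∧ ∑ j ∈ range (a + 2), hi H (W j) + E ≤ hi H H ∧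
      3 * (kd O q i p + kd O q i r + (q p ∩ q r).card) ≤ g + E + 19 := by
  have e1 : kd O q i p = dd (W i) (q p) := by rw [kd, h.oc i hi', dd]
  have e2 : kd O q i r = dd (W i) (q r) := by rw [kd, h.oc i hi', dd]
  rw [e1] at h1
  rw [e2] at h2
  rw [e1, e2]
  have k1 := pb_real (ihv5 (W i)) (h.wcc hi') (h.wsub hi') h.bd.bad.cc.u5 h.d3 (h.qH hp) (h.qH hr)
    hn h1 h2 (card_pos.1 hc)
  have k2 := h.hiX hi' hp hr
  have k3 : hi H (W i) ≤ hi H (insert (q p) (insert (q r) (W i))) :=
    hi_mono Subset.rfl ((subset_insert _ _).trans (subset_insert _ _))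
  have k4 := card_union_add_card_inter (q p) (q r)
  have k5 := card_sdiff_add_card_inter (q p ∪ q r) (cov (W i))
  have k6 := card_union_of_disjoint (NJ.disjoint (h.wcc hi') hn)
  rw [← union_inter_distrib_right] at k6
  have k7 := h.q5 hp
  have k8 := h.q5 hr
  have k9 := h.bd.pb0 (h.wf i hi')
  refine ⟨hi H (insert (q p) (insert (q r) (W i))) - hi H (W i),
    3 * (dd (W i) (q p) + dd (W i) (q r) + (q p ∩ q r).card) - 19 -
      (hi H (insert (q p) (insert (q r) (W i))) - hi H (W i)), ?_, by omega, by omega⟩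
  unfold PB at k9 ⊢
  unfold dd at k1 ⊢
  omega

end Pool.Agent.Work.MP_d266e7_co.C5.P24
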