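import Pool.Agent.Work.MP_d266e7_co.P24B.KCov

/-!
Classes of vertices. free1, free0: as `MC.free1`, `MC.free0` in Mask.lean (`mask_fr1`, `mask_or`,
`mask_hits`; `full a = 2 ^ (a+6) - 1`, `Nat.testBit_two_pow_sub_one`). crs_cross: free0 with
gm_bit, or `Inv.nb_nj` and `NJ.no_cover` (`gp g < 8`, `gr g < 8` by `Nat.mod_lt`). gsz_le:
`Inv.lo_le`, `Inv.clo_le`, `oc`, `inter_self`. gov_le: from `hd` and gm_bit (`Nat.testBit_and`)
the hosts of `g` differ from the hosts of `g'`; if `gp g ≠ gr g` or `gp g' ≠ gr g'` a common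
vertex contradicts `KC.three`; if `crs` holds a common vertex contradicts crs_cross
(`exists_cover_mem`); else `Inv.le_cup` (q5). csz_le: induction; `card_union_add_card_inter`, and
`|gset g ∩ cset B| ≤ (B.map (gov .. g)).sum` by an induction on `B` (`inter_union_distrib_left`,
`card_union_le`), the masks are disjoint by cmask_bit. csafe_safe: induction; `safe_host` (the
empty set lies in `q 0`, `gset g ⊆ q (gp g)`), `safe_cross`. eok_gd: `gU_mono`; the field `nf` is
void.
-/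

namespace Pool.Agent.Work.MP_d266e7_co.C5.P24

open Finset

variable {V : Type} [DecidableEq V]

/-- a piece with its free masks -/
structure KX (H : Finset (Finset V)) (t t' : V) (F : Finset (Finset (Finset V))) (a : ℕ)
    (W : ℕ → Finset (Finset V)) (O q : ℕ → Finset V) (G i : ℕ) (L E : List ℕ) : Prop where
  ctx : KC H t t' F a W O q
  hG : Inv W O q G
  il : i < a + 2
  hL : FL (W i) q (a + 6) L
  hE : FE q (a + 6) E

variable {H : Finset (Finset V)} {t t' : V} {F : Finset (Finset (Finset V))} {a : ℕ}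
  {W : ℕ → Finset (Finset V)} {O q : ℕ → Finset V} {G i : ℕ} {L E : List ℕ}

theorem KC.kx (h : KC H t t' F a W O q) (hG : Inv W O q G) (hi : i < a + 2) (J K : List ℕ) :
    KX H t t' F a W O q G i (J.map (wm a G i)) (K.map (em a G)) :=
  ⟨h, hG, hi, h.wm_fl hG hi J, h.em_fe hG K⟩

theorem kcls_all {S u p : ℕ} (e : S.lor u = full a) (hp : p < a + 6) :
    S.testBit p = true ∨ u.testBit p = true := by
  apply mask_or.1
  rw [e, full, Nat.testBit_two_pow_sub_one]
  exact decide_eq_true hp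

theorem KX.free1 (h : KX H t t' F a W O q G i L E) {S : ℕ} (hS : fr1 (full a) L S = true)
    {C : Finset V} (hC : Hits C (W i)) (hc : C.card ≤ tau (W i) + 1)
    (hq : ∀ p, p < a + 6 → S.testBit p = true → ∃ v ∈ q p, v ∈ C) : False := by
  obtain ⟨u, hu, e⟩ := mask_fr1 hS
  exact h.hL u hu C hC hc fun p hp => (kcls_all e hp).elim (fun k => Or.inr (hq p hp k)) Or.inl

theorem KX.free0 (h : KX H t t' F a W O q G i L E) {S : ℕ} (hS : fr0 (full a) L E S = true)
    {C : Finset V} (hC : Hits C (W i)) (hc : C.card ≤ tau (W i))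
    (hq : ∀ p, p < a + 6 → S.testBit p = true → ∃ v ∈ q p, v ∈ C) : False := by
  unfold fr0 at hS
  rw [List.any_eq_true] at hS
  obtain ⟨u, hu, e⟩ := hS
  obtain ⟨g, hg, e⟩ := mask_fr1 e
  obtain ⟨D, d1, d2⟩ := h.hE g hg
  refine h.hL u hu (C ∪ D) (mask_hits hC D) ((card_union_le _ _).trans (by omega)) fun p hp => ?_
  rcases kcls_all e hp with k | k
  · rcases mask_or.1 k with k | k
    · obtain ⟨v, h1, h2⟩ := hq p hp k
      exact Or.inr ⟨v, h1, mem_union_left _ h2⟩
    · exact Or.inl k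
  · obtain ⟨v, h1, h2⟩ := d2 p hp k
    exact Or.inr ⟨v, h1, mem_union_right _ h2⟩

theorem gm_bit {g p : ℕ} : (gm g).testBit p = true ↔ p = gp g ∨ p = gr g := by
  unfold gm
  rw [mask_or, bit_test, bit_test]

theorem cmask_bit {A : List ℕ} {p : ℕ} :
    (cmask A).testBit p = true ↔ ∃ g ∈ A, p = gp g ∨ p = gr g := by
  induction A with
  | nil => simp [cmask]
  | cons g B ih =>
    change ((gm g).lor (cmask B)).testBit p = true ↔ _
    rw [mask_or, gm_bit, ih]
    simp only [List.mem_cons, exists_eq_or_imp]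

theorem mem_cset {Z : Finset (Finset V)} {A : List ℕ} {v : V} :
    v ∈ cset Z q A ↔ ∃ g ∈ A, v ∈ gset Z q g := by
  induction A with
  | nil => simp [cset]
  | cons g B ih =>
    change v ∈ gset Z q g ∪ cset Z q B ↔ _
    rw [mem_union, ih]
    simp only [List.mem_cons, exists_eq_or_imp]

theorem kcls_cok {g : ℕ} {B : List ℕ} (h : cok a (g :: B) = true) :
    gp g < a + 6 ∧ gr g < a + 6 ∧ (gm g).land (cmask B) = 0 ∧ cok a B = true := by
  change (Nat.blt (gp g) (a + 6) && (Nat.blt (gr g) (a + 6) &&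
    (Nat.beq ((gm g).land (cmask B)) 0 && cok a B))) = true at h
  simp only [Bool.and_eq_true, Nat.blt_eq] at h
  exact ⟨h.1, h.2.1, Nat.eq_of_beq_eq_true h.2.2.1, h.2.2.2⟩

theorem cok_lt {A : List ℕ} (h : cok a A = true) : ∀ g ∈ A, gp g < a + 6 ∧ gr g < a + 6 := by
  induction A with
  | nil => simp
  | cons g B ih =>
    obtain ⟨h1, h2, -, h4⟩ := kcls_cok h
    intro g' hg
    rcases List.mem_cons.1 hg with rfl | hg
    · exact ⟨h1, h2⟩
    · exact ih h4 g' hg

theorem kcls_gp (g : ℕ) : gp g < 8 := Nat.mod_lt _ (by norm_num)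

theorem kcls_gr (g : ℕ) : gr g < 8 := Nat.mod_lt _ (by norm_num)

theorem kcls_mem {Z : Finset (Finset V)} {g : ℕ} {v : V} :
    v ∈ gset Z q g ↔ v ∈ q (gp g) ∧ v ∈ q (gr g) ∧ v ∈ cov Z := by
  unfold gset
  rw [mem_inter, mem_inter, and_assoc]

theorem KX.kcls_i4 (h : KX H t t' F a W O q G i L E) : i < 4 := by
  have := h.il
  have := h.ctx.a2
  omega

theorem KX.crs_cross (h : KX H t t' F a W O q G i L E) {g g' : ℕ}
    (hc : crs a G i L E g g' = true) : Cross (W i) (gset (W i) q g) (gset (W i) q g') := by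
  intro C c1 c2 v hv w hw vc wc
  obtain ⟨v1, v2, -⟩ := kcls_mem.1 hv
  obtain ⟨w1, w2, -⟩ := kcls_mem.1 hw
  have i4 := h.kcls_i4
  unfold crs at hc
  simp only [Bool.or_eq_true] at hc
  rcases hc with k | k | k | k | k
  · refine h.free0 k c1 c2 fun p _ hp => ?_
    rcases mask_or.1 hp with k | k
    · rcases gm_bit.1 k with rfl | rfl
      · exact ⟨v, v1, vc⟩
      · exact ⟨v, v2, vc⟩
    · rcases gm_bit.1 k with rfl | rfl
      · exact ⟨w, w1, wc⟩
      · exact ⟨w, w2, wc⟩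
  · exact (h.hG.nb_nj i4 (kcls_gp _) (kcls_gp _) k).no_cover c1 c2 v1 w1 vc wc
  · exact (h.hG.nb_nj i4 (kcls_gp _) (kcls_gr _) k).no_cover c1 c2 v1 w2 vc wc
  · exact (h.hG.nb_nj i4 (kcls_gr _) (kcls_gp _) k).no_cover c1 c2 v2 w1 vc wc
  · exact (h.hG.nb_nj i4 (kcls_gr _) (kcls_gr _) k).no_cover c1 c2 v2 w2 vc wc

theorem KX.gsz_le (h : KX H t t' F a W O q G i L E) (g : ℕ) :
    gsz G i g ≤ (gset (W i) q g).card := by
  unfold gsz gset
  rw [← h.ctx.oc i h.il]
  cases e : Nat.beq (gp g) (gr g)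
  · exact h.hG.clo_le h.kcls_i4 (kcls_gp g) (kcls_gr g)
  · rw [← Nat.eq_of_beq_eq_true e, inter_self]
    exact h.hG.lo_le h.kcls_i4 (kcls_gp g)

theorem kcls_land {x y p : ℕ} (h : x.land y = 0) (h1 : x.testBit p = true)
    (h2 : y.testBit p = true) : False := by
  have : (x &&& y).testBit p = true := by rw [Nat.testBit_and, h1, h2]; rfl
  change (x.land y).testBit p = true at this
  rw [h, Nat.zero_testBit] at this
  exact Bool.false_ne_true this

theorem KX.gov_le (h : KX H t t' F a W O q G i L E) {g g' : ℕ} (h1 : gp g < a + 6)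
    (h2 : gr g < a + 6) (h3 : gp g' < a + 6) (h4 : gr g' < a + 6)
    (hd : (gm g).land (gm g') = 0) :
    (gset (W i) q g ∩ gset (W i) q g').card ≤ gov a G i L E g g' := by
  have ne : ∀ p, (p = gp g ∨ p = gr g) → (p = gp g' ∨ p = gr g') → False := fun p k k' =>
    kcls_land hd (gm_bit.2 k) (gm_bit.2 k')
  have n1 : gp g ≠ gp g' := fun e => ne _ (Or.inl rfl) (Or.inl e)
  have n2 : gp g ≠ gr g' := fun e => ne _ (Or.inl rfl) (Or.inr e)
  have n3 : gr g ≠ gp g' := fun e => ne _ (Or.inr rfl) (Or.inl e)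
  unfold gov
  cases e : (Nat.beq (gp g) (gr g) && (Nat.beq (gp g') (gr g') && !crs a G i L E g g'))
  · refine (card_eq_zero.2 (eq_empty_of_forall_notMem fun v hv => ?_)).le
    obtain ⟨k, k'⟩ := mem_inter.1 hv
    obtain ⟨v1, v2, v3⟩ := kcls_mem.1 k
    obtain ⟨w1, w2, -⟩ := kcls_mem.1 k'
    by_cases e1 : gp g = gr g
    · by_cases e2 : gp g' = gr g'
      · have e3 : crs a G i L E g g' = true := by
          rw [e1, e2, Nat.beq_refl, Nat.beq_refl] at e
          simpa using e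
        obtain ⟨C, c1, c2, c3⟩ := exists_cover_mem (h.ctx.wcc h.il) v3
        exact h.crs_cross e3 C c1 c2.le v k v k' c3 c3
      · exact h.ctx.three h.il h1 h3 h4 n1 n2 e2 v1 w1 w2 v3
    · exact h.ctx.three h.il h1 h2 h3 e1 n1 n3 v1 v2 w1 v3
  · refine le_trans (card_le_card fun v hv => ?_) (h.hG.le_cup h.kcls_i4 (kcls_gp g) (kcls_gp g')
      (by rw [h.ctx.q5 h1]; norm_num))
    obtain ⟨k, k'⟩ := mem_inter.1 hv
    rw [h.ctx.oc i h.il]
    exact mem_inter.2 ⟨mem_inter.2 ⟨(kcls_mem.1 k).1, (kcls_mem.1 k').1⟩, (kcls_mem.1 k).2.2⟩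

theorem kcls_dis {x g : ℕ} {B : List ℕ} (h : x.land (cmask B) = 0) (hg : g ∈ B) :
    x.land (gm g) = 0 := by
  apply Nat.eq_of_testBit_eq
  intro p
  change (x &&& gm g).testBit p = _
  rw [Nat.zero_testBit, Nat.testBit_and, Bool.eq_false_iff]
  intro k
  rw [Bool.and_eq_true] at k
  exact kcls_land h k.1 (cmask_bit.2 ⟨g, hg, gm_bit.1 k.2⟩)

theorem kcls_ov {Z : Finset (Finset V)} (X : Finset V) (f : ℕ → ℕ) (B : List ℕ)
    (h : ∀ g ∈ B, (X ∩ gset Z q g).card ≤ f g) : (X ∩ cset Z q B).card ≤ (B.map f).sum := by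
  induction B with
  | nil => simp [cset]
  | cons g B ih =>
    change (X ∩ (gset Z q g ∪ cset Z q B)).card ≤ _
    rw [inter_union_distrib_left, List.map_cons, List.sum_cons]
    exact (card_union_le _ _).trans (Nat.add_le_add (h g List.mem_cons_self)
      (ih fun g' hg => h g' (List.mem_cons_of_mem _ hg)))

theorem KX.csz_le (h : KX H t t' F a W O q G i L E) {A : List ℕ} (hA : cok a A = true) :
    csz a G i L E A ≤ (cset (W i) q A).card := by
  induction A with
  | nil => exact Nat.zero_le _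
  | cons g B ih =>
    obtain ⟨h1, h2, h3, h4⟩ := kcls_cok hA
    have e1 := card_union_add_card_inter (gset (W i) q g) (cset (W i) q B)
    have e2 := h.gsz_le g
    have e3 := ih h4
    have e4 := kcls_ov (Z := W i) (q := q) (gset (W i) q g) (gov a G i L E g) B fun g' hg =>
      h.gov_le h1 h2 (cok_lt h4 g' hg).1 (cok_lt h4 g' hg).2 (kcls_dis h3 hg)
    change gsz G i g + csz a G i L E B - (B.map (gov a G i L E g)).sum ≤
      (gset (W i) q g ∪ cset (W i) q B).card
    omega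

theorem KX.csafe_safe (h : KX H t t' F a W O q G i L E) {A : List ℕ} (hA : cok a A = true)
    (hs : csafe a G i L E A = true) : Safe H (W i) (cset (W i) q A) := by
  induction A with
  | nil => exact safe_host (h.ctx.qH (p := 0) (by omega)) (empty_subset _)
  | cons g B ih =>
    obtain ⟨h1, h2, h3, h4⟩ := kcls_cok hA
    change (B.all (crs a G i L E g) && csafe a G i L E B) = true at hs
    rw [Bool.and_eq_true, List.all_eq_true] at hs
    refine safe_cross (h.ctx.wcc h.il) (fun C c1 c2 v hv w hw => ?_)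
      (safe_host (h.ctx.qH h1) fun v hv => (kcls_mem.1 hv).1) (ih h4 hs.2)
    obtain ⟨g', hg, hw⟩ := mem_cset.1 hw
    exact h.crs_cross (hs.1 g' hg) C c1 c2 v hv w hw

theorem KX.eok_gd (h : KX H t t' F a W O q G i L E) {A B : List ℕ}
    (he : eok a G i L E A B = true) :
    GD H (W i) (cset (W i) q A) (cset (W i) q B) (csafe a G i L E A) (csafe a G i L E B) false ∧
      egain a G i L E A B ≤ gU (cset (W i) q A).card (cset (W i) q B).card
        (csafe a G i L E A) (csafe a G i L E B) false ∧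
      ∀ v ∈ cset (W i) q A ∪ cset (W i) q B,
        ∃ p, p < a + 6 ∧ ((cmask A).lor (cmask B)).testBit p = true ∧ v ∈ q p := by
  unfold eok at he
  simp only [Bool.and_eq_true, List.all_eq_true] at he
  obtain ⟨hA, hB, hc⟩ := he
  have sub : ∀ D : List ℕ, cset (W i) q D ⊆ cov (W i) := fun D v hv => by
    obtain ⟨g, -, k⟩ := mem_cset.1 hv
    exact (kcls_mem.1 k).2.2
  have host : ∀ D : List ℕ, cok a D = true → ∀ v ∈ cset (W i) q D,
      ∃ p, p < a + 6 ∧ (cmask D).testBit p = true ∧ v ∈ q p := fun D hD v hv => by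
    obtain ⟨g, hg, k⟩ := mem_cset.1 hv
    exact ⟨gp g, (cok_lt hD g hg).1, cmask_bit.2 ⟨g, hg, Or.inl rfl⟩, (kcls_mem.1 k).1⟩
  refine ⟨⟨sub A, sub B, fun C c1 c2 v hv w hw => ?_, h.csafe_safe hA, h.csafe_safe hB,
    fun k => absurd k Bool.false_ne_true⟩, gU_mono (h.csz_le hA) (h.csz_le hB) _ _ _,
    fun v hv => ?_⟩
  · obtain ⟨g, hg, hv⟩ := mem_cset.1 hv
    obtain ⟨g', hg', hw⟩ := mem_cset.1 hw
    exact h.crs_cross (hc g hg g' hg') C c1 c2 v hv w hw
  · rcases mem_union.1 hv with k | k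
    · obtain ⟨p, p1, p2, p3⟩ := host A hA v k
      exact ⟨p, p1, mask_or.2 (Or.inl p2), p3⟩
    · obtain ⟨p, p1, p2, p3⟩ := host B hB v k
      exact ⟨p, p1, mask_or.2 (Or.inr p2), p3⟩

end Pool.Agent.Work.MP_d266e7_co.C5.P24
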