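import Pool.Agent.Work.MP_d266e7_co.P24B.KBits

/-!
Covers. ab1_cov: if the test fails the mask is zero and any minimum transversal works
(`exists_cover_mem` with a vertex of `cov (W i)`, or the tau lemmas of Basic.lean); if `p = r`
then `lo_le` gives a vertex of `q p ∩ cov (W i)` (`oc`) and `exists_cover_mem`; else `jb_nj` and
`joint_of_not_nj`; `mask_or`, `bit_test`. wm_cov: `choose` the covers `D i` for the codes `c i`
(`c 0 = w % 128`, ..., for instance `c i = w / 128 ^ i % 128`), take `((range (a+2)).erase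
i0).biUnion D`, `card_biUnion_le`; a bit of `wm` is a bit of some `ab1 a G i0 i (c i)`, `i < 4`,
which is zero unless `i < a + 2`, `i ≠ i0` (ab1_zero). wm_fl: the union of `C` with the cover of
wm_cov contradicts `KC.cover` (`add_sum_erase`). col_bit: a lemma on `List.foldl` for a general
list and start value. em_fe: `{t}` for the mask `7` (bits below 3, qt), `{t'}` for `56` (bits 3,
4, 5, qt'), a vertex of one host (q5; the empty set if out of range), `O i` (`o1`, col_bit,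
lo_le), a common vertex (clo_le). leaf0: union of the set of em_fe and the cover of wm_cov with
`i0 = 7`; `full a = 2 ^ (a+6) - 1`, `Nat.testBit_two_pow_sub_one`.
-/

namespace Pool.Agent.Work.MP_d266e7_co.C5.P24

open Finset

variable {V : Type} [DecidableEq V]

/-- the masks of `L` cannot be completed by a transversal of `Z` with one more vertex -/
def FL (Z : Finset (Finset V)) (q : ℕ → Finset V) (k : ℕ) (L : List ℕ) : Prop :=
  ∀ u ∈ L, ∀ C, Hits C Z → C.card ≤ tau Z + 1 →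
    (∀ p, p < k → u.testBit p = true ∨ ∃ v ∈ q p, v ∈ C) → False

/-- the masks of `E` are met by one vertex -/
def FE (q : ℕ → Finset V) (k : ℕ) (E : List ℕ) : Prop :=
  ∀ g ∈ E, ∃ D : Finset V, D.card ≤ 1 ∧ ∀ p, p < k → g.testBit p = true → ∃ v ∈ q p, v ∈ D

variable {H : Finset (Finset V)} {t t' : V} {F : Finset (Finset (Finset V))} {a : ℕ}
  {W : ℕ → Finset (Finset V)} {O q : ℕ → Finset V} {G : ℕ}

theorem kcov_cond {c : Bool} {x p : ℕ} (h : (cond c x 0).testBit p = true) :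
    c = true ∧ x.testBit p = true := by
  cases c
  · rw [cond_false, Nat.zero_testBit] at h
    exact absurd h Bool.false_ne_true
  · exact ⟨rfl, h⟩

theorem kcov_two {x y p : ℕ} : ((bit x).lor (bit y)).testBit p = true ↔ p = x ∨ p = y := by
  rw [mask_or, bit_test, bit_test]

theorem kcov_lo (h : KC H t t' F a W O q) (hG : Inv W O q G) {i p : ℕ} (hi : i < 4)
    (hp : p < a + 6) (hl : 0 < lo G i p) : ∃ v ∈ q p, v ∈ O i := by
  obtain ⟨v, hv⟩ := card_pos.1 (hl.trans_le (h.lo_le hG hi hp))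
  exact ⟨v, mem_inter.1 hv⟩

theorem KC.ab1_cov (h : KC H t t' F a W O q) (hG : Inv W O q G) (i0 w : ℕ) {i : ℕ}
    (hi : i < a + 2) : ∃ C, Hits C (W i) ∧ C.card ≤ tau (W i) ∧
      ∀ p, (ab1 a G i0 i w).testBit p = true → ∃ v ∈ q p, v ∈ C := by
  have hW := h.wcc hi
  have a2 := h.a2
  by_cases c : ∃ p, (ab1 a G i0 i w).testBit p = true
  swap
  · obtain ⟨C, h1, h2⟩ := exists_opt hW.u5.ne
    exact ⟨C, h1, h2.le, fun p hp => absurd ⟨p, hp⟩ c⟩
  obtain ⟨s, hs⟩ := c
  unfold ab1 at hs ⊢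
  generalize w / 2 % 8 = x at *
  generalize w / 16 % 8 = y at *
  have c1 := (kcov_cond hs).1
  simp only [Bool.and_eq_true, Nat.blt_eq] at c1
  obtain ⟨-, -, -, c2, c3, c4⟩ := c1
  have key : ∃ C, Hits C (W i) ∧ C.card ≤ tau (W i) ∧ (∃ v ∈ q x, v ∈ C) ∧ ∃ v ∈ q y, v ∈ C := by
    cases e : Nat.beq x y
    · rw [e] at c4
      obtain ⟨C, h1, h2, ⟨v, h3, h4⟩, u, h5, h6⟩ := joint_of_not_nj hW.u5.ne
        (card_pos.1 (by rw [h.q5 c2]; omega)) (card_pos.1 (by rw [h.q5 c3]; omega))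
        (h.jb_nj hG hi (by omega) (by omega) c4)
      exact ⟨C, h1, h2, ⟨v, (mem_inter.1 h3).1, h4⟩, u, (mem_inter.1 h5).1, h6⟩
    · rw [e, cond_true, Nat.blt_eq] at c4
      obtain ⟨v, h3, h4⟩ := kcov_lo h hG (by omega) c2 c4
      obtain ⟨C, h1, h2, h5⟩ := exists_cover_mem hW (h.oc i hi ▸ h4)
      exact ⟨C, h1, h2.le, ⟨v, h3, h5⟩, v, Nat.eq_of_beq_eq_true e ▸ h3, h5⟩
  obtain ⟨C, h1, h2, h3, h4⟩ := key
  refine ⟨C, h1, h2, fun p hp => ?_⟩
  rcases kcov_two.1 (kcov_cond hp).2 with rfl | rfl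
  exacts [h3, h4]

theorem ab1_zero {a G i0 i w : ℕ} (h : a + 2 ≤ i ∨ i = i0) : ab1 a G i0 i w = 0 := by
  refine Nat.eq_of_testBit_eq fun p => ?_
  rw [Nat.zero_testBit, Bool.eq_false_iff]
  intro hp
  have c1 := (kcov_cond hp).1
  simp only [Bool.and_eq_true, Nat.blt_eq] at c1
  obtain ⟨-, c2, c3, -⟩ := c1
  rcases h with h | rfl
  · omega
  · rw [Nat.beq_refl] at c3
    exact Bool.false_ne_true c3

theorem KC.wm_cov (h : KC H t t' F a W O q) (hG : Inv W O q G) (i0 w : ℕ) :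
    ∃ C : Finset V, (∀ i, i < a + 2 → i ≠ i0 → Hits C (W i)) ∧
      C.card ≤ ∑ i ∈ (range (a + 2)).erase i0, tau (W i) ∧
      ∀ p, (wm a G i0 w).testBit p = true → ∃ v ∈ q p, v ∈ C := by
  choose! D h1 h2 h3 using fun i (hi : i < a + 2) => h.ab1_cov hG i0 (w / 128 ^ i % 128) hi
  refine ⟨((range (a + 2)).erase i0).biUnion D, fun i hi hne e he => ?_, card_biUnion_le.trans
    (sum_le_sum fun i hi => h2 i (mem_range.1 (mem_of_mem_erase hi))), fun p hp => ?_⟩
  · obtain ⟨v, hv, hv'⟩ := h1 i hi e he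
    exact ⟨v, hv, mem_biUnion.2 ⟨i, mem_erase.2 ⟨hne, mem_range.2 hi⟩, hv'⟩⟩
  · have key : ∀ i, (ab1 a G i0 i (w / 128 ^ i % 128)).testBit p = true →
        ∃ v ∈ q p, v ∈ ((range (a + 2)).erase i0).biUnion D := fun i hb => by
      by_cases c : a + 2 ≤ i ∨ i = i0
      · rw [ab1_zero c, Nat.zero_testBit] at hb
        exact absurd hb Bool.false_ne_true
      · have c1 : i < a + 2 := not_le.1 fun e => c (Or.inl e)
        obtain ⟨v, hv, hv'⟩ := h3 i c1 p hb
        exact ⟨v, hv, mem_biUnion.2 ⟨i, mem_erase.2 ⟨fun e => c (Or.inr e), mem_range.2 c1⟩, hv'⟩⟩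
    rcases mask_or.1 hp with c | c <;> rcases mask_or.1 c with c | c
    · exact key 0 (by rwa [pow_zero, Nat.div_one])
    · exact key 1 (by rwa [pow_one])
    · exact key 2 (by rwa [show 128 ^ 2 = 16384 from rfl])
    · exact key 3 (by rwa [show 128 ^ 3 = 2097152 from rfl])

theorem KC.wm_fl (h : KC H t t' F a W O q) (hG : Inv W O q G) {i : ℕ} (hi : i < a + 2)
    (J : List ℕ) : FL (W i) q (a + 6) (J.map (wm a G i)) := by
  intro u hu C hC hc hall
  obtain ⟨w, -, rfl⟩ := List.mem_map.1 hu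
  obtain ⟨D, h1, h2, h3⟩ := h.wm_cov hG i w
  have a1 := h.cover (C := C ∪ D) (fun j hj => by
    by_cases e : j = i
    · exact e ▸ mask_hits hC D
    · exact union_comm D C ▸ mask_hits (h1 j hj e) C) fun p hp =>
    (hall p hp).elim (fun c => (h3 p c).imp fun v k => ⟨k.1, mem_union_right _ k.2⟩)
      fun c => c.imp fun v k => ⟨k.1, mem_union_left _ k.2⟩
  have a2 := add_sum_erase (range (a + 2)) (fun j => tau (W j)) (mem_range.2 hi)
  have a3 := card_union_le C D
  omega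

theorem kcov_fold (f : ℕ → Bool) (p : ℕ) (L : List ℕ) (m : ℕ) :
    (L.foldl (fun m p => cond (f p) (m.lor (bit p)) m) m).testBit p = true ↔
      m.testBit p = true ∨ (p ∈ L ∧ f p = true) := by
  induction L generalizing m with
  | nil => simp
  | cons x L ih =>
    rw [List.foldl_cons, ih, List.mem_cons]
    cases e : f x
    · rw [cond_false]
      refine or_congr_right ⟨fun c => ⟨Or.inr c.1, c.2⟩, fun c => ⟨c.1.resolve_left ?_, c.2⟩⟩
      rintro rfl
      exact Bool.false_ne_true (e.symm.trans c.2)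
    · rw [cond_true, mask_or, bit_test, or_assoc]
      refine or_congr_right ⟨?_, fun c => c.1.imp_right fun d => ⟨d, c.2⟩⟩
      rintro (rfl | c)
      exacts [⟨Or.inl rfl, e⟩, ⟨Or.inr c.1, c.2⟩]

theorem col_bit {a G i p : ℕ} : (col a G i).testBit p = true ↔ p < a + 6 ∧ 0 < lo G i p := by
  unfold col
  rw [kcov_fold (fun p => Nat.blt 0 (lo G i p)), Nat.zero_testBit, List.mem_range, Nat.blt_eq]
  exact or_iff_right Bool.false_ne_true

theorem col_pos {a G i : ℕ} (h : 0 < col a G i) : ∃ p, p < a + 6 ∧ 0 < lo G i p := by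
  obtain ⟨p, hp⟩ := Nat.exists_testBit_of_ne_zero h.ne'
  exact ⟨p, col_bit.1 hp⟩

theorem kcov_em (h : KC H t t' F a W O q) (hG : Inv W O q G) (e : ℕ) :
    ∃ D : Finset V, D.card ≤ 1 ∧
      ∀ p, p < a + 6 → (em a G e).testBit p = true → ∃ v ∈ q p, v ∈ D := by
  have a2 := h.a2
  have hi : e / 8 % 4 < 4 := Nat.mod_lt _ (by omega)
  have b1 : ∀ p < 8, (7 : ℕ).testBit p = true → p < 3 := by decide
  have b2 : ∀ p < 8, (56 : ℕ).testBit p = true → 3 ≤ p ∧ p < 6 := by decide
  have one : ∀ (v : V) (g : ℕ), (∀ p, p < a + 6 → g.testBit p = true → v ∈ q p) →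
      ∃ D : Finset V, D.card ≤ 1 ∧ ∀ p, p < a + 6 → g.testBit p = true → ∃ v ∈ q p, v ∈ D :=
    fun v g k => ⟨{v}, (card_singleton v).le, fun p hp hb => ⟨v, k p hp hb, mem_singleton_self v⟩⟩
  by_cases c : ∃ p, p < a + 6 ∧ (em a G e).testBit p = true
  swap
  · exact ⟨∅, Nat.zero_le _, fun p hp hb => absurd ⟨p, hp, hb⟩ c⟩
  obtain ⟨s, hs, c⟩ := c
  unfold em at c ⊢
  generalize e / 8 % 4 = i at *
  generalize e / 32 % 8 = x at *
  generalize e / 256 % 8 = y at *
  revert c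
  cases Nat.beq (e % 8) 1
  swap
  · exact fun _ => one t 7 fun p hp hb => (h.qt hp).2 (b1 p (by omega) hb)
  cases Nat.beq (e % 8) 2
  swap
  · exact fun _ => one t' 56 fun p hp hb => (h.qt' hp).2 (b2 p (by omega) hb)
  cases Nat.beq (e % 8) 3
  swap
  · obtain ⟨v, hv⟩ := card_pos.1 (show 0 < (q s).card by rw [h.q5 hs]; omega)
    exact fun c => one v (bit x) fun p _ hb => by
      rwa [bit_test.1 hb, ← bit_test.1 (show (bit x).testBit s = true from c)]
  cases Nat.beq (e % 8) 4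
  swap
  · intro c
    have c1 := (kcov_cond c).1
    exact ⟨O i, h.o1 i (Nat.le_of_ble_eq_true c1) hi, fun p hp hb =>
      kcov_lo h hG hi hp (col_bit.1 (kcov_cond hb).2).2⟩
  · intro c
    have c1 := (kcov_cond c).1
    simp only [Bool.and_eq_true, Nat.blt_eq] at c1
    obtain ⟨v, hv⟩ := card_pos.1 (c1.2.2.trans_le (hG.clo_le (p := x) (r := y) hi (by omega)
      (by omega)))
    have hv' := mem_inter.1 (mem_inter.1 hv).1
    refine one v _ fun p _ hb => ?_
    rcases kcov_two.1 (kcov_cond hb).2 with rfl | rfl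
    exacts [hv'.1, hv'.2]

theorem KC.em_fe (h : KC H t t' F a W O q) (hG : Inv W O q G) (J : List ℕ) :
    FE q (a + 6) (J.map (em a G)) := by
  intro g hg
  obtain ⟨e, -, rfl⟩ := List.mem_map.1 hg
  exact kcov_em h hG e

theorem KC.leaf0 (h : KC H t t' F a W O q) (hG : Inv W O q G) {e w : ℕ}
    (hl : (em a G e).lor (wm a G 7 w) = full a) : False := by
  obtain ⟨D, d1, d2⟩ := kcov_em h hG e
  obtain ⟨C, h1, h2, h3⟩ := h.wm_cov hG 7 w
  have a2 := h.a2
  rw [erase_eq_of_notMem (by rw [mem_range]; omega)] at h2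
  have a1 := h.cover (C := C ∪ D) (fun j hj => mask_hits (h1 j hj (by omega)) D) fun p hp => by
    have b : (full a).testBit p = true := by
      unfold full
      rw [Nat.testBit_two_pow_sub_one]
      exact decide_eq_true hp
    rw [← hl] at b
    exact (mask_or.1 b).elim (fun c => (d2 p hp c).imp fun v k => ⟨k.1, mem_union_right _ k.2⟩)
      fun c => (h3 p c).imp fun v k => ⟨k.1, mem_union_left _ k.2⟩
  have a3 := card_union_le C D
  omega

end Pool.Agent.Work.MP_d266e7_co.C5.P24
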