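import Pool.Agent.Work.MP_d266e7_co.P24B.MaskDefs

/-!
A checker for case trees. Columns `0 .. a+1` are the pieces, columns `a+2 .. 3` are the outside
vertices other than `t`, `t'`. Hosts `0,1,2` lie on `t`, hosts `3,4,5` on `t'`, the others are
the extra hosts. A fact has the code `k + 8 r + 64 p + 512 i + 2048 ty`; a state is the set of
the known facts, as a number.
-/

namespace Pool.Agent.Work.MP_d266e7_co.C5.P24

open Finset

variable {V : Type} [DecidableEq V]

/-- an enumerated double split -/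
structure KC (H : Finset (Finset V)) (t t' : V) (F : Finset (Finset (Finset V))) (a : ℕ)
    (W : ℕ → Finset (Finset V)) (O q : ℕ → Finset V) : Prop where
  bd : BD H t t' F
  xa : (xh H t t' F).card = a
  a2 : a ≤ 2
  wf : ∀ i, i < a + 2 → W i ∈ F
  wi : ∀ i j, i < a + 2 → j < a + 2 → W i = W j → i = j
  ws : ∀ Z ∈ F, ∃ i, i < a + 2 ∧ W i = Z
  oc : ∀ i, i < a + 2 → O i = cov (W i)
  o1 : ∀ i, a + 2 ≤ i → i < 4 → (O i).card ≤ 1
  om : ∀ i, a + 2 ≤ i → i < 4 → ∀ v ∈ O i, v ∈ cov H ∧ v ∉ cov (un F) ∧ v ≠ t ∧ v ≠ t'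
  od : ∀ i j, a + 2 ≤ i → i < 4 → a + 2 ≤ j → j < 4 → i ≠ j → Disjoint (O i) (O j)
  os : ∀ v ∈ cov H, v ∉ cov (un F) → v = t ∨ v = t' ∨ ∃ i, a + 2 ≤ i ∧ i < 4 ∧ v ∈ O i
  q1 : ∀ p, p < 3 → q p ∈ star H t
  q2 : ∀ p, 3 ≤ p → p < 6 → q p ∈ star H t'
  q3 : ∀ p, 6 ≤ p → p < a + 6 → q p ∈ xh H t t' F
  qi : ∀ p r, p < a + 6 → r < a + 6 → q p = q r → p = r
  qs : ∀ e ∈ H, e ∉ un F → ∃ p, p < a + 6 ∧ q p = e

/-- vertices of the host `p` in the column `i` -/
def kd (O q : ℕ → Finset V) (i p : ℕ) : ℕ := (q p ∩ O i).card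

/-- common vertices of two hosts in the column `i` -/
def kc (O q : ℕ → Finset V) (i p r : ℕ) : ℕ := (q p ∩ q r ∩ O i).card

/-- meaning of a fact -/
def sem (W : ℕ → Finset (Finset V)) (O q : ℕ → Finset V) (ty i p r k : ℕ) : Prop :=
  if ty = 0 then k ≤ kd O q i p else if ty = 1 then kd O q i p + k ≤ 7
  else if ty = 2 then NJ (W i) (q p) (q r) else if ty = 3 then ¬ NJ (W i) (q p) (q r)
  else if ty = 4 then k ≤ kc O q i p r else kc O q i p r + k ≤ 7

/-- meaning of a code -/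
def holds (W : ℕ → Finset (Finset V)) (O q : ℕ → Finset V) (j : ℕ) : Prop :=
  sem W O q (j / 2048) (j / 512 % 4) (j / 64 % 8) (j / 8 % 8) (j % 8)

/-- all facts of the state hold -/
def Inv (W : ℕ → Finset (Finset V)) (O q : ℕ → Finset V) (G : ℕ) : Prop :=
  ∀ j, G.testBit j = true → holds W O q j

/-- the largest known `k` of a group of eight codes -/
def top (G j : ℕ) : ℕ := Nat.log2 (Nat.shiftRight G j % 256)

def lo (G i p : ℕ) : ℕ := top G (512 * i + 64 * p)
def up (G i p : ℕ) : ℕ := 7 - top G (2048 + 512 * i + 64 * p)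
/-- position of an unordered pair -/
def pr (p r : ℕ) : ℕ := cond (Nat.ble p r) (64 * p + 8 * r) (64 * r + 8 * p)
def nb (G i p r : ℕ) : Bool := G.testBit (4096 + 512 * i + pr p r)
def clo (G i p r : ℕ) : ℕ := top G (8192 + 512 * i + pr p r)
def cup (G i p r : ℕ) : ℕ := 7 - top G (10240 + 512 * i + pr p r)
def jb (G i p r : ℕ) : Bool := G.testBit (6144 + 512 * i + pr p r) || Nat.blt 0 (clo G i p r)

def cap (p : ℕ) : ℕ := cond (Nat.blt p 6) 4 5
def bit (j : ℕ) : ℕ := Nat.shiftLeft 1 j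

/-- new bounds of one entry from the other three entries of the row -/
def row1 (G p i j k l : ℕ) : ℕ :=
  (bit (512 * i + 64 * p + (cap p - (up G j p + up G k p + up G l p)))).lor
    (bit (2048 + 512 * i + 64 * p + (7 - (cap p - (lo G j p + lo G k p + lo G l p)))))

def row (G p : ℕ) : ℕ :=
  G.lor (((row1 G p 0 1 2 3).lor (row1 G p 1 0 2 3)).lor
    ((row1 G p 2 0 1 3).lor (row1 G p 3 0 1 2)))

/-- evaluate the argument first -/
def frn (n : ℕ) (f : ℕ → ℕ) : ℕ := Nat.rec (f 0) (fun j _ => f (Nat.succ j)) n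

/-- add a fact -/
def addf (a G j : ℕ) : ℕ :=
  cond (Nat.blt j 4096 && Nat.blt (j / 64 % 8) (a + 6))
    (frn (G.lor (bit j)) fun z => row z (j / 64 % 8)) (G.lor (bit j))

def okl (j : ℕ) : Bool :=
  Nat.beq (j / 2048) 2 || ((Nat.beq (j / 2048) 0 || Nat.beq (j / 2048) 4) && Nat.blt 0 (j % 8))

def ngl (j : ℕ) : ℕ := cond (Nat.beq (j / 2048) 2) (j + 2048) (j + 2056 - 2 * (j % 8))

/-- an outside column has at most one vertex -/
def ini (a : ℕ) : ℕ :=
  (List.range 8).foldl (fun G p => (List.range 4).foldl (fun G i =>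
    cond (Nat.ble (a + 2) i) (addf a G (2054 + 512 * i + 64 * p))
      (addf a G (512 * i + 64 * p))) G) 0

/-- the digits of `n` in base `b`, at most `f` of them, up to the last nonzero one -/
def digs (b : ℕ) (f : ℕ) : ℕ → List ℕ :=
  Nat.rec (fun _ => []) (fun _ ih n => cond (Nat.beq n 0) [] (n % b :: ih (n / b))) f

def full (a : ℕ) : ℕ := 2 ^ (a + 6) - 1

/-- hosts absorbed by the piece `i`; the code is `on + 2 p + 16 r` -/
def ab1 (a G i0 i w : ℕ) : ℕ :=
  cond (Nat.beq (w % 2) 1 && (Nat.blt i (a + 2) && (!Nat.beq i i0 &&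
    (Nat.blt (w / 2 % 8) (a + 6) && (Nat.blt (w / 16 % 8) (a + 6) &&
      cond (Nat.beq (w / 2 % 8) (w / 16 % 8)) (Nat.blt 0 (lo G i (w / 2 % 8)))
        (jb G i (w / 2 % 8) (w / 16 % 8)))))))
    ((bit (w / 2 % 8)).lor (bit (w / 16 % 8))) 0

/-- hosts absorbed by the pieces other than `i0` -/
def wm (a G i0 w : ℕ) : ℕ :=
  ((ab1 a G i0 0 (w % 128)).lor (ab1 a G i0 1 (w / 128 % 128))).lor
    ((ab1 a G i0 2 (w / 16384 % 128)).lor (ab1 a G i0 3 (w / 2097152 % 128)))

/-- the hosts known to meet the column `i` -/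
def col (a G i : ℕ) : ℕ :=
  (List.range (a + 6)).foldl (fun m p => cond (Nat.blt 0 (lo G i p)) (m.lor (bit p)) m) 0

/-- hosts through one vertex; the code is `ty + 8 i + 32 p + 256 r` -/
def em (a G e : ℕ) : ℕ :=
  cond (Nat.beq (e % 8) 1) 7 (cond (Nat.beq (e % 8) 2) 56 (cond (Nat.beq (e % 8) 3)
    (bit (e / 32 % 8)) (cond (Nat.beq (e % 8) 4)
      (cond (Nat.ble (a + 2) (e / 8 % 4)) (col a G (e / 8 % 4)) 0)
      (cond (Nat.blt (e / 32 % 8) (a + 6) && (Nat.blt (e / 256 % 8) (a + 6) &&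
        Nat.blt 0 (clo G (e / 8 % 4) (e / 32 % 8) (e / 256 % 8))))
        ((bit (e / 32 % 8)).lor (bit (e / 256 % 8))) 0))))

/-- a generator `8 p + r + 1` stands for the common vertices of the hosts `p`, `r` -/
def gp (g : ℕ) : ℕ := (g - 1) / 8 % 8
def gr (g : ℕ) : ℕ := (g - 1) % 8
def gm (g : ℕ) : ℕ := (bit (gp g)).lor (bit (gr g))
def gset (W : Finset (Finset V)) (q : ℕ → Finset V) (g : ℕ) : Finset V :=
  q (gp g) ∩ q (gr g) ∩ cov W
def cset (W : Finset (Finset V)) (q : ℕ → Finset V) (A : List ℕ) : Finset V :=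
  A.foldr (fun g s => gset W q g ∪ s) ∅
def cmask (A : List ℕ) : ℕ := A.foldr (fun g m => (gm g).lor m) 0

/-- two generators are non-joint in the piece `i` -/
def crs (a G i : ℕ) (L E : List ℕ) (g h : ℕ) : Bool :=
  fr0 (full a) L E ((gm g).lor (gm h)) || (nb G i (gp g) (gp h) || (nb G i (gp g) (gr h) ||
    (nb G i (gr g) (gp h) || nb G i (gr g) (gr h))))

def gsz (G i g : ℕ) : ℕ :=
  cond (Nat.beq (gp g) (gr g)) (lo G i (gp g)) (clo G i (gp g) (gr g))

/-- bound for the common vertices of two generators with different hosts -/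
def gov (a G i : ℕ) (L E : List ℕ) (g h : ℕ) : ℕ :=
  cond (Nat.beq (gp g) (gr g) && (Nat.beq (gp h) (gr h) && !crs a G i L E g h))
    (cup G i (gp g) (gp h)) 0

/-- hosts in range, no host twice -/
def cok (a : ℕ) (A : List ℕ) : Bool :=
  A.rec true fun g B ih => Nat.blt (gp g) (a + 6) && (Nat.blt (gr g) (a + 6) &&
    (Nat.beq ((gm g).land (cmask B)) 0 && ih))

def csz (a G i : ℕ) (L E : List ℕ) (A : List ℕ) : ℕ :=
  A.rec 0 fun g B ih => gsz G i g + ih - (B.map (gov a G i L E g)).sum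

def csafe (a G i : ℕ) (L E : List ℕ) (A : List ℕ) : Bool :=
  A.rec true fun g B ih => B.all (crs a G i L E g) && ih

def eok (a G i : ℕ) (L E : List ℕ) (A B : List ℕ) : Bool :=
  cok a A && (cok a B && A.all fun g => B.all (crs a G i L E g))

def egain (a G i : ℕ) (L E : List ℕ) (A B : List ℕ) : ℕ :=
  gU (csz a G i L E A) (csz a G i L E B) (csafe a G i L E A) (csafe a G i L E B) false

def gain1 (a G i : ℕ) (L E : List ℕ) (A B : List ℕ) : ℕ :=
  cond (eok a G i L E A B) (egain a G i L E A B) 0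

def gain2 (a G i : ℕ) (L E : List ℕ) (A B A' B' : List ℕ) : ℕ :=
  cond (Nat.beq (((cmask A).lor (cmask B)).land ((cmask A').lor (cmask B'))) 0 &&
    (eok a G i L E A B && (eok a G i L E A' B' && (Nat.ble 2 (egain a G i L E A B) &&
      A.all fun g => B.all fun h => A'.all fun g' => B'.all fun h' =>
        fr1 (full a) L (((gm g).lor (gm h)).lor ((gm g').lor (gm h')))))))
    (egain a G i L E A B + egain a G i L E A' B') 0

/-- evaluate a list of numbers first -/
def frl (L : List ℕ) : (List ℕ → ℕ) → ℕ :=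
  L.rec (fun f => f []) fun x _ ih f => frn x fun z => ih fun M => f (z :: M)

/-- gain of the gadget with the codes `n` (families), `w` (free masks), `e` (vertices) -/
def gadget (a G i n w e : ℕ) : ℕ :=
  frl ((digs 268435456 8 w).map (wm a G i)) fun L => frl ((digs 2048 8 e).map (em a G)) fun E =>
    cond (Nat.blt n 4398046511104)
      (gain1 a G i L E (digs 128 3 (n % 2097152)) (digs 128 3 (n / 2097152)))
      (gain2 a G i L E (digs 128 3 (n % 2097152)) (digs 128 3 (n / 2097152 % 2097152))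
        (digs 128 3 (n / 4398046511104 % 2097152)) (digs 128 3 (n / 9223372036854775808)))

/-- gadgets on the pieces -/
inductive KG where
  | z : KG
  | c (i n w e : ℕ) (x : KG) : KG

noncomputable def gf (a G : ℕ) (x : KG) (i : ℕ) : ℕ :=
  KG.rec 0 (fun j n w e _ ih => cond (Nat.beq i j) (gadget a G i n w e) ih) x

/-- gain of the column `i`, zero for `i = i0` -/
noncomputable def gcol (a G : ℕ) (x : KG) (i0 i : ℕ) : ℕ :=
  cond (Nat.blt i (a + 2)) (cond (Nat.beq i i0) 0 (gf a G x i))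
    (cond (Nat.blt 0 (col a G i)) 3 0)

noncomputable def gall (a G : ℕ) (x : KG) (i0 : ℕ) : ℕ :=
  gcol a G x i0 0 + gcol a G x i0 1 + (gcol a G x i0 2 + gcol a G x i0 3) + 3 * a

/-- known common vertices of two hosts in the column `j`, zero for `j = i` -/
def com (a G i j p r : ℕ) : ℕ :=
  cond (Nat.beq i j) 0 (cond (Nat.blt j (a + 2)) (clo G j p r)
    (cond (Nat.blt 0 (lo G j p) && Nat.blt 0 (lo G j r)) 1 0))

def com4 (a G i p r : ℕ) : ℕ :=
  cond (Nat.blt p 6 && Nat.beq (p / 3) (r / 3)) 1 0 +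
    (com a G i 0 p r + com a G i 1 p r + (com a G i 2 p r + com a G i 3 p r))

/-- gain of two real hosts on the piece `i` -/
def real (a G i p r w e : ℕ) : ℕ :=
  cond (Nat.blt i (a + 2) && (Nat.blt p (a + 6) && (Nat.blt r (a + 6) &&
    (Nat.blt 0 (lo G i p) && (Nat.blt 0 (lo G i r) && (Nat.blt 0 (com4 a G i p r) &&
      crs a G i [wm a G i w] [em a G e] (9 * p + 1) (9 * r + 1)))))))
    (3 * (lo G i p + lo G i r + com4 a G i p r) - 19) 0

/-- the host `p` lies on the side `s` or is an extra host -/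
def sd1 (s p : ℕ) : Bool := Nat.ble 6 p || Nat.beq (p / 3) s

/-- contradictions without gadgets -/
def leaf (a G w : ℕ) : Bool :=
  cond (Nat.beq (w % 8) 0)
    (Nat.beq ((em a G (w / 8 % 2048)).lor (wm a G 7 (w / 16384))) (full a))
  (cond (Nat.beq (w % 8) 1)
    (Nat.blt 0 ((List.range (a + 2)).countP (Nat.testBit (w / 16))) &&
      Nat.ble ((List.range (a + 6)).countP fun p => sd1 (w / 8 % 2) p &&
        (List.range (a + 2)).any fun i => (w / 16).testBit i && Nat.blt 0 (up G i p))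
        ((List.range (a + 2)).countP (Nat.testBit (w / 16))))
  (cond (Nat.beq (w % 8) 2)
    (Nat.blt 0 ((List.range a).countP (Nat.testBit (w / 8))) &&
      Nat.ble ((List.range (a + 2)).countP fun i =>
        (List.range a).any fun p => (w / 8).testBit p && Nat.blt 0 (up G i (6 + p)))
        ((List.range a).countP (Nat.testBit (w / 8))))
  (cond (Nat.beq (w % 8) 3)
    (Nat.ble (a + 2) (w / 8 % 4) &&
      Nat.ble 4 ((List.range (a + 6)).countP fun p => Nat.blt 0 (lo G (w / 8 % 4) p)))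
  (cond (Nat.beq (w % 8) 4)
    (Nat.ble (a + 2) (w / 8 % 4) && (Nat.blt 0 (col a G (w / 8 % 4)) &&
      (List.range (a + 6)).all fun p =>
        Nat.beq (p / 3) (w / 32 % 2) || Nat.beq (up G (w / 8 % 4) p) 0))
    (Nat.blt (w / 8 % 4) (a + 2) && (Nat.blt (w / 32 % 8) (a + 6) &&
      Nat.blt (up G (w / 8 % 4) (w / 32 % 8)) (((List.range (a + 6)).map fun r =>
        cond (Nat.beq r (w / 32 % 8)) 0 (clo G (w / 8 % 4) (w / 32 % 8) r)).sum)))))))

def cpf (c i : ℕ) : ℕ := Nat.shiftRight c (2 * i) % 4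
def hpf (h p : ℕ) : ℕ := Nat.shiftRight h (3 * p) % 8

/-- a permutation of the columns that keeps the pieces -/
def cpok (a c : ℕ) : Bool :=
  (List.range 4).all fun i => (Nat.blt (cpf c i) (a + 2) == Nat.blt i (a + 2)) &&
    (List.range i).all fun j => !Nat.beq (cpf c i) (cpf c j)

/-- a permutation of the hosts that keeps or exchanges the sides -/
def hpok (a h : ℕ) : Bool :=
  (List.range (a + 6)).all fun p => Nat.blt (hpf h p) (a + 6) &&
    (Nat.beq (hpf h p / 3) (cond (Nat.blt p 6) ((p / 3 + hpf h 0 / 3) % 2) 2) &&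
      (List.range p).all fun r => !Nat.beq (hpf h p) (hpf h r))

/-- the state implies the fact -/
def imp (a G ty i p r k : ℕ) : Bool :=
  Nat.blt p (a + 6) && cond (Nat.beq ty 0) (Nat.ble k (lo G i p)) (cond (Nat.beq ty 1)
    (Nat.ble (up G i p + k) 7) (Nat.blt r (a + 6) && cond (Nat.beq ty 2) (nb G i p r)
      (cond (Nat.beq ty 3) (Nat.blt i (a + 2) && jb G i p r) (cond (Nat.beq ty 4)
        (Nat.ble k (clo G i p r)) (Nat.ble (cup G i p r + k) 7)))))

/-- the hypotheses of the case `l` -/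
def gam (Ls : List (List ℕ)) (l : ℕ) : List ℕ :=
  digs 16384 64 ((Ls.getD (l / 64) []).getD (l % 64) 0)

/-- use of an earlier case; the code is `l + 4096 c + 1048576 h` -/
def call (a : ℕ) (Ls : List (List ℕ)) (cur G n : ℕ) : Bool :=
  Nat.blt (n % 4096) cur && (cpok a (n / 4096 % 256) && (hpok a (n / 1048576) &&
    (gam Ls (n % 4096)).all fun j => frc j fun j => imp a G (j / 2048)
      (cpf (n / 4096 % 256) (j / 512 % 4)) (hpf (n / 1048576) (j / 64 % 8))
      (hpf (n / 1048576) (j / 8 % 8)) (j % 8)))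

/-- case trees -/
inductive KT where
  | s (j : ℕ) (x y : KT) : KT
  | l (w : ℕ) : KT
  | c (n : ℕ) : KT
  | g (x : KG) : KT
  | r (n w e : ℕ) (x : KG) : KT

noncomputable def chk (a : ℕ) (Ls : List (List ℕ)) (cur : ℕ) (x : KT) : ℕ → Bool :=
  KT.rec (motive := fun _ => ℕ → Bool)
    (fun j _ _ fx fy G => okl j && (frc (addf a G j) fx && frc (addf a G (ngl j)) fy))
    (fun w G => leaf a G w) (fun n G => call a Ls cur G n)
    (fun x G => Nat.ble 8 (gall a G x 7))
    (fun n w e x G => Nat.ble 8 (gall a G x (n % 4) +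
      real a G (n % 4) (n / 4 % 8) (n / 32 % 8) w e)) x

/-- the state of the hypotheses `J` -/
def start (a G : ℕ) (J : List ℕ) : ℕ := J.foldl (fun G j => frn G fun z => addf a z j) G

/-- check the cases `s, s + 1, ..` -/
noncomputable def chkR (a : ℕ) (Ls : List (List ℕ)) (G : ℕ) (T : List KT) : ℕ → Bool :=
  T.rec (fun _ => true) fun x _ ih s =>
    frc (start a G (gam Ls s)) (chk a Ls s x) && frc (s + 1) ih

/-- the case `l` is impossible -/
def Val (V : Type) [DecidableEq V] (a : ℕ) (Ls : List (List ℕ)) (l : ℕ) : Prop :=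
  ∀ (H : Finset (Finset V)) (t t' : V) (F : Finset (Finset (Finset V)))
    (W : ℕ → Finset (Finset V)) (O q : ℕ → Finset V), KC H t t' F a W O q →
    (∀ j ∈ gam Ls l, holds W O q j) → False

end Pool.Agent.Work.MP_d266e7_co.C5.P24
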