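import Pool.Agent.Work.MP_d266e7_co.P24B.KDefs
import Pool.Agent.Work.MP_d266e7_co.P24B.BDS

/-!
Existence of an enumeration. kex_enum: use `s.toList.getD i d` (or `s.equivFin`). For exists_kc:
`BD.close` with `g = 0` (`BD.pb0`), `E = 0` (`hi_sum` with `DS.famH`) gives `3 a + 3 |out| ≤ 13`
for `out = cov H \ cov (un F)`. Both `t`, `t'` lie in `out` (degree three; members of `un F` avoid
both stars) and `t ≠ t'` (disjoint nonempty stars), so `out \ {t, t'}` has at most `2 - a`
vertices and `a ≤ 2`. Enumerate `F` (`BD.facts`: card `a + 2`), the two stars (card 3), `xh` (card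
`a`; `mem_xh`) and `out \ {t, t'}` by kex_enum. Put `O i = cov (W i)` for `i < a + 2` and `O i =
{o (i - (a+2))}` if `i - (a+2)` is below the card of `out \ {t, t'}`, else empty; `q p = if p < 3
then s p else if p < 6 then s' (p - 3) else x (p - 6)`.
-/

namespace Pool.Agent.Work.MP_d266e7_co.C5.P24

open Finset

variable {V : Type} [DecidableEq V]

theorem kex_enum {α : Type} [DecidableEq α] (s : Finset α) (d : α) :
    ∃ f : ℕ → α, (∀ i, i < s.card → f i ∈ s) ∧
      (∀ i j, i < s.card → j < s.card → f i = f j → i = j) ∧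
      ∀ x ∈ s, ∃ i, i < s.card ∧ f i = x := by
  refine ⟨fun i => if h : i < s.card then (s.equivFin.symm ⟨i, h⟩ : α) else d, ?_, ?_, ?_⟩
  · intro i hi
    simp only [dif_pos hi]
    exact (s.equivFin.symm ⟨i, hi⟩).2
  · intro i j hi hj e
    simp only [dif_pos hi, dif_pos hj] at e
    have := s.equivFin.symm.injective (Subtype.ext e)
    exact congrArg Fin.val this
  · intro x hx
    refine ⟨(s.equivFin ⟨x, hx⟩).1, (s.equivFin ⟨x, hx⟩).2, ?_⟩
    simp only [dif_pos (s.equivFin ⟨x, hx⟩).2, Fin.eta, Equiv.symm_apply_apply]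

theorem BD.exists_kc [Infinite V] {H : Finset (Finset V)} {t t' : V}
    {F : Finset (Finset (Finset V))} (h : BD H t t' F) :
    ∃ W O q, KC H t t' F (xh H t t' F).card W O q := by
  have c0 := h.close (fun _ => 0) (fun W hW => h.pb0 hW) 0 (hi_sum h.ds.famH)
  rw [sum_const_zero] at c0
  have c1 := h.out_two
  have c2 := h.facts.1
  obtain ⟨o1, o2, o3⟩ := h.ds.out
  have c3 : ((cov H \ cov (un F)) \ {t, t'}).card + 2 = (cov H \ cov (un F)).card := by
    rw [← card_pair o1]
    exact card_sdiff_add_card_eq_card (insert_subset o2 (singleton_subset_iff.2 o3))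
  have d1 : (star H t).card = 3 := h.ds.d1
  have d2 : (star H t').card = 3 := h.ds.d2
  obtain ⟨W, w1, w2, w3⟩ := kex_enum F ∅
  obtain ⟨s, s1, s2, s3⟩ := kex_enum (star H t) ∅
  obtain ⟨s', s1', s2', s3'⟩ := kex_enum (star H t') ∅
  obtain ⟨x, x1, x2, x3⟩ := kex_enum (xh H t t' F) ∅
  obtain ⟨o, u1, u2, u3⟩ := kex_enum ((cov H \ cov (un F)) \ {t, t'}) t
  rw [c2] at w1 w2 w3
  rw [d1] at s1 s2 s3
  rw [d2] at s1' s2' s3'
  generalize ((cov H \ cov (un F)) \ {t, t'}).card = m at c3 u1 u2 u3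
  generalize hb : (xh H t t' F).card = a at c0 w1 w2 w3 x1 x2 x3 ⊢
  have n1 : ∀ p r, p < 3 → r < 3 → s p ≠ s' r := fun p r hp hr e =>
    disjoint_left.1 h.ds.dis (s1 p hp) (e ▸ s1' r hr)
  have n2 : ∀ p r, p < 3 → r < a → s p ≠ x r := fun p r hp hr e =>
    (mem_xh.1 (x1 r hr)).2.1 (e ▸ (mem_star.1 (s1 p hp)).2)
  have n3 : ∀ p r, p < 3 → r < a → s' p ≠ x r := fun p r hp hr e =>
    (mem_xh.1 (x1 r hr)).2.2.1 (e ▸ (mem_star.1 (s1' p hp)).2)
  refine ⟨W, fun i => if i < a + 2 then cov (W i) else if i - (a + 2) < m then {o (i - (a + 2))}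
    else ∅, fun p => if p < 3 then s p else if p < 6 then s' (p - 3) else x (p - 6),
    h, hb, by omega, w1, w2, w3, fun i hi => if_pos hi, ?_, ?_, ?_, ?_, ?_, ?_, ?_, ?_, ?_⟩
  · intro i hi _
    simp only [if_neg (not_lt.2 hi)]
    split_ifs
    · exact (card_singleton _).le
    · exact Nat.zero_le _
  · intro i hi _ v hv
    simp only [if_neg (not_lt.2 hi)] at hv
    split_ifs at hv with c
    · rw [mem_singleton.1 hv]
      obtain ⟨b1, b2⟩ := mem_sdiff.1 (u1 _ c)
      exact ⟨(mem_sdiff.1 b1).1, (mem_sdiff.1 b1).2, fun e => b2 (e ▸ mem_insert_self _ _),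
        fun e => b2 (e ▸ mem_insert_of_mem (mem_singleton_self _))⟩
    · exact absurd hv (notMem_empty v)
  · intro i j hi _ hj _ hij
    simp only [if_neg (not_lt.2 hi), if_neg (not_lt.2 hj)]
    split_ifs with c d d
    · refine disjoint_singleton.2 fun e => ?_
      have := u2 _ _ c d e
      omega
    · exact disjoint_empty_right _
    · exact disjoint_empty_left _
    · exact disjoint_empty_left _
  · intro v hv hv'
    by_cases e1 : v = t
    · exact Or.inl e1
    by_cases e2 : v = t'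
    · exact Or.inr (Or.inl e2)
    obtain ⟨k, hk, e⟩ := u3 v (mem_sdiff.2 ⟨mem_sdiff.2 ⟨hv, hv'⟩, fun c =>
      (mem_insert.1 c).elim e1 fun c => e2 (mem_singleton.1 c)⟩)
    refine Or.inr (Or.inr ⟨a + 2 + k, by omega, by omega, ?_⟩)
    have b : a + 2 + k - (a + 2) = k := by omega
    simp only [if_neg (show ¬ a + 2 + k < a + 2 by omega), b, if_pos hk]
    exact mem_singleton.2 e.symm
  · intro p hp
    simp only [if_pos hp]
    exact s1 p hp
  · intro p hp hp'
    simp only [if_neg (not_lt.2 hp), if_pos hp']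
    exact s1' _ (by omega)
  · intro p hp hp'
    simp only [if_neg (show ¬ p < 3 by omega), if_neg (not_lt.2 hp)]
    exact x1 _ (by omega)
  · intro p r hp hr e
    split_ifs at e with b1 b2 b3 b4 b5 b6 b7 b8
    · exact s2 _ _ b1 b2 e
    · exact absurd e (n1 _ _ b1 (by omega))
    · exact absurd e (n2 _ _ b1 (by omega))
    · exact absurd e.symm (n1 _ _ (by omega) (by omega))
    · have := s2' _ _ (by omega) (by omega) e
      omega
    · exact absurd e (n3 _ _ (by omega) (by omega))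
    · exact absurd e.symm (n2 _ _ (by omega) (by omega))
    · exact absurd e.symm (n3 _ _ (by omega) (by omega))
    · have := x2 _ _ (by omega) (by omega) e
      omega
  · intro e he he'
    by_cases b1 : t ∈ e
    · obtain ⟨p, hp, c⟩ := s3 e (mem_star.2 ⟨he, b1⟩)
      exact ⟨p, by omega, by simp only [if_pos hp, c]⟩
    by_cases b2 : t' ∈ e
    · obtain ⟨p, hp, c⟩ := s3' e (mem_star.2 ⟨he, b2⟩)
      refine ⟨p + 3, by omega, ?_⟩
      simp only [if_neg (show ¬ p + 3 < 3 by omega), if_pos (show p + 3 < 6 by omega),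
        Nat.add_sub_cancel, c]
    · obtain ⟨p, hp, c⟩ := x3 e (mem_xh.2 ⟨he, b1, b2, he'⟩)
      refine ⟨p + 6, by omega, ?_⟩
      simp only [if_neg (show ¬ p + 6 < 3 by omega), if_neg (show ¬ p + 6 < 6 by omega),
        Nat.add_sub_cancel, c]

end Pool.Agent.Work.MP_d266e7_co.C5.P24
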