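import Pool.Agent.Work.MP_d266e7_co.P24B.KCls
import Pool.Agent.Work.MP_d266e7_co.P24B.BGain

/-!
Gains. If a test fails the gain is zero: `BD.pb0` with `wf`. gain1_pb: `pb_single` (`BD.room`,
`dg_lt` with qH, qW), `PB.mono`, eok_gd; compare `MC.one_pb` in Mask.lean. gain2_pb: `pb_double`,
compare `MC.dbl_pb`; a vertex in both unions lies on two hosts with different numbers (disjoint
masks, `Nat.testBit_and`), `qi`, `dg_lt2`; the four vertices of a cover give generators by
`mem_cset`, then free1 with `mask_or`, `gm_bit`. gadget_pb: `frl_eq` twice, `KC.kx`, split the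
`cond`. gf_pb: induction on `x` (`gf` unfolds by `rfl`/`show`). gcol_ok: for an outside column
col_pos and lo_le give a vertex of `O i`.
-/

namespace Pool.Agent.Work.MP_d266e7_co.C5.P24

open Finset

variable {V : Type} [DecidableEq V]

variable {H : Finset (Finset V)} {t t' : V} {F : Finset (Finset (Finset V))} {a : ℕ}
  {W : ℕ → Finset (Finset V)} {O q : ℕ → Finset V} {G i : ℕ} {L E : List ℕ}

theorem kgad_zero [Infinite V] (h : KC H t t' F a W O q) (hi : i < a + 2) : PB H (W i) 5 0 :=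
  h.bd.pb0 (h.wf i hi)

theorem kgad_pick {Z : Finset (Finset V)} {A : List ℕ} {C : Finset V}
    (h : ∃ v ∈ cset Z q A, v ∈ C) :
    ∃ g ∈ A, ∀ p, (gm g).testBit p = true → ∃ v ∈ q p, v ∈ C := by
  obtain ⟨v, hv, hc⟩ := h
  obtain ⟨g, hg, hv⟩ := mem_cset.1 hv
  refine ⟨g, hg, fun p hp => ⟨v, ?_, hc⟩⟩
  unfold gset at hv
  simp only [mem_inter] at hv
  rcases gm_bit.1 hp with rfl | rfl
  · exact hv.1.1
  · exact hv.1.2

theorem KX.gain1_pb [Infinite V] (h : KX H t t' F a W O q G i L E) (A B : List ℕ) :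
    PB H (W i) 5 (gain1 a G i L E A B) := by
  unfold gain1
  cases he : eok a G i L E A B
  · exact kgad_zero h.ctx h.il
  · obtain ⟨g1, g2, g3⟩ := h.eok_gd he
    refine (pb_single (h.ctx.wcc h.il) (h.ctx.wsub h.il) h.ctx.d3
      (h.ctx.bd.room (h.ctx.wf i h.il)) g1 fun v hv => ?_).mono g2
    obtain ⟨p, hp, -, hx⟩ := g3 v hv
    exact dg_lt (h.ctx.wsub h.il) (h.ctx.qH hp) (h.ctx.qW hp h.il) hx

theorem KX.gain2_pb [Infinite V] (h : KX H t t' F a W O q G i L E) (A B A' B' : List ℕ) :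
    PB H (W i) 5 (gain2 a G i L E A B A' B') := by
  unfold gain2
  generalize hs : (Nat.beq _ _ && _) = b
  cases b
  · exact kgad_zero h.ctx h.il
  simp only [Bool.and_eq_true, Nat.ble_eq, List.all_eq_true] at hs
  obtain ⟨dis, os, or', two, fr⟩ := hs
  have dis' := Nat.eq_of_beq_eq_true dis
  obtain ⟨g1, g2, g3⟩ := h.eok_gd os
  obtain ⟨k1, k2, k3⟩ := h.eok_gd or'
  have ws := h.ctx.wsub h.il
  refine (pb_double (h.ctx.wcc h.il) ws h.ctx.d3 g1 k1 (fun v _ => ?_)
    (fun C c1 c2 a1 a2 a3 a4 => ?_) (two.trans g2)).mono (Nat.add_le_add g2 k2)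
  · split_ifs with e1 e2 e2
    · obtain ⟨x, x0, x1, x2⟩ := g3 v e1
      obtain ⟨y, y0, y1, y2⟩ := k3 v e2
      have hxy : q x ≠ q y := fun e => by
        obtain rfl := h.ctx.qi x y x0 y0 e
        have : (((cmask A).lor (cmask B)).land ((cmask A').lor (cmask B'))).testBit x = true := by
          change (((cmask A).lor (cmask B)) &&& ((cmask A').lor (cmask B'))).testBit x = true
          rw [Nat.testBit_and, x1, y1]
          rfl
        rw [dis', Nat.zero_testBit] at this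
        exact Bool.noConfusion this
      exact dg_lt2 ws (h.ctx.qH x0) (h.ctx.qH y0) hxy (h.ctx.qW x0 h.il) (h.ctx.qW y0 h.il) x2 y2
    · obtain ⟨x, x0, -, x2⟩ := g3 v e1
      exact dg_lt ws (h.ctx.qH x0) (h.ctx.qW x0 h.il) x2
    · obtain ⟨y, y0, -, y2⟩ := k3 v e2
      exact dg_lt ws (h.ctx.qH y0) (h.ctx.qW y0 h.il) y2
    · exact card_le_card (star_mono ws v)
  · obtain ⟨b1, hb1, a1⟩ := kgad_pick a1
    obtain ⟨b2, hb2, a2⟩ := kgad_pick a2
    obtain ⟨b3, hb3, a3⟩ := kgad_pick a3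
    obtain ⟨b4, hb4, a4⟩ := kgad_pick a4
    refine h.free1 (fr b1 hb1 b2 hb2 b3 hb3 b4 hb4) c1 c2 fun x _ hx => ?_
    rcases mask_or.1 hx with u | u
    · exact (mask_or.1 u).elim (a1 x) (a2 x)
    · exact (mask_or.1 u).elim (a3 x) (a4 x)

theorem KC.gadget_pb [Infinite V] (h : KC H t t' F a W O q) (hG : Inv W O q G) (hi : i < a + 2)
    (n w e : ℕ) : PB H (W i) 5 (gadget a G i n w e) := by
  unfold gadget
  rw [frl_eq, frl_eq]
  have k := h.kx hG hi (digs 268435456 8 w) (digs 2048 8 e)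
  cases Nat.blt n 4398046511104
  · exact k.gain2_pb _ _ _ _
  · exact k.gain1_pb _ _

theorem KC.gf_pb [Infinite V] (h : KC H t t' F a W O q) (hG : Inv W O q G) (hi : i < a + 2)
    (x : KG) : PB H (W i) 5 (gf a G x i) := by
  induction x with
  | z => exact kgad_zero h hi
  | c j n w e x ih =>
    change PB H (W i) 5 (cond (Nat.beq i j) (gadget a G i n w e) (gf a G x i))
    cases Nat.beq i j
    · exact ih
    · exact h.gadget_pb hG hi n w e

theorem KC.gcol_ok [Infinite V] (h : KC H t t' F a W O q) (hG : Inv W O q G) (x : KG) (i0 : ℕ) :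
    (∀ j, j < a + 2 → PB H (W j) 5 (gcol a G x i0 j)) ∧
      ∀ j, a + 2 ≤ j → j < 4 → gcol a G x i0 j ≤ 3 * (O j).card := by
  refine ⟨fun j hj => ?_, fun j h1 h2 => ?_⟩
  · unfold gcol
    rw [Nat.blt_eq.mpr hj]
    cases Nat.beq j i0
    · exact h.gf_pb hG hj x
    · exact kgad_zero h hj
  · unfold gcol
    have e : Nat.blt j (a + 2) = false := by
      cases hb : Nat.blt j (a + 2)
      · rfl
      · exact absurd (Nat.blt_eq.mp hb) (by omega)
    rw [e]
    cases hb : Nat.blt 0 (col a G j)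
    · exact Nat.zero_le _
    · obtain ⟨p, hp, h0⟩ := col_pos (Nat.blt_eq.mp hb)
      have h3 := h.lo_le hG h2 hp
      have h4 : kd O q j p ≤ (O j).card := card_le_card inter_subset_right
      change 3 ≤ 3 * (O j).card
      omega

end Pool.Agent.Work.MP_d266e7_co.C5.P24
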