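import Pool.Agent.Work.MP_d266e7_co.P24B.KCov
import Pool.Agent.Work.MP_d266e7_co.P24B.BEx2

/-!
Leaves without gadgets. For counting use `(List.range n).countP P = ((range n).filter (P · =
true)).card` (prove it once by induction on `n`). leaf1: `G' = ((range (a+2)).filter M).image W`
has that card (`wi`); `BD.hall` (for `s = 1` apply it to `BD.symm`, `xh_comm`); every member of
`nbh` is a host `q p` (`qs`) with `sd1 s p` (qt, qt', `mem_xh`) that meets a piece of `G'`, so `0
< up` (le_up, `oc`); `card_image_le`. leaf2: the same with `S = ((range a).filter M).image (q (6 +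
·))` and `(BD.hs).nd`, `mem_nbp`, `ws`. leaf3: `o1` and `KC.four`. leaf4: col_pos gives the vertex
`v` of `O i`; `star H v` lies in the star of `t` (`s = 0`) or `t'` (`s = 1`): a member through `v`
is not in `un F` (`om`), so it is a host with `0 < up`; `Bad2.noin`. leaf5: the sets `q p ∩ q r ∩
O i`, `r ≠ p`, are pairwise disjoint (`KC.three`) subsets of `q p ∩ O i`; `card_biUnion`,
`Inv.clo_le`, le_up; `(List.range n).map f).sum = ∑ r ∈ range n, f r` (`Finset.sum_range`-type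
lemma or induction). leaf_false: split the `cond`s, `Bool.and_eq_true`, `Nat.ble_eq`,
`Nat.blt_eq`, leaf0.
-/

namespace Pool.Agent.Work.MP_d266e7_co.C5.P24

open Finset

variable {V : Type} [DecidableEq V]

variable {H : Finset (Finset V)} {t t' : V} {F : Finset (Finset (Finset V))} {a : ℕ}
  {W : ℕ → Finset (Finset V)} {O q : ℕ → Finset V} {G : ℕ}

theorem kleaf_cnt (n : ℕ) (P : ℕ → Bool) :
    (List.range n).countP P = ((range n).filter fun i => P i = true).card := by
  induction n with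
  | zero => rfl
  | succ n ih =>
    rw [List.range_succ, List.countP_append, ih, range_add_one, filter_insert]
    split_ifs with k <;> simp [k]

theorem kleaf_up (h : KC H t t' F a W O q) (hG : Inv W O q G) {i p : ℕ} (hi : i < a + 2)
    (hp : p < a + 6) (hd : 1 ≤ dd (W i) (q p)) : Nat.blt 0 (up G i p) = true := by
  have k := h.le_up hG (i := i) (by have := h.a2; omega) hp
  rw [kd, h.oc i hi] at k
  exact Nat.blt_eq ▸ hd.trans k

theorem kleaf_hall (h : KC H t t' F a W O q) (hG : Inv W O q G) {s M : ℕ} {T : Finset (Finset V)}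
    (hT : ∀ x ∈ T, ∃ p, p < a + 6 ∧ q p = x ∧ sd1 s p = true)
    (hh : ∀ Z ⊆ F, Z.Nonempty → Z.card + 1 ≤ (nbh T Z).card)
    (h1 : 0 < (List.range (a + 2)).countP (Nat.testBit M))
    (h2 : ((List.range (a + 6)).countP fun p => sd1 s p &&
      (List.range (a + 2)).any fun i => M.testBit i && Nat.blt 0 (up G i p)) ≤
      (List.range (a + 2)).countP (Nat.testBit M)) : False := by
  simp only [kleaf_cnt] at h1 h2
  have e : (((range (a + 2)).filter fun i => M.testBit i = true).image W).card = _ :=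
    card_image_of_injOn fun i hi j hj => h.wi i j (mem_range.1 (mem_filter.1 hi).1)
      (mem_range.1 (mem_filter.1 hj).1)
  have k := hh _ (image_subset_iff.2 fun i hi => h.wf i (mem_range.1 (mem_filter.1 hi).1))
    (card_pos.1 (e ▸ h1))
  refine absurd (k.trans (((card_le_card fun x hx => ?_).trans (card_image_le (f := q))).trans h2))
    (by omega)
  obtain ⟨m, Z, hZ, hd⟩ := mem_nbh.1 hx
  obtain ⟨i, hi, rfl⟩ := mem_image.1 hZ
  obtain ⟨p, hp, rfl, hs⟩ := hT x m
  obtain ⟨k1, k2⟩ := mem_filter.1 hi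
  refine mem_image_of_mem _ (mem_filter.2 ⟨mem_range.2 hp, ?_⟩)
  rw [hs, Bool.true_and, List.any_eq_true]
  exact ⟨i, List.mem_range.2 (mem_range.1 k1), by
    rw [k2, kleaf_up h hG (mem_range.1 k1) hp hd]; rfl⟩

theorem KC.leaf1 (h : KC H t t' F a W O q) (hG : Inv W O q G) {s M : ℕ} (hs : s < 2)
    (h1 : 0 < (List.range (a + 2)).countP (Nat.testBit M))
    (h2 : ((List.range (a + 6)).countP fun p => sd1 s p &&
      (List.range (a + 2)).any fun i => M.testBit i && Nat.blt 0 (up G i p)) ≤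
      (List.range (a + 2)).countP (Nat.testBit M)) : False := by
  have k : ∀ x, x ∈ H → t ∉ x → t' ∉ x → x ∉ un F → ∃ p, p < a + 6 ∧ q p = x ∧ sd1 s p = true :=
    fun x m1 m2 m3 m4 => by
      obtain ⟨p, hp, rfl⟩ := h.qs x m1 m4
      have e1 := h.qt hp
      have e2 := h.qt' hp
      exact ⟨p, hp, rfl, Bool.or_eq_true _ _ ▸ Or.inl (Nat.ble_eq ▸ by rw [e1] at m2; rw [e2] at m3; omega)⟩
  obtain rfl | rfl : s = 0 ∨ s = 1 := by omega
  · refine kleaf_hall h hG (fun x hx => ?_) h.bd.hall h1 h2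
    rcases mem_union.1 hx with m | m
    · obtain ⟨p, hp, rfl⟩ := h.qs x (mem_star.1 m).1 (h.bd.bex2_star (mem_union_left _ m)).2
      have e := (h.qt hp).1 (mem_star.1 m).2
      exact ⟨p, hp, rfl, Bool.or_eq_true _ _ ▸ Or.inr (Nat.beq_eq ▸ by omega)⟩
    · obtain ⟨m1, m2, m3, m4⟩ := mem_xh.1 m
      exact k x m1 m2 m3 m4
  · refine kleaf_hall h hG (fun x hx => ?_) h.bd.symm.hall h1 h2
    rcases mem_union.1 hx with m | m
    · obtain ⟨p, hp, rfl⟩ := h.qs x (mem_star.1 m).1 (h.bd.bex2_star (mem_union_right _ m)).2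
      have e := (h.qt' hp).1 (mem_star.1 m).2
      exact ⟨p, hp, rfl, Bool.or_eq_true _ _ ▸ Or.inr (Nat.beq_eq ▸ by omega)⟩
    · obtain ⟨m1, m2, m3, m4⟩ := mem_xh.1 m
      exact k x m1 m3 m2 m4

theorem KC.leaf2 [Infinite V] (h : KC H t t' F a W O q) (hG : Inv W O q G) {M : ℕ}
    (h1 : 0 < (List.range a).countP (Nat.testBit M))
    (h2 : ((List.range (a + 2)).countP fun i =>
      (List.range a).any fun p => M.testBit p && Nat.blt 0 (up G i (6 + p))) ≤
      (List.range a).countP (Nat.testBit M)) : False := by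
  simp only [kleaf_cnt] at h1 h2
  have e : (((range a).filter fun p => M.testBit p = true).image fun p => q (6 + p)).card = _ :=
    card_image_of_injOn fun i hi j hj k => by
      have k1 := mem_range.1 (mem_filter.1 hi).1
      have k2 := mem_range.1 (mem_filter.1 hj).1
      have := h.qi (6 + i) (6 + j) (by omega) (by omega) k
      omega
  have k := h.bd.hs.nd _ (image_subset_iff.2 fun p hp => h.q3 (6 + p) (by omega)
    (by have := mem_range.1 (mem_filter.1 hp).1; omega)) (card_pos.1 (e ▸ h1))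
  refine absurd (k.trans (((card_le_card fun Z hZ => ?_).trans (card_image_le (f := W))).trans h2))
    (by omega)
  obtain ⟨m, x, hx, hd⟩ := mem_nbp.1 hZ
  obtain ⟨p, hp, rfl⟩ := mem_image.1 hx
  obtain ⟨i, hi, rfl⟩ := h.ws Z m
  obtain ⟨k1, k2⟩ := mem_filter.1 hp
  have k3 := mem_range.1 k1
  refine mem_image_of_mem _ (mem_filter.2 ⟨mem_range.2 hi, List.any_eq_true.2
    ⟨p, List.mem_range.2 k3, ?_⟩⟩)
  rw [k2, kleaf_up h hG hi (by omega) hd]; rfl

theorem KC.leaf3 (h : KC H t t' F a W O q) (hG : Inv W O q G) {i : ℕ} (h1 : a + 2 ≤ i)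
    (h2 : i < 4) (h3 : 4 ≤ (List.range (a + 6)).countP fun p => Nat.blt 0 (lo G i p)) :
    False := by
  rw [kleaf_cnt] at h3
  have k : ∀ p ∈ (range (a + 6)).filter fun p => Nat.blt 0 (lo G i p) = true,
      p < a + 6 ∧ ∃ v, v ∈ q p ∩ O i := fun p hp =>
    have k1 := mem_range.1 (mem_filter.1 hp).1
    ⟨k1, card_pos.1 ((Nat.blt_eq ▸ (mem_filter.1 hp).2 :).trans_le (h.lo_le hG h2 k1))⟩
  obtain ⟨p, hp⟩ := card_pos.1 (lt_of_lt_of_le (by omega) h3)
  obtain ⟨v, hv⟩ := (k p hp).2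
  refine absurd (h3.trans (h.four (v := v) _ fun r hr => ⟨(k r hr).1, ?_⟩)) (by omega)
  obtain ⟨u, hu⟩ := (k r hr).2
  exact card_le_one.1 (h.o1 i h1 h2) u (mem_inter.1 hu).2 v (mem_inter.1 hv).2 ▸ (mem_inter.1 hu).1

theorem KC.leaf4 (h : KC H t t' F a W O q) (hG : Inv W O q G) {i s : ℕ} (h1 : a + 2 ≤ i)
    (h2 : i < 4) (hs : s < 2) (h3 : 0 < col a G i)
    (h4 : ∀ p, p < a + 6 → p / 3 = s ∨ up G i p = 0) : False := by
  obtain ⟨p, hp, k⟩ := col_pos h3
  obtain ⟨v, hv⟩ := card_pos.1 (k.trans_le (h.lo_le hG h2 hp))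
  obtain ⟨m1, m2, m3, m4⟩ := h.om i h1 h2 v (mem_inter.1 hv).2
  have key : ∀ e ∈ star H v, ∃ r, r < a + 6 ∧ q r = e ∧ r / 3 = s := fun e he => by
    obtain ⟨k1, k2⟩ := mem_star.1 he
    obtain ⟨r, hr, rfl⟩ := h.qs e k1 fun k3 => m2 (mem_cov.2 ⟨e, k3, k2⟩)
    exact ⟨r, hr, rfl, (h4 r hr).resolve_right ((card_pos.2
      ⟨v, mem_inter.2 ⟨k2, (mem_inter.1 hv).2⟩⟩).trans_le (h.le_up hG h2 hr)).ne'⟩
  obtain rfl | rfl : s = 0 ∨ s = 1 := by omega
  · refine h.bd.bad.noin v t m1 m3 h.bd.ds.d1 fun e he => ?_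
    obtain ⟨r, hr, rfl, k1⟩ := key e he
    exact h.q1 r (by omega)
  · refine h.bd.bad.noin v t' m1 m4 h.bd.ds.d2 fun e he => ?_
    obtain ⟨r, hr, rfl, k1⟩ := key e he
    exact h.q2 r (by omega) (by omega)

theorem KC.leaf5 (h : KC H t t' F a W O q) (hG : Inv W O q G) {i p : ℕ} (h1 : i < a + 2)
    (h2 : p < a + 6) (h3 : up G i p <
      ((List.range (a + 6)).map fun r => cond (Nat.beq r p) 0 (clo G i p r)).sum) : False := by
  have ha := h.a2
  have e : ((List.range (a + 6)).map fun r => cond (Nat.beq r p) 0 (clo G i p r)).sum =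
      ∑ r ∈ range (a + 6), cond (Nat.beq r p) 0 (clo G i p r) := (Multiset.sum_coe _).symm
  rw [e, ← sum_erase_add _ _ (mem_range.2 h2), Nat.beq_refl, cond_true, add_zero] at h3
  have k1 : ∑ r ∈ (range (a + 6)).erase p, cond (Nat.beq r p) 0 (clo G i p r) ≤
      ∑ r ∈ (range (a + 6)).erase p, (q p ∩ q r ∩ O i).card := sum_le_sum fun r hr => by
    have k := mem_range.1 (mem_erase.1 hr).2
    cases Nat.beq r p
    exacts [hG.clo_le (by omega) (by omega) (by omega), Nat.zero_le _]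
  rw [← card_biUnion fun r hr s hs rs => disjoint_left.2 fun v m1 m2 => ?_] at k1
  · refine absurd (k1.trans ((card_le_card (biUnion_subset.2 fun r _ => ?_)).trans
      (h.le_up hG (by omega) h2))) h3.not_ge
    exact inter_subset_inter inter_subset_left Subset.rfl
  · obtain ⟨r1, r2⟩ := mem_erase.1 hr
    obtain ⟨s1, s2⟩ := mem_erase.1 hs
    simp only [mem_inter] at m1 m2
    exact h.three h1 h2 (mem_range.1 r2) (mem_range.1 s2) r1.symm s1.symm rs m1.1.1 m1.1.2 m2.1.2
      (h.oc i h1 ▸ m1.2)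

theorem KC.leaf_false [Infinite V] (h : KC H t t' F a W O q) (hG : Inv W O q G) {w : ℕ}
    (hl : leaf a G w = true) : False := by
  unfold leaf at hl
  have m : w / 8 % 4 < 4 := Nat.mod_lt _ (by omega)
  revert hl
  cases Nat.beq (w % 8) 0
  swap
  · exact fun hl => h.leaf0 hG (Nat.eq_of_beq_eq_true hl)
  cases Nat.beq (w % 8) 1
  swap
  · simp only [cond_false, cond_true, Bool.and_eq_true, Nat.ble_eq, Nat.blt_eq]
    exact fun hl => h.leaf1 hG (Nat.mod_lt _ (by omega)) hl.1 hl.2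
  cases Nat.beq (w % 8) 2
  swap
  · simp only [cond_false, cond_true, Bool.and_eq_true, Nat.ble_eq, Nat.blt_eq]
    exact fun hl => h.leaf2 hG hl.1 hl.2
  cases Nat.beq (w % 8) 3
  swap
  · simp only [cond_false, cond_true, Bool.and_eq_true, Nat.ble_eq]
    exact fun hl => h.leaf3 hG hl.1 m hl.2
  cases Nat.beq (w % 8) 4
  swap
  · simp only [cond_false, cond_true, Bool.and_eq_true, Nat.ble_eq, Nat.blt_eq, List.all_eq_true,
      List.mem_range, Bool.or_eq_true, Nat.beq_eq]
    exact fun hl => h.leaf4 hG hl.1 m (Nat.mod_lt _ (by omega)) hl.2.1 hl.2.2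
  · simp only [cond_false, Bool.and_eq_true, Nat.blt_eq]
    exact fun hl => h.leaf5 hG hl.1 hl.2.1 hl.2.2

end Pool.Agent.Work.MP_d266e7_co.C5.P24
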