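import Pool.Agent.Work.MP_d266e7_co.P24B.KDefs
import Pool.Agent.Work.MP_d266e7_co.P24B.BDS

/-!
Renumbering. kperm_onto: an injective map of `range n` into itself is onto
(`Finset.surj_on_of_inj_on_of_card_le` or `Finite.injective_iff_surjective`). cpok_spec,
hpok_spec: unfold, `List.all_eq_true`, `List.mem_range`; injectivity from the test for `j < i`
(split `i < j`, `i = j`, `j < i`); `cpf c i < 4` by `Nat.mod_lt`. perm: if `hpf n 0 / 3 = 0` keep
`t, t'`, else take `t', t` (`BD.symm`, `xh_comm`); onto-ness gives `ws`, `os`, `qs`.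
-/

namespace Pool.Agent.Work.MP_d266e7_co.C5.P24

open Finset

variable {V : Type} [DecidableEq V]

variable {H : Finset (Finset V)} {t t' : V} {F : Finset (Finset (Finset V))} {a : ℕ}
  {W : ℕ → Finset (Finset V)} {O q : ℕ → Finset V}

theorem kperm_onto {n : ℕ} {f : ℕ → ℕ} (h1 : ∀ i, i < n → f i < n)
    (h2 : ∀ i j, i < n → j < n → f i = f j → i = j) : ∀ k, k < n → ∃ i, i < n ∧ f i = k := by
  intro k hk
  have e : (range n).image f = range n := by
    refine eq_of_subset_of_card_le (fun x hx => ?_) ?_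
    · obtain ⟨i, hi, rfl⟩ := mem_image.1 hx
      exact mem_range.2 (h1 i (mem_range.1 hi))
    · rw [card_image_of_injOn fun i hi j hj l =>
        h2 i j (mem_range.1 (mem_coe.1 hi)) (mem_range.1 (mem_coe.1 hj)) l]
  have m : k ∈ (range n).image f := by
    rw [e]
    exact mem_range.2 hk
  obtain ⟨i, hi, l⟩ := mem_image.1 m
  exact ⟨i, mem_range.1 hi, l⟩

theorem kperm_inj {n : ℕ} {f : ℕ → ℕ}
    (h : ∀ i, i < n → ((List.range i).all fun j => !Nat.beq (f i) (f j)) = true) :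
    ∀ i j, i < n → j < n → f i = f j → i = j := by
  have k : ∀ i j, i < n → j < i → f i ≠ f j := by
    intro i j hi hj e
    have := List.all_eq_true.1 (h i hi) j (List.mem_range.2 hj)
    rw [e, Nat.beq_refl] at this
    exact absurd this (by decide)
  intro i j hi hj e
  rcases lt_trichotomy i j with l | l | l
  exacts [absurd e.symm (k j i hj l), l, absurd e (k i j hi l)]

theorem cpok_spec {a c : ℕ} (h : cpok a c = true) :
    (∀ i, cpf c i < 4) ∧ (∀ i, i < 4 → (cpf c i < a + 2 ↔ i < a + 2)) ∧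
      ∀ i j, i < 4 → j < 4 → cpf c i = cpf c j → i = j := by
  have k := fun i (hi : i < 4) =>
    Bool.and_eq_true_iff.1 (List.all_eq_true.1 h i (List.mem_range.2 hi))
  refine ⟨fun i => Nat.mod_lt _ (by decide), fun i hi => ?_, kperm_inj fun i hi => (k i hi).2⟩
  have e := eq_of_beq (k i hi).1
  rw [← Nat.blt_eq, ← Nat.blt_eq, e]

theorem hpok_spec {a n : ℕ} (h : hpok a n = true) :
    (∀ p, p < a + 6 → hpf n p < a + 6) ∧
      (∀ p, p < 6 → hpf n p / 3 = (p / 3 + hpf n 0 / 3) % 2) ∧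
      (∀ p, 6 ≤ p → p < a + 6 → 6 ≤ hpf n p) ∧
      ∀ p r, p < a + 6 → r < a + 6 → hpf n p = hpf n r → p = r := by
  have k := fun p (hp : p < a + 6) =>
    Bool.and_eq_true_iff.1 (List.all_eq_true.1 h p (List.mem_range.2 hp))
  have k2 := fun p (hp : p < a + 6) => Bool.and_eq_true_iff.1 (k p hp).2
  refine ⟨fun p hp => Nat.blt_eq.mp (k p hp).1, fun p hp => ?_, fun p h6 hp => ?_,
    kperm_inj fun p hp => (k2 p hp).2⟩
  · have e := Nat.eq_of_beq_eq_true (k2 p (by omega)).1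
    rw [Nat.blt_eq.mpr hp] at e
    exact e
  · have e := Nat.eq_of_beq_eq_true (k2 p hp).1
    have e2 : Nat.blt p 6 = false := by
      rw [← Bool.not_eq_true, Nat.blt_eq]
      omega
    rw [e2] at e
    have e3 : hpf n p / 3 = 2 := e
    omega

theorem kperm_aux (h : KC H t t' F a W O q) {c n : ℕ} (hc : cpok a c = true)
    (hn : hpok a n = true) {s s' : V} (hb : BD H s s' F) (hx : xh H s s' F = xh H t t' F)
    (hs : ∀ v, (v = s ∨ v = s') ↔ (v = t ∨ v = t'))
    (h1 : ∀ p, p < 3 → q (hpf n p) ∈ star H s)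
    (h2 : ∀ p, 3 ≤ p → p < 6 → q (hpf n p) ∈ star H s') :
    KC H s s' F a (fun i => W (cpf c i)) (fun i => O (cpf c i)) fun p => q (hpf n p) := by
  obtain ⟨c1, c2, c3⟩ := cpok_spec hc
  obtain ⟨n1, -, n3, n4⟩ := hpok_spec hn
  have a2 := h.a2
  have c4 := kperm_onto (fun i _ => c1 i) c3
  have n5 := kperm_onto n1 n4
  have lt : ∀ i, i < a + 2 → cpf c i < a + 2 := fun i hi => (c2 i (by omega)).2 hi
  have ge : ∀ i, a + 2 ≤ i → i < 4 → a + 2 ≤ cpf c i := fun i hi h4 => by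
    have := c2 i h4
    omega
  refine ⟨hb, hx ▸ h.xa, a2, fun i hi => h.wf _ (lt i hi), fun i j hi hj e => ?_, fun Z hZ => ?_,
    fun i hi => h.oc _ (lt i hi), fun i hi h4 => h.o1 _ (ge i hi h4) (c1 i),
    fun i hi h4 v hv => ?_, fun i j hi i4 hj j4 e => ?_, fun v hv hv' => ?_, h1, h2,
    fun p h6 hp => hx ▸ h.q3 _ (n3 p h6 hp) (n1 p hp),
    fun p r hp hr e => n4 p r hp hr (h.qi _ _ (n1 p hp) (n1 r hr) e), fun e he he' => ?_⟩
  · exact c3 i j (by omega) (by omega) (h.wi _ _ (lt i hi) (lt j hj) e)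
  · obtain ⟨i, hi, e⟩ := h.ws Z hZ
    obtain ⟨j, hj, rfl⟩ := c4 i (by omega)
    exact ⟨j, (c2 j hj).1 hi, e⟩
  · obtain ⟨k1, k2, k3, k4⟩ := h.om _ (ge i hi h4) (c1 i) v hv
    exact ⟨k1, k2, fun e => ((hs v).1 (.inl e)).elim k3 k4, fun e => ((hs v).1 (.inr e)).elim k3 k4⟩
  · exact h.od _ _ (ge i hi i4) (c1 i) (ge j hj j4) (c1 j) fun l => e (c3 i j i4 j4 l)
  · rcases h.os v hv hv' with k | k | ⟨i, hi, i4, k⟩
    · exact ((hs v).2 (.inl k)).imp_right .inl
    · exact ((hs v).2 (.inr k)).imp_right .inl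
    · obtain ⟨j, hj, rfl⟩ := c4 i i4
      refine .inr (.inr ⟨j, ?_, hj, k⟩)
      have := c2 j hj
      omega
  · obtain ⟨p, hp, k⟩ := h.qs e he he'
    obtain ⟨r, hr, rfl⟩ := n5 p hp
    exact ⟨r, hr, k⟩

theorem KC.perm (h : KC H t t' F a W O q) {c n : ℕ} (hc : cpok a c = true)
    (hn : hpok a n = true) :
    ∃ s s', KC H s s' F a (fun i => W (cpf c i)) (fun i => O (cpf c i)) fun p => q (hpf n p) := by
  obtain ⟨-, n2, -, -⟩ := hpok_spec hn
  have n0 := n2 0 (by decide)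
  by_cases k : hpf n 0 / 3 = 0
  · refine ⟨t, t', kperm_aux h hc hn h.bd rfl (fun _ => Iff.rfl) (fun p hp => h.q1 _ ?_)
      fun p h3 hp => h.q2 _ ?_ ?_⟩ <;> have := n2 p (by omega) <;> omega
  · refine ⟨t', t, kperm_aux h hc hn h.bd.symm (by unfold xh; rw [union_comm]) (fun _ => or_comm)
      (fun p hp => h.q2 _ ?_ ?_) fun p h3 hp => h.q1 _ ?_⟩ <;> have := n2 p (by omega) <;> omega

end Pool.Agent.Work.MP_d266e7_co.C5.P24
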