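import Pool.Agent.Work.MP_d266e7_co.P24B.KGad
import Pool.Agent.Work.MP_d266e7_co.P24B.KClose

/-!
Closing leaves. com4_le: `KC.part` for `x = q p ∩ q r`; each `com a G i j p r ≤ kc O q j p r`
(`Inv.clo_le`; for an outside column `o1` and lo_le twice give the same vertex); the first term by
qt, qt'. g_false: `KC.close` with gcol_ok, `E = 0`, hi0. r_false: if the test of `real` fails it
is zero and `KC.close` applies to `gcol a G x i`. Otherwise `KC.kx` with the lists `[w]`, `[e]`,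
crs_cross, `gp (9 p + 1) = p = gr (9 p + 1)` (`omega`), and `joint_of_not_nj` give `NJ`; then
realpb, and `KC.close` for `Function.update (gcol a G x i) i g` (or an `if`), where `gcol a G x i
i = 0`; `i < a + 2 ≤ 4`, `interval_cases i`.
-/

namespace Pool.Agent.Work.MP_d266e7_co.C5.P24

open Finset

variable {V : Type} [DecidableEq V]

variable {H : Finset (Finset V)} {t t' : V} {F : Finset (Finset (Finset V))} {a : ℕ}
  {W : ℕ → Finset (Finset V)} {O q : ℕ → Finset V} {G : ℕ}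

theorem kreal_com (h : KC H t t' F a W O q) (hG : Inv W O q G) (i : ℕ) {j p r : ℕ} (hj : j < 4)
    (hp : p < a + 6) (hr : r < a + 6) : com a G i j p r ≤ (q p ∩ q r ∩ O j).card := by
  have a2 := h.a2
  unfold com
  cases Nat.beq i j
  swap
  · exact Nat.zero_le _
  cases hb : Nat.blt j (a + 2)
  swap
  · exact hG.clo_le hj (by omega) (by omega)
  cases hc : Nat.blt 0 (lo G j p) && Nat.blt 0 (lo G j r)
  · exact Nat.zero_le _
  rw [Bool.and_eq_true, Nat.blt_eq, Nat.blt_eq] at hc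
  have hj' : a + 2 ≤ j := by
    by_contra k
    rw [Nat.blt_eq.mpr (Nat.not_le.1 k)] at hb
    exact absurd hb (by decide)
  obtain ⟨v, hv⟩ := card_pos.1 (hc.1.trans_le (h.lo_le hG hj hp))
  obtain ⟨w, hw⟩ := card_pos.1 (hc.2.trans_le (h.lo_le hG hj hr))
  have e : v = w := card_le_one.1 (h.o1 j hj' hj) v (mem_inter.1 hv).2 w (mem_inter.1 hw).2
  exact card_pos.2 ⟨v, mem_inter.2
    ⟨mem_inter.2 ⟨(mem_inter.1 hv).1, e ▸ (mem_inter.1 hw).1⟩, (mem_inter.1 hv).2⟩⟩

theorem kreal_side (h : KC H t t' F a W O q) {p r : ℕ} (hp : p < a + 6) (hr : r < a + 6) :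
    cond (Nat.blt p 6 && Nat.beq (p / 3) (r / 3)) 1 0 ≤ (q p ∩ q r ∩ {t, t'}).card := by
  cases hc : Nat.blt p 6 && Nat.beq (p / 3) (r / 3)
  · exact Nat.zero_le _
  rw [Bool.and_eq_true, Nat.blt_eq, Nat.beq_eq] at hc
  obtain ⟨c1, c2⟩ := hc
  by_cases h3 : p < 3
  · exact card_pos.2 ⟨t, mem_inter.2 ⟨mem_inter.2 ⟨(h.qt hp).2 h3, (h.qt hr).2 (by omega)⟩,
      mem_insert_self _ _⟩⟩
  · exact card_pos.2 ⟨t', mem_inter.2 ⟨mem_inter.2 ⟨(h.qt' hp).2 (by omega),
      (h.qt' hr).2 (by omega)⟩, mem_insert_of_mem (mem_singleton_self _)⟩⟩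

theorem KC.com4_le (h : KC H t t' F a W O q) (hG : Inv W O q G) (i : ℕ) {p r : ℕ}
    (hp : p < a + 6) (hr : r < a + 6) : com4 a G i p r ≤ (q p ∩ q r).card := by
  have h0 := h.part (x := q p ∩ q r) fun v hv => mem_cov.2 ⟨_, h.qH hp, (mem_inter.1 hv).1⟩
  have h1 := kreal_side h hp hr
  have c0 := kreal_com h hG i (j := 0) (by omega) hp hr
  have c1 := kreal_com h hG i (j := 1) (by omega) hp hr
  have c2 := kreal_com h hG i (j := 2) (by omega) hp hr
  have c3 := kreal_com h hG i (j := 3) (by omega) hp hr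
  unfold com4
  omega

theorem KC.g_false [Infinite V] (h : KC H t t' F a W O q) (hG : Inv W O q G) {x : KG} {i0 : ℕ}
    (hx : 8 ≤ gall a G x i0) : False := by
  have h1 := h.close _ (h.gcol_ok hG x i0).1 (h.gcol_ok hG x i0).2 0 h.hi0
  unfold gall at hx
  omega

theorem kreal_gset (Z : Finset (Finset V)) (q : ℕ → Finset V) {p : ℕ} (hp : p < 8) :
    gset Z q (9 * p + 1) = q p ∩ cov Z := by
  have e : ∀ p < 8, gp (9 * p + 1) = p ∧ gr (9 * p + 1) = p := by decide
  rw [gset, (e p hp).1, (e p hp).2, inter_self]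

theorem kreal_nj (h : KC H t t' F a W O q) (hG : Inv W O q G) {i p r w e : ℕ} (hi : i < a + 2)
    (hp : p < a + 6) (hr : r < a + 6)
    (hc : crs a G i [wm a G i w] [em a G e] (9 * p + 1) (9 * r + 1) = true) :
    NJ (W i) (q p) (q r) := by
  have a2 := h.a2
  have h1 := (h.kx hG hi [w] [e]).crs_cross hc
  rw [kreal_gset _ _ (by omega), kreal_gset _ _ (by omega)] at h1
  by_contra hn
  obtain ⟨C, c1, c2, ⟨v, c3, c4⟩, u, c5, c6⟩ := joint_of_not_nj (h.wcc hi).u5.ne
    (card_pos.1 (by rw [h.q5 hp]; omega)) (card_pos.1 (by rw [h.q5 hr]; omega)) hn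
  exact h1 C c1 c2 v c3 u c5 c4 c6

theorem kreal_sum (f : ℕ → ℕ) {i : ℕ} (g : ℕ) (hi : i < 4) (h0 : f i = 0) :
    (if 0 = i then g else f 0) + (if 1 = i then g else f 1) +
      ((if 2 = i then g else f 2) + if 3 = i then g else f 3) = f 0 + f 1 + (f 2 + f 3) + g := by
  obtain rfl | rfl | rfl | rfl : i = 0 ∨ i = 1 ∨ i = 2 ∨ i = 3 := by omega
  all_goals
    simp only [h0, if_true, Nat.reduceEqDiff, if_false]
    omega

theorem KC.r_false [Infinite V] (h : KC H t t' F a W O q) (hG : Inv W O q G) {x : KG}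
    {i p r w e : ℕ} (hx : 8 ≤ gall a G x i + real a G i p r w e) : False := by
  unfold real at hx
  cases hc : Nat.blt i (a + 2) && (Nat.blt p (a + 6) && (Nat.blt r (a + 6) &&
    (Nat.blt 0 (lo G i p) && (Nat.blt 0 (lo G i r) && (Nat.blt 0 (com4 a G i p r) &&
      crs a G i [wm a G i w] [em a G e] (9 * p + 1) (9 * r + 1))))))
  · rw [hc] at hx
    exact h.g_false hG hx
  rw [hc, cond_true] at hx
  simp only [Bool.and_eq_true, Nat.blt_eq] at hc
  obtain ⟨hi', hp, hr, l1, l2, l3, l4⟩ := hc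
  have a2 := h.a2
  have k1 := h.lo_le hG (i := i) (by omega) hp
  have k2 := h.lo_le hG (i := i) (by omega) hr
  have k3 := h.com4_le hG i hp hr
  obtain ⟨E, g, g1, g2, g3⟩ := h.realpb hi' hp hr (kreal_nj h hG hi' hp hr l4) (by omega)
    (by omega) (by omega)
  have h1 := h.close (fun j => if j = i then g else gcol a G x i j)
    (fun j hj => by
      split_ifs with k
      · exact k ▸ g1
      · exact (h.gcol_ok hG x i).1 j hj)
    (fun j hj hj' => by
      rw [if_neg (by omega)]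
      exact (h.gcol_ok hG x i).2 j hj hj') E g2
  have h0 : gcol a G x i i = 0 := by
    rw [gcol, Nat.blt_eq.mpr hi', Nat.beq_refl]
    rfl
  rw [kreal_sum (gcol a G x i) g (by omega) h0] at h1
  unfold gall at hx
  omega

end Pool.Agent.Work.MP_d266e7_co.C5.P24
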