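import Pool.Agent.Work.MP_d266e7_co.P24B.KBits

/-!
Changing a state. Inv.or: `mask_or`. Inv.one: `bit_test`. row_inv: each of the eight new bits is a
code `2048 * ty + 512 * i + 64 * p + 8 * 0 + k` with `k < 8` (`cap p ≤ 5`), `holds_code`, rowsum,
lo_le, le_up, `omega`; best prove one lemma for `row1 G p i j k l` under `kd i + kd j + kd k + kd
l = cap p`. addf_inv: `frn_eq`, `Bool.cond_eq_ite` or `cases`. ini_inv: a general lemma on
`List.foldl` (an invariant kept by every step for members of the list); the start `0` has no bits;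
the code `2054 + 512 i + 64 p` says `kd + 6 ≤ 7` (`o1`), the code `512 i + 64 p` says `0 ≤ kd`.
okl_or: type two is `em`; the quotients of `ngl j` by `omega`. imp_sem: split on `ty` as in `sem`
and use KBits.
-/

namespace Pool.Agent.Work.MP_d266e7_co.C5.P24

open Finset

variable {V : Type} [DecidableEq V]

variable {H : Finset (Finset V)} {t t' : V} {F : Finset (Finset (Finset V))} {a : ℕ}
  {W : ℕ → Finset (Finset V)} {O q : ℕ → Finset V} {G : ℕ}

theorem Inv.or {G' : ℕ} (h : Inv W O q G) (h' : Inv W O q G') : Inv W O q (G.lor G') := by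
  intro j hj
  rcases mask_or.1 hj with k | k
  · exact h j k
  · exact h' j k

theorem Inv.one {j : ℕ} (h : holds W O q j) : Inv W O q (bit j) := by
  intro k hk
  rw [bit_test.1 hk]
  exact h

theorem kstate_cap (p : ℕ) : cap p ≤ 5 := by
  unfold cap
  cases Nat.blt p 6 <;> simp

theorem kstate_row1 (h : KC H t t' F a W O q) (hG : Inv W O q G) {p i j k l : ℕ}
    (hp : p < a + 6) (hi : i < 4) (hj : j < 4) (hk : k < 4) (hl : l < 4)
    (hs : kd O q i p + kd O q j p + kd O q k p + kd O q l p = cap p) :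
    Inv W O q (row1 G p i j k l) := by
  have ha := h.a2
  have hc := kstate_cap p
  have u1 := h.le_up hG hj hp
  have u2 := h.le_up hG hk hp
  have u3 := h.le_up hG hl hp
  have l1 := h.lo_le hG hj hp
  have l2 := h.lo_le hG hk hp
  have l3 := h.lo_le hG hl hp
  unfold row1
  refine Inv.or (Inv.one ?_) (Inv.one ?_)
  · have e : 512 * i + 64 * p + (cap p - (up G j p + up G k p + up G l p)) =
        2048 * 0 + 512 * i + 64 * p + 8 * 0 + (cap p - (up G j p + up G k p + up G l p)) := by
      omega
    rw [e, holds_code hi (by omega) (by omega) (by omega)]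
    unfold sem
    rw [if_pos rfl]
    omega
  · have e : 2048 + 512 * i + 64 * p + (7 - (cap p - (lo G j p + lo G k p + lo G l p))) =
        2048 * 1 + 512 * i + 64 * p + 8 * 0 +
          (7 - (cap p - (lo G j p + lo G k p + lo G l p))) := by
      omega
    rw [e, holds_code hi (by omega) (by omega) (by omega)]
    unfold sem
    rw [if_neg (by omega), if_pos rfl]
    omega

theorem KC.row_inv (h : KC H t t' F a W O q) (hG : Inv W O q G) {p : ℕ} (hp : p < a + 6) :
    Inv W O q (row G p) := by
  have hs := h.rowsum hp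
  unfold row
  refine Inv.or hG (Inv.or (Inv.or ?_ ?_) (Inv.or ?_ ?_)) <;>
    exact kstate_row1 h hG hp (by omega) (by omega) (by omega) (by omega) (by omega)

theorem KC.addf_inv (h : KC H t t' F a W O q) (hG : Inv W O q G) {j : ℕ}
    (hj : holds W O q j) : Inv W O q (addf a G j) := by
  have h1 : Inv W O q (G.lor (bit j)) := hG.or (Inv.one hj)
  unfold addf
  cases hb : (Nat.blt j 4096 && Nat.blt (j / 64 % 8) (a + 6))
  · exact h1
  · rw [Bool.and_eq_true, Nat.blt_eq, Nat.blt_eq] at hb
    rw [cond_true, frn_eq]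
    exact h.row_inv h1 hb.2

theorem kstate_foldl {P : ℕ → Prop} {f : ℕ → ℕ → ℕ} (L : List ℕ)
    (hf : ∀ x ∈ L, ∀ g, P g → P (f g x)) : ∀ g, P g → P (L.foldl f g) := by
  induction L with
  | nil => intro g hg; exact hg
  | cons x M ih =>
    intro g hg
    rw [List.foldl_cons]
    exact ih (fun y hy => hf y (List.mem_cons_of_mem _ hy)) _
      (hf x List.mem_cons_self g hg)

theorem KC.ini_inv (h : KC H t t' F a W O q) : Inv W O q (ini a) := by
  unfold ini
  refine kstate_foldl (P := Inv W O q) _ (fun p hp g hg => ?_) 0 (fun j hj => ?_)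
  · refine kstate_foldl (P := Inv W O q) _ (fun i hi g' hg' => ?_) g hg
    rw [List.mem_range] at hp hi
    cases hb : Nat.ble (a + 2) i
    · rw [cond_false]
      refine h.addf_inv hg' ?_
      have e : 512 * i + 64 * p = 2048 * 0 + 512 * i + 64 * p + 8 * 0 + 0 := by omega
      rw [e, holds_code hi hp (by omega) (by omega)]
      unfold sem
      rw [if_pos rfl]
      exact Nat.zero_le _
    · rw [cond_true]
      rw [Nat.ble_eq] at hb
      refine h.addf_inv hg' ?_
      have e : 2054 + 512 * i + 64 * p = 2048 * 1 + 512 * i + 64 * p + 8 * 0 + 6 := by omega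
      rw [e, holds_code hi hp (by omega) (by omega)]
      unfold sem
      rw [if_neg (by omega), if_pos rfl]
      have k1 := h.o1 i hb hi
      have k2 : kd O q i p ≤ (O i).card := card_le_card inter_subset_right
      omega
  · rw [Nat.zero_testBit] at hj
    exact absurd hj (by decide)

theorem KC.start_inv (h : KC H t t' F a W O q) (hG : Inv W O q G) {J : List ℕ}
    (hJ : ∀ j ∈ J, holds W O q j) : Inv W O q (start a G J) := by
  unfold start
  refine kstate_foldl (P := Inv W O q) _ (fun j hj g hg => ?_) G hG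
  rw [frn_eq]
  exact h.addf_inv hg (hJ j hj)

theorem okl_or {j : ℕ} (hj : okl j = true) : holds W O q j ∨ holds W O q (ngl j) := by
  unfold okl at hj
  unfold ngl holds
  cases hb : Nat.beq (j / 2048) 2
  · rw [hb, Bool.false_or, Bool.and_eq_true, Bool.or_eq_true, Nat.beq_eq, Nat.beq_eq,
      Nat.blt_eq] at hj
    obtain ⟨h1, h2⟩ := hj
    rw [cond_false]
    have e1 : (j + 2056 - 2 * (j % 8)) / 2048 = j / 2048 + 1 := by omega
    have e2 : (j + 2056 - 2 * (j % 8)) / 512 % 4 = j / 512 % 4 := by omega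
    have e3 : (j + 2056 - 2 * (j % 8)) / 64 % 8 = j / 64 % 8 := by omega
    have e4 : (j + 2056 - 2 * (j % 8)) / 8 % 8 = j / 8 % 8 := by omega
    have e5 : (j + 2056 - 2 * (j % 8)) % 8 = 8 - j % 8 := by omega
    rw [e1, e2, e3, e4, e5]
    have e6 : j % 8 < 8 := by omega
    rcases h1 with h1 | h1
    · rw [h1]
      unfold sem
      rw [if_pos rfl, if_neg (by omega), if_pos rfl]
      omega
    · rw [h1]
      unfold sem
      rw [if_neg (by omega), if_neg (by omega), if_neg (by omega), if_neg (by omega),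
        if_pos rfl, if_neg (by omega), if_neg (by omega), if_neg (by omega), if_neg (by omega),
        if_neg (by omega)]
      omega
  · rw [Nat.beq_eq] at hb
    rw [cond_true]
    have e1 : (j + 2048) / 2048 = 3 := by omega
    have e2 : (j + 2048) / 512 % 4 = j / 512 % 4 := by omega
    have e3 : (j + 2048) / 64 % 8 = j / 64 % 8 := by omega
    have e4 : (j + 2048) / 8 % 8 = j / 8 % 8 := by omega
    rw [e1, e2, e3, e4, hb]
    unfold sem
    rw [if_neg (by omega), if_neg (by omega), if_pos rfl, if_neg (by omega), if_neg (by omega),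
      if_neg (by omega), if_pos rfl]
    exact Classical.em _

theorem KC.imp_sem (h : KC H t t' F a W O q) (hG : Inv W O q G) {ty i p r k : ℕ} (hi : i < 4)
    (hm : imp a G ty i p r k = true) : sem W O q ty i p r k := by
  have ha := h.a2
  unfold imp at hm
  rw [Bool.and_eq_true, Nat.blt_eq] at hm
  obtain ⟨hp, hm⟩ := hm
  have h7 : (q p).card ≤ 7 := by rw [h.q5 hp]; omega
  have hp8 : p < 8 := by omega
  unfold sem
  by_cases t0 : ty = 0
  · rw [if_pos t0]
    rw [Nat.beq_eq.symm] at t0
    rw [t0, cond_true, Nat.ble_eq] at hm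
    exact hm.trans (h.lo_le hG hi hp)
  rw [if_neg t0]
  rw [Nat.beq_eq.symm, Bool.not_eq_true] at t0
  rw [t0, cond_false] at hm
  by_cases t1 : ty = 1
  · rw [if_pos t1]
    rw [Nat.beq_eq.symm] at t1
    rw [t1, cond_true, Nat.ble_eq] at hm
    have := h.le_up hG hi hp
    omega
  rw [if_neg t1]
  rw [Nat.beq_eq.symm, Bool.not_eq_true] at t1
  rw [t1, cond_false, Bool.and_eq_true, Nat.blt_eq] at hm
  obtain ⟨hr, hm⟩ := hm
  have hr8 : r < 8 := by omega
  by_cases t2 : ty = 2
  · rw [if_pos t2]
    rw [Nat.beq_eq.symm] at t2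
    rw [t2, cond_true] at hm
    exact hG.nb_nj hi hp8 hr8 hm
  rw [if_neg t2]
  rw [Nat.beq_eq.symm, Bool.not_eq_true] at t2
  rw [t2, cond_false] at hm
  by_cases t3 : ty = 3
  · rw [if_pos t3]
    rw [Nat.beq_eq.symm] at t3
    rw [t3, cond_true, Bool.and_eq_true, Nat.blt_eq] at hm
    exact h.jb_nj hG hm.1 hp8 hr8 hm.2
  rw [if_neg t3]
  rw [Nat.beq_eq.symm, Bool.not_eq_true] at t3
  rw [t3, cond_false] at hm
  by_cases t4 : ty = 4
  · rw [if_pos t4]
    rw [Nat.beq_eq.symm] at t4
    rw [t4, cond_true, Nat.ble_eq] at hm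
    exact hm.trans (hG.clo_le hi hp8 hr8)
  rw [if_neg t4]
  rw [Nat.beq_eq.symm, Bool.not_eq_true] at t4
  rw [t4, cond_false, Nat.ble_eq] at hm
  have := hG.le_cup hi hp8 hr8 h7
  omega

end Pool.Agent.Work.MP_d266e7_co.C5.P24
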