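import Pool.Agent.Work.MP_d266e7_co.P24B.KEx
import Pool.Agent.Work.MP_d266e7_co.P24B.KPerm
import Pool.Agent.Work.MP_d266e7_co.P24B.KState
import Pool.Agent.Work.MP_d266e7_co.P24B.KReal
import Pool.Agent.Work.MP_d266e7_co.P24B.KLeaf

/-!
Soundness of the checker.
-/

namespace Pool.Agent.Work.MP_d266e7_co.C5.P24

open Finset

variable {V : Type} [DecidableEq V]

variable {H : Finset (Finset V)} {t t' : V} {F : Finset (Finset (Finset V))} {a : ℕ}
  {W : ℕ → Finset (Finset V)} {O q : ℕ → Finset V} {G : ℕ} {Ls : List (List ℕ)}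

theorem KC.call_false (h : KC H t t' F a W O q) (hG : Inv W O q G) {cur n : ℕ}
    (hv : ∀ l, l < cur → Val V a Ls l) (hc : call a Ls cur G n = true) : False := by
  simp only [call, Bool.and_eq_true, Nat.blt_eq, List.all_eq_true, frc_eq] at hc
  obtain ⟨h1, h2, h3, h4⟩ := hc
  obtain ⟨s, s', k⟩ := h.perm h2 h3
  exact hv _ h1 H s s' F _ _ _ k fun j hj => h.imp_sem hG ((cpok_spec h2).1 _) (h4 j hj)

theorem KC.chk_false [Infinite V] (h : KC H t t' F a W O q) {cur : ℕ}
    (hv : ∀ l, l < cur → Val V a Ls l) (x : KT) :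
    ∀ G, Inv W O q G → chk a Ls cur x G = true → False := by
  induction x with
  | s j x y ihx ihy =>
    intro G hG hc
    change (okl j && (frc (addf a G j) (chk a Ls cur x) &&
      frc (addf a G (ngl j)) (chk a Ls cur y))) = true at hc
    simp only [Bool.and_eq_true, frc_eq] at hc
    rcases okl_or (W := W) (O := O) (q := q) hc.1 with k | k
    exacts [ihx _ (h.addf_inv hG k) hc.2.1, ihy _ (h.addf_inv hG k) hc.2.2]
  | l w => exact fun G hG hc => h.leaf_false hG hc
  | c n => exact fun G hG hc => h.call_false hG hv hc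
  | g x => exact fun G hG hc => h.g_false hG (Nat.le_of_ble_eq_true hc)
  | r n w e x => exact fun G hG hc => h.r_false hG (Nat.le_of_ble_eq_true hc)

theorem chkR_val [Infinite V] (T : List KT) : ∀ s e, (∀ l, l < s → Val V a Ls l) →
    chkR a Ls (ini a) T s = true → s + T.length = e → ∀ l, l < e → Val V a Ls l := by
  induction T with
  | nil =>
    intro s e hv _ he l hl
    exact hv l (by simpa [← he] using hl)
  | cons x T ih =>
    intro s e hv hc he
    change (frc (start a (ini a) (gam Ls s)) (chk a Ls s x) &&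
      frc (s + 1) (chkR a Ls (ini a) T)) = true at hc
    simp only [Bool.and_eq_true, frc_eq] at hc
    refine ih (s + 1) e (fun l hl => ?_) hc.2 (by rw [← he, List.length_cons]; omega)
    rcases Nat.lt_succ_iff_lt_or_eq.1 hl with k | rfl
    · exact hv l k
    · exact fun H t t' F W O q h hj => h.chk_false hv x _ (h.start_inv h.ini_inv hj) hc.1

theorem val_false [Infinite V] {l : ℕ} (hv : Val V a Ls l) (hg : gam Ls l = [])
    (h : BD H t t' F) (ha : (xh H t t' F).card = a) : False := by
  obtain ⟨W, O, q, k⟩ := h.exists_kc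
  rw [ha] at k
  exact hv H t t' F W O q k (by rw [hg]; simp)

end Pool.Agent.Work.MP_d266e7_co.C5.P24
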