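import Pool.Agent.Work.MP_d266e7_co.P24B.BDefs

/-!
Sets of hosts as bit masks; Boolean tests for gadgets. A family is the union of two atoms.
-/

namespace Pool.Agent.Work.MP_d266e7_co.C5.P24

open Finset

variable {V : Type} [DecidableEq V]

/-- the hosts through `v` -/
def mk {k : ℕ} (q : Fin k → Finset V) (v : V) : ℕ := Nat.ofBits fun x => decide (v ∈ q x)

/-- the vertices of `W` on all hosts of the mask `S` -/
def atom {k : ℕ} (W : Finset (Finset V)) (q : Fin k → Finset V) (S : ℕ) : Finset V :=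
  (cov W).filter fun v => ∀ x : Fin k, S.testBit x = true → v ∈ q x

/-- a nonzero mask of hosts -/
def nz (A S : ℕ) : Bool := Nat.blt 0 (S.land A)

/-- hosts `q` of the piece `W`; the masks of `L` are free with one more vertex, the masks of `G`
are met by one vertex; `lo`, `up` bound the sizes of the atoms -/
structure MkC {k : ℕ} (H W : Finset (Finset V)) (q : Fin k → Finset V) (L G : List ℕ)
    (lo up : ℕ → ℕ) : Prop where
  wcc : CC W
  wsub : W ⊆ H
  d3 : ∀ v, dg H v ≤ 3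
  room : ∃ v ∈ cov W, dg W v < dg H v
  qmem : ∀ x, q x ∈ H
  qinj : Function.Injective q
  qW : ∀ x, q x ∉ W
  hL : ∀ u ∈ L, ∀ C, Hits C W → C.card ≤ tau W + 1 →
    (∀ x : Fin k, u.testBit x = true ∨ ∃ v ∈ q x, v ∈ C) → False
  hG : ∀ g ∈ G, ∃ D : Finset V, D.card ≤ 1 ∧ ∀ x : Fin k, g.testBit x = true → ∃ v ∈ q x, v ∈ D
  hlo : ∀ S, lo S ≤ (atom W q S).card
  hup : ∀ S, nz (2 ^ k - 1) S = true → (atom W q S).card ≤ up S

/-- evaluate the argument first -/
def frc (n : ℕ) (f : ℕ → Bool) : Bool := Nat.rec (f 0) (fun j _ => f (Nat.succ j)) n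

/-- `S` and a mask of `L` are all hosts -/
def fr1 (A : ℕ) (L : List ℕ) (S : ℕ) : Bool := frc S fun z => L.any fun u => Nat.beq (z.lor u) A

/-- `S`, a mask of `L` and a mask of `G` are all hosts -/
def fr0 (A : ℕ) (L G : List ℕ) (S : ℕ) : Bool := L.any fun u => fr1 A G (S.lor u)

/-- two families and a third atom (zero if not used) -/
structure Sp where
  a : ℕ
  b : ℕ
  c : ℕ
  d : ℕ
  e : ℕ

/-- the family is safe -/
def fsafe (A : ℕ) (L G : List ℕ) (a b : ℕ) : Bool := Nat.beq a b || fr0 A L G (a.lor b)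

/-- lower bound for the size of a family -/
def fsz (lo up : ℕ → ℕ) (s : Bool) (a b : ℕ) : ℕ :=
  cond (Nat.beq a b) (lo a) (cond s (lo a + lo b) (lo a + lo b - up (a.lor b)))

/-- the third atom is not empty and non-joint with both families -/
def spnf (A : ℕ) (L G : List ℕ) (lo : ℕ → ℕ) (s : Sp) : Bool :=
  Nat.blt 0 s.e && (Nat.blt 0 (lo s.e) && (fr0 A L G (s.e.lor s.a) && (fr0 A L G (s.e.lor s.b) &&
    (fr0 A L G (s.e.lor s.c) && fr0 A L G (s.e.lor s.d)))))

/-- the two families are non-joint -/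
def spok (A : ℕ) (L G : List ℕ) (s : Sp) : Bool :=
  nz A s.a && (nz A s.b && (nz A s.c && (nz A s.d && (fr0 A L G (s.a.lor s.c) &&
    (fr0 A L G (s.a.lor s.d) && (fr0 A L G (s.b.lor s.c) && fr0 A L G (s.b.lor s.d)))))))

/-- the gain of a gadget -/
def spg (A : ℕ) (L G : List ℕ) (lo up : ℕ → ℕ) (s : Sp) : ℕ :=
  gU (fsz lo up (fsafe A L G s.a s.b) s.a s.b) (fsz lo up (fsafe A L G s.c s.d) s.c s.d)
    (fsafe A L G s.a s.b) (fsafe A L G s.c s.d) (spnf A L G lo s)

/-- a single gadget with gain at least `n` -/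
def one (A : ℕ) (L G : List ℕ) (lo up : ℕ → ℕ) (n : ℕ) (s : Sp) : Bool :=
  spok A L G s && Nat.ble n (spg A L G lo up s)

/-- all hosts used by a gadget -/
def Sp.all (s : Sp) : ℕ := (s.a.lor s.b).lor (s.c.lor s.d)

/-- a double gadget with gain at least `n` -/
def dbl (A : ℕ) (L G : List ℕ) (lo up : ℕ → ℕ) (n : ℕ) (s r : Sp) : Bool :=
  Nat.beq (s.all.land r.all) 0 && (([s.a, s.b].all fun a => [s.c, s.d].all fun b =>
    [r.a, r.b].all fun c => [r.c, r.d].all fun e => fr1 A L ((a.lor b).lor (c.lor e))) &&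
    (spok A L G s && (spok A L G r && (Nat.ble 2 (spg A L G lo up s) &&
      Nat.ble n (spg A L G lo up s + spg A L G lo up r)))))

/-- an atom that must be empty is not -/
def void (A : ℕ) (L G : List ℕ) (lo : ℕ → ℕ) (S : ℕ) : Bool := Nat.blt 0 (lo S) && fr0 A L G S

end Pool.Agent.Work.MP_d266e7_co.C5.P24
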